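import Pool.Agent.H542.TW.T2
import Pool.Graph.R_seed8.TH204.WR.W7
import Pool.Graph.R_seed8.Erdos456.Mertens

/-!
Auxiliary facts: Mertens' product, local factors, polynomials.
-/

set_option autoImplicit false

namespace Pool.Agent.H542.G

open Finset Polynomial
open Pool.Agent.H373R2.T7 (pz)
open Pool.Agent.H542.TW (mem_pz)
open Pool.Agent.TH204.WR (TT cutf rho flp rho_le_deg rho_card)

open Classical in
lemma sum_Icc_int (g : ℤ → ℝ) (t : ℕ) (Q : ℤ → Prop) [DecidablePred Q] :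
    ∑ n ∈ (Icc (1 : ℤ) t).filter Q, g n = ∑ n ∈ (Icc 1 t).filter (fun n : ℕ => Q (n : ℤ)), g (n : ℤ) := by
  refine sum_nbij' (fun n : ℤ => n.toNat) (fun n : ℕ => (n : ℤ)) ?_ ?_ ?_ ?_ ?_
  · intro n hn
    rw [mem_filter, mem_Icc] at hn ⊢
    have h1 : ((n.toNat : ℕ) : ℤ) = n := Int.toNat_of_nonneg (by omega)
    rw [h1]
    exact ⟨⟨by omega, by omega⟩, hn.2⟩
  · intro n hn
    rw [mem_filter, mem_Icc] at hn ⊢
    exact ⟨⟨by omega, by omega⟩, hn.2⟩
  · intro n hn
    rw [mem_filter, mem_Icc] at hn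
    exact Int.toNat_of_nonneg (by omega)
  · intro n _
    exact Int.toNat_natCast n
  · intro n hn
    rw [mem_filter, mem_Icc] at hn
    rw [Int.toNat_of_nonneg (by omega)]

lemma prod_inj (P : Finset ℕ) (hP : ∀ p ∈ P, p.Prime) :
    Set.InjOn (fun T : Finset ℕ => ∏ p ∈ T, p) (P.powerset : Set (Finset ℕ)) := by
  intro T hT T' hT' h
  have h1 : T.val.prod = T'.val.prod := by
    have e : ∀ S : Finset ℕ, ∏ p ∈ S, p = S.val.prod := by
      intro S
      rw [Finset.prod, Multiset.map_id']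
    rw [← e, ← e]
    exact h
  rw [mem_coe, mem_powerset] at hT hT'
  ext p
  have hdvd : ∀ S ⊆ P, ∀ p : ℕ, p.Prime → (p ∣ ∏ q ∈ S, q ↔ p ∈ S) := by
    intro S hS p hp
    constructor
    · intro hd
      obtain ⟨q, hq, hd⟩ := (hp.prime.dvd_finsetProd_iff _).1 hd
      rw [Nat.prime_dvd_prime_iff_eq hp (hP q (hS hq))] at hd
      rwa [hd]
    · intro hp
      exact dvd_prod_of_mem _ hp
  constructor
  · intro hp
    rw [← hdvd T' hT' p (hP p (hT hp))]
    simp only at h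
    rw [← h, hdvd T hT p (hP p (hT hp))]
    exact hp
  · intro hp
    rw [← hdvd T hT p (hP p (hT' hp))]
    simp only at h
    rw [h, hdvd T' hT' p (hP p (hT' hp))]
    exact hp

theorem mert_up : ∃ c : ℝ, 0 < c ∧ ∀ z : ℕ, 3 ≤ z →
    ∏ p ∈ pz z, (1 - 1 / (p : ℝ)) ≤ c / Real.log z := by
  obtain ⟨C, hC⟩ := Pool.Agent.Erdos456.Mert.mertens_inv
  refine ⟨Real.exp C, Real.exp_pos _, fun z hz => ?_⟩
  have h1 := hC z hz
  have hz3 : (3 : ℝ) ≤ z := by exact_mod_cast hz
  have hlz : 0 < Real.log z := Real.log_pos (by linarith)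
  unfold pz
  calc ∏ p ∈ (Icc 1 z).filter Nat.Prime, (1 - 1 / (p : ℝ)) ≤
      ∏ p ∈ (Icc 1 z).filter Nat.Prime, Real.exp (-(1 / (p : ℝ))) := by
        apply Finset.prod_le_prod
        · intro p hp
          have hp2 : (2 : ℝ) ≤ p := by exact_mod_cast (mem_filter.1 hp).2.two_le
          rw [sub_nonneg, div_le_one (by linarith)]
          linarith
        · intro p hp
          have := Real.add_one_le_exp (-(1 / (p : ℝ)))
          linarith
    _ = Real.exp (-(∑ p ∈ (Icc 1 z).filter Nat.Prime, 1 / (p : ℝ))) := by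
        rw [← Real.exp_sum, sum_neg_distrib]
    _ ≤ Real.exp (-(Real.log (Real.log z) - C)) := by
        apply Real.exp_le_exp.2
        have h4 := (abs_le.1 h1).1
        linarith
    _ = Real.exp C / Real.log z := by
        rw [show -(Real.log (Real.log z) - C) = C - Real.log (Real.log z) by ring, Real.exp_sub,
          Real.exp_log hlz]

lemma sum_tel (S : Finset ℕ) (hS : ∀ p ∈ S, 2 ≤ p) : ∑ p ∈ S, 1 / ((p : ℝ) * ((p : ℝ) - 1)) ≤ 1 := by
  have h3 : ∀ n : ℕ, ∑ p ∈ Icc 2 (n + 1), 1 / ((p : ℝ) * ((p : ℝ) - 1)) = 1 - 1 / ((n : ℝ) + 1) := by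
    intro n
    induction n with
    | zero => simp
    | succ n ih =>
      rw [sum_Icc_succ_top (by omega), ih]
      push_cast
      have e1 : (n : ℝ) + 1 ≠ 0 := by positivity
      have e2 : (n : ℝ) + 1 + 1 ≠ 0 := by positivity
      field_simp
      ring
  calc ∑ p ∈ S, 1 / ((p : ℝ) * ((p : ℝ) - 1)) ≤ ∑ p ∈ Icc 2 (S.sup id + 1), 1 / ((p : ℝ) * ((p : ℝ) - 1)) := by
        apply sum_le_sum_of_subset_of_nonneg
        · intro p hp
          have : p ≤ S.sup id := Finset.le_sup (f := id) hp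
          rw [mem_Icc]
          exact ⟨hS p hp, by omega⟩
        · intro p hp _
          rw [mem_Icc] at hp
          have : (2 : ℝ) ≤ p := by exact_mod_cast hp.1
          apply div_nonneg (by norm_num)
          nlinarith
    _ ≤ 1 := by
        rw [h3]
        have : (0 : ℝ) ≤ 1 / ((S.sup id : ℕ) + 1 : ℝ) := by positivity
        linarith

theorem mert_low : ∃ c : ℝ, 0 < c ∧ ∀ z : ℕ, 3 ≤ z →
    c / Real.log z ≤ ∏ p ∈ pz z, (1 - 1 / (p : ℝ)) := by
  obtain ⟨C, hC⟩ := Pool.Agent.Erdos456.Mert.mertens_inv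
  refine ⟨Real.exp (-(C + 1)), Real.exp_pos _, fun z hz => ?_⟩
  have h1 := hC z hz
  have hz3 : (3 : ℝ) ≤ z := by exact_mod_cast hz
  have hlz : 0 < Real.log z := Real.log_pos (by linarith)
  unfold pz
  have h2 : ∑ p ∈ (Icc 1 z).filter Nat.Prime, 1 / ((p : ℝ) - 1) ≤ Real.log (Real.log z) + C + 1 := by
    have e : ∑ p ∈ (Icc 1 z).filter Nat.Prime, 1 / ((p : ℝ) - 1) =
        ∑ p ∈ (Icc 1 z).filter Nat.Prime, 1 / (p : ℝ) +
        ∑ p ∈ (Icc 1 z).filter Nat.Prime, 1 / ((p : ℝ) * ((p : ℝ) - 1)) := by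
      rw [← sum_add_distrib]
      apply sum_congr rfl
      intro p hp
      have hp2 : (2 : ℝ) ≤ p := by exact_mod_cast (mem_filter.1 hp).2.two_le
      have e1 : (p : ℝ) ≠ 0 := by linarith
      have e2 : (p : ℝ) - 1 ≠ 0 := by linarith
      field_simp
      ring
    rw [e]
    have h3 := sum_tel ((Icc 1 z).filter Nat.Prime) (fun p hp => (mem_filter.1 hp).2.two_le)
    have h4 := (abs_le.1 h1).2
    linarith
  calc Real.exp (-(C + 1)) / Real.log z = Real.exp (-(Real.log (Real.log z) + C + 1)) := by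
        rw [show -(Real.log (Real.log z) + C + 1) = -(C + 1) - Real.log (Real.log z) by ring,
          Real.exp_sub, Real.exp_log hlz]
    _ ≤ Real.exp (-(∑ p ∈ (Icc 1 z).filter Nat.Prime, 1 / ((p : ℝ) - 1))) :=
        Real.exp_le_exp.2 (by linarith)
    _ = ∏ p ∈ (Icc 1 z).filter Nat.Prime, Real.exp (-(1 / ((p : ℝ) - 1))) := by
        rw [← Real.exp_sum, sum_neg_distrib]
    _ ≤ ∏ p ∈ (Icc 1 z).filter Nat.Prime, (1 - 1 / (p : ℝ)) := by
        apply Finset.prod_le_prod (fun p _ => (Real.exp_pos _).le)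
        intro p hp
        have hp2 : (2 : ℝ) ≤ p := by exact_mod_cast (mem_filter.1 hp).2.two_le
        have h5 := Real.add_one_le_exp (1 / ((p : ℝ) - 1))
        have h6 : 0 < 1 / ((p : ℝ) - 1) + 1 := by
          have : 0 < 1 / ((p : ℝ) - 1) := div_pos one_pos (by linarith)
          linarith
        rw [Real.exp_neg]
        refine (inv_anti₀ h6 h5).trans (le_of_eq ?_)
        have e1 : (p : ℝ) ≠ 0 := by linarith
        have e2 : (p : ℝ) - 1 ≠ 0 := by linarith
        have e3 : 1 / ((p : ℝ) - 1) + 1 = p / ((p : ℝ) - 1) := by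
          field_simp
          ring
        rw [e3, inv_div]
        field_simp

lemma pz_pos (z : ℕ) : 0 < ∏ p ∈ pz z, (1 - 1 / (p : ℝ)) := by
  apply prod_pos
  intro p hp
  have hp2 : (2 : ℝ) ≤ p := by exact_mod_cast (mem_pz.1 hp).1.two_le
  rw [sub_pos, div_lt_one (by linarith)]
  linarith

lemma log_X_pow (a : ℕ) (θ : ℝ) (hθ : 0 < θ) (K : ℝ) :
    ∀ᶠ X : ℕ in Filter.atTop, K * Real.log X ^ a ≤ (X : ℝ) ^ θ := by
  have h1 := (isLittleO_log_rpow_rpow_atTop (a : ℝ) hθ).bound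
    (show (0 : ℝ) < 1 / (|K| + 1) by positivity)
  have h2 := (tendsto_natCast_atTop_atTop (R := ℝ)).eventually h1
  filter_upwards [h2, Filter.eventually_ge_atTop 3] with X h3 h4
  have hX : (3 : ℝ) ≤ X := by exact_mod_cast h4
  have hl : 0 < Real.log X := Real.log_pos (by linarith)
  rw [Real.rpow_natCast, Real.norm_of_nonneg (by positivity),
    Real.norm_of_nonneg (by positivity)] at h3
  have h5 : (|K| + 1) * Real.log X ^ a ≤ (X : ℝ) ^ θ := by
    have := mul_le_mul_of_nonneg_left h3 (show (0 : ℝ) ≤ |K| + 1 by positivity)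
    rwa [← mul_assoc, mul_one_div_cancel (by positivity), one_mul] at this
  refine le_trans ?_ h5
  apply mul_le_mul_of_nonneg_right _ (by positivity)
  have := le_abs_self K
  linarith

lemma log_big (K : ℝ) : ∀ᶠ X : ℕ in Filter.atTop, K ≤ Real.log X :=
  (Real.tendsto_log_atTop.comp (tendsto_natCast_atTop_atTop (R := ℝ))).eventually_ge_atTop K

lemma rho_le_lc (F : ℤ[X]) (t : ℤ) (p : ℕ) (hp : p.Prime) (hd : 1 ≤ F.natDegree)
    (hlc : ¬ (p : ℤ) ∣ F.leadingCoeff) : rho F t p ≤ F.natDegree := by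
  have : Fact p.Prime := ⟨hp⟩
  set Fp : (ZMod p)[X] := F.map (Int.castRingHom (ZMod p)) + C (t : ZMod p) with hFp
  have hz : univ.filter (fun x : ZMod p => (F.map (Int.castRingHom (ZMod p))).eval x + (t : ZMod p) = 0) =
      univ.filter (fun x : ZMod p => Fp.eval x = 0) := by
    apply filter_congr
    intro x _
    rw [hFp, eval_add, eval_C]
  have hne : Fp ≠ 0 := by
    intro h0
    have h1 : Fp.coeff F.natDegree = ((F.leadingCoeff : ℤ) : ZMod p) := by
      rw [hFp, coeff_add, coeff_map, coeff_C_of_ne_zero (by omega), add_zero]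
      rfl
    rw [h0, coeff_zero] at h1
    exact hlc ((ZMod.intCast_zmod_eq_zero_iff_dvd _ p).1 h1.symm)
  rw [rho_card F t p, hz]
  have h1 : #(univ.filter (fun x : ZMod p => Fp.eval x = 0)) ≤ #Fp.roots.toFinset := by
    apply card_le_card
    intro x hx
    rw [mem_filter] at hx
    rw [Multiset.mem_toFinset, mem_roots hne]
    exact hx.2
  refine h1.trans ((Multiset.toFinset_card_le _).trans ((card_roots' _).trans ?_))
  rw [hFp]
  refine (natDegree_add_C).le.trans ?_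
  exact natDegree_map_le

lemma fac_low (k p ω : ℕ) (hk : 1 ≤ k) (hp : k < p) (hω : ω ≤ k) :
    Real.exp (-((k : ℝ) * (1 / p) + (k : ℝ) ^ 3 * (1 / ((p : ℝ) * ((p : ℝ) - 1))))) ≤
      1 - (ω : ℝ) / p := by
  have hk1 : (1 : ℝ) ≤ k := by exact_mod_cast hk
  have hpk : (k : ℝ) + 1 ≤ p := by exact_mod_cast hp
  have hωk : (ω : ℝ) ≤ k := by exact_mod_cast hω
  have hp0 : (0 : ℝ) < p := by linarith
  have hpk0 : (0 : ℝ) < p - k := by linarith
  have h1 : 1 - (k : ℝ) / p ≤ 1 - (ω : ℝ) / p := by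
    have := div_le_div_of_nonneg_right hωk hp0.le
    linarith
  refine le_trans ?_ h1
  have h2 : (k : ℝ) / (p - k) ≤ (k : ℝ) * (1 / p) + (k : ℝ) ^ 3 * (1 / ((p : ℝ) * ((p : ℝ) - 1))) := by
    have e : (k : ℝ) * (1 / p) + (k : ℝ) ^ 3 * (1 / ((p : ℝ) * ((p : ℝ) - 1))) - (k : ℝ) / (p - k) =
        (k : ℝ) ^ 2 * (k * (p - k) - (p - 1)) / (p * (p - 1) * (p - k)) := by
      have e1 : (p : ℝ) - 1 ≠ 0 := by linarith
      have e2 : (p : ℝ) - k ≠ 0 := by linarith
      field_simp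
      ring
    have h3 : 0 ≤ (k : ℝ) ^ 2 * (k * (p - k) - (p - 1)) / (p * (p - 1) * (p - k)) := by
      apply div_nonneg
      · apply mul_nonneg (by positivity)
        nlinarith
      · apply mul_nonneg (mul_nonneg hp0.le (by linarith)) hpk0.le
    linarith
  have h4 : (p : ℝ) / (p - k) ≤ Real.exp ((k : ℝ) / (p - k)) := by
    have h5 := Real.add_one_le_exp ((k : ℝ) / (p - k))
    have h6 : (p : ℝ) / (p - k) = (k : ℝ) / (p - k) + 1 := by
      field_simp
      ring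
    rw [h6]
    exact h5
  calc Real.exp (-((k : ℝ) * (1 / p) + (k : ℝ) ^ 3 * (1 / ((p : ℝ) * ((p : ℝ) - 1))))) ≤
      Real.exp (-((k : ℝ) / (p - k))) := Real.exp_le_exp.2 (by linarith)
    _ = (Real.exp ((k : ℝ) / (p - k)))⁻¹ := Real.exp_neg _
    _ ≤ ((p : ℝ) / (p - k))⁻¹ := inv_anti₀ (div_pos hp0 hpk0) h4
    _ = 1 - (k : ℝ) / p := by
        rw [inv_div]
        field_simp

lemma set_low (k : ℕ) (hk : 1 ≤ k) (S : Finset ℕ) (hS : ∀ p ∈ S, k < p) (ω : ℕ → ℕ)
    (hω : ∀ p ∈ S, ω p ≤ k) :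
    Real.exp (-((k : ℝ) * ∑ p ∈ S, 1 / (p : ℝ) + (k : ℝ) ^ 3)) ≤ ∏ p ∈ S, (1 - (ω p : ℝ) / p) := by
  calc Real.exp (-((k : ℝ) * ∑ p ∈ S, 1 / (p : ℝ) + (k : ℝ) ^ 3)) ≤
      Real.exp (-(∑ p ∈ S, ((k : ℝ) * (1 / p) + (k : ℝ) ^ 3 * (1 / ((p : ℝ) * ((p : ℝ) - 1)))))) := by
        apply Real.exp_le_exp.2
        rw [sum_add_distrib, ← mul_sum, ← mul_sum]
        have h1 := sum_tel S (fun p hp => by have := hS p hp; omega)
        have h2 : (k : ℝ) ^ 3 * ∑ p ∈ S, 1 / ((p : ℝ) * ((p : ℝ) - 1)) ≤ (k : ℝ) ^ 3 * 1 :=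
          mul_le_mul_of_nonneg_left h1 (by positivity)
        linarith
    _ = ∏ p ∈ S, Real.exp (-((k : ℝ) * (1 / p) + (k : ℝ) ^ 3 * (1 / ((p : ℝ) * ((p : ℝ) - 1))))) := by
        rw [← Real.exp_sum, sum_neg_distrib]
    _ ≤ _ := by
        apply Finset.prod_le_prod (fun p _ => (Real.exp_pos _).le)
        intro p hp
        exact fac_low k p (ω p) hk (hS p hp) (hω p hp)

/-- lower bound for the whole product -/
theorem prod_low (k : ℕ) (hk : 1 ≤ k) : ∃ c : ℝ, 0 < c ∧ ∀ z : ℕ, 3 ≤ z → ∀ ω : ℕ → ℕ,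
    (∀ p ∈ pz z, ω p ≤ k ∧ ω p < p) →
    c / Real.log z ^ k ≤ ∏ p ∈ pz z, (1 - (ω p : ℝ) / p) := by
  obtain ⟨C, hC⟩ := Pool.Agent.Erdos456.Mert.mertens_inv
  refine ⟨(1 / (k : ℝ)) ^ k * Real.exp (-(k * C + (k : ℝ) ^ 3)), by positivity, fun z hz ω hω => ?_⟩
  have hz3 : (3 : ℝ) ≤ z := by exact_mod_cast hz
  have hlz : 0 < Real.log z := Real.log_pos (by linarith)
  have hk1 : (1 : ℝ) ≤ k := by exact_mod_cast hk
  have h1 : ∏ p ∈ pz z, (1 - (ω p : ℝ) / p) =
      (∏ p ∈ (pz z).filter (fun p => p ≤ k), (1 - (ω p : ℝ) / p)) *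
      ∏ p ∈ (pz z).filter (fun p => ¬ p ≤ k), (1 - (ω p : ℝ) / p) := by
    rw [prod_filter_mul_prod_filter_not]
  have h2 : (1 / (k : ℝ)) ^ k ≤ ∏ p ∈ (pz z).filter (fun p => p ≤ k), (1 - (ω p : ℝ) / p) := by
    have hone : (1 / (k : ℝ)) ≤ 1 := by rw [div_le_one (by linarith)]; exact hk1
    calc (1 / (k : ℝ)) ^ k ≤ (1 / (k : ℝ)) ^ ((pz z).filter (fun p => p ≤ k)).card := by
          apply pow_le_pow_of_le_one (by positivity) hone
          calc ((pz z).filter (fun p => p ≤ k)).card ≤ (Icc 1 k).card := by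
                apply card_le_card
                intro p hp
                rw [mem_filter, mem_pz] at hp
                rw [mem_Icc]
                exact ⟨hp.1.1.one_le, hp.2⟩
            _ = k := by simp
      _ = ∏ p ∈ (pz z).filter (fun p => p ≤ k), (1 / (k : ℝ)) := by rw [prod_const]
      _ ≤ _ := by
          apply Finset.prod_le_prod (fun p _ => by positivity)
          intro p hp
          rw [mem_filter] at hp
          have h3 := hω p hp.1
          have hp0 : 0 < p := (mem_pz.1 hp.1).1.pos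
          have hp0r : (0 : ℝ) < p := by exact_mod_cast hp0
          have h4 : (p : ℝ) ≤ k := by exact_mod_cast hp.2
          have h5 : (ω p : ℝ) + 1 ≤ p := by exact_mod_cast h3.2
          calc 1 / (k : ℝ) ≤ 1 / p := one_div_le_one_div_of_le hp0r h4
            _ ≤ 1 - (ω p : ℝ) / p := by
                rw [le_sub_iff_add_le, ← add_div, div_le_one hp0r]
                linarith
  have h3 : Real.exp (-(k * C + (k : ℝ) ^ 3)) / Real.log z ^ k ≤
      ∏ p ∈ (pz z).filter (fun p => ¬ p ≤ k), (1 - (ω p : ℝ) / p) := by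
    have h4 := set_low k hk ((pz z).filter (fun p => ¬ p ≤ k))
      (fun p hp => by rw [mem_filter] at hp; omega) ω (fun p hp => (hω p (mem_filter.1 hp).1).1)
    refine le_trans ?_ h4
    have h5 : ∑ p ∈ (pz z).filter (fun p => ¬ p ≤ k), 1 / (p : ℝ) ≤ Real.log (Real.log z) + C := by
      have h6 : ∑ p ∈ (pz z).filter (fun p => ¬ p ≤ k), 1 / (p : ℝ) ≤ ∑ p ∈ pz z, 1 / (p : ℝ) :=
        sum_le_sum_of_subset_of_nonneg (filter_subset _ _) (fun _ _ _ => by positivity)
      have h7 := (abs_le.1 (hC z hz)).2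
      unfold pz at h6 ⊢
      linarith
    calc Real.exp (-(k * C + (k : ℝ) ^ 3)) / Real.log z ^ k =
        Real.exp (-((k : ℝ) * (Real.log (Real.log z) + C) + (k : ℝ) ^ 3)) := by
          rw [show -((k : ℝ) * (Real.log (Real.log z) + C) + (k : ℝ) ^ 3) =
            -(k * C + (k : ℝ) ^ 3) - k * Real.log (Real.log z) by ring, Real.exp_sub]
          congr 1
          rw [mul_comm, Real.exp_mul, Real.exp_log hlz, Real.rpow_natCast]
      _ ≤ _ := by
          apply Real.exp_le_exp.2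
          have := mul_le_mul_of_nonneg_left h5 (show (0 : ℝ) ≤ k by linarith)
          linarith
  rw [h1, mul_div_assoc]
  exact mul_le_mul h2 h3 (by positivity) (le_trans (by positivity) h2)

/-- lower bound for the product over medium primes -/
theorem mid_low (k : ℕ) (hk : 1 ≤ k) : ∃ c : ℝ, 0 < c ∧ ∀ w z : ℕ, 3 ≤ w → w ≤ z → k ≤ w →
    ∀ ω : ℕ → ℕ, (∀ p ∈ pz z, w < p → ω p ≤ k) →
    c * (Real.log w / Real.log z) ^ k ≤ ∏ p ∈ (pz z).filter (fun p => ¬ p ≤ w), (1 - (ω p : ℝ) / p) := by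
  obtain ⟨C, hC⟩ := Pool.Agent.Erdos456.Mert.mertens_inv
  refine ⟨Real.exp (-(k * (2 * C) + (k : ℝ) ^ 3)), by positivity, fun w z hw hwz hkw ω hω => ?_⟩
  have hw3 : (3 : ℝ) ≤ w := by exact_mod_cast hw
  have hz3 : (3 : ℝ) ≤ z := by exact_mod_cast hw.trans hwz
  have hlz : 0 < Real.log z := Real.log_pos (by linarith)
  have hlw : 0 < Real.log w := Real.log_pos (by linarith)
  have hk1 : (1 : ℝ) ≤ k := by exact_mod_cast hk
  have h4 := set_low k hk ((pz z).filter (fun p => ¬ p ≤ w))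
    (fun p hp => by rw [mem_filter] at hp; omega) ω
    (fun p hp => by rw [mem_filter] at hp; exact hω p hp.1 (by omega))
  refine le_trans ?_ h4
  have h5 : ∑ p ∈ (pz z).filter (fun p => ¬ p ≤ w), 1 / (p : ℝ) ≤
      Real.log (Real.log z) - Real.log (Real.log w) + 2 * C := by
    have h6 : ∑ p ∈ (pz z).filter (fun p => p ≤ w), 1 / (p : ℝ) +
        ∑ p ∈ (pz z).filter (fun p => ¬ p ≤ w), 1 / (p : ℝ) = ∑ p ∈ pz z, 1 / (p : ℝ) :=
      sum_filter_add_sum_filter_not _ _ _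
    have h7 : (pz z).filter (fun p => p ≤ w) = pz w := by
      ext p
      rw [mem_filter, mem_pz, mem_pz]
      constructor
      · rintro ⟨⟨h1, h2⟩, h3⟩; exact ⟨h1, h3⟩
      · rintro ⟨h1, h2⟩; exact ⟨⟨h1, h2.trans hwz⟩, h2⟩
    rw [h7] at h6
    have h8 := (abs_le.1 (hC z (hw.trans hwz))).2
    have h9 := (abs_le.1 (hC w hw)).1
    unfold pz at h6 ⊢
    linarith
  calc Real.exp (-(k * (2 * C) + (k : ℝ) ^ 3)) * (Real.log w / Real.log z) ^ k =
      Real.exp (-((k : ℝ) * (Real.log (Real.log z) - Real.log (Real.log w) + 2 * C) + (k : ℝ) ^ 3)) := by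
        rw [show -((k : ℝ) * (Real.log (Real.log z) - Real.log (Real.log w) + 2 * C) + (k : ℝ) ^ 3) =
          -(k * (2 * C) + (k : ℝ) ^ 3) + Real.log (Real.log w / Real.log z) * k by
            rw [Real.log_div hlw.ne' hlz.ne']; ring, Real.exp_add]
        congr 1
        rw [Real.exp_mul, Real.exp_log (by positivity), Real.rpow_natCast]
    _ ≤ _ := by
        apply Real.exp_le_exp.2
        have := mul_le_mul_of_nonneg_left h5 (show (0 : ℝ) ≤ k by linarith)
        linarith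

/-- a polynomial is bounded by its leading term -/
lemma eval_le (f : ℤ[X]) : ∃ K : ℕ, 1 ≤ K ∧ ∀ m : ℕ, 1 ≤ m → |f.eval (m : ℤ)| ≤ K * (m : ℤ) ^ f.natDegree := by
  refine ⟨(∑ i ∈ range (f.natDegree + 1), |f.coeff i|).toNat + 1, by omega, fun m hm => ?_⟩
  have hm1 : (1 : ℤ) ≤ m := by exact_mod_cast hm
  have h0 : 0 ≤ ∑ i ∈ range (f.natDegree + 1), |f.coeff i| := sum_nonneg fun _ _ => abs_nonneg _
  have h1 : |f.eval (m : ℤ)| ≤ (∑ i ∈ range (f.natDegree + 1), |f.coeff i|) * (m : ℤ) ^ f.natDegree := by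
    rw [eval_eq_sum_range, sum_mul]
    refine (abs_sum_le_sum_abs _ _).trans (sum_le_sum fun i hi => ?_)
    rw [abs_mul, abs_of_nonneg (show (0 : ℤ) ≤ (m : ℤ) ^ i by positivity)]
    apply mul_le_mul_of_nonneg_left _ (abs_nonneg _)
    rw [mem_range] at hi
    exact pow_le_pow_right₀ hm1 (by omega)
  refine h1.trans (mul_le_mul_of_nonneg_right ?_ (by positivity))
  push_cast
  rw [Int.toNat_of_nonneg h0]
  linarith

/-- a polynomial with positive leading coefficient is eventually nonnegative -/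
lemma eval_pos (f : ℤ[X]) (hd : 1 ≤ f.natDegree) (hlc : 0 < f.leadingCoeff) :
    ∃ m0 : ℕ, ∀ m : ℕ, m0 ≤ m → 0 ≤ f.eval (m : ℤ) := by
  have h1 : Filter.Tendsto (fun x : ℝ => (f.map (Int.castRingHom ℝ)).eval x) Filter.atTop Filter.atTop := by
    apply Polynomial.tendsto_atTop_of_leadingCoeff_nonneg
    · rw [Polynomial.degree_map_eq_of_injective (RingHom.injective_int _)]
      exact natDegree_pos_iff_degree_pos.1 hd
    · rw [leadingCoeff_map_of_injective (RingHom.injective_int _)]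
      simp only [eq_intCast]
      exact_mod_cast hlc.le
  have h2 := (h1.comp (tendsto_natCast_atTop_atTop (R := ℝ))).eventually_ge_atTop 0
  obtain ⟨m0, hm0⟩ := Filter.eventually_atTop.1 h2
  refine ⟨m0, fun m hm => ?_⟩
  have h3 := hm0 m hm
  simp only [Function.comp] at h3
  have h4 : (f.map (Int.castRingHom ℝ)).eval (m : ℝ) = ((f.eval (m : ℤ) : ℤ) : ℝ) := by
    have := eval_intCast_map (Int.castRingHom ℝ) f (m : ℤ)
    simpa using this
  rw [h4] at h3
  exact_mod_cast h3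

/-- the first exceptional set -/
lemma exc1 (I : Finset ℕ) (T : ℤ → ℝ) (δ B : ℝ) (hδ : 0 < δ)
    (hB : ∑ a ∈ I.image (fun a : ℕ => (a : ℤ)), T a ^ 2 ≤ B) :
    ((I.filter (fun a : ℕ => δ ≤ |T a|)).card : ℝ) ≤ B / δ ^ 2 := by
  rw [le_div_iff₀ (by positivity)]
  refine le_trans ?_ hB
  rw [sum_image (fun a _ b _ hab => by exact_mod_cast hab)]
  calc ((I.filter (fun a : ℕ => δ ≤ |T a|)).card : ℝ) * δ ^ 2 =
      ∑ a ∈ I.filter (fun a : ℕ => δ ≤ |T a|), δ ^ 2 := by rw [sum_const, nsmul_eq_mul]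
    _ ≤ ∑ a ∈ I.filter (fun a : ℕ => δ ≤ |T a|), T a ^ 2 := by
        apply sum_le_sum
        intro a ha
        rw [mem_filter] at ha
        rw [← sq_abs (T a)]
        exact pow_le_pow_left₀ hδ.le ha.2 2
    _ ≤ ∑ a ∈ I, T a ^ 2 :=
        sum_le_sum_of_subset_of_nonneg (filter_subset _ _) fun _ _ _ => sq_nonneg _

lemma cutf_sub (Y : ℕ) (g1 g2 : ℤ → ℝ) (k : ℝ) (x : ℤ) :
    cutf Y (fun n => g1 n - k * g2 n) x = cutf Y g1 x - k * cutf Y g2 x := by
  unfold cutf
  split_ifs <;> ring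

lemma loglog_pow (k : ℕ) (K : ℝ) : ∀ᶠ X : ℕ in Filter.atTop,
    K * Real.log (Real.log X) ^ k ≤ Real.log X := by
  have h1 := (Real.isLittleO_pow_log_id_atTop (n := k)).bound
    (show (0 : ℝ) < 1 / (|K| + 1) by positivity)
  have h2 := (Real.tendsto_log_atTop.comp (tendsto_natCast_atTop_atTop (R := ℝ))).eventually h1
  filter_upwards [h2, log_big 3] with X h3 h4
  simp only [Function.comp, id] at h3
  have hl : 0 < Real.log (Real.log X) := Real.log_pos (by linarith)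
  rw [Real.norm_of_nonneg (by positivity), Real.norm_of_nonneg (by linarith)] at h3
  have h5 : (|K| + 1) * Real.log (Real.log X) ^ k ≤ Real.log X := by
    have := mul_le_mul_of_nonneg_left h3 (show (0 : ℝ) ≤ |K| + 1 by positivity)
    rwa [← mul_assoc, mul_one_div_cancel (by positivity), one_mul] at this
  refine le_trans ?_ h5
  apply mul_le_mul_of_nonneg_right _ (by positivity)
  have := le_abs_self K
  linarith

end Pool.Agent.H542.G
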