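import Pool.Agent.H542.TW.T2
import Pool.Graph.R_seed8.H373R2.T7.Cnt

/-!
Counting the integers (and the primes) of a residue class whose translates by given integers have no
small prime factor.
-/

set_option autoImplicit false

namespace Pool.Agent.H542.MT

open Finset
open Pool.Agent.H542.TW (mem_pz sum_bU_le)
open Pool.Agent.H373R2.T7 (pz es es_nonneg sieve_gen' lam_mult_prime count_sys)
open Pool.Agent.Y889.PN (PS)
open ArithmeticFunction (vonMangoldt vonMangoldt_nonneg)

/-- the integers `n + t j` have no prime factor up to `z` -/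
def Rgt {K : ℕ} (z : ℕ) (t : Fin K → ℤ) (n : ℤ) : Prop := ∀ p ∈ pz z, ∀ j, ¬ (p : ℤ) ∣ n + t j

open Classical in
/-- the number of the residues `a` modulo `p` such that `p` divides some `a + t j` -/
noncomputable def omt {K : ℕ} (t : Fin K → ℤ) (p : ℕ) : ℕ :=
  ((range p).filter (fun a : ℕ => ∃ j, (p : ℤ) ∣ (a : ℤ) + t j)).card

lemma omt_le_p {K : ℕ} (t : Fin K → ℤ) (p : ℕ) : omt t p ≤ p := by
  unfold omt
  exact (card_filter_le _ _).trans (card_range p).le

lemma omt_le {K : ℕ} (t : Fin K → ℤ) (p : ℕ) : omt t p ≤ K := by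
  classical
  unfold omt
  calc ((range p).filter (fun a : ℕ => ∃ j, (p : ℤ) ∣ (a : ℤ) + t j)).card ≤
      ((univ : Finset (Fin K)).biUnion (fun j => (range p).filter (fun a : ℕ => (p : ℤ) ∣ (a : ℤ) + t j))).card := by
        apply card_le_card
        intro a ha
        rw [mem_filter] at ha
        obtain ⟨h1, j, hj⟩ := ha
        rw [mem_biUnion]
        exact ⟨j, mem_univ _, mem_filter.2 ⟨h1, hj⟩⟩
    _ ≤ ∑ j : Fin K, ((range p).filter (fun a : ℕ => (p : ℤ) ∣ (a : ℤ) + t j)).card := card_biUnion_le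
    _ ≤ ∑ _j : Fin K, 1 := by
        apply sum_le_sum
        intro j _
        rw [card_le_one]
        intro a ha b hb
        rw [mem_filter, mem_range] at ha hb
        have h1 := dvd_sub ha.2 hb.2
        have h2 : (a : ℤ) + t j - (b + t j) = a - b := by ring
        rw [h2] at h1
        have h3 : a ≡ b [MOD p] := by
          rw [← Int.natCast_modEq_iff]
          exact ((Int.modEq_iff_dvd).2 h1).symm
        exact Nat.ModEq.eq_of_lt_of_lt h3 ha.1 hb.1
    _ = K := by simp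

/-- the primes up to `z` which do not divide `q` -/
def Pp (z q : ℕ) : Finset ℕ := (pz z).filter (fun p => ¬ p ∣ q)

lemma dvd_mod_iff (n p : ℕ) (t : ℤ) : ((p : ℤ) ∣ ((n % p : ℕ) : ℤ) + t) ↔ ((p : ℤ) ∣ (n : ℤ) + t) := by
  have h3 : (((n % p : ℕ)) : ℤ) ≡ n [ZMOD p] := by
    push_cast
    exact Int.mod_modEq _ _
  exact Int.ModEq.dvd_iff (h3.add_right t)

lemma class_nat (m : ℕ) (hm : 1 ≤ m) (b : ℤ) : ∃ b' : ℕ, (b' : ℤ) ≡ b [ZMOD m] ∧
    ∀ n : ℕ, (n : ℤ) ≡ b [ZMOD m] ↔ n ≡ b' [MOD m] := by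
  have hq0 : (0 : ℤ) < m := by exact_mod_cast hm
  obtain ⟨b', hb'⟩ : ∃ b' : ℕ, (b' : ℤ) = b % m :=
    ⟨(b % m).toNat, Int.toNat_of_nonneg (Int.emod_nonneg _ hq0.ne')⟩
  have hbb : (b' : ℤ) ≡ b [ZMOD m] := by
    rw [hb']; exact Int.mod_modEq _ _
  refine ⟨b', hbb, fun n => ?_⟩
  constructor
  · intro h1
    exact Int.natCast_modEq_iff.1 (h1.trans hbb.symm)
  · intro h1
    exact (Int.natCast_modEq_iff.2 h1).trans hbb

open Classical in
/-- the count in a residue class -/
theorem cnt {K : ℕ} (hK : 1 ≤ K) (t : Fin K → ℤ) (z m T r : ℕ) (b : ℤ) (hm : 1 ≤ m)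
    (hmb : ∀ p ∈ pz z, p ∣ m → ∀ j, ¬ (p : ℤ) ∣ b + t j) :
    |(((Icc 1 T).filter (fun n : ℕ => (n : ℤ) ≡ b [ZMOD m] ∧ Rgt z t n)).card : ℝ) -
      (T : ℝ) / m * ∏ p ∈ Pp z m, (1 - (omt t p : ℝ) / p)| ≤
      (((z + 1) ^ r * K ^ r : ℕ) : ℝ) +
      2 * ((T : ℝ) / m) * es (fun p => (omt t p : ℝ) / p) (Pp z m) r := by
  have hPm : ∀ p ∈ Pp z m, p.Prime ∧ p ≤ z ∧ ¬ p ∣ m := by
    intro p hp
    rw [Pp, mem_filter, mem_pz] at hp
    exact ⟨hp.1.1, hp.1.2, hp.2⟩
  obtain ⟨b', hbb, hcls⟩ := class_nat m hm b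
  have hKr : (1 : ℝ) ≤ K := by exact_mod_cast hK
  set s := (Icc 1 T).filter (fun n : ℕ => (n : ℤ) ≡ b [ZMOD m]) with hs
  have h1 := sieve_gen' s (fun _ => (1 : ℝ)) (fun _ _ => zero_le_one)
    (fun p n => ∃ j, (p : ℤ) ∣ (n : ℤ) + t j) (Pp z m) (fun p => (omt t p : ℝ) / p) (by
      intro p hp
      have hp2 : (2 : ℝ) ≤ p := by exact_mod_cast (hPm p hp).1.two_le
      refine ⟨by positivity, ?_⟩
      rw [div_le_one (by linarith)]
      exact_mod_cast omt_le_p t p) ((T : ℝ) / m) (by positivity) (fun S => (K : ℝ) ^ r) r (by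
      intro S hS hSr
      have hSp : ∀ p ∈ S, p.Prime := fun p hp => (hPm p (hS hp)).1
      have h2 := count_sys (fun p a => ∃ j, (p : ℤ) ∣ (a : ℤ) + t j) T S hSp m hm
        (fun p hp => (hPm p (hS hp)).2.2) b'
      have e1 : ∑ i ∈ s.filter (fun i : ℕ => ∀ p ∈ S, ∃ j, (p : ℤ) ∣ (i : ℤ) + t j), (1 : ℝ) =
          (((Icc 1 T).filter (fun n => n ≡ b' [MOD m] ∧
            ∀ p ∈ S, ∃ j, (p : ℤ) ∣ ((n % p : ℕ) : ℤ) + t j)).card : ℝ) := by
        rw [sum_const, nsmul_eq_mul, mul_one, hs, filter_filter]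
        congr 2
        apply filter_congr
        intro n _
        rw [hcls n]
        apply and_congr_right
        intro _
        apply forall₂_congr
        intro p _
        apply exists_congr
        intro j
        rw [dvd_mod_iff]
      have e3 : ∏ p ∈ S, (((range p).filter (fun a : ℕ => ∃ j, (p : ℤ) ∣ (a : ℤ) + t j)).card : ℝ) ≤
          (K : ℝ) ^ r := by
        calc ∏ p ∈ S, (((range p).filter (fun a : ℕ => ∃ j, (p : ℤ) ∣ (a : ℤ) + t j)).card : ℝ) ≤
            ∏ p ∈ S, (K : ℝ) := by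
              apply prod_le_prod
              · intro p _
                exact Nat.cast_nonneg _
              · intro p _
                exact_mod_cast omt_le t p
          _ = (K : ℝ) ^ S.card := by rw [prod_const]
          _ ≤ (K : ℝ) ^ r := pow_le_pow_right₀ hKr hSr
      rw [e1]
      exact h2.trans e3)
  have e1 : (((Icc 1 T).filter (fun n : ℕ => (n : ℤ) ≡ b [ZMOD m] ∧ Rgt z t n)).card : ℝ) =
      ∑ i ∈ s.filter (fun i : ℕ => ∀ p ∈ Pp z m, ¬ ∃ j, (p : ℤ) ∣ (i : ℤ) + t j), (1 : ℝ) := by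
    rw [sum_const, nsmul_eq_mul, mul_one, hs, filter_filter]
    congr 2
    apply filter_congr
    intro n _
    apply and_congr_right
    intro g1
    constructor
    · intro g2 p hp
      have h2 := g2 p (mem_pz.2 ⟨(hPm p hp).1, (hPm p hp).2.1⟩)
      push Not
      exact h2
    · intro g2 p hp j
      by_cases hpq : p ∣ m
      · have h2 := hmb p hp hpq j
        have h3 : (n : ℤ) ≡ b [ZMOD p] := g1.of_dvd (Int.natCast_dvd_natCast.2 hpq)
        rw [Int.ModEq.dvd_iff (h3.add_right (t j))]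
        exact h2
      · have h2 := g2 p (by rw [Pp, mem_filter]; exact ⟨hp, hpq⟩)
        push Not at h2
        exact h2 j
  rw [e1]
  refine h1.trans ?_
  have h2 : ∑ j ∈ range (r + 1), ∑ S ∈ (Pp z m).powersetCard j, (K : ℝ) ^ r ≤
      (((z + 1) ^ r * K ^ r : ℕ) : ℝ) := by
    have h3 := Pool.Agent.H373R2.T7.card_small (Pp z m) r
    have h4 : ∑ j ∈ range (r + 1), ∑ S ∈ (Pp z m).powersetCard j, (K : ℝ) ^ r =
        ((∑ j ∈ range (r + 1), ((Pp z m).powersetCard j).card : ℕ) : ℝ) * (K : ℝ) ^ r := by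
      push_cast
      rw [sum_mul]
      apply sum_congr rfl
      intro j _
      rw [sum_const, nsmul_eq_mul]
    rw [h4]
    push_cast
    push_cast at h3
    apply mul_le_mul_of_nonneg_right _ (by positivity)
    refine h3.trans ?_
    apply pow_le_pow_left₀ (by positivity)
    have h5 : (Pp z m).card ≤ z := by
      unfold Pp pz
      refine ((card_filter_le _ _).trans (card_filter_le _ _)).trans ?_
      simp
    have h6 : ((Pp z m).card : ℝ) ≤ z := by exact_mod_cast h5
    linarith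
  linarith

/-- the primes in a system of residue classes -/
theorem prime_sys (A : ℕ → ℕ → Prop) [∀ p a, Decidable (A p a)] (x : ℕ) (S : Finset ℕ)
    (hS : ∀ p ∈ S, p.Prime) (hA : ∀ p ∈ S, ∀ a, A p a → ¬ p ∣ a) (M : ℕ → ℝ)
    (hM : ∀ k : ℕ, 1 ≤ k → ∀ a : ℕ, a.Coprime k → |PS x k a - x / (Nat.totient k : ℝ)| ≤ M k) :
    ∀ q : ℕ, 1 ≤ q → (∀ p ∈ S, ¬ p ∣ q) → ∀ c : ℕ, c.Coprime q →
    |∑ n ∈ (Icc 1 x).filter (fun n => n ≡ c [MOD q] ∧ ∀ p ∈ S, A p (n % p)), vonMangoldt n -
      (x : ℝ) / (Nat.totient q : ℝ) *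
        ∏ p ∈ S, ((((range p).filter (fun a => A p a)).card : ℝ) / ((p : ℝ) - 1))| ≤
      (∏ p ∈ S, (((range p).filter (fun a => A p a)).card : ℝ)) * M (q * ∏ p ∈ S, p) := by
  induction S using Finset.induction_on with
  | empty =>
    intro q hq _ c hc
    have h := hM q hq c hc
    simpa [PS] using h
  | insert p S hp ih =>
    intro q hq hdq c hc
    have hpp := hS p (mem_insert_self _ _)
    have hS' : ∀ p' ∈ S, p'.Prime := fun p' h => hS p' (mem_insert_of_mem h)
    have hA' : ∀ p' ∈ S, ∀ a, A p' a → ¬ p' ∣ a := fun p' h => hA p' (mem_insert_of_mem h)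
    have hpq : q.Coprime p := by
      rw [Nat.coprime_comm]
      exact (Nat.Prime.coprime_iff_not_dvd hpp).2 (hdq p (mem_insert_self _ _))
    have hp0 : (0 : ℝ) < p := by exact_mod_cast hpp.pos
    have hp1 : (0 : ℝ) < (p : ℝ) - 1 := by
      have : (2 : ℝ) ≤ p := by exact_mod_cast hpp.two_le
      linarith
    have hφ : (0 : ℝ) < (Nat.totient q : ℝ) := by exact_mod_cast Nat.totient_pos.2 (by omega)
    rw [prod_insert hp, prod_insert hp, prod_insert hp]
    set ρ := (range p).filter (fun a => A p a) with hρ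
    -- fibres
    have h1 : ∑ n ∈ (Icc 1 x).filter (fun n => n ≡ c [MOD q] ∧ ∀ p' ∈ insert p S, A p' (n % p')),
        vonMangoldt n =
        ∑ a ∈ ρ, ∑ n ∈ (Icc 1 x).filter (fun n => n ≡ (Nat.chineseRemainder hpq c a : ℕ) [MOD (q * p)] ∧
          ∀ p' ∈ S, A p' (n % p')), vonMangoldt n := by
      rw [← sum_fiberwise_of_maps_to (g := fun n => n % p) (t := ρ)]
      · apply sum_congr rfl
        intro a ha
        rw [hρ, mem_filter, mem_range] at ha
        apply sum_congr _ fun _ _ => rfl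
        ext n
        simp only [mem_filter, mem_insert, forall_eq_or_imp]
        have hcr : n ≡ (Nat.chineseRemainder hpq c a : ℕ) [MOD (q * p)] ↔ n ≡ c [MOD q] ∧ n ≡ a [MOD p] := by
          constructor
          · intro h
            have k1 := (Nat.chineseRemainder hpq c a).2.1
            have k2 := (Nat.chineseRemainder hpq c a).2.2
            exact ⟨(h.of_mul_right p).trans k1, (h.of_mul_left q).trans k2⟩
          · rintro ⟨h1, h2⟩
            exact Nat.chineseRemainder_modEq_unique hpq h1 h2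
        have hmod : n ≡ a [MOD p] ↔ n % p = a := by
          unfold Nat.ModEq
          rw [Nat.mod_eq_of_lt ha.1]
        rw [hcr, hmod]
        constructor
        · rintro ⟨⟨h1, h2, h3, h4⟩, h5⟩
          exact ⟨h1, ⟨h2, h5⟩, h4⟩
        · rintro ⟨h1, ⟨h2, h5⟩, h4⟩
          exact ⟨⟨h1, h2, by rw [h5]; exact ha.2, h4⟩, h5⟩
      · intro n hn
        simp only [mem_filter, mem_Icc, mem_insert, forall_eq_or_imp] at hn
        rw [hρ, mem_filter, mem_range]
        exact ⟨Nat.mod_lt _ hpp.pos, hn.2.2.1⟩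
    rw [h1]
    have htot : (Nat.totient (q * p) : ℝ) = (Nat.totient q : ℝ) * ((p : ℝ) - 1) := by
      rw [Nat.totient_mul hpq, Nat.totient_prime hpp]
      push_cast
      rw [Nat.cast_sub hpp.one_le]
      simp
    have h2 : (x : ℝ) / (Nat.totient q : ℝ) * (((ρ.card : ℝ) / ((p : ℝ) - 1)) *
        ∏ p' ∈ S, ((((range p').filter (fun a => A p' a)).card : ℝ) / ((p' : ℝ) - 1))) =
        ∑ a ∈ ρ, (x : ℝ) / (Nat.totient (q * p) : ℝ) *
          ∏ p' ∈ S, ((((range p').filter (fun a => A p' a)).card : ℝ) / ((p' : ℝ) - 1)) := by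
      rw [sum_const, nsmul_eq_mul, htot, ← div_div]
      ring
    rw [h2, ← sum_sub_distrib]
    refine (abs_sum_le_sum_abs _ _).trans ?_
    have h3 : ∀ a ∈ ρ, |∑ n ∈ (Icc 1 x).filter (fun n => n ≡ (Nat.chineseRemainder hpq c a : ℕ) [MOD (q * p)] ∧
          ∀ p' ∈ S, A p' (n % p')), vonMangoldt n -
        (x : ℝ) / (Nat.totient (q * p) : ℝ) *
          ∏ p' ∈ S, ((((range p').filter (fun a => A p' a)).card : ℝ) / ((p' : ℝ) - 1))| ≤
        (∏ p' ∈ S, (((range p').filter (fun a => A p' a)).card : ℝ)) * M (q * (p * ∏ p' ∈ S, p')) := by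
      intro a ha
      rw [← mul_assoc]
      apply ih hS' hA' (q * p) (Nat.mul_pos hq hpp.pos)
      · intro p' hp' hd
        have hp'p := hS' p' hp'
        rcases (Nat.Prime.dvd_mul hp'p).1 hd with h | h
        · exact hdq p' (mem_insert_of_mem hp') h
        · rw [Nat.prime_dvd_prime_iff_eq hp'p hpp] at h
          exact hp (h ▸ hp')
      · have k1 := (Nat.chineseRemainder hpq c a).2.1
        have k2 := (Nat.chineseRemainder hpq c a).2.2
        apply Nat.Coprime.mul_right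
        · rw [Nat.coprime_iff_gcd_eq_one, Nat.ModEq.gcd_eq k1]
          exact hc
        · rw [Nat.coprime_iff_gcd_eq_one, Nat.ModEq.gcd_eq k2]
          rw [hρ, mem_filter] at ha
          have := hA p (mem_insert_self _ _) a ha.2
          exact ((Nat.Prime.coprime_iff_not_dvd hpp).2 this).symm
    refine (sum_le_sum h3).trans ?_
    rw [sum_const, nsmul_eq_mul, mul_assoc]

end Pool.Agent.H542.MT
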