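import Pool.Agent.H542.MT.M9

/-!
The constant factor of Maynard's sieve.
-/

set_option autoImplicit false

namespace Pool.Agent.H542.MT

open Finset Filter Topology
open scoped ContDiff
open Pool.Agent.H542.TW (mem_pz)
open Pool.Agent.H373R2.T7 (pz)
open Pool.Agent.H378R2
open Pool.Agent.H387R2.MB (GE GS asympE shift_sieve_bound sum_u2 BE_insert shf prod_LBE supp_aux)

lemma pz_eq (z : ℕ) : pz z = (Icc 1 z).filter Nat.Prime := rfl

/-- the set of the small primes is good -/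
lemma GS_pz (E z0 : ℕ) : ∀ᶠ X : ℝ in atTop, ∀ z : ℕ, z0 ≤ z → 3 ≤ z → (z : ℝ) ≤ Real.log X ^ E →
    GS X z0 (pz z) := by
  obtain ⟨C1, hC1⟩ := Pool.Agent.Erdos456.Mert.mertens_log
  obtain ⟨C2, hC2⟩ := Pool.Agent.Erdos456.Mert.mertens_inv
  have hlog := Real.tendsto_log_atTop
  have hll := hlog.comp hlog
  -- first condition
  have a1 : ∀ᶠ y : ℝ in atTop, E * Real.log y + C1 ≤ (y / 200) ^ (1 / 4 : ℝ) / 2 := by
    set c : ℝ := (1 / 200 : ℝ) ^ (1 / 4 : ℝ) / 2 / (E + 1) with hc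
    have hc0 : 0 < c := by positivity
    have h1 := (isLittleO_log_rpow_atTop (by norm_num : (0:ℝ) < 1/4)).bound hc0
    have h2 := (tendsto_rpow_atTop (by norm_num : (0:ℝ) < 1/4)).eventually_ge_atTop (C1 / c)
    filter_upwards [h1, h2, eventually_ge_atTop 1] with y g1 g2 g3
    have hy0 : 0 < y := by linarith
    have hyr : 0 < y ^ (1 / 4 : ℝ) := Real.rpow_pos_of_pos hy0 _
    rw [Real.norm_of_nonneg (Real.log_nonneg g3), Real.norm_of_nonneg hyr.le] at g1
    rw [div_le_iff₀ hc0] at g2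
    have e1 : (y / 200) ^ (1 / 4 : ℝ) / 2 = (E + 1) * (c * y ^ (1 / 4 : ℝ)) := by
      rw [hc, show y / 200 = y * (1 / 200) by ring, Real.mul_rpow hy0.le (by norm_num)]
      field_simp
    rw [e1]
    have h3 : (E : ℝ) * Real.log y ≤ E * (c * y ^ (1 / 4 : ℝ)) := mul_le_mul_of_nonneg_left g1 (Nat.cast_nonneg _)
    linarith
  -- second condition
  have a2 : ∀ᶠ w : ℝ in atTop, Real.log (E + 1) + Real.log w + C2 ≤ (w - Real.log 200) / 64 := by
    have h1 := Real.isLittleO_log_id_atTop.bound (by norm_num : (0:ℝ) < 1 / 128)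
    filter_upwards [h1, eventually_ge_atTop 1,
      eventually_ge_atTop (128 * (Real.log (E + 1) + C2 + Real.log 200 / 64))] with w g1 g2 g3
    rw [Real.norm_of_nonneg (Real.log_nonneg g2)] at g1
    simp only [id] at g1
    rw [Real.norm_of_nonneg (by linarith)] at g1
    linarith
  filter_upwards [hlog.eventually a1, hll.eventually a2, hlog.eventually_ge_atTop 10,
    hll.eventually_ge_atTop 1] with X h1 h2 h3 h4
  intro z hz0 hz3 hzE
  simp only [Function.comp] at h2 h4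
  have hz3r : (3 : ℝ) ≤ z := by exact_mod_cast hz3
  have hlX : 0 < Real.log X := by linarith
  have hlz : Real.log z ≤ E * Real.log (Real.log X) := by
    have := Real.log_le_log (by linarith) hzE
    rwa [Real.log_pow] at this
  have hlz1 : 1 ≤ Real.log z := by
    rw [Real.le_log_iff_exp_le (by linarith)]
    have := Real.exp_one_lt_d9
    linarith
  refine ⟨fun p hp => (mem_pz.1 hp).1, fun p hp hpz => mem_pz.2 ⟨hp, hpz.trans hz0⟩, ?_, ?_⟩
  · have g1 := (abs_le.1 (hC1 z (by omega))).2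
    rw [pz_eq]
    unfold LL
    linarith
  · have g1 := (abs_le.1 (hC2 z hz3)).2
    rw [pz_eq]
    have g2 : Real.log (Real.log z) ≤ Real.log (E + 1) + Real.log (Real.log (Real.log X)) := by
      rw [← Real.log_mul (by positivity) (by linarith)]
      apply Real.log_le_log (by linarith)
      have : (0:ℝ) ≤ Real.log (Real.log X) := by linarith
      nlinarith
    have g3 : Real.log (LL X) = Real.log (Real.log X) - Real.log 200 := by
      unfold LL
      rw [Real.log_div (by linarith) (by norm_num)]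
    rw [g3]
    linarith

/-- asymptotic value of the first sieve sum -/
lemma alp_asy {K0 B : ℕ} (f : Fin B → ℝ → ℝ) (c : Fin B → ℝ)
    (hsm : ∀ l, ContDiff ℝ ∞ (f l)) (hcs : ∀ l, HasCompactSupport (f l))
    (hf0 : ∀ l x, c l < x → f l x = 0) (hc : ∀ l, 0 ≤ c l ∧ c l ≤ 1 / 2)
    (a b : Fin (K0 + 1) → Fin B) (ε : ℝ) (hε : 0 < ε) :
    ∃ z0 : ℕ, ∀ᶠ X : ℝ in atTop, ∀ z : ℕ, GE X z0 (pz z) →
      |(LL X * BE (pz z)) ^ (K0 + 1) * alp z X f a b - ∏ j, DD (f (a j)) (f (b j))| ≤ ε := by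
  obtain ⟨z0, hz0⟩ := asympE (K0 + 1) (fun j => f (a j)) (fun j => f (b j)) (fun j => hsm _) (fun j => hsm _)
    (fun j => hcs _) (fun j => hcs _) (fun j x hx => hf0 _ x (lt_of_le_of_lt (hc _).2 hx))
    (fun j x hx => hf0 _ x (lt_of_le_of_lt (hc _).2 hx)) ε hε
  refine ⟨z0, ?_⟩
  filter_upwards [hz0] with X h1
  intro z hGE
  have h2 := h1 (fun _ => pz z) (fun p _ => 1 / (p : ℝ)) (fun _ => hGE) (fun _ p _ => w_one p)
  rw [prod_LBE] at h2
  exact h2

/-- asymptotic value of the second sieve sum -/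
lemma bet_asy {K0 B : ℕ} (f : Fin B → ℝ → ℝ) (c : Fin B → ℝ)
    (hsm : ∀ l, ContDiff ℝ ∞ (f l)) (hcs : ∀ l, HasCompactSupport (f l))
    (hf0 : ∀ l x, c l < x → f l x = 0) (hc : ∀ l, 0 ≤ c l ∧ c l ≤ 1 / 2) (hf1 : ∀ l x, |f l x| ≤ 1)
    (a b : Fin (K0 + 1) → Fin B) (i : Fin (K0 + 1)) (ε : ℝ) (hε : 0 < ε) :
    ∃ z0 : ℕ, ∀ᶠ X : ℝ in atTop, ∀ z : ℕ, GE X z0 (pz z) →
      |(LL X * BE (pz z)) ^ K0 * bet f a b i X z -
        f (a i) 0 * f (b i) 0 * ∏ j : Fin K0, DD (f (a (i.succAbove j))) (f (b (i.succAbove j)))| ≤ ε := by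
  obtain ⟨z0, hz0⟩ := asympE K0 (fun j => f (a (i.succAbove j))) (fun j => f (b (i.succAbove j)))
    (fun j => hsm _) (fun j => hsm _)
    (fun j => hcs _) (fun j => hcs _) (fun j x hx => hf0 _ x (lt_of_le_of_lt (hc _).2 hx))
    (fun j x hx => hf0 _ x (lt_of_le_of_lt (hc _).2 hx)) ε hε
  refine ⟨z0, ?_⟩
  filter_upwards [hz0] with X h1
  intro z hGE
  have h2 := h1 (fun _ => pz z) (fun p _ => 1 / ((p : ℝ) - 1)) (fun _ => hGE) (fun _ p hp => w_two hp)
  rw [prod_LBE] at h2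
  unfold bet
  have e1 : (LL X * BE (pz z)) ^ K0 * (f (a i) 0 * f (b i) 0 *
      sieveSum K0 (fun j => f (a (i.succAbove j))) (fun j => f (b (i.succAbove j)))
        (LL X) (fun _ => pz z) (fun p _ => 1 / ((p : ℝ) - 1)) (RR X)) -
      f (a i) 0 * f (b i) 0 * ∏ j : Fin K0, DD (f (a (i.succAbove j))) (f (b (i.succAbove j))) =
      f (a i) 0 * f (b i) 0 * ((LL X * BE (pz z)) ^ K0 *
      sieveSum K0 (fun j => f (a (i.succAbove j))) (fun j => f (b (i.succAbove j)))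
        (LL X) (fun _ => pz z) (fun p _ => 1 / ((p : ℝ) - 1)) (RR X) -
        ∏ j : Fin K0, DD (f (a (i.succAbove j))) (f (b (i.succAbove j)))) := by ring
  rw [e1, abs_mul, abs_mul]
  have h3 := hf1 (a i) 0
  have h4 := hf1 (b i) 0
  calc |f (a i) 0| * |f (b i) 0| * _ ≤ 1 * ε := by
        apply mul_le_mul _ h2 (abs_nonneg _) zero_le_one
        calc |f (a i) 0| * |f (b i) 0| ≤ 1 * 1 := mul_le_mul h3 h4 (abs_nonneg _) zero_le_one
          _ = 1 := one_mul 1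
    _ = ε := one_mul ε

/-- upper bound of the third sieve sum -/
lemma gam_up {K B : ℕ} (f : Fin B → ℝ → ℝ) (c : Fin B → ℝ)
    (hsm : ∀ l, ContDiff ℝ ∞ (f l)) (hcs : ∀ l, HasCompactSupport (f l))
    (hf0 : ∀ l x, c l < x → f l x = 0) (hc : ∀ l, 0 ≤ c l ∧ c l ≤ 1 / 2)
    (a : Fin K → Fin B) (j0 : Fin K) :
    ∃ C : ℝ, 0 ≤ C ∧ ∀ (X : ℝ) (z p : ℕ), 2 ≤ LL X → p.Prime → p ∉ pz z → GE X (32 * K + 2) (insert p (pz z)) →
      |(LL X * BE (pz z)) ^ K * gam3 (fun j => f (a j)) j0 X z p| ≤ 2 ^ K * (C * (Real.log p / LL X) ^ 2) := by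
  obtain ⟨C, hC0, hC⟩ := shift_sieve_bound K (fun j => f (a j)) (fun j => f (a j)) (fun j => hsm _) (fun j => hsm _)
    (fun j => hcs _) (fun j => hcs _) j0
  refine ⟨C, hC0, ?_⟩
  intro X z p hL2 hp hpz hGE
  have hL0 : 0 < LL X := by linarith
  set u := Real.log p / LL X with hu
  have hu0 : 0 ≤ u := div_nonneg (Real.log_natCast_nonneg p) hL0.le
  have hvan : ∀ (l : Fin K) (x : ℝ), Real.log (RR X) / LL X < x → f (a l) x = 0 := by
    intro l x hx
    have := supp_aux hL2 hx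
    exact hf0 _ x (lt_of_le_of_lt (hc _).2 this)
  have k2 := hC u hu0 (LL X) (fun _ => insert p (pz z)) (fun q _ => 1 / (q : ℝ)) (RR X) hL2
    (fun j x hx => ⟨hvan j x hx, hvan j x hx⟩) (fun _ => hGE.pr) (fun _ => hGE.sm) (fun _ => hGE.s1)
    (fun _ => hGE.s2) (fun _ q _ _ => w_one q)
  have e1 : ∏ j : Fin K, (LL X * ∏ p ∈ insert p (pz z), (1 - 1 / (p : ℝ))) = (LL X * BE (insert p (pz z))) ^ K :=
    prod_LBE K X (insert p (pz z))
  rw [e1] at k2
  have hBE : 0 < BE (pz z) := BE_pos fun r hr => (mem_pz.1 hr).1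
  have hBE2 : BE (pz z) ≤ 2 * BE (insert p (pz z)) := by
    rw [BE_insert hpz]
    have h1 : (1:ℝ) / p ≤ 1 / 2 := one_div_le_one_div_of_le (by norm_num) (by exact_mod_cast hp.two_le)
    nlinarith
  have hBE' : 0 < BE (insert p (pz z)) := BE_pos hGE.pr
  have h3 : (LL X * BE (pz z)) ^ K ≤ 2 ^ K * (LL X * BE (insert p (pz z))) ^ K := by
    rw [← mul_pow]
    apply pow_le_pow_left₀ (by positivity)
    calc LL X * BE (pz z) ≤ LL X * (2 * BE (insert p (pz z))) := mul_le_mul_of_nonneg_left hBE2 hL0.le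
      _ = _ := by ring
  have h4 : gam3 (fun j => f (a j)) j0 X z p = sieveSum K (shf (fun j => f (a j)) j0 u) (shf (fun j => f (a j)) j0 u)
      (LL X) (fun _ => insert p (pz z)) (fun q _ => 1 / (q : ℝ)) (RR X) := rfl
  rw [h4, abs_mul, abs_of_nonneg (by positivity)]
  rw [abs_mul, abs_of_nonneg (by positivity)] at k2
  calc _ ≤ (2 ^ K * (LL X * BE (insert p (pz z))) ^ K) * _ := mul_le_mul_of_nonneg_right h3 (abs_nonneg _)
    _ = 2 ^ K * ((LL X * BE (insert p (pz z))) ^ K * _) := by ring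
    _ ≤ _ := mul_le_mul_of_nonneg_left k2 (by positivity)

end Pool.Agent.H542.MT
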