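import Pool.Agent.H542.MT.M10

/-!
The constant factor of Maynard's sieve is positive.
-/

set_option autoImplicit false

namespace Pool.Agent.H542.MT

open Finset Filter Topology
open scoped ContDiff
open Pool.Agent.H542.TW (mem_pz)
open Pool.Agent.H373R2.T7 (pz)
open Pool.Agent.H378R2
open Pool.Agent.H387R2.MB (GE GS asympE shift_sieve_bound sum_u2 BE_insert shf prod_LBE supp_aux)

lemma abs_sum2' {ι : Type*} (s : Finset ι) (x y : ι → ℝ) (e : ℝ) (l : ℝ) (h : ∀ i ∈ s, |l * x i - y i| ≤ e) :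
    |l * ∑ i ∈ s, x i - ∑ i ∈ s, y i| ≤ s.card * e := by
  rw [mul_sum]
  exact abs_sum2 s (fun i => l * x i) y e h

/-- the size of the normalising factor -/
lemma lam_ge : ∀ᶠ X : ℝ in atTop, ∀ (z0 z : ℕ), GE X z0 (pz z) → 1 ≤ LL X * BE (pz z) := by
  have h1 : ∀ᶠ l : ℝ in atTop, 1 ≤ l * Real.exp (-(Real.log l / 32) - 4) := by
    filter_upwards [eventually_ge_atTop (Real.exp 8)] with l hl
    have hl0 : 0 < l := lt_of_lt_of_le (Real.exp_pos _) hl
    have hlog : 8 ≤ Real.log l := by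
      rw [Real.le_log_iff_exp_le hl0]; exact hl
    have e1 : l * Real.exp (-(Real.log l / 32) - 4) = Real.exp (Real.log l + (-(Real.log l / 32) - 4)) := by
      rw [Real.exp_add, Real.exp_log hl0]
    rw [e1]
    apply Real.one_le_exp
    linarith
  filter_upwards [LL_tendsto.eventually h1, LL_tendsto.eventually_ge_atTop 1] with X g1 g2
  intro z0 z hGE
  have h2 := BE_ge hGE.pr
  have h3 := hGE.s2
  refine g1.trans ?_
  apply mul_le_mul_of_nonneg_left _ (by linarith)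
  refine le_trans ?_ h2
  apply Real.exp_le_exp.2
  linarith

/-- the final algebra -/
lemma kap_alg {L ℓ0 k K a2 I S η D δ P κ u1 u2 u3 C K2 lX : ℝ} (hL : 0 < L) (hℓ0 : 0 ≤ ℓ0) (hℓ1 : ℓ0 ≤ 400 * L)
    (hk : 0 ≤ k) (hKa : 0 ≤ K * a2) (hη : 0 ≤ η) (hI : 0 < I) (hlX : L ≤ lX) (hP1 : 1 ≤ P)
    (hκ : P * κ = L * u2 - k * ℓ0 * (P * u1) - (K * ℓ0 * a2) * (P * u3))
    (b1 : |P * u1 - I| ≤ η) (b2 : |u2 - S| ≤ K * η)
    (b3 : |P * u3| ≤ K * (a2 * (K2 * C)) * (2 * δ ^ 2))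
    (hεI : K * η + 400 * k * η ≤ I) (hJ : (400 * k + 4) * I ≤ S) (hδI : D * δ ^ 2 ≤ I)
    (hD : D = 800 * K ^ 2 * a2 ^ 2 * K2 * C) :
    I * (L / P) ≤ κ ∧ |κ| ≤ (S + 3 * I + 400 * k * I + 1) * lX := by
  have hP0 : 0 < P := by linarith
  have c1 := abs_le.1 b1
  have c2 := abs_le.1 b2
  have hIη : 0 ≤ I + η := by linarith
  -- part one
  have d1 : |k * ℓ0 * (P * u1)| ≤ L * (400 * k * (I + η)) := by
    rw [abs_mul, abs_of_nonneg (by positivity : 0 ≤ k * ℓ0)]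
    have e1 : |P * u1| ≤ I + η := by
      rw [abs_le]
      constructor <;> linarith [c1.1, c1.2]
    calc k * ℓ0 * |P * u1| ≤ k * ℓ0 * (I + η) := mul_le_mul_of_nonneg_left e1 (by positivity)
      _ ≤ k * (400 * L) * (I + η) := by gcongr
      _ = _ := by ring
  have d3 : |(K * ℓ0 * a2) * (P * u3)| ≤ L * I := by
    have e0 : (K * ℓ0 * a2) = (K * a2) * ℓ0 := by ring
    rw [e0, abs_mul, abs_of_nonneg (by positivity : 0 ≤ (K * a2) * ℓ0)]
    have e2 : 0 ≤ K * (a2 * (K2 * C)) * (2 * δ ^ 2) := le_trans (abs_nonneg _) b3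
    calc ((K * a2) * ℓ0) * |P * u3| ≤ ((K * a2) * ℓ0) * (K * (a2 * (K2 * C)) * (2 * δ ^ 2)) :=
          mul_le_mul_of_nonneg_left b3 (by positivity)
      _ ≤ ((K * a2) * (400 * L)) * (K * (a2 * (K2 * C)) * (2 * δ ^ 2)) := by
          apply mul_le_mul_of_nonneg_right _ e2
          exact mul_le_mul_of_nonneg_left hℓ1 hKa
      _ = L * (D * δ ^ 2) := by rw [hD]; ring
      _ ≤ L * I := mul_le_mul_of_nonneg_left hδI hL.le
  have d1' := abs_le.1 d1
  have d3' := abs_le.1 d3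
  have f1 : L * (K * η + 400 * k * η) ≤ L * I := mul_le_mul_of_nonneg_left hεI hL.le
  have f2 : L * ((400 * k + 4) * I) ≤ L * S := mul_le_mul_of_nonneg_left hJ hL.le
  have f3 : L * (S - K * η) ≤ L * u2 := mul_le_mul_of_nonneg_left (by linarith [c2.1]) hL.le
  have f4 : L * u2 ≤ L * (S + K * η) := mul_le_mul_of_nonneg_left (by linarith [c2.2]) hL.le
  have hLI : 0 < L * I := by positivity
  have g1 : L * (S - K * η) = L * S - L * (K * η) := by ring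
  have g2 : L * (S + K * η) = L * S + L * (K * η) := by ring
  have g3 : L * (K * η + 400 * k * η) = L * (K * η) + L * (400 * k * η) := by ring
  have g4 : L * ((400 * k + 4) * I) = L * (400 * k * I) + 4 * (L * I) := by ring
  have g5 : L * (400 * k * (I + η)) = L * (400 * k * I) + L * (400 * k * η) := by ring
  have hkI : 0 ≤ L * (400 * k * I) := by positivity
  have hkη : 0 ≤ L * (400 * k * η) := by positivity
  have hS0 : 0 ≤ L * S := by linarith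
  have low : I * L ≤ P * κ := by
    rw [hκ]
    linarith [d1'.2, d3'.2]
  constructor
  · rw [mul_div_assoc', div_le_iff₀ hP0]
    linarith
  · have up : P * κ ≤ L * (S + 3 * I + 400 * k * I + 1) := by
      have g6 : L * (S + 3 * I + 400 * k * I + 1) = L * S + 3 * (L * I) + L * (400 * k * I) + L := by ring
      rw [hκ, g6]
      linarith [d1'.1, d3'.1]
    have hκ0 : 0 ≤ κ := by
      have : 0 ≤ P * κ := le_trans (by positivity) low
      exact nonneg_of_mul_nonneg_right this hP0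
    rw [abs_of_nonneg hκ0]
    have hS0' : 0 ≤ S := nonneg_of_mul_nonneg_right hS0 hL
    calc κ ≤ P * κ := le_mul_of_one_le_left hκ0 hP1
      _ ≤ L * (S + 3 * I + 400 * k * I + 1) := up
      _ ≤ lX * (S + 3 * I + 400 * k * I + 1) := mul_le_mul_of_nonneg_right hlX (by positivity)
      _ = _ := mul_comm _ _

/-- **The constant factor is positive.** -/
theorem kap_low (k : ℕ) : ∃ (K0 B : ℕ) (f : Fin B → ℝ → ℝ) (c : Fin B → ℝ) (A : Finset (Fin (K0 + 1) → Fin B)),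
    Fam f c A ∧ ∃ δ : ℝ, 0 < δ ∧ δ ≤ 1 / 10 ∧ ∃ c0 C0 : ℝ, 0 < c0 ∧ 0 < C0 ∧ ∃ z0 : ℕ, ∀ E : ℕ,
    ∀ᶠ X : ℝ in atTop, ∀ z : ℕ, z0 ≤ z → 3 ≤ z → (z : ℝ) ≤ Real.log X ^ E → ∀ ℓ0 : ℝ, 0 ≤ ℓ0 → ℓ0 ≤ 400 * LL X →
      c0 * (LL X / (LL X * BE (pz z)) ^ (K0 + 1)) ≤ kap (k * ℓ0) ((K0 + 1 : ℕ) * ℓ0 * A.card) z X δ f A ∧
      |kap (k * ℓ0) ((K0 + 1 : ℕ) * ℓ0 * A.card) z X δ f A| ≤ C0 * Real.log X := by
  classical
  obtain ⟨K0, B, f, c, A, hsm, hcs, hf0, hc, hA, hf1, hI, hJ⟩ := family (400 * k + 4)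
  set I := II f A with hIdef
  set S := ∑ i, JJ f A i with hSdef
  set K : ℝ := ((K0 + 1 : ℕ) : ℝ) with hK
  set a2 : ℝ := (A.card : ℝ) with ha2
  have hK0 : 0 < K := by rw [hK]; positivity
  have ha20 : 0 ≤ a2 := Nat.cast_nonneg _
  clear_value I S
  -- the small parameter of the asymptotics
  have hden : 0 < K * a2 ^ 2 + 400 * k * a2 ^ 2 + 1 := by positivity
  obtain ⟨ε, hε0, hε1⟩ : ∃ ε : ℝ, 0 < ε ∧ ε * (K * a2 ^ 2 + 400 * k * a2 ^ 2 + 1) = I :=
    ⟨I / (K * a2 ^ 2 + 400 * k * a2 ^ 2 + 1), div_pos hI hden, div_mul_cancel₀ _ hden.ne'⟩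
  have hεI : K * (a2 * (a2 * ε)) + 400 * k * (a2 * (a2 * ε)) ≤ I := by
    rw [← hε1]
    have : 0 ≤ ε := hε0.le
    have e1 : ε * (K * a2 ^ 2 + 400 * k * a2 ^ 2 + 1) = K * (a2 * (a2 * ε)) + 400 * k * (a2 * (a2 * ε)) + ε := by ring
    rw [e1]
    linarith
  -- the constant of the third sum
  choose Cg hCg0 hCg using fun (a : Fin (K0 + 1) → Fin B) (j0 : Fin (K0 + 1)) =>
    gam_up f c hsm hcs hf0 hc a j0
  obtain ⟨C, hC0, hCle⟩ : ∃ C : ℝ, 0 ≤ C ∧ ∀ a j0, Cg a j0 ≤ C := by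
    refine ⟨∑ a : Fin (K0 + 1) → Fin B, ∑ j0 : Fin (K0 + 1), Cg a j0,
      sum_nonneg fun a _ => sum_nonneg fun j _ => hCg0 a j, ?_⟩
    intro a j0
    refine le_trans (single_le_sum (f := fun j0 => Cg a j0) (fun j _ => hCg0 a j) (mem_univ j0)) ?_
    exact single_le_sum (f := fun a => ∑ j0 : Fin (K0 + 1), Cg a j0)
      (fun a _ => sum_nonneg fun j _ => hCg0 a j) (mem_univ a)
  obtain ⟨D, hD⟩ : ∃ D : ℝ, D = 800 * K ^ 2 * a2 ^ 2 * 2 ^ (K0 + 1) * C := ⟨_, rfl⟩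
  have hD0 : 0 ≤ D := by rw [hD]; positivity
  obtain ⟨δ, hδ0, hδ1, hδ2⟩ : ∃ δ : ℝ, 0 < δ ∧ δ ≤ 1 / 10 ∧ δ ≤ I / (D + 1) :=
    ⟨min (1 / 10) (I / (D + 1)), lt_min (by norm_num) (by positivity), min_le_left _ _, min_le_right _ _⟩
  have hδI : D * δ ^ 2 ≤ I := by
    have h1 : δ ≤ I / (D + 1) := hδ2
    have h2 : δ ^ 2 ≤ δ := by nlinarith
    calc D * δ ^ 2 ≤ D * δ := mul_le_mul_of_nonneg_left h2 hD0
      _ ≤ (D + 1) * (I / (D + 1)) := mul_le_mul (by linarith) h1 hδ0.le (by linarith)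
      _ = I := by field_simp
  choose za hza using fun (a b : Fin (K0 + 1) → Fin B) => alp_asy f c hsm hcs hf0 hc a b ε hε0
  choose zb hzb using fun (a b : Fin (K0 + 1) → Fin B) (i : Fin (K0 + 1)) =>
    bet_asy f c hsm hcs hf0 hc hf1 a b i ε hε0
  obtain ⟨z0, hz0⟩ : ∃ z0 : ℕ, z0 = (∑ a : Fin (K0 + 1) → Fin B, ∑ b : Fin (K0 + 1) → Fin B, za a b) +
    (∑ a : Fin (K0 + 1) → Fin B, ∑ b : Fin (K0 + 1) → Fin B, ∑ i : Fin (K0 + 1), zb a b i) +
      (32 * (K0 + 1) + 2) := ⟨_, rfl⟩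
  have hza0 : ∀ a b, za a b ≤ z0 := by
    intro a b
    have h1 : za a b ≤ ∑ b : Fin (K0 + 1) → Fin B, za a b :=
      single_le_sum (f := fun b => za a b) (fun _ _ => Nat.zero_le _) (mem_univ b)
    have h2 : ∑ b : Fin (K0 + 1) → Fin B, za a b ≤ ∑ a : Fin (K0 + 1) → Fin B, ∑ b : Fin (K0 + 1) → Fin B, za a b :=
      single_le_sum (f := fun a => ∑ b : Fin (K0 + 1) → Fin B, za a b) (fun _ _ => Nat.zero_le _) (mem_univ a)
    omega
  have hzb0 : ∀ a b i, zb a b i ≤ z0 := by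
    intro a b i
    have h0 : zb a b i ≤ ∑ i : Fin (K0 + 1), zb a b i :=
      single_le_sum (f := fun i => zb a b i) (fun _ _ => Nat.zero_le _) (mem_univ i)
    have h1 : ∑ i : Fin (K0 + 1), zb a b i ≤ ∑ b : Fin (K0 + 1) → Fin B, ∑ i : Fin (K0 + 1), zb a b i :=
      single_le_sum (f := fun b => ∑ i : Fin (K0 + 1), zb a b i) (fun _ _ => Nat.zero_le _) (mem_univ b)
    have h2 : ∑ b : Fin (K0 + 1) → Fin B, ∑ i : Fin (K0 + 1), zb a b i ≤
        ∑ a : Fin (K0 + 1) → Fin B, ∑ b : Fin (K0 + 1) → Fin B, ∑ i : Fin (K0 + 1), zb a b i :=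
      single_le_sum (f := fun a => ∑ b : Fin (K0 + 1) → Fin B, ∑ i : Fin (K0 + 1), zb a b i)
        (fun _ _ => Nat.zero_le _) (mem_univ a)
    omega
  refine ⟨K0, B, f, c, A, ⟨hf0, hc, hA, hf1⟩, δ, hδ0, hδ1, I, S + 3 * I + 400 * k * I + 1, hI, ?_, z0, ?_⟩
  · have h1 : 0 ≤ S := by
      have : 0 ≤ (400 * (k : ℝ) + 4) * I := by positivity
      linarith
    positivity
  intro E
  have ev1 : ∀ᶠ X : ℝ in atTop, ∀ a b, ∀ z : ℕ, GE X (za a b) (pz z) →
      |(LL X * BE (pz z)) ^ (K0 + 1) * alp z X f a b - ∏ j, DD (f (a j)) (f (b j))| ≤ ε := by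
    rw [eventually_all]
    intro a
    rw [eventually_all]
    intro b
    exact hza a b
  have ev2 : ∀ᶠ X : ℝ in atTop, ∀ a b i, ∀ z : ℕ, GE X (zb a b i) (pz z) →
      |(LL X * BE (pz z)) ^ K0 * bet f a b i X z -
        f (a i) 0 * f (b i) 0 * ∏ j : Fin K0, DD (f (a (i.succAbove j))) (f (b (i.succAbove j)))| ≤ ε := by
    rw [eventually_all]
    intro a
    rw [eventually_all]
    intro b
    rw [eventually_all]
    intro i
    exact hzb a b i
  have hquarter : Tendsto (fun X : ℝ => (LL X) ^ (1 / 4 : ℝ)) atTop atTop :=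
    (tendsto_rpow_atTop (by norm_num)).comp LL_tendsto
  filter_upwards [ev1, ev2, GS_pz E z0, sum_u2 hδ0, lam_ge, LL_tendsto.eventually_ge_atTop 2,
    hquarter.eventually_ge_atTop 2,
    (Real.tendsto_log_atTop.comp LL_tendsto).eventually_ge_atTop 64] with X h1 h2 h3 h4 h5 h6 h7 h8
  intro z hz0z hz3 hzE ℓ0 hℓ0 hℓ1
  simp only [Function.comp] at h8
  have hGS := h3 z hz0z hz3 hzE
  have hGE := hGS.toGE (by linarith)
  have hL0 : 0 < LL X := by linarith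
  have hBE : 0 < BE (pz z) := BE_pos fun r hr => (mem_pz.1 hr).1
  have hlam := h5 z0 z hGE
  set lam := LL X * BE (pz z) with hlamdef
  have hlam0 : 0 < lam := by positivity
  set P := lam ^ (K0 + 1) with hP
  have hP0 : 0 < P := by positivity
  have hP1 : 1 ≤ P := one_le_pow₀ hlam
  -- first sums
  have b1 : |P * (∑ a ∈ A, ∑ b ∈ A, alp z X f a b) - I| ≤ a2 * (a2 * ε) := by
    rw [hIdef]
    unfold II
    apply abs_sum2'
    intro a _
    apply abs_sum2'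
    intro b _
    exact h1 a b z (hGE.mono (hza0 a b))
  -- second sums
  have b2 : |lam ^ K0 * (∑ i : Fin (K0 + 1), ∑ a ∈ A, ∑ b ∈ A, bet f a b i X z) - S| ≤ K * (a2 * (a2 * ε)) := by
    have h9 := abs_sum2' (univ : Finset (Fin (K0 + 1))) (fun i => ∑ a ∈ A, ∑ b ∈ A, bet f a b i X z)
      (fun i => JJ f A i) (a2 * (a2 * ε)) (lam ^ K0) (by
        intro i _
        unfold JJ
        apply abs_sum2'
        intro a _
        apply abs_sum2'
        intro b _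
        exact h2 a b i z (hGE.mono (hzb0 a b i)))
    rw [card_univ, Fintype.card_fin] at h9
    rw [hSdef]
    exact h9
  -- third sums
  have b3 : |P * (∑ j0 : Fin (K0 + 1), ∑ p ∈ P3s δ X z, ∑ a ∈ A, (1 / (p : ℝ)) * gam3 (fun j => f (a j)) j0 X z p)| ≤
      K * (a2 * (2 ^ (K0 + 1) * C)) * (2 * δ ^ 2) := by
    have g1 : ∀ j0 : Fin (K0 + 1), ∀ p ∈ P3s δ X z, ∀ a ∈ A,
        |P * ((1 / (p : ℝ)) * gam3 (fun j => f (a j)) j0 X z p)| ≤
          (2 ^ (K0 + 1) * C) * ((Real.log p / LL X) ^ 2 / p) := by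
      intro j0 p hp a _
      rw [P3s, mem_filter, Pool.Agent.H387R2.MB.mem_PS] at hp
      have hpz : p ∉ pz z := fun h => by have := (mem_pz.1 h).2; omega
      have hp0 : (0 : ℝ) < p := by exact_mod_cast hp.1.1.pos
      have g2 := hCg a j0 X z p h6 hp.1.1 hpz ((hGS.insert h7 h8 hp.1.1 hpz).mono (by omega))
      have e1 : P * ((1 / (p : ℝ)) * gam3 (fun j => f (a j)) j0 X z p) =
          (1 / (p : ℝ)) * (P * gam3 (fun j => f (a j)) j0 X z p) := by ring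
      rw [e1, abs_mul, abs_of_nonneg (by positivity : (0:ℝ) ≤ 1 / (p : ℝ))]
      calc (1 / (p : ℝ)) * |P * gam3 (fun j => f (a j)) j0 X z p| ≤
          (1 / (p : ℝ)) * (2 ^ (K0 + 1) * (Cg a j0 * (Real.log p / LL X) ^ 2)) :=
            mul_le_mul_of_nonneg_left g2 (by positivity)
        _ ≤ (1 / (p : ℝ)) * (2 ^ (K0 + 1) * (C * (Real.log p / LL X) ^ 2)) := by
            have := hCle a j0
            gcongr
        _ = _ := by ring
    rw [mul_sum]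
    refine (abs_sum_le_sum_abs _ _).trans ?_
    have g3 : ∀ j0 ∈ (univ : Finset (Fin (K0 + 1))), |P * ∑ p ∈ P3s δ X z, ∑ a ∈ A,
        (1 / (p : ℝ)) * gam3 (fun j => f (a j)) j0 X z p| ≤ (a2 * (2 ^ (K0 + 1) * C)) * (2 * δ ^ 2) := by
      intro j0 _
      rw [mul_sum]
      refine (abs_sum_le_sum_abs _ _).trans ?_
      calc ∑ p ∈ P3s δ X z, |P * ∑ a ∈ A, (1 / (p : ℝ)) * gam3 (fun j => f (a j)) j0 X z p| ≤
          ∑ p ∈ P3s δ X z, (a2 * (2 ^ (K0 + 1) * C)) * ((Real.log p / LL X) ^ 2 / p) := by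
            apply sum_le_sum
            intro p hp
            rw [mul_sum]
            refine (abs_sum_le_sum_abs _ _).trans ?_
            refine (sum_le_sum (g1 j0 p hp)).trans ?_
            rw [sum_const, nsmul_eq_mul, ← ha2]
            apply le_of_eq
            ring
        _ ≤ ∑ p ∈ Pool.Agent.H387R2.MB.PS δ X, (a2 * (2 ^ (K0 + 1) * C)) * ((Real.log p / LL X) ^ 2 / p) := by
            apply sum_le_sum_of_subset_of_nonneg (filter_subset _ _)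
            intro _ _ _
            positivity
        _ = (a2 * (2 ^ (K0 + 1) * C)) * ∑ p ∈ Pool.Agent.H387R2.MB.PS δ X, ((Real.log p / LL X) ^ 2 / p) := by
            rw [mul_sum]
        _ ≤ _ := mul_le_mul_of_nonneg_left h4 (by positivity)
    refine (sum_le_sum g3).trans ?_
    rw [sum_const, nsmul_eq_mul, card_univ, Fintype.card_fin, ← hK]
    apply le_of_eq
    ring
  -- conclusion
  have hκeq : P * kap (k * ℓ0) (K * ℓ0 * a2) z X δ f A =
      LL X * (lam ^ K0 * (∑ i : Fin (K0 + 1), ∑ a ∈ A, ∑ b ∈ A, bet f a b i X z)) -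
        k * ℓ0 * (P * (∑ a ∈ A, ∑ b ∈ A, alp z X f a b)) - (K * ℓ0 * a2) *
      (P * (∑ j0 : Fin (K0 + 1), ∑ p ∈ P3s δ X z, ∑ a ∈ A, (1 / (p : ℝ)) * gam3 (fun j => f (a j)) j0 X z p)) := by
    have e2 : P * (BE (pz z))⁻¹ = LL X * lam ^ K0 := by
      rw [hP, pow_succ, hlamdef]
      field_simp
    unfold kap
    have e3 : (∑ i : Fin (K0 + 1), ∑ a ∈ A, ∑ b ∈ A, (∏ p ∈ pz z, (1 - 1 / (p : ℝ)))⁻¹ * bet f a b i X z) =
        (BE (pz z))⁻¹ * ∑ i : Fin (K0 + 1), ∑ a ∈ A, ∑ b ∈ A, bet f a b i X z := by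
      rw [mul_sum]
      apply sum_congr rfl
      intro i _
      rw [mul_sum]
      apply sum_congr rfl
      intro a _
      rw [mul_sum]
      rfl
    rw [e3]
    generalize (∑ i : Fin (K0 + 1), ∑ a ∈ A, ∑ b ∈ A, bet f a b i X z) = s2
    generalize (∑ a ∈ A, ∑ b ∈ A, alp z X f a b) = s1
    generalize (∑ j0 : Fin (K0 + 1), ∑ p ∈ P3s δ X z, ∑ a ∈ A, (1 / (p : ℝ)) * gam3 (fun j => f (a j)) j0 X z p) = s3
    linear_combination s2 * e2
  have hlogX : LL X ≤ Real.log X := by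
    unfold LL at hL0 ⊢
    linarith
  exact kap_alg hL0 hℓ0 hℓ1 (Nat.cast_nonneg k) (by positivity) (by positivity) hI hlogX hP1 hκeq b1 b2 b3 hεI hJ hδI hD

end Pool.Agent.H542.MT
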