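import Pool.Agent.H542.MT.M9
import Pool.Agent.H542.MT.G1

/-!
The discrepancy with explicit parameters.
-/

set_option autoImplicit false

namespace Pool.Agent.H542.MT

open Finset
open Pool.Agent.H542.TW (mem_pz)
open Pool.Agent.H542.G (log_X_pow log_big)
open Pool.Agent.H373R2.T7 (pz es es_nonneg es_le sum_pz_le choice)
open Pool.Agent.Y889.PN (PS bvmax)
open Pool.Agent.H378R2

lemma DTi_of_le {K : ℕ} (t : Fin K → ℕ) (hinj : Function.Injective t) (z : ℕ) (ht : ∀ i, t i ≤ z) :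
    DTi (pz z) (fun j => (t j : ℤ)) := by
  intro i j hij p hp hpE hd
  apply hpE
  rw [mem_pz]
  refine ⟨hp, ?_⟩
  have h1 : p ∣ ((t i : ℤ) - t j).natAbs := Int.natCast_dvd.1 hd
  have h2 : ((t i : ℤ) - t j).natAbs ≠ 0 := by
    intro h
    apply hij
    apply hinj
    omega
  have h3 := Nat.le_of_dvd (Nat.pos_of_ne_zero h2) h1
  have h4 := ht i
  have h5 := ht j
  omega

lemma omt_ge_one {K0 : ℕ} (t : Fin (K0 + 1) → ℤ) (p : ℕ) (hp : 0 < p) : 1 ≤ omt t p := by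
  classical
  unfold omt
  apply card_pos.2
  have hp0 : (0 : ℤ) < p := by exact_mod_cast hp
  refine ⟨((-(t 0 : ℤ)) % p).toNat, ?_⟩
  have h1 := Int.emod_nonneg (-(t 0 : ℤ)) hp0.ne'
  have h2 := Int.emod_lt_of_pos (-(t 0 : ℤ)) hp0
  rw [mem_filter, mem_range]
  refine ⟨by omega, 0, ?_⟩
  rw [Int.toNat_of_nonneg h1]
  have h4 : (-(t 0 : ℤ)) % p ≡ -(t 0 : ℤ) [ZMOD p] := Int.mod_modEq _ _
  rw [Int.ModEq.dvd_iff (h4.add_right (t 0))]
  simp

lemma sum_P3s_le {δ X : ℝ} {z : ℕ} (hδ : 0 ≤ δ * LL X) :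
    ∑ p ∈ P3s δ X z, (1 : ℝ) / p ≤ 1 + δ * LL X := by
  set N := ⌊Real.exp (δ * LL X)⌋₊ with hN
  have h1 : ∑ p ∈ P3s δ X z, (1 : ℝ) / p ≤ ∑ n ∈ Icc 1 N, (1 : ℝ) / n := by
    apply sum_le_sum_of_subset_of_nonneg
    · intro p hp
      rw [P3s, mem_filter, Pool.Agent.H387R2.MB.mem_PS] at hp
      exact mem_Icc.2 ⟨hp.1.1.one_le, Nat.le_floor hp.1.2⟩
    · intro _ _ _; positivity
  refine h1.trans ((Pool.Agent.H316R2.harm_sum_le N).trans ?_)
  have h2 : (N : ℝ) ≤ Real.exp (δ * LL X) := Nat.floor_le (Real.exp_pos _).le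
  have h3 : (1 : ℝ) ≤ N := by
    rw [hN]
    exact_mod_cast Nat.le_floor (by rw [Nat.cast_one]; exact Real.one_le_exp hδ)
  have h4 := Real.log_le_log (by linarith) h2
  rw [Real.log_exp] at h4
  linarith

lemma card_P3s_le {δ X : ℝ} {z : ℕ} : ((P3s δ X z).card : ℝ) ≤ Real.exp (δ * LL X) := by
  refine le_trans ?_ (Pool.Agent.H387R2.MB.card_PS δ X)
  exact_mod_cast card_filter_le _ _

/-- powers of the logarithm are small -/
lemma small_pow {l Y c s : ℝ} {n N V : ℕ} (hl : 1 ≤ l) (hY : Real.exp l = Y)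
    (hN : 8 * l ^ N ≤ Real.exp (l / 10)) (hn : n + V ≤ N) (hc : c ≤ 8)
    (hs0 : 0 ≤ s) (hs : s ≤ Real.exp (9 * l / 10)) : c * l ^ n * s ≤ Y / l ^ V := by
  have hl0 : 0 < l := by linarith
  rw [le_div_iff₀ (by positivity), ← hY]
  have h1 : l ^ (n + V) ≤ l ^ N := pow_le_pow_right₀ hl hn
  calc c * l ^ n * s * l ^ V = c * l ^ (n + V) * s := by rw [pow_add]; ring
    _ ≤ 8 * l ^ N * s := by
        apply mul_le_mul_of_nonneg_right _ hs0
        apply mul_le_mul hc h1 (by positivity) (by norm_num)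
    _ ≤ Real.exp (l / 10) * Real.exp (9 * l / 10) := mul_le_mul hN hs hs0 (Real.exp_pos _).le
    _ = Real.exp l := by rw [← Real.exp_add]; ring_nf

lemma exp_le_of {a b : ℝ} (h : a ≤ b) : Real.exp a ≤ Real.exp b := Real.exp_le_exp.2 h

/-- the parameters -/
theorem params (K0 E V B' : ℕ) : ∃ Y0 : ℕ, ∀ Y : ℕ, Y0 ≤ Y → ∀ z : ℕ, 3 ≤ z → K0 + 1 ≤ z →
    (z : ℝ) ≤ Real.log Y ^ E → ∀ q : ℕ, 1 ≤ q → (q : ℝ) ≤ Real.log Y ^ B' → ∀ Q : ℕ, 1 ≤ Q →
    (Q : ℝ) ≤ 2 * Real.exp (Real.log Y / 100) →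
    ∃ (M : ℕ → ℝ) (r : ℕ), (∀ k, 0 ≤ M k) ∧
      (∀ k : ℕ, 1 ≤ k → ∀ a : ℕ, a.Coprime k → ∀ y : ℕ, y ≤ Y → |PS y k a - y / (Nat.totient k : ℝ)| ≤ M k) ∧
      (∀ k, 1 ≤ k → k ≤ q * (Q * z ^ r) → M k ≤ 2 * Y * Real.log Y / Nat.totient k) ∧
      (E2 K0 z q Y Q r (2 * Y * Real.log Y) (1 / Real.log Y ^ V) M ≤ 5 * (Y / Real.log Y ^ V) *
        Real.log Y ^ (2 ^ (2 * K0 + 1))) ∧
      ((((z + 1) ^ r * (K0 + 1) ^ r : ℕ) : ℝ) ≤ Real.exp (Real.log Y / 500)) ∧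
      (∀ (x : ℕ → ℝ) (T : Finset ℕ), T ⊆ pz z → (∀ p ∈ T, 0 ≤ x p ∧ x p ≤ (2 * (K0 + 1)) * (1 / (p : ℝ))) →
        es x T r ≤ 1 / Real.log Y ^ V) := by
  obtain ⟨e3, he3⟩ : ∃ e3 : ℕ, e3 = 2 ^ (2 * (3 * K0 + 2) + 1) := ⟨_, rfl⟩
  obtain ⟨e2, he2⟩ : ∃ e2 : ℕ, e2 = 2 ^ (2 * K0 + 1) := ⟨_, rfl⟩
  obtain ⟨B, X1, hbv⟩ := bvmax (1 + e3 + 2 * V)
  obtain ⟨X2, hch⟩ := choice (2 * (K0 + 1)) E V 1000
  have hev : ∀ᶠ X : ℕ in Filter.atTop, (8 * Real.log X ^ (2 * B' + B) ≤ (X : ℝ) ^ (1 / 10 : ℝ) ∧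
      8 * Real.log X ^ (E + 2 + V) ≤ (X : ℝ) ^ (1 / 10 : ℝ)) ∧
      20 ≤ Real.log X ∧ X1 ≤ X ∧ X2 ≤ X ∧ 3 ≤ X := by
    filter_upwards [log_X_pow (2 * B' + B) (1 / 10) (by norm_num) 8,
      log_X_pow (E + 2 + V) (1 / 10) (by norm_num) 8, log_big 20,
      Filter.eventually_ge_atTop X1, Filter.eventually_ge_atTop X2, Filter.eventually_ge_atTop 3]
      with X h1 h2 h4 h6 h7 h8
    exact ⟨⟨h1, h2⟩, h4, h6, h7, h8⟩
  obtain ⟨X0, hX0⟩ := Filter.eventually_atTop.1 hev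
  refine ⟨X0, fun Y hY z hz hKz hzE q hq hqB Q hQ1 hQ => ?_⟩
  obtain ⟨⟨f1, f2⟩, f4, f6, f7, f8⟩ := hX0 Y hY
  have hY3 : (3 : ℝ) ≤ Y := by exact_mod_cast f8
  have hYpos : (0 : ℝ) < Y := by linarith
  have hz3 : (3 : ℝ) ≤ z := by exact_mod_cast hz
  have hYexp : Real.exp (Real.log Y) = Y := Real.exp_log hYpos
  have hrp : (Y : ℝ) ^ (1 / 10 : ℝ) = Real.exp (Real.log Y / 10) := by
    rw [Real.rpow_def_of_pos hYpos]
    ring_nf
  rw [hrp] at f1 f2
  obtain ⟨l, hl⟩ : ∃ l, l = Real.log Y := ⟨_, rfl⟩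
  rw [← hl] at f1 f2 f4 hzE hqB hQ hYexp ⊢
  have hl0 : 0 < l := by linarith
  have hl1 : 1 ≤ l := by linarith
  have hzE' : (z : ℝ) ≤ Real.log Y ^ E := by rw [← hl]; exact hzE
  obtain ⟨r, hr1, hr2, -⟩ := hch Y f7 z hzE'
  rw [← hl] at hr1
  -- the power of `z`
  have hzr : ((z : ℝ) + 1) ^ r ≤ Real.exp (l / 1000) := by
    have h1 : (Real.exp (l / 1000)) ^ 1000 = Y := by
      rw [← Real.exp_nat_mul, ← hYexp]
      congr 1
      push_cast
      ring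
    rw [← h1] at hr2
    exact (pow_le_pow_iff_left₀ (by positivity) (Real.exp_pos _).le (by norm_num)).1 hr2
  have hzr' : (z : ℝ) ^ r ≤ Real.exp (l / 1000) :=
    (pow_le_pow_left₀ (by positivity) (by linarith) r).trans hzr
  have hQzr : ((Q * z ^ r : ℕ) : ℝ) ≤ 2 * Real.exp (11 * l / 1000) := by
    push_cast
    calc (Q : ℝ) * (z : ℝ) ^ r ≤ (2 * Real.exp (l / 100)) * Real.exp (l / 1000) :=
          mul_le_mul hQ hzr' (by positivity) (by positivity)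
      _ = 2 * (Real.exp (l / 100) * Real.exp (l / 1000)) := by ring
      _ = _ := by rw [← Real.exp_add]; ring_nf
  have hqQ : ((q * (Q * z ^ r) : ℕ) : ℝ) ^ 2 * Real.log Y ^ B ≤ Y := by
    rw [← hl]
    calc ((q * (Q * z ^ r) : ℕ) : ℝ) ^ 2 * l ^ B ≤ (l ^ B' * (2 * Real.exp (11 * l / 1000))) ^ 2 * l ^ B := by
          apply mul_le_mul_of_nonneg_right _ (by positivity)
          apply pow_le_pow_left₀ (by positivity)
          rw [Nat.cast_mul]
          exact mul_le_mul hqB hQzr (by positivity) (by positivity)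
      _ = 4 * l ^ (2 * B' + B) * (Real.exp (11 * l / 1000) ^ 2) := by ring
      _ ≤ Y / l ^ 0 := by
          apply small_pow hl1 hYexp f1 (by omega) (by norm_num) (by positivity)
          rw [← Real.exp_nat_mul]
          apply exp_le_of
          push_cast
          linarith
      _ = Y := by rw [pow_zero, div_one]
  have hqY : q * (Q * z ^ r) ≤ Y := by
    have h1 : (1 : ℝ) ≤ Real.log Y ^ B := by rw [← hl]; exact one_le_pow₀ hl1
    have h2 : ((q * (Q * z ^ r) : ℕ) : ℝ) ^ 2 ≤ Y := by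
      refine le_trans ?_ hqQ
      exact le_mul_of_one_le_right (by positivity) h1
    have h3 : (q * (Q * z ^ r)) ^ 2 ≤ Y := by exact_mod_cast h2
    exact (Nat.le_self_pow (by norm_num) _).trans h3
  obtain ⟨M, hM0, hM1, hM3, hM2⟩ := hbv Y f6 (q * (Q * z ^ r)) hqQ
  rw [← hl] at hM2 hM3
  refine ⟨M, r, hM0, hM1, fun k hk hk2 => hM3 k hk (hk2.trans hqY), ?_, ?_, ?_⟩
  · -- E2
    unfold E2
    rw [← he3, ← he2, ← hl]
    have hQ1r : (1 : ℝ) ≤ Q := by exact_mod_cast hQ1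
    have g1 : 1 + Real.log ((Q * z ^ r : ℕ) : ℝ) ≤ l := by
      have h1 : (0 : ℝ) < ((Q * z ^ r : ℕ) : ℝ) := by
        exact_mod_cast Nat.mul_pos hQ1 (pow_pos (by omega) r)
      have h2 := Real.log_le_log h1 hQzr
      rw [Real.log_mul (by norm_num) (Real.exp_pos _).ne', Real.log_exp] at h2
      have h3 := Real.log_two_lt_d9
      linarith
    have g2 : 1 + Real.log (Q : ℝ) ≤ l := by
      have h2 := Real.log_le_log (by linarith) hQ
      rw [Real.log_mul (by norm_num) (Real.exp_pos _).ne', Real.log_exp] at h2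
      have h3 := Real.log_two_lt_d9
      linarith
    have g10 : 0 ≤ 1 + Real.log ((Q * z ^ r : ℕ) : ℝ) := by
      have := Real.log_natCast_nonneg (Q * z ^ r)
      linarith
    have g20 : 0 ≤ 1 + Real.log (Q : ℝ) := by
      have := Real.log_natCast_nonneg Q
      linarith
    have k1 : Real.sqrt (2 * Y * l * (1 + Real.log ((Q * z ^ r : ℕ) : ℝ)) ^ e3) *
        Real.sqrt (∑ k ∈ Icc 1 (q * (Q * z ^ r)), M k) ≤ 2 * (Y / l ^ V) := by
      rw [← Real.sqrt_mul (by positivity)]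
      apply Real.sqrt_le_iff.2
      refine ⟨by positivity, ?_⟩
      have hM00 : 0 ≤ ∑ k ∈ Icc 1 (q * (Q * z ^ r)), M k := sum_nonneg fun _ _ => hM0 _
      calc 2 * Y * l * (1 + Real.log ((Q * z ^ r : ℕ) : ℝ)) ^ e3 * ∑ k ∈ Icc 1 (q * (Q * z ^ r)), M k ≤
          2 * Y * l * l ^ e3 * (Y / l ^ (1 + e3 + 2 * V)) := by
            apply mul_le_mul _ hM2 hM00 (by positivity)
            apply mul_le_mul_of_nonneg_left _ (by positivity)
            exact pow_le_pow_left₀ g10 g1 _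
        _ = 2 * (Y / l ^ V) ^ 2 := by
            rw [pow_add, pow_add, pow_one, mul_comm 2 V, pow_mul]
            field_simp
        _ ≤ (2 * (Y / l ^ V)) ^ 2 := by
            have : 0 ≤ (Y / l ^ V) ^ 2 := by positivity
            nlinarith
    have hlog2 : (Nat.log 2 Y : ℝ) + 1 ≤ 3 * l := by
      have h1 : (Nat.log 2 Y : ℝ) ≤ 2 * l := by
        have h2 : (2 : ℝ) ^ (Nat.log 2 Y) ≤ Y := by exact_mod_cast Nat.pow_log_le_self 2 (by omega)
        have h3 := Real.log_le_log (by positivity) h2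
        rw [Real.log_pow, ← hl] at h3
        have h4 := Real.log_two_gt_d9
        have h5 : (0 : ℝ) ≤ Nat.log 2 Y := Nat.cast_nonneg _
        nlinarith
      linarith
    have k2 : (z : ℝ) * ((Nat.log 2 Y + 1 : ℝ) * l) * Q ≤ Y / l ^ V := by
      calc (z : ℝ) * ((Nat.log 2 Y + 1 : ℝ) * l) * Q ≤ l ^ E * ((3 * l) * l) * (2 * Real.exp (l / 100)) := by
            apply mul_le_mul _ hQ (by positivity) (by positivity)
            apply mul_le_mul hzE _ (by positivity) (by positivity)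
            exact mul_le_mul_of_nonneg_right hlog2 hl0.le
        _ = 6 * l ^ (E + 2) * Real.exp (l / 100) := by ring
        _ ≤ Y / l ^ V := by
            apply small_pow hl1 hYexp f2 (by omega) (by norm_num) (Real.exp_pos _).le
            apply exp_le_of
            linarith
    have hle2 : (1 + Real.log (Q : ℝ)) ^ e2 ≤ l ^ e2 := pow_le_pow_left₀ g20 g2 _
    have hle2' : 1 ≤ l ^ e2 := one_le_pow₀ hl1
    have hYV : 0 ≤ Y / l ^ V := by positivity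
    calc _ ≤ 2 * (Y / l ^ V) * l ^ e2 + (Y / l ^ V + 2 * Y * (1 / l ^ V)) * l ^ e2 := by
          apply add_le_add
          · refine k1.trans ?_
            exact le_mul_of_one_le_right (by positivity) hle2'
          · apply mul_le_mul _ hle2 (by positivity) (by positivity)
            linarith
      _ = 5 * (Y / l ^ V) * l ^ e2 := by ring
  · push_cast
    have hKz' : (K0 : ℝ) + 1 ≤ z + 1 := by
      have : ((K0 + 1 : ℕ) : ℝ) ≤ z := by exact_mod_cast hKz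
      push_cast at this
      linarith
    calc ((z : ℝ) + 1) ^ r * ((K0 : ℝ) + 1) ^ r ≤ ((z : ℝ) + 1) ^ r * ((z : ℝ) + 1) ^ r := by
          apply mul_le_mul_of_nonneg_left _ (by positivity)
          exact pow_le_pow_left₀ (by positivity) hKz' r
      _ ≤ Real.exp (l / 1000) * Real.exp (l / 1000) :=
          mul_le_mul hzr hzr (by positivity) (by positivity)
      _ = Real.exp (l / 500) := by rw [← Real.exp_add]; ring_nf
  · intro x T hT hx
    refine (es_le (fun p hp => (hx p hp).1) r).trans (le_trans ?_ hr1)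
    apply Real.exp_le_exp.2
    have h1 : ∑ p ∈ T, x p ≤ (2 * (K0 + 1)) * (1 + Real.log z) := by
      calc ∑ p ∈ T, x p ≤ ∑ p ∈ T, (2 * (K0 + 1)) * (1 / (p : ℝ)) := sum_le_sum fun p hp => (hx p hp).2
        _ ≤ ∑ p ∈ pz z, (2 * (K0 + 1)) * (1 / (p : ℝ)) :=
            sum_le_sum_of_subset_of_nonneg hT fun _ _ _ => by positivity
        _ = (2 * (K0 + 1)) * ∑ p ∈ pz z, 1 / (p : ℝ) := by rw [mul_sum]
        _ ≤ _ := mul_le_mul_of_nonneg_left (sum_pz_le z) (by positivity)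
    push_cast
    linarith

end Pool.Agent.H542.MT
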