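import Pool.Agent.H542.MT.M12

/-!
The discrepancy of the function of Maynard's sieve.
-/

set_option autoImplicit false

namespace Pool.Agent.H542.MT

open Finset
open Pool.Agent.H542.TW (mem_pz)
open Pool.Agent.H542.G (log_X_pow log_big)
open Pool.Agent.H373R2.T7 (pz es es_nonneg es_le sum_pz_le choice)
open Pool.Agent.Y889.PN (PS bvmax)
open Pool.Agent.H378R2

/-- the sum of the error terms over the medium primes -/
lemma sumE1 {K z Q r : ℕ} {T es1 δ X : ℝ} :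
    ∑ p ∈ P3s δ X z, E1 K z (T / p) Q r es1 =
      ((P3s δ X z).card * ((((z + 1) ^ r * K ^ r : ℕ) : ℝ) * Q) + 2 * T * es1 * ∑ p ∈ P3s δ X z, (1 : ℝ) / p) *
        (1 + Real.log Q) ^ (2 ^ (2 * K)) := by
  unfold E1
  rw [← sum_mul, sum_add_distrib, sum_const, nsmul_eq_mul, mul_sum]
  congr 2
  apply sum_congr rfl
  intro p _
  ring

set_option maxHeartbeats 1000000 in
/-- **The discrepancy.** -/
theorem disc2 {K0 B : ℕ} (f : Fin B → ℝ → ℝ) (c : Fin B → ℝ) (A : Finset (Fin (K0 + 1) → Fin B))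
    (hfam : Fam f c A) (δ : ℝ) (hδ0 : 0 < δ) (hδ1 : δ ≤ 1 / 10) (C0 : ℝ) (hC0 : 0 < C0) (E U B' : ℕ)
    (t : Fin (K0 + 1) → ℕ) (hinj : Function.Injective t) : ∃ X0 : ℕ, ∀ X : ℕ, X0 ≤ X →
    ∀ z : ℕ, 3 ≤ z → K0 + 1 ≤ z → (∀ i, t i ≤ z) → (z : ℝ) ≤ Real.log X ^ E →
    ∀ ρ ℓ : ℝ, 0 ≤ ρ → 0 ≤ ℓ → ρ ≤ C0 * Real.log X → ℓ ≤ C0 * Real.log X →
    |kap ρ ℓ z X δ f A| ≤ C0 * Real.log X →
    ∀ q : ℕ, 1 ≤ q → (q : ℝ) ≤ Real.log X ^ B' → (∀ p : ℕ, p.Prime → p ∣ q → p ≤ z) →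
    ∀ (b : ℤ) (T : ℕ), T ≤ X →
    |∑ n ∈ (Icc (1 : ℤ) T).filter (fun n => n ≡ b [ZMOD q]),
        (ef ρ ℓ z X δ f A t n - kap ρ ℓ z X δ f A * gf z t n)| ≤ X / Real.log X ^ U := by
  classical
  obtain ⟨e1, he1⟩ : ∃ e1 : ℕ, e1 = 2 ^ (2 * (K0 + 1)) := ⟨_, rfl⟩
  obtain ⟨e2, he2⟩ : ∃ e2 : ℕ, e2 = 2 ^ (2 * K0 + 1) := ⟨_, rfl⟩
  obtain ⟨V, hV⟩ : ∃ V : ℕ, V = U + (e1 + e2 + 2) + 2 := ⟨_, rfl⟩
  obtain ⟨Y0, hY0⟩ := params K0 E V B'
  obtain ⟨a2, ha2⟩ : ∃ a2 : ℝ, a2 = (A.card : ℝ) := ⟨_, rfl⟩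
  obtain ⟨K, hK⟩ : ∃ K : ℝ, K = ((K0 + 1 : ℕ) : ℝ) := ⟨_, rfl⟩
  have hK0 : 0 ≤ K := by rw [hK]; exact Nat.cast_nonneg _
  have ha20 : 0 ≤ a2 := by rw [ha2]; exact Nat.cast_nonneg _
  obtain ⟨CT, hCT⟩ : ∃ CT : ℝ, CT = K * (a2 * (a2 * 11)) + C0 * (a2 * (a2 * 3)) +
    C0 * (K * (a2 * (2 ^ (2 * (K0 + 1)) * 5))) + C0 * 3 := ⟨_, rfl⟩
  have hCT0 : 0 ≤ CT := by rw [hCT]; positivity
  have hev : ∀ᶠ X : ℕ in Filter.atTop, (8 * Real.log X ^ (1 + V) ≤ (X : ℝ) ^ (1 / 10 : ℝ) ∧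
      20 ≤ Real.log X ∧ CT ≤ Real.log X ∧ 400 ≤ Real.log X) ∧ Y0 ≤ X ∧ 3 ≤ X ∧
      1 * Real.log X ^ E ≤ (X : ℝ) ^ (1 : ℝ) := by
    filter_upwards [log_X_pow (1 + V) (1 / 10) (by norm_num) 8, log_big 20, log_big CT, log_big 400,
      Filter.eventually_ge_atTop Y0, Filter.eventually_ge_atTop 3, log_X_pow E 1 one_pos 1] with X h1 h2 h3 h4 h5 h6 h7
    exact ⟨⟨h1, h2, h3, h4⟩, h5, h6, h7⟩
  obtain ⟨X0, hX0⟩ := Filter.eventually_atTop.1 hev
  refine ⟨X0, fun X hX z hz hKz htz hzE ρ ℓ hρ0 hℓ0 hρ hℓ hk q hq hqB hqz b T hT => ?_⟩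
  obtain ⟨⟨-, f2, f3, f4⟩, f5, f6, f7⟩ := hX0 X hX
  obtain ⟨⟨g1, g2, g3, g4⟩, g5, -, -⟩ := hX0 (2 * X) (by omega)
  have hX3 : (3 : ℝ) ≤ X := by exact_mod_cast f6
  obtain ⟨Y, hY⟩ : ∃ Y : ℕ, Y = 2 * X := ⟨_, rfl⟩
  rw [← hY] at g1 g2 g3 g4 g5
  have hYr : (Y : ℝ) = 2 * X := by rw [hY]; push_cast; ring
  have hYpos : (0 : ℝ) < Y := by rw [hYr]; linarith
  have hlogXY : Real.log X ≤ Real.log Y := Real.log_le_log (by linarith) (by rw [hYr]; linarith)
  have hYexp : Real.exp (Real.log Y) = Y := Real.exp_log hYpos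
  have hrp : (Y : ℝ) ^ (1 / 10 : ℝ) = Real.exp (Real.log Y / 10) := by
    rw [Real.rpow_def_of_pos hYpos]
    ring_nf
  rw [hrp] at g1
  have hlX0 : 0 < Real.log X := by linarith
  -- the parameters
  obtain ⟨Q, hQdef⟩ : ∃ Q : ℕ, Q = ⌈Real.exp (2 * LL X)⌉₊ := ⟨_, rfl⟩
  have hQ : Real.exp (2 * LL X) ≤ Q := by rw [hQdef]; exact Nat.le_ceil _
  have hexp1 : Real.exp (2 * LL X) ≤ Real.exp (Real.log Y / 100) := by
    apply exp_le_of
    unfold LL
    linarith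
  have hQ2 : (Q : ℝ) ≤ 2 * Real.exp (Real.log Y / 100) := by
    have h1 : (Q : ℝ) ≤ Real.exp (2 * LL X) + 1 := by
      rw [hQdef]; exact (Nat.ceil_lt_add_one (Real.exp_pos _).le).le
    have h2 : 1 ≤ Real.exp (Real.log Y / 100) := Real.one_le_exp (by linarith)
    linarith
  have hQ1 : 1 ≤ Q := Nat.one_le_iff_ne_zero.2 (by
    rw [hQdef]
    exact (Nat.ceil_pos.2 (Real.exp_pos _)).ne')
  have hzE' : (z : ℝ) ≤ Real.log Y ^ E := hzE.trans (pow_le_pow_left₀ hlX0.le hlogXY E)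
  have hqB' : (q : ℝ) ≤ Real.log Y ^ B' := hqB.trans (pow_le_pow_left₀ hlX0.le hlogXY B')
  obtain ⟨M, r, hM0, hM1, hM3, hE2, hZ, hes⟩ := hY0 Y g5 z hz hKz hzE' q hq hqB' Q hQ1 hQ2
  have hL2 : 2 ≤ LL X := by unfold LL; linarith
  have hzX : z ≤ X := by
    rw [one_mul, Real.rpow_one] at f7
    exact_mod_cast hzE.trans f7
  have hTY : ∀ i, T + t i ≤ Y := by
    intro i
    have h1 := htz i
    omega
  obtain ⟨es0, hes0⟩ : ∃ es0 : ℝ, es0 = 1 / Real.log Y ^ V := ⟨_, rfl⟩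
  rw [← hes0] at hE2 hes
  have hPp : ∀ p ∈ Pp z q, p.Prime := fun p hp => by
    rw [Pp, mem_filter, mem_pz] at hp; exact hp.1.1
  have hes1 : es (fun p => (omt (fun j => (t j : ℤ)) p : ℝ) / p) (Pp z q) r ≤ es0 := by
    apply hes _ _ (filter_subset _ _)
    intro p hp
    constructor
    · positivity
    · rw [mul_one_div]
      apply div_le_div_of_nonneg_right _ (Nat.cast_nonneg _)
      have h1 : (omt (fun j => (t j : ℤ)) p : ℝ) ≤ ((K0 + 1 : ℕ) : ℝ) := by exact_mod_cast omt_le _ p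
      push_cast at h1
      have h2 : (0 : ℝ) ≤ K0 := Nat.cast_nonneg _
      linarith
  have hes2 : es (fun p => ((omt (fun j => (t j : ℤ)) p : ℝ) - 1) / ((p : ℝ) - 1)) (Pp z q) r ≤ es0 := by
    apply hes _ _ (filter_subset _ _)
    intro p hp
    have hp2 : (2 : ℝ) ≤ p := by exact_mod_cast (hPp p hp).two_le
    have h3 : (1 : ℝ) ≤ omt (fun j => (t j : ℤ)) p := by exact_mod_cast omt_ge_one _ p (hPp p hp).pos
    have h1 : (omt (fun j => (t j : ℤ)) p : ℝ) ≤ ((K0 + 1 : ℕ) : ℝ) := by exact_mod_cast omt_le _ p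
    push_cast at h1
    have h2 : (0 : ℝ) ≤ K0 := Nat.cast_nonneg _
    constructor
    · exact div_nonneg (by linarith) (by linarith)
    · rw [mul_one_div, div_le_div_iff₀ (by linarith) (by linarith)]
      calc ((omt (fun j => (t j : ℤ)) p : ℝ) - 1) * p ≤ ((K0 : ℝ) + 1) * p := by
            apply mul_le_mul_of_nonneg_right _ (by linarith)
            linarith
        _ ≤ ((K0 : ℝ) + 1) * (2 * (p - 1)) := by
            apply mul_le_mul_of_nonneg_left _ (by linarith)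
            linarith
        _ = _ := by ring
  have hmain := disc f c A hfam ρ ℓ δ hρ0 hℓ0 X hL2 t z q Y T r Q b hq hqz (by omega)
    (DTi_of_le t hinj z htz) hTY (by omega) hQ M hM0 hM1 (2 * Y * Real.log Y) (by positivity) hM3 es0 es0 hes1 hes2
  refine hmain.trans ?_
  -- reduction to one estimate
  obtain ⟨l, hl⟩ : ∃ l, l = Real.log Y := ⟨_, rfl⟩
  rw [← hl] at g1 g2 g3 g4 hYexp hE2 hZ hes0 hexp1 hQ2 hlogXY
  rw [← hl, ← hK, ← ha2]
  have hl0 : 0 < l := by linarith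
  have hl1 : 1 ≤ l := by linarith
  have hYV : 0 ≤ (Y : ℝ) / l ^ V := by positivity
  obtain ⟨W, hW⟩ : ∃ W : ℝ, W = (Y : ℝ) / l ^ V * l ^ (e1 + e2 + 1) := ⟨_, rfl⟩
  have hW0 : 0 ≤ W := by rw [hW]; positivity
  have hWe1 : (Y : ℝ) / l ^ V * l ^ e1 ≤ W := by
    rw [hW]
    apply mul_le_mul_of_nonneg_left _ hYV
    exact pow_le_pow_right₀ hl1 (by omega)
  have hWe11 : (Y : ℝ) / l ^ V * (l * l ^ e1) ≤ W := by
    rw [hW, ← pow_succ']
    apply mul_le_mul_of_nonneg_left _ hYV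
    exact pow_le_pow_right₀ hl1 (by omega)
  have hWe2 : (Y : ℝ) / l ^ V * l ^ e2 ≤ W := by
    rw [hW]
    apply mul_le_mul_of_nonneg_left _ hYV
    exact pow_le_pow_right₀ hl1 (by omega)
  have hWe0 : (Y : ℝ) / l ^ V ≤ W := by
    rw [hW]
    exact le_mul_of_one_le_right hYV (one_le_pow₀ hl1)
  have hes00 : 0 ≤ es0 := by rw [hes0]; positivity
  have hTr : (T : ℝ) ≤ Y := by
    have := hTY 0
    exact_mod_cast (by omega : T ≤ Y)
  have hTes : 2 * (T : ℝ) * es0 ≤ 2 * (Y / l ^ V) := by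
    rw [hes0, mul_one_div, mul_div_assoc]
    apply mul_le_mul_of_nonneg_left _ (by norm_num)
    exact div_le_div_of_nonneg_right hTr (by positivity)
  obtain ⟨Z, hZdef⟩ : ∃ Z : ℝ, Z = ((((z + 1) ^ r * (K0 + 1) ^ r : ℕ)) : ℝ) := ⟨_, rfl⟩
  rw [← hZdef] at hZ
  rw [← hZdef]
  have hZ0 : 0 ≤ Z := by rw [hZdef]; exact Nat.cast_nonneg _
  have hZQ : Z * Q ≤ 2 * Real.exp (12 * l / 1000) := by
    calc Z * Q ≤ Real.exp (l / 500) * (2 * Real.exp (l / 100)) := mul_le_mul hZ hQ2 (Nat.cast_nonneg _) (Real.exp_pos _).le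
      _ = 2 * (Real.exp (l / 500) * Real.exp (l / 100)) := by ring
      _ = _ := by rw [← Real.exp_add]; ring_nf
  have hlQ : 1 + Real.log (Q : ℝ) ≤ l := by
    have hQ1r : (1 : ℝ) ≤ Q := by exact_mod_cast hQ1
    have h2 := Real.log_le_log (by linarith) hQ2
    rw [Real.log_mul (by norm_num) (Real.exp_pos _).ne', Real.log_exp] at h2
    have h3 := Real.log_two_lt_d9
    linarith
  have hlQ0 : 0 ≤ 1 + Real.log (Q : ℝ) := by
    have := Real.log_natCast_nonneg Q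
    linarith
  have hlQe : (1 + Real.log (Q : ℝ)) ^ (2 ^ (2 * (K0 + 1))) ≤ l ^ e1 := by
    rw [← he1]
    exact pow_le_pow_left₀ hlQ0 hlQ _
  -- part a
  have ta : 2 * E2 K0 z q Y Q r (2 * Y * l) es0 M +
      Real.exp (2 * LL X) * (2 * RR X * l + 2 * Real.sqrt Y * l) ≤ 11 * W := by
    rw [← he2] at hE2
    have h1 : Real.exp (2 * LL X) * (2 * RR X * l + 2 * Real.sqrt Y * l) ≤ Y / l ^ V := by
      have hs : Real.sqrt Y = Real.exp (l / 2) := by
        rw [Real.sqrt_eq_iff_mul_self_eq hYpos.le (Real.exp_pos _).le, ← Real.exp_add, add_halves, hYexp]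
      have hR : (RR X : ℝ) ≤ Real.exp (l / 2) := by
        unfold RR
        refine (Nat.floor_le (Real.exp_pos _).le).trans ?_
        apply exp_le_of
        unfold LL
        linarith
      rw [hs]
      calc Real.exp (2 * LL X) * (2 * RR X * l + 2 * Real.exp (l / 2) * l) ≤
          Real.exp (l / 100) * (2 * Real.exp (l / 2) * l + 2 * Real.exp (l / 2) * l) := by
            apply mul_le_mul hexp1 _ (by positivity) (Real.exp_pos _).le
            gcongr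
        _ = 4 * l ^ 1 * (Real.exp (l / 100) * Real.exp (l / 2)) := by ring
        _ ≤ Y / l ^ V := by
            apply small_pow hl1 hYexp g1 (by omega) (by norm_num) (by positivity)
            rw [← Real.exp_add]
            apply exp_le_of
            linarith
    have h2 : 5 * (Y / l ^ V) * l ^ e2 = 5 * (Y / l ^ V * l ^ e2) := by ring
    rw [h2] at hE2
    linarith
  -- part b
  have tb : E1 (K0 + 1) z T Q r es0 ≤ 3 * W := by
    unfold E1
    rw [← hZdef]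
    have h1 : Z * Q ≤ Y / l ^ V := by
      refine hZQ.trans ?_
      have := small_pow (c := 2) (n := 0) (V := V) (s := Real.exp (12 * l / 1000)) hl1 hYexp g1 (by omega) (by norm_num)
        (Real.exp_pos _).le (exp_le_of (by linarith))
      rwa [pow_zero, mul_one] at this
    calc (Z * Q + 2 * T * es0) * (1 + Real.log Q) ^ (2 ^ (2 * (K0 + 1))) ≤ (3 * (Y / l ^ V)) * l ^ e1 := by
          apply mul_le_mul _ hlQe (pow_nonneg hlQ0 _) (by positivity)
          linarith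
      _ = 3 * (Y / l ^ V * l ^ e1) := by ring
      _ ≤ 3 * W := by linarith
  -- part c
  have hδL : 0 ≤ δ * LL X := by
    have : 0 ≤ LL X := by linarith
    positivity
  have hδL2 : δ * LL X ≤ l / 200 := by
    have h1 : δ * LL X ≤ 1 * LL X := mul_le_mul_of_nonneg_right (by linarith) (by linarith)
    unfold LL at h1 ⊢
    linarith
  have tc : ∑ p ∈ P3s δ X z, E1 (K0 + 1) z ((T : ℝ) / p) Q r es0 ≤ 5 * W := by
    rw [sumE1, ← hZdef]
    have h1 : ((P3s δ X z).card : ℝ) * (Z * Q) ≤ Y / l ^ V := by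
      calc ((P3s δ X z).card : ℝ) * (Z * Q) ≤ Real.exp (l / 200) * (2 * Real.exp (12 * l / 1000)) := by
            apply mul_le_mul (card_P3s_le.trans (exp_le_of hδL2)) hZQ (by positivity) (Real.exp_pos _).le
        _ = 2 * l ^ 0 * (Real.exp (l / 200) * Real.exp (12 * l / 1000)) := by ring
        _ ≤ Y / l ^ V := by
            apply small_pow hl1 hYexp g1 (by omega) (by norm_num) (by positivity)
            rw [← Real.exp_add]
            apply exp_le_of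
            linarith
    have h2 : ∑ p ∈ P3s δ X z, (1 : ℝ) / p ≤ 2 * l := by
      refine (sum_P3s_le hδL).trans ?_
      linarith
    have h20 : 0 ≤ ∑ p ∈ P3s δ X z, (1 : ℝ) / p := sum_nonneg fun _ _ => by positivity
    calc (((P3s δ X z).card : ℝ) * (Z * Q) + 2 * T * es0 * ∑ p ∈ P3s δ X z, (1 : ℝ) / p) *
          (1 + Real.log Q) ^ (2 ^ (2 * (K0 + 1))) ≤ (Y / l ^ V + (2 * (Y / l ^ V)) * (2 * l)) * l ^ e1 := by
          apply mul_le_mul _ hlQe (pow_nonneg hlQ0 _) (by positivity)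
          apply add_le_add h1
          exact mul_le_mul hTes h2 h20 (by positivity)
      _ = Y / l ^ V * l ^ e1 + 4 * (Y / l ^ V * (l * l ^ e1)) := by ring
      _ ≤ 5 * W := by linarith
  -- part d
  have td : Z + 2 * T * es0 ≤ 3 * W := by
    have h1 : Z ≤ Y / l ^ V := by
      refine hZ.trans ?_
      have := small_pow (c := 1) (n := 0) (V := V) (s := Real.exp (l / 500)) hl1 hYexp g1 (by omega) (by norm_num)
        (Real.exp_pos _).le (exp_le_of (by linarith))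
      rwa [pow_zero, one_mul, one_mul] at this
    linarith
  have hE10 : 0 ≤ E1 (K0 + 1) z T Q r es0 := by
    unfold E1
    have := pow_nonneg hlQ0 (2 ^ (2 * (K0 + 1)))
    positivity
  have hlX : Real.log X ≤ l := hlogXY
  have hρl : ρ ≤ C0 * l := hρ.trans (mul_le_mul_of_nonneg_left hlX hC0.le)
  have hℓl : ℓ ≤ C0 * l := hℓ.trans (mul_le_mul_of_nonneg_left hlX hC0.le)
  have hkl : |kap ρ ℓ z X δ f A| ≤ C0 * l := hk.trans (mul_le_mul_of_nonneg_left hlX hC0.le)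
  have hWl : W ≤ l * W := le_mul_of_one_le_left hW0 hl1
  have sa : K * (a2 * (a2 * (2 * E2 K0 z q Y Q r (2 * Y * l) es0 M +
      Real.exp (2 * LL X) * (2 * RR X * l + 2 * Real.sqrt Y * l)))) ≤ K * (a2 * (a2 * 11)) * (l * W) := by
    calc _ ≤ K * (a2 * (a2 * (11 * (l * W)))) := by
          have : 11 * W ≤ 11 * (l * W) := by linarith
          have h2 := ta.trans this
          gcongr
      _ = _ := by ring
  have sb : ρ * (a2 * (a2 * E1 (K0 + 1) z T Q r es0)) ≤ C0 * (a2 * (a2 * 3)) * (l * W) := by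
    calc _ ≤ (C0 * l) * (a2 * (a2 * (3 * W))) := by
          gcongr
      _ = _ := by ring
  have sc : ℓ * (K * (a2 * (2 ^ (2 * (K0 + 1)) * ∑ p ∈ P3s δ X z, E1 (K0 + 1) z ((T : ℝ) / p) Q r es0))) ≤
      C0 * (K * (a2 * (2 ^ (2 * (K0 + 1)) * 5))) * (l * W) := by
    have h0 : 0 ≤ ∑ p ∈ P3s δ X z, E1 (K0 + 1) z ((T : ℝ) / p) Q r es0 := by
      apply sum_nonneg
      intro p _
      unfold E1
      have := pow_nonneg hlQ0 (2 ^ (2 * (K0 + 1)))
      positivity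
    calc _ ≤ (C0 * l) * (K * (a2 * (2 ^ (2 * (K0 + 1)) * (5 * W)))) := by
          gcongr
      _ = _ := by ring
  have sd : |kap ρ ℓ z X δ f A| * (Z + 2 * T * es0) ≤ C0 * 3 * (l * W) := by
    calc _ ≤ (C0 * l) * (3 * W) := by
          apply mul_le_mul hkl td (by positivity) (by positivity)
      _ = _ := by ring
  have hfin : CT * (l * W) ≤ X / Real.log X ^ U := by
    have h1 : CT * (l * W) ≤ l * (l * W) := mul_le_mul_of_nonneg_right g3 (by positivity)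
    have h2 : l * (l * W) = Y / (l * l ^ U) := by
      rw [hW, hV]
      rw [show U + (e1 + e2 + 2) + 2 = (e1 + e2 + 1) + (U + 3) by ring, pow_add l (e1 + e2 + 1) (U + 3), pow_add l U 3]
      field_simp
    have h3 : (Y : ℝ) / (l * l ^ U) ≤ X / Real.log X ^ U := by
      rw [hYr, div_le_div_iff₀ (by positivity) (by positivity)]
      have h4 : Real.log X ^ U ≤ l ^ U := pow_le_pow_left₀ hlX0.le hlX U
      have h5 : 0 ≤ Real.log X ^ U := by positivity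
      have hX0' : (0 : ℝ) ≤ X := by linarith
      calc 2 * (X : ℝ) * Real.log X ^ U ≤ 2 * X * l ^ U := by gcongr
        _ ≤ l * X * l ^ U := by
            have : 2 ≤ l := by linarith
            gcongr
        _ = X * (l * l ^ U) := by ring
    linarith
  have hexpand : CT * (l * W) = K * (a2 * (a2 * 11)) * (l * W) + C0 * (a2 * (a2 * 3)) * (l * W) +
      C0 * (K * (a2 * (2 ^ (2 * (K0 + 1)) * 5))) * (l * W) + C0 * 3 * (l * W) := by
    rw [hCT]; ring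
  linarith

end Pool.Agent.H542.MT
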