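import Pool.Agent.H542.MT.G1
import Pool.Agent.H542.TW.T1

/-!
The second moment over the shifts: general form.
-/

set_option autoImplicit false

namespace Pool.Agent.H542.MT

open Finset Polynomial
open Pool.Agent.H542.TW (transf)
open Pool.Agent.H542.G (log_X_pow log_big)
open Pool.Agent.TH204.WR (TT cutf)

/-- **The second moment over the shifts, general form.** -/
theorem smG (f : ℤ[X]) (hd : 1 ≤ f.natDegree) (K : ℕ) (hK : 1 ≤ K) (G U : ℕ) :
    ∃ B' U' x0 : ℕ, 1 ≤ B' ∧ ∀ x : ℕ, x0 ≤ x → ∀ e : ℤ → ℝ,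
    ∑ n ∈ Icc (1 : ℤ) (K * x ^ f.natDegree : ℕ), e n ^ 2 ≤
      (K * x ^ f.natDegree : ℕ) * Real.log (K * x ^ f.natDegree : ℕ) ^ G →
    (∀ q : ℕ, 1 ≤ q → (q : ℝ) ≤ Real.log (K * x ^ f.natDegree : ℕ) ^ B' →
      ∀ (b : ℤ) (T : ℕ), T ≤ K * x ^ f.natDegree →
      |∑ n ∈ (Icc (1 : ℤ) T).filter (fun n => n ≡ b [ZMOD q]), e n| ≤
        (K * x ^ f.natDegree : ℕ) / Real.log (K * x ^ f.natDegree : ℕ) ^ U') →
    ∀ I : Finset ℤ,
    ∑ a ∈ I, TT (fun n => f.eval (n : ℤ)) 1 x (K * x ^ f.natDegree) e a ^ 2 ≤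
      (x : ℝ) ^ 2 * (K * x ^ f.natDegree : ℕ) / Real.log (K * x ^ f.natDegree : ℕ) ^ U := by
  obtain ⟨d, hdd⟩ : ∃ d, d = f.natDegree := ⟨_, rfl⟩
  rw [← hdd] at hd ⊢
  obtain ⟨cc, m, hcc, HT⟩ := transf d hd
  set A : ℕ := (|(d.factorial : ℤ) * f.coeff d|).toNat with hA
  have hA1 : (A : ℤ) = |(d.factorial : ℤ) * f.coeff d| := Int.toNat_of_nonneg (abs_nonneg _)
  have hA2 : 1 ≤ A := by
    have h1 : f.coeff d ≠ 0 := by
      rw [hdd]
      have : f ≠ 0 := by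
        rintro rfl
        simp at hdd
        omega
      exact leadingCoeff_ne_zero.2 this
    have h2 : (d.factorial : ℤ) * f.coeff d ≠ 0 :=
      mul_ne_zero (by exact_mod_cast (Nat.factorial_pos d).ne') h1
    have h3 : 0 < |(d.factorial : ℤ) * f.coeff d| := abs_pos.2 h2
    omega
  obtain ⟨U1, hU1⟩ : ∃ U1, U1 = U + G + 1 := ⟨_, rfl⟩
  obtain ⟨B', hB'⟩ : ∃ B', B' = U1 * m + 1 := ⟨_, rfl⟩
  obtain ⟨U', hU'⟩ : ∃ U', U' = 3 * B' + U + 1 := ⟨_, rfl⟩
  have hev : ∀ᶠ X : ℕ in Filter.atTop, ((A * cc : ℕ) : ℝ) ≤ Real.log X ∧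
      8192 * (K : ℝ) ^ 2 * (1 + A) ≤ Real.log X ∧ (4 : ℝ) ≤ Real.log X ∧
      (16 * K) * Real.log X ^ B' ≤ (X : ℝ) ^ (1 : ℝ) ∧ 3 ≤ X := by
    filter_upwards [log_big ((A * cc : ℕ) : ℝ), log_big (8192 * (K : ℝ) ^ 2 * (1 + A)),
      log_big (4 : ℝ), log_X_pow B' 1 one_pos (16 * K),
      Filter.eventually_ge_atTop 3] with X h1 h2 h3 h4 h7
    exact ⟨h1, h2, h3, h4, h7⟩
  obtain ⟨X0, hX0⟩ := Filter.eventually_atTop.1 hev
  refine ⟨B', U', max X0 1, by omega, fun x hx e hQ hdisc I => ?_⟩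
  have hx0 : X0 ≤ x := (le_max_left _ _).trans hx
  have hx1 : 1 ≤ x := (le_max_right _ _).trans hx
  obtain ⟨X, hX⟩ : ∃ X, X = K * x ^ d := ⟨_, rfl⟩
  rw [← hX] at hQ hdisc ⊢
  have hxX : x ≤ X := by
    rw [hX]
    calc x = 1 * x ^ 1 := by ring
      _ ≤ K * x ^ d := Nat.mul_le_mul hK (Nat.pow_le_pow_right hx1 hd)
  obtain ⟨e1, e2, hL4, e4, e7⟩ := hX0 X (hx0.trans hxX)
  rw [Real.rpow_one] at e4
  have hX3 : (3 : ℝ) ≤ X := by exact_mod_cast e7
  have hXpos : (0 : ℝ) < X := by linarith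
  obtain ⟨L, hL⟩ : ∃ L, L = Real.log X := ⟨_, rfl⟩
  rw [← hL] at hQ hdisc e1 e2 e4 hL4 ⊢
  have hL0 : 0 < L := by linarith
  have hL1 : 1 ≤ L := by linarith
  -- parameters
  have hK0 : (0 : ℝ) < K := by exact_mod_cast hK
  have hK1 : (1 : ℝ) ≤ K := by exact_mod_cast hK
  have hxd : (X : ℝ) = K * (x : ℝ) ^ d := by rw [hX]; push_cast; ring
  have hxr : (1 : ℝ) ≤ x := by exact_mod_cast hx1
  set V : ℝ := cc * (L ^ U1) ^ m with hV
  have hcc1 : (1 : ℝ) ≤ cc := by exact_mod_cast hcc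
  have hA1r : (1 : ℝ) ≤ A := by exact_mod_cast hA2
  have hV1 : 1 ≤ V := by
    rw [hV]
    have : 1 ≤ (L ^ U1) ^ m := one_le_pow₀ (one_le_pow₀ hL1)
    nlinarith
  have hAV : A * V ≤ L ^ B' := by
    rw [hV, hB', pow_succ, pow_mul]
    push_cast at e1
    calc (A : ℝ) * (cc * (L ^ U1) ^ m) = (L ^ U1) ^ m * (A * cc) := by ring
      _ ≤ (L ^ U1) ^ m * L := mul_le_mul_of_nonneg_left e1 (by positivity)
  have hVB : V ≤ L ^ B' := by nlinarith
  set y : ℝ := (x : ℝ) ^ d / (8 * V) with hy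
  have hy2 : 2 ≤ y := by
    rw [hy, le_div_iff₀ (by positivity)]
    have h1 : 16 * K * L ^ B' ≤ K * (x : ℝ) ^ d := by rw [← hxd]; exact e4
    have h2 : 16 * L ^ B' ≤ (x : ℝ) ^ d := by
      have h3 : K * (16 * L ^ B') ≤ K * (x : ℝ) ^ d := by linarith
      exact le_of_mul_le_mul_left h3 hK0
    linarith
  set J : ℕ := ⌊y⌋₊ with hJ
  have hJle : (J : ℝ) ≤ y := Nat.floor_le (by linarith)
  have hJge : y / 2 ≤ J := by
    have h1 : y < J + 1 := Nat.lt_floor_add_one y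
    linarith
  have hJ1 : 1 ≤ J := by
    have : (1 : ℝ) ≤ J := by linarith
    exact_mod_cast this
  have hJpos : (0 : ℝ) < J := by exact_mod_cast hJ1
  have hyV : y * (8 * V) = (x : ℝ) ^ d := by
    rw [hy]
    field_simp
  have hmain := HT f A hdd.symm.le hA1 hA2 x X J e (X * L ^ G) (X / L ^ U') (L ^ U1) I hx1 hJ1
    (one_le_pow₀ hL1)
    (by
      calc 8 * (J : ℝ) * (cc * (L ^ U1) ^ m) = J * (8 * V) := by rw [hV]; ring
        _ ≤ y * (8 * V) := mul_le_mul_of_nonneg_right hJle (by positivity)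
        _ = _ := hyV) hQ
    (by
      intro q hq hq2 b t ht
      exact hdisc q hq (hq2.trans hAV) b t ht)
  refine hmain.trans ?_
  -- the first term
  have t1 : (x : ℝ) ^ 2 / L ^ U1 * (X * L ^ G) ≤ (x : ℝ) ^ 2 * X / (2 * L ^ U) := by
    calc (x : ℝ) ^ 2 / L ^ U1 * (X * L ^ G) = (x : ℝ) ^ 2 * X / (2 * L ^ U) * (2 / L) := by
          rw [hU1]
          field_simp
          ring
      _ ≤ (x : ℝ) ^ 2 * X / (2 * L ^ U) * 1 := by
          apply mul_le_mul_of_nonneg_left _ (by positivity)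
          rw [div_le_one hL0]
          linarith
      _ = _ := mul_one _
  -- the second term
  have t2 : (x : ℝ) ^ 2 * ((cc * (L ^ U1) ^ m) * (4 / (J : ℝ) ^ 2 *
      (((X : ℝ) + A * (cc * (L ^ U1) ^ m) * J) * (2 * (X / L ^ U')) ^ 2))) ≤
      (x : ℝ) ^ 2 * X / (2 * L ^ U) := by
    rw [← hV]
    have h1 : (X : ℝ) + A * V * J ≤ X * (1 + A) := by
      have h2 : V * J ≤ (x : ℝ) ^ d := by
        calc V * J ≤ V * y := mul_le_mul_of_nonneg_left hJle (by positivity)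
          _ ≤ y * (8 * V) := by nlinarith
          _ = _ := hyV
      have h3 : (x : ℝ) ^ d ≤ X := by
        rw [hxd]
        have : 0 ≤ (x : ℝ) ^ d := by positivity
        nlinarith
      have h4 : A * (V * J) ≤ A * (X : ℝ) := mul_le_mul_of_nonneg_left (h2.trans h3) (by positivity)
      linarith
    have h2 : 4 / (J : ℝ) ^ 2 ≤ 1024 * V ^ 2 / ((x : ℝ) ^ d) ^ 2 := by
      have h3 : (x : ℝ) ^ d / (16 * V) ≤ J := by
        have : (x : ℝ) ^ d / (16 * V) = y / 2 := by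
          rw [hy]
          field_simp
          ring
        rw [this]
        exact hJge
      have h4 : ((x : ℝ) ^ d / (16 * V)) ^ 2 ≤ (J : ℝ) ^ 2 := pow_le_pow_left₀ (by positivity) h3 2
      calc 4 / (J : ℝ) ^ 2 ≤ 4 / ((x : ℝ) ^ d / (16 * V)) ^ 2 :=
            div_le_div_of_nonneg_left (by norm_num) (by positivity) h4
        _ = _ := by
            field_simp
            ring
    have h5 : V ^ 3 ≤ (L ^ B') ^ 3 := pow_le_pow_left₀ (by linarith) hVB 3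
    have hxd0 : (0 : ℝ) < (x : ℝ) ^ d := by positivity
    calc (x : ℝ) ^ 2 * (V * (4 / (J : ℝ) ^ 2 * (((X : ℝ) + A * V * J) * (2 * (X / L ^ U')) ^ 2))) ≤
        (x : ℝ) ^ 2 * (V * (1024 * V ^ 2 / ((x : ℝ) ^ d) ^ 2 *
          ((X * (1 + A)) * (2 * (X / L ^ U')) ^ 2))) := by
          apply mul_le_mul_of_nonneg_left _ (by positivity)
          apply mul_le_mul_of_nonneg_left _ (by positivity)
          apply mul_le_mul h2 _ (by positivity) (by positivity)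
          exact mul_le_mul_of_nonneg_right h1 (by positivity)
      _ = (x : ℝ) ^ 2 * X * (4096 * (K : ℝ) ^ 2 * (1 + A)) * V ^ 3 / (L ^ U') ^ 2 := by
          rw [hxd]
          field_simp
          ring
      _ ≤ (x : ℝ) ^ 2 * X * (4096 * (K : ℝ) ^ 2 * (1 + A)) * (L ^ B') ^ 3 / (L ^ U') ^ 2 := by
          apply div_le_div_of_nonneg_right _ (by positivity)
          exact mul_le_mul_of_nonneg_left h5 (by positivity)
      _ = (x : ℝ) ^ 2 * X / (2 * L ^ U) * ((8192 * (K : ℝ) ^ 2 * (1 + A)) / (L * L ^ U')) := by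
          have h6 : (L ^ U') ^ 2 = L ^ U' * ((L ^ B') ^ 3 * L ^ U * L) := by
            rw [hU']
            ring
          rw [h6]
          field_simp
          ring
      _ ≤ (x : ℝ) ^ 2 * X / (2 * L ^ U) * 1 := by
          apply mul_le_mul_of_nonneg_left _ (by positivity)
          rw [div_le_one (by positivity)]
          have h7 : 1 ≤ L ^ U' := one_le_pow₀ hL1
          nlinarith
      _ = _ := mul_one _
  calc _ ≤ (x : ℝ) ^ 2 * X / (2 * L ^ U) + (x : ℝ) ^ 2 * X / (2 * L ^ U) := add_le_add t1 t2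
    _ = (x : ℝ) ^ 2 * X / L ^ U := by
        field_simp
        ring

end Pool.Agent.H542.MT
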