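import Pool.Agent.H542.MT.M9
import Pool.Graph.R_seed8.H387R2.MB9
import Pool.Agent.H542.MT.G1

/-!
The mean square of the function of Maynard's sieve.
-/

set_option autoImplicit false

namespace Pool.Agent.H542.MT

open Finset
open Pool.Agent.H542.TW (mem_pz)
open Pool.Agent.H542.G (log_X_pow log_big)
open Pool.Agent.H373R2.T7 (pz)
open Pool.Agent.H378R2

/-- the divisor function -/
noncomputable def tau (n : ℤ) : ℝ := (n.natAbs.divisors.card : ℝ)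

lemma tau_ge_one {n : ℤ} (hn : n ≠ 0) : 1 ≤ tau n := by
  unfold tau
  exact_mod_cast card_pos.2 ⟨1, Nat.mem_divisors.2 ⟨one_dvd _, by simpa using hn⟩⟩

lemma tau_nonneg (n : ℤ) : 0 ≤ tau n := Nat.cast_nonneg _

/-- the divisor sum is at most the number of divisors -/
lemma VVm_tau (E : Finset ℕ) (R : ℕ) (L : ℝ) (F : ℝ → ℝ) (hF : ∀ x, |F x| ≤ 1) (n : ℤ) (hn : n ≠ 0) :
    |VVm E R L F n| ≤ tau n := by
  classical
  unfold VVm tau
  refine (abs_sum_le_sum_abs _ _).trans ?_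
  have h1 : ∀ d ∈ adm E R, |if (d : ℤ) ∣ n then ((ArithmeticFunction.moebius d : ℤ) : ℝ) * F (Real.log d / L) else 0| ≤
      if (d : ℤ) ∣ n then 1 else 0 := by
    intro d _
    by_cases hd : (d : ℤ) ∣ n
    · rw [if_pos hd, if_pos hd, abs_mul]
      have hm : |((ArithmeticFunction.moebius d : ℤ) : ℝ)| ≤ 1 := by
        rw [← Int.cast_abs]
        exact_mod_cast ArithmeticFunction.abs_moebius_le_one
      calc |((ArithmeticFunction.moebius d : ℤ) : ℝ)| * |F (Real.log d / L)| ≤ 1 * 1 := by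
            apply mul_le_mul hm (hF _) (abs_nonneg _) zero_le_one
        _ = 1 := one_mul 1
    · rw [if_neg hd, if_neg hd, abs_zero]
  refine (sum_le_sum h1).trans ?_
  rw [← sum_filter, sum_const, nsmul_eq_mul, mul_one]
  have h2 : ((adm E R).filter (fun d : ℕ => (d : ℤ) ∣ n)) ⊆ n.natAbs.divisors := by
    intro d hd
    rw [mem_filter] at hd
    exact Nat.mem_divisors.2 ⟨Int.natCast_dvd.1 hd.2, by simpa using hn⟩
  exact_mod_cast card_le_card h2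

/-- the number of divisors of all the translates -/
noncomputable def PiT {K : ℕ} (t : Fin K → ℕ) (n : ℤ) : ℝ := ∏ j, tau (n + t j)

lemma PiT_ge_one {K : ℕ} (t : Fin K → ℕ) (n : ℤ) (hn : 1 ≤ n) : 1 ≤ PiT t n := by
  unfold PiT
  have : ∀ j ∈ (univ : Finset (Fin K)), (1 : ℝ) ≤ tau (n + t j) := fun j _ => tau_ge_one (by omega)
  calc (1 : ℝ) = ∏ _j : Fin K, (1 : ℝ) := by simp
    _ ≤ _ := prod_le_prod (fun _ _ => zero_le_one) this

lemma pf_le {K B : ℕ} (z : ℕ) (X : ℝ) (f : Fin B → ℝ → ℝ) (hf1 : ∀ l x, |f l x| ≤ 1) (a b : Fin K → Fin B)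
    (t : Fin K → ℕ) (n : ℤ) (hn : 1 ≤ n) : |pf z X f a b t n| ≤ PiT t n ^ 2 := by
  unfold pf PiT
  rw [abs_prod, ← prod_pow]
  apply prod_le_prod
  · intro _ _; exact abs_nonneg _
  · intro j _
    rw [abs_mul, sq]
    have h0 : n + t j ≠ 0 := by omega
    exact mul_le_mul (VVm_tau _ _ _ _ (hf1 _) _ h0) (VVm_tau _ _ _ _ (hf1 _) _ h0) (abs_nonneg _) (tau_nonneg _)

lemma pf_self_nonneg {K B : ℕ} (z : ℕ) (X : ℝ) (f : Fin B → ℝ → ℝ) (a : Fin K → Fin B)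
    (t : Fin K → ℕ) (n : ℤ) : 0 ≤ pf z X f a a t n := by
  unfold pf
  exact prod_nonneg fun j _ => mul_self_nonneg _

lemma wf_nonneg {K0 B : ℕ} (z : ℕ) (X : ℝ) (f : Fin B → ℝ → ℝ) (A : Finset (Fin (K0 + 1) → Fin B))
    (t : Fin (K0 + 1) → ℕ) (n : ℤ) : 0 ≤ wf z X f A t n := sq_nonneg _

lemma w3_nonneg {K0 B : ℕ} (z : ℕ) (X δ : ℝ) (f : Fin B → ℝ → ℝ) (A : Finset (Fin (K0 + 1) → Fin B))
    (t : Fin (K0 + 1) → ℕ) (n : ℤ) : 0 ≤ w3 z X δ f A t n := by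
  unfold w3
  apply sum_nonneg; intro j _
  apply sum_nonneg; intro p _
  apply sum_nonneg; intro a _
  split_ifs
  · exact pf_self_nonneg _ _ _ _ _ _
  · exact le_rfl

lemma wf_le {K0 B : ℕ} (z : ℕ) (X : ℝ) (f : Fin B → ℝ → ℝ) (hf1 : ∀ l x, |f l x| ≤ 1)
    (A : Finset (Fin (K0 + 1) → Fin B)) (t : Fin (K0 + 1) → ℕ) (n : ℤ) (hn : 1 ≤ n) :
    wf z X f A t n ≤ (A.card : ℝ) * ((A.card : ℝ) * PiT t n ^ 2) := by
  rw [wf_eq]
  calc ∑ a ∈ A, ∑ b ∈ A, pf z X f a b t n ≤ ∑ _a ∈ A, ∑ _b ∈ A, PiT t n ^ 2 := by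
        apply sum_le_sum; intro a _
        apply sum_le_sum; intro b _
        exact (le_abs_self _).trans (pf_le z X f hf1 a b t n hn)
    _ = _ := by rw [sum_const, sum_const, nsmul_eq_mul, nsmul_eq_mul]

lemma w3_le {K0 B : ℕ} (z : ℕ) (X δ : ℝ) (f : Fin B → ℝ → ℝ) (hf1 : ∀ l x, |f l x| ≤ 1)
    (A : Finset (Fin (K0 + 1) → Fin B)) (t : Fin (K0 + 1) → ℕ) (n : ℤ) (hn : 1 ≤ n) :
    w3 z X δ f A t n ≤ ((K0 + 1 : ℕ) : ℝ) * (A.card : ℝ) * PiT t n ^ 3 := by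
  classical
  have hP1 := PiT_ge_one t n hn
  have hP0 : 0 ≤ PiT t n := by linarith
  unfold w3
  have h1 : ∀ j0 ∈ (univ : Finset (Fin (K0 + 1))), (∑ p ∈ P3s δ X z, ∑ a ∈ A,
      if (p : ℤ) ∣ n + t j0 then pf z X f a a t n else 0) ≤ (A.card : ℝ) * PiT t n ^ 3 := by
    intro j0 _
    have h2 : ∀ p ∈ P3s δ X z, (∑ a ∈ A, if (p : ℤ) ∣ n + t j0 then pf z X f a a t n else 0) ≤
        if (p : ℤ) ∣ n + t j0 then (A.card : ℝ) * PiT t n ^ 2 else 0 := by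
      intro p _
      split_ifs
      · calc ∑ a ∈ A, pf z X f a a t n ≤ ∑ _a ∈ A, PiT t n ^ 2 :=
              sum_le_sum fun a _ => (le_abs_self _).trans (pf_le z X f hf1 a a t n hn)
          _ = _ := by rw [sum_const, nsmul_eq_mul]
      · simp
    refine (sum_le_sum h2).trans ?_
    rw [← sum_filter, sum_const, nsmul_eq_mul]
    have h3 : (((P3s δ X z).filter (fun p : ℕ => (p : ℤ) ∣ n + t j0)).card : ℝ) ≤ PiT t n := by
      have h4 : ((P3s δ X z).filter (fun p : ℕ => (p : ℤ) ∣ n + t j0)) ⊆ (n + t j0).natAbs.divisors := by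
        intro p hp
        rw [mem_filter] at hp
        exact Nat.mem_divisors.2 ⟨Int.natCast_dvd.1 hp.2, by omega⟩
      have h5 : (((P3s δ X z).filter (fun p : ℕ => (p : ℤ) ∣ n + t j0)).card : ℝ) ≤ tau (n + t j0) := by
        unfold tau
        exact_mod_cast card_le_card h4
      refine h5.trans ?_
      unfold PiT
      have h6 : ∀ j ∈ (univ : Finset (Fin (K0 + 1))).erase j0, (1 : ℝ) ≤ tau (n + t j) :=
        fun j _ => tau_ge_one (by omega)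
      rw [← mul_prod_erase univ (fun j => tau (n + t j)) (mem_univ j0)]
      apply le_mul_of_one_le_right (tau_nonneg _)
      calc (1 : ℝ) = ∏ _j ∈ (univ : Finset (Fin (K0 + 1))).erase j0, (1 : ℝ) := by simp
        _ ≤ _ := prod_le_prod (fun _ _ => zero_le_one) h6
    calc _ ≤ PiT t n * ((A.card : ℝ) * PiT t n ^ 2) := mul_le_mul_of_nonneg_right h3 (by positivity)
      _ = _ := by ring
  refine (sum_le_sum h1).trans ?_
  rw [sum_const, nsmul_eq_mul, card_univ, Fintype.card_fin]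
  apply le_of_eq
  ring

lemma th_le {n X : ℕ} (hX : 1 ≤ X) (h : n ≤ 2 * X) : th n ≤ Real.log (2 * X) := by
  unfold th
  split_ifs with hp
  · apply Real.log_le_log (by exact_mod_cast hp.pos)
    exact_mod_cast h
  · apply Real.log_nonneg
    have : (1 : ℝ) ≤ X := by exact_mod_cast hX
    linarith

lemma ef_le {K0 B : ℕ} (ρ ℓ δ : ℝ) (hρ : 0 ≤ ρ) (hℓ : 0 ≤ ℓ) (z X : ℕ) (hX : 1 ≤ X) (f : Fin B → ℝ → ℝ)
    (hf1 : ∀ l x, |f l x| ≤ 1)
    (A : Finset (Fin (K0 + 1) → Fin B)) (t : Fin (K0 + 1) → ℕ) (ht : ∀ i, t i ≤ X) (n : ℤ) (hn : 1 ≤ n)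
    (hnX : n ≤ X) :
    |ef ρ ℓ z X δ f A t n| ≤ (((K0 + 1 : ℕ) : ℝ) * Real.log (2 * X) + ρ + ℓ * (K0 + 1 : ℕ)) *
      (A.card : ℝ) ^ 2 * PiT t n ^ 3 + ℓ * (K0 + 1 : ℕ) * (A.card : ℝ) * PiT t n ^ 3 := by
  have hP1 := PiT_ge_one t n hn
  have hP0 : 0 ≤ PiT t n := by linarith
  have hlog : 0 ≤ Real.log (2 * X) := by
    apply Real.log_nonneg
    have : (1 : ℝ) ≤ X := by exact_mod_cast hX
    linarith
  unfold ef
  split_ifs with hR
  · have h1 := wf_le z X f hf1 A t n hn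
    have h2 := w3_le z X δ f hf1 A t n hn
    have h10 := wf_nonneg z X f A t n
    have h20 := w3_nonneg z X δ f A t n
    have hw : wf z X f A t n ≤ (A.card : ℝ) ^ 2 * PiT t n ^ 3 := by
      refine h1.trans ?_
      have : PiT t n ^ 2 ≤ PiT t n ^ 3 := pow_le_pow_right₀ hP1 (by norm_num)
      calc (A.card : ℝ) * ((A.card : ℝ) * PiT t n ^ 2) = (A.card : ℝ) ^ 2 * PiT t n ^ 2 := by ring
        _ ≤ _ := mul_le_mul_of_nonneg_left this (by positivity)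
    have h3 : ∑ i : Fin (K0 + 1), th (n + t i).toNat * wf z X f A t n ≤
        ((K0 + 1 : ℕ) : ℝ) * Real.log (2 * X) * wf z X f A t n := by
      calc _ ≤ ∑ _i : Fin (K0 + 1), Real.log (2 * X) * wf z X f A t n := by
            apply sum_le_sum
            intro i _
            apply mul_le_mul_of_nonneg_right _ h10
            apply th_le hX
            have := ht i
            omega
        _ = _ := by rw [sum_const, nsmul_eq_mul, card_univ, Fintype.card_fin]; ring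
    have h30 : 0 ≤ ∑ i : Fin (K0 + 1), th (n + t i).toNat * wf z X f A t n :=
      sum_nonneg fun i _ => mul_nonneg (th_nonneg _) h10
    have h4 : ρ * wf z X f A t n ≤ ρ * ((A.card : ℝ) ^ 2 * PiT t n ^ 3) := mul_le_mul_of_nonneg_left hw hρ
    have h5 : ℓ * w3 z X δ f A t n ≤ ℓ * (((K0 + 1 : ℕ) : ℝ) * (A.card : ℝ) * PiT t n ^ 3) :=
      mul_le_mul_of_nonneg_left h2 hℓ
    have h6 : ((K0 + 1 : ℕ) : ℝ) * Real.log (2 * X) * wf z X f A t n ≤
        ((K0 + 1 : ℕ) : ℝ) * Real.log (2 * X) * ((A.card : ℝ) ^ 2 * PiT t n ^ 3) :=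
      mul_le_mul_of_nonneg_left hw (by positivity)
    have h7 : 0 ≤ ρ * wf z X f A t n := by positivity
    have h8 : 0 ≤ ℓ * w3 z X δ f A t n := by positivity
    have h9 : 0 ≤ ℓ * (K0 + 1 : ℕ) * ((A.card : ℝ) ^ 2 * PiT t n ^ 3) := by positivity
    have e1 : (((K0 + 1 : ℕ) : ℝ) * Real.log (2 * X) + ρ + ℓ * (K0 + 1 : ℕ)) *
      (A.card : ℝ) ^ 2 * PiT t n ^ 3 + ℓ * (K0 + 1 : ℕ) * (A.card : ℝ) * PiT t n ^ 3 =
      ((K0 + 1 : ℕ) : ℝ) * Real.log (2 * X) * ((A.card : ℝ) ^ 2 * PiT t n ^ 3) +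
        ρ * ((A.card : ℝ) ^ 2 * PiT t n ^ 3) + ℓ * (K0 + 1 : ℕ) * ((A.card : ℝ) ^ 2 * PiT t n ^ 3) +
        ℓ * (((K0 + 1 : ℕ) : ℝ) * (A.card : ℝ) * PiT t n ^ 3) := by ring
    rw [e1, abs_le]
    have g1 : 0 ≤ ((K0 + 1 : ℕ) : ℝ) * Real.log (2 * X) * ((A.card : ℝ) ^ 2 * PiT t n ^ 3) := by positivity
    have g2 : 0 ≤ ρ * ((A.card : ℝ) ^ 2 * PiT t n ^ 3) := by positivity
    have g3 : 0 ≤ ℓ * (((K0 + 1 : ℕ) : ℝ) * (A.card : ℝ) * PiT t n ^ 3) := by positivity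
    constructor <;> linarith
  · rw [abs_zero]
    positivity

/-- products and powers -/
lemma prod_le_sum_pow {K : ℕ} (y : Fin (K + 1) → ℝ) (hy : ∀ j, 0 ≤ y j) :
    ∏ j, y j ≤ ∑ j, y j ^ (K + 1) := by
  obtain ⟨j0, _, hj0⟩ := exists_max_image (univ : Finset (Fin (K + 1))) y univ_nonempty
  calc ∏ j, y j ≤ ∏ _j : Fin (K + 1), y j0 := prod_le_prod (fun j _ => hy j) fun j _ => hj0 j (mem_univ j)
    _ = y j0 ^ (K + 1) := by rw [prod_const, card_univ, Fintype.card_fin]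
    _ ≤ _ := single_le_sum (f := fun j => y j ^ (K + 1)) (fun j _ => pow_nonneg (hy j) _) (mem_univ j0)

/-- the sum of the powers of the numbers of divisors -/
lemma sum_PiT {K0 : ℕ} (t : Fin (K0 + 1) → ℕ) (c X : ℕ) (ht : ∀ i, t i ≤ X) :
    ∑ n ∈ Icc (1 : ℤ) X, PiT t n ^ c ≤
      ((K0 + 1 : ℕ) : ℝ) * (2 * X * (1 + Real.log (2 * X)) ^ (2 ^ (c * (K0 + 1)))) := by
  have h1 : ∀ n ∈ Icc (1 : ℤ) X, PiT t n ^ c ≤ ∑ j, tau (n + t j) ^ (c * (K0 + 1)) := by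
    intro n _
    unfold PiT
    rw [← prod_pow]
    refine (prod_le_sum_pow _ (fun j => pow_nonneg (tau_nonneg _) _)).trans (le_of_eq ?_)
    apply sum_congr rfl
    intro j _
    rw [← pow_mul]
  refine (sum_le_sum h1).trans ?_
  rw [sum_comm]
  have h2 : ∀ j ∈ (univ : Finset (Fin (K0 + 1))), ∑ n ∈ Icc (1 : ℤ) X, tau (n + t j) ^ (c * (K0 + 1)) ≤
      2 * X * (1 + Real.log (2 * X)) ^ (2 ^ (c * (K0 + 1))) := by
    intro j _
    have h3 : ∑ n ∈ Icc (1 : ℤ) X, tau (n + t j) ^ (c * (K0 + 1)) ≤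
        ∑ k ∈ Icc 1 (2 * X), (k.divisors.card : ℝ) ^ (c * (K0 + 1)) := by
      have h4 : ∑ n ∈ Icc (1 : ℤ) X, tau (n + t j) ^ (c * (K0 + 1)) =
          ∑ k ∈ (Icc (1 : ℤ) X).image (fun n : ℤ => (n + t j).toNat), (k.divisors.card : ℝ) ^ (c * (K0 + 1)) := by
        rw [sum_image]
        · apply sum_congr rfl
          intro n hn
          rw [mem_Icc] at hn
          unfold tau
          have : (n + t j).natAbs = (n + t j).toNat := by omega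
          rw [this]
        · intro a ha b hb hab
          rw [mem_coe, mem_Icc] at ha hb
          simp only at hab
          omega
      rw [h4]
      apply sum_le_sum_of_subset_of_nonneg
      · intro k hk
        rw [mem_image] at hk
        obtain ⟨n, hn, rfl⟩ := hk
        rw [mem_Icc] at hn ⊢
        have := ht j
        omega
      · intro _ _ _; positivity
    refine h3.trans ?_
    have h5 := tau_mom (c * (K0 + 1)) (2 * X)
    have h6 : ∑ k ∈ Icc 1 (2 * X), (k.divisors.card : ℝ) ^ (c * (K0 + 1)) ≤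
        (2 * X : ℝ) * ∑ k ∈ Icc 1 (2 * X), (k.divisors.card : ℝ) ^ (c * (K0 + 1)) / k := by
      rw [mul_sum]
      apply sum_le_sum
      intro k hk
      rw [mem_Icc] at hk
      have hk0 : (0 : ℝ) < k := by exact_mod_cast hk.1
      have hk2 : (k : ℝ) ≤ 2 * X := by exact_mod_cast hk.2
      rw [mul_div_assoc', le_div_iff₀ hk0, mul_comm]
      exact mul_le_mul_of_nonneg_right hk2 (by positivity)
    refine h6.trans ?_
    push_cast at h5
    exact mul_le_mul_of_nonneg_left h5 (by positivity)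
  refine (sum_le_sum h2).trans ?_
  rw [sum_const, nsmul_eq_mul, card_univ, Fintype.card_fin]

/-- **The mean square.** -/
theorem l2 {K0 B : ℕ} (f : Fin B → ℝ → ℝ) (hf1 : ∀ l x, |f l x| ≤ 1) (A : Finset (Fin (K0 + 1) → Fin B))
    (δ C0 : ℝ) (hC0 : 0 < C0) (t : Fin (K0 + 1) → ℕ) : ∃ X0 : ℕ, ∀ X : ℕ, X0 ≤ X → ∀ (z : ℕ) (ρ ℓ : ℝ),
    0 ≤ ρ → 0 ≤ ℓ → ρ ≤ C0 * Real.log X → ℓ ≤ C0 * Real.log X → |kap ρ ℓ z X δ f A| ≤ C0 * Real.log X →
    ∑ n ∈ Icc (1 : ℤ) X, (ef ρ ℓ z X δ f A t n - kap ρ ℓ z X δ f A * gf z t n) ^ 2 ≤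
      X * Real.log X ^ (2 ^ (6 * (K0 + 1)) + 4) := by
  obtain ⟨e, he⟩ : ∃ e : ℕ, e = 2 ^ (6 * (K0 + 1)) := ⟨_, rfl⟩
  obtain ⟨K, hK⟩ : ∃ K : ℝ, K = ((K0 + 1 : ℕ) : ℝ) := ⟨_, rfl⟩
  obtain ⟨a2, ha2⟩ : ∃ a2 : ℝ, a2 = (A.card : ℝ) := ⟨_, rfl⟩
  have hK0 : 0 ≤ K := by rw [hK]; exact Nat.cast_nonneg _
  have ha20 : 0 ≤ a2 := by rw [ha2]; exact Nat.cast_nonneg _
  obtain ⟨D, hD⟩ : ∃ D : ℝ, D = (K * 2 + C0 + C0 * K) * a2 ^ 2 + C0 * K * a2 := ⟨_, rfl⟩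
  have hD0 : 0 ≤ D := by rw [hD]; positivity
  obtain ⟨N0, hN0⟩ : ∃ N0 : ℕ, N0 = ∑ i, t i := ⟨_, rfl⟩
  have hev : ∀ᶠ X : ℕ in Filter.atTop, 2 * D ^ 2 * (K * (2 * 2 ^ e)) + 2 * C0 ^ 2 ≤ Real.log X ∧ 4 ≤ Real.log X ∧
      N0 ≤ X ∧ 3 ≤ X := by
    filter_upwards [log_big (2 * D ^ 2 * (K * (2 * 2 ^ e)) + 2 * C0 ^ 2), log_big 4, Filter.eventually_ge_atTop N0,
      Filter.eventually_ge_atTop 3] with X h1 h2 h3 h4
    exact ⟨h1, h2, h3, h4⟩
  obtain ⟨X0, hX0⟩ := Filter.eventually_atTop.1 hev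
  refine ⟨X0, fun X hX z ρ ℓ hρ0 hℓ0 hρ hℓ hk => ?_⟩
  obtain ⟨e1, e2, e3, e4⟩ := hX0 X hX
  have ht : ∀ i, t i ≤ X := fun i => by
    refine le_trans ?_ e3
    rw [hN0]
    exact single_le_sum (f := fun i => t i) (fun _ _ => Nat.zero_le _) (mem_univ i)
  have hX3 : (3 : ℝ) ≤ X := by exact_mod_cast e4
  obtain ⟨l, hl⟩ : ∃ l, l = Real.log X := ⟨_, rfl⟩
  have hl2 : Real.log (2 * X) ≤ 2 * l := by
    rw [Real.log_mul (by norm_num) (by linarith), ← hl]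
    have := Real.log_two_lt_d9
    linarith
  have hl20 : 0 ≤ Real.log (2 * X) := Real.log_nonneg (by linarith)
  rw [← he]
  rw [← hl] at e1 e2 hρ hℓ hk ⊢
  have hl0 : 0 < l := by linarith
  have hl1 : 1 ≤ l := by linarith
  have hgf : ∀ n, |gf z t n| ≤ 1 := by
    intro n
    unfold gf
    split_ifs <;> norm_num
  have hpt : ∀ n ∈ Icc (1 : ℤ) X, (ef ρ ℓ z X δ f A t n - kap ρ ℓ z X δ f A * gf z t n) ^ 2 ≤
      2 * (D * l) ^ 2 * PiT t n ^ 6 + 2 * (C0 * l) ^ 2 := by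
    intro n hn
    rw [mem_Icc] at hn
    have h1 : (ef ρ ℓ z X δ f A t n - kap ρ ℓ z X δ f A * gf z t n) ^ 2 ≤
        2 * (ef ρ ℓ z X δ f A t n) ^ 2 + 2 * (kap ρ ℓ z X δ f A * gf z t n) ^ 2 := by
      nlinarith [sq_nonneg (ef ρ ℓ z X δ f A t n + kap ρ ℓ z X δ f A * gf z t n)]
    have h2 : (kap ρ ℓ z X δ f A * gf z t n) ^ 2 ≤ (C0 * l) ^ 2 := by
      rw [← sq_abs]
      apply pow_le_pow_left₀ (abs_nonneg _)
      rw [abs_mul]
      calc |kap ρ ℓ z X δ f A| * |gf z t n| ≤ (C0 * l) * 1 :=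
            mul_le_mul hk (hgf n) (abs_nonneg _) (by positivity)
        _ = _ := mul_one _
    have h3 := ef_le ρ ℓ δ hρ0 hℓ0 z X (by omega) f hf1 A t ht n hn.1 hn.2
    rw [← hK, ← ha2] at h3
    have hP1 := PiT_ge_one t n hn.1
    have hP0 : 0 ≤ PiT t n := by linarith
    have h4 : |ef ρ ℓ z X δ f A t n| ≤ (D * l) * PiT t n ^ 3 := by
      refine h3.trans ?_
      have g1 : K * Real.log (2 * X) ≤ K * (2 * l) := mul_le_mul_of_nonneg_left hl2 hK0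
      have g2 : ℓ * K ≤ C0 * l * K := mul_le_mul_of_nonneg_right hℓ hK0
      have g3 : (K * Real.log (2 * X) + ρ + ℓ * K) * a2 ^ 2 * PiT t n ^ 3 ≤
          ((K * (2 * l) + C0 * l + C0 * l * K) * a2 ^ 2) * PiT t n ^ 3 := by
        apply mul_le_mul_of_nonneg_right _ (by positivity)
        apply mul_le_mul_of_nonneg_right _ (by positivity)
        linarith
      have g4 : ℓ * K * a2 * PiT t n ^ 3 ≤ (C0 * l * K) * a2 * PiT t n ^ 3 := by
        apply mul_le_mul_of_nonneg_right _ (by positivity)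
        exact mul_le_mul_of_nonneg_right g2 ha20
      calc _ ≤ ((K * (2 * l) + C0 * l + C0 * l * K) * a2 ^ 2) * PiT t n ^ 3 + (C0 * l * K) * a2 * PiT t n ^ 3 :=
            add_le_add g3 g4
        _ = _ := by rw [hD]; ring
    have h5 : (ef ρ ℓ z X δ f A t n) ^ 2 ≤ (D * l) ^ 2 * PiT t n ^ 6 := by
      rw [← sq_abs]
      calc |ef ρ ℓ z X δ f A t n| ^ 2 ≤ ((D * l) * PiT t n ^ 3) ^ 2 := pow_le_pow_left₀ (abs_nonneg _) h4 2
        _ = _ := by ring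
    linarith
  refine (sum_le_sum hpt).trans ?_
  rw [sum_add_distrib, ← mul_sum, sum_const, Int.card_Icc, nsmul_eq_mul]
  have hcard : ((((X : ℤ) + 1 - 1).toNat : ℕ) : ℝ) = X := by
    rw [add_sub_cancel_right, Int.toNat_natCast]
  rw [hcard]
  have h6 := sum_PiT t 6 X ht
  rw [← he, ← hK] at h6
  have hX0' : (0 : ℝ) < X := by linarith
  have h7 : (1 + Real.log (2 * X)) ^ e ≤ (2 * l) ^ e := by
    apply pow_le_pow_left₀ (by linarith)
    rw [Real.log_mul (by norm_num) (by linarith), ← hl]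
    have := Real.log_two_lt_d9
    linarith
  have h8 : ∑ n ∈ Icc (1 : ℤ) X, PiT t n ^ 6 ≤ K * (2 * X * (2 * l) ^ e) := by
    refine h6.trans ?_
    apply mul_le_mul_of_nonneg_left _ hK0
    exact mul_le_mul_of_nonneg_left h7 (by positivity)
  calc 2 * (D * l) ^ 2 * ∑ n ∈ Icc (1 : ℤ) X, PiT t n ^ 6 + X * (2 * (C0 * l) ^ 2) ≤
      2 * (D * l) ^ 2 * (K * (2 * X * (2 * l) ^ e)) + X * (2 * (C0 * l) ^ 2) := by
        have := mul_le_mul_of_nonneg_left h8 (show 0 ≤ 2 * (D * l) ^ 2 by positivity)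
        linarith
    _ = X * l ^ 2 * (2 * D ^ 2 * (K * (2 * 2 ^ e)) * l ^ e + 2 * C0 ^ 2) := by
        rw [mul_pow 2 l e]; ring
    _ ≤ X * l ^ 2 * ((2 * D ^ 2 * (K * (2 * 2 ^ e)) + 2 * C0 ^ 2) * l ^ e) := by
        apply mul_le_mul_of_nonneg_left _ (by positivity)
        have h1 : 2 * C0 ^ 2 * 1 ≤ 2 * C0 ^ 2 * l ^ e := by
          apply mul_le_mul_of_nonneg_left _ (by positivity)
          exact one_le_pow₀ hl1
        linarith
    _ ≤ X * l ^ 2 * (l * l ^ e) := by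
        apply mul_le_mul_of_nonneg_left _ (by positivity)
        exact mul_le_mul_of_nonneg_right e1 (by positivity)
    _ = X * l ^ (e + 3) := by ring
    _ ≤ X * l ^ (e + 4) := by
        apply mul_le_mul_of_nonneg_left _ hX0'.le
        exact pow_le_pow_right₀ hl1 (by omega)

end Pool.Agent.H542.MT
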