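import Pool.Agent.H542.MT.M15

/-!
The pointwise upper bound of the function of Maynard's sieve.
-/

set_option autoImplicit false

namespace Pool.Agent.H542.MT

open Finset
open Pool.Agent.H542.TW (mem_pz)
open Pool.Agent.H373R2.T7 (pz)
open Pool.Agent.H378R2

open Classical in
/-- at least `k + 1` prime translates, and no translate has a small prime factor -/
def Gd {K : ℕ} (k : ℕ) (y : ℝ) (t : Fin K → ℕ) (n : ℤ) : Prop :=
  k + 1 ≤ (univ.filter (fun j => (n + t j).toNat.Prime)).card ∧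
  ∀ j, ∀ p : ℕ, p.Prime → (p : ℝ) ≤ y → ¬ (p : ℤ) ∣ n + t j

open Classical in
theorem ef_up {K0 B : ℕ} (k : ℕ) (δ : ℝ) (hδ : 0 < δ) (z X : ℕ) (hX : 4 ≤ X) (hL : 1 ≤ LL X)
    (f : Fin B → ℝ → ℝ) (hf1 : ∀ l x, |f l x| ≤ 1)
    (A : Finset (Fin (K0 + 1) → Fin B)) (t : Fin (K0 + 1) → ℕ) (ht : ∀ i, t i ≤ X) (n : ℤ) (hn : 1 ≤ n)
    (hnX : n ≤ X) :
    ef (k * Real.log (2 * X)) ((K0 + 1 : ℕ) * Real.log (2 * X) * A.card) z X δ f A t n ≤
      (K0 + 1 : ℕ) * Real.log (2 * X) * ((A.card : ℝ) ^ 2 * (2 ^ ⌈400 / δ⌉₊) ^ (2 * (K0 + 1))) *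
        (if Gd k (Real.exp (δ * LL X)) t n then 1 else 0) := by
  obtain ⟨l, hl⟩ : ∃ l, l = Real.log (2 * X) := ⟨_, rfl⟩
  have hl0 : 0 ≤ l := by
    rw [hl]
    apply Real.log_nonneg
    have : (4 : ℝ) ≤ X := by exact_mod_cast hX
    linarith
  rw [← hl]
  have hRHS : 0 ≤ (K0 + 1 : ℕ) * l * ((A.card : ℝ) ^ 2 * (2 ^ ⌈400 / δ⌉₊) ^ (2 * (K0 + 1))) *
        (if Gd k (Real.exp (δ * LL X)) t n then 1 else 0) := by
    apply mul_nonneg (by positivity)
    split_ifs <;> norm_num
  unfold ef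
  by_cases hR : Rgt z (fun j => (t j : ℤ)) n
  swap
  · rw [if_neg hR]
    exact hRHS
  rw [if_pos hR]
  have hw0 := wf_nonneg z X f A t n
  have hw30 := w3_nonneg z X δ f A t n
  have hthl : ∀ i, th (n + t i).toNat ≤ l := by
    intro i
    rw [hl]
    apply th_le (by omega)
    have := ht i
    omega
  by_cases hcase : ∃ j0, ∃ p ∈ P3s δ X z, (p : ℤ) ∣ n + t j0
  · -- a medium prime factor
    obtain ⟨j0, p, hp, hpd⟩ := hcase
    have h1 : ∑ a ∈ A, pf z X f a a t n ≤ w3 z X δ f A t n := by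
      unfold w3
      have g1 : (∑ a ∈ A, if (p : ℤ) ∣ n + t j0 then pf z X f a a t n else 0) ≤
          ∑ p ∈ P3s δ X z, ∑ a ∈ A, if (p : ℤ) ∣ n + t j0 then pf z X f a a t n else 0 := by
        refine single_le_sum (f := fun p : ℕ => ∑ a ∈ A, if (p : ℤ) ∣ n + t j0 then pf z X f a a t n else 0)
          (fun p _ => ?_) hp
        apply sum_nonneg; intro a _
        split_ifs
        · exact pf_self_nonneg _ _ _ _ _ _
        · exact le_rfl
      have g2 : (∑ p ∈ P3s δ X z, ∑ a ∈ A, if (p : ℤ) ∣ n + t j0 then pf z X f a a t n else 0) ≤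
          ∑ j0 : Fin (K0 + 1), ∑ p ∈ P3s δ X z, ∑ a ∈ A, if (p : ℤ) ∣ n + t j0 then pf z X f a a t n else 0 := by
        refine single_le_sum (f := fun j0 : Fin (K0 + 1) => ∑ p ∈ P3s δ X z, ∑ a ∈ A,
          if (p : ℤ) ∣ n + t j0 then pf z X f a a t n else 0) (fun j _ => ?_) (mem_univ j0)
        apply sum_nonneg; intro p _
        apply sum_nonneg; intro a _
        split_ifs
        · exact pf_self_nonneg _ _ _ _ _ _
        · exact le_rfl
      refine le_trans (le_of_eq ?_) (g1.trans g2)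
      apply sum_congr rfl
      intro a _
      rw [if_pos hpd]
    have h2 : wf z X f A t n ≤ A.card * ∑ a ∈ A, pf z X f a a t n := by
      unfold wf pf
      exact Pool.Agent.H387R2.MB.sqw_sq_le_sum (pz z) X f A (fun j => n + t j)
    have h3 : ∑ i : Fin (K0 + 1), th (n + t i).toNat * wf z X f A t n ≤
        ((K0 + 1 : ℕ) : ℝ) * l * wf z X f A t n := by
      calc _ ≤ ∑ _i : Fin (K0 + 1), l * wf z X f A t n := by
            apply sum_le_sum
            intro i _
            exact mul_le_mul_of_nonneg_right (hthl i) hw0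
        _ = _ := by rw [sum_const, nsmul_eq_mul, card_univ, Fintype.card_fin]; ring
    have h4 : ((K0 + 1 : ℕ) : ℝ) * l * wf z X f A t n ≤ ((K0 + 1 : ℕ) : ℝ) * l * (A.card * w3 z X δ f A t n) := by
      apply mul_le_mul_of_nonneg_left _ (by positivity)
      exact h2.trans (mul_le_mul_of_nonneg_left h1 (Nat.cast_nonneg _))
    have h5 : 0 ≤ (k : ℝ) * l * wf z X f A t n := by positivity
    linarith
  · -- no medium prime factor
    push Not at hcase
    have hno : ∀ j, ∀ p : ℕ, p.Prime → (p : ℝ) ≤ Real.exp (δ * LL X) → ¬ (p : ℤ) ∣ n + t j := by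
      intro j p hp hpe
      by_cases hpz : p ≤ z
      · exact hR p (mem_pz.2 ⟨hp, hpz⟩) j
      · apply hcase j p
        unfold P3s
        rw [mem_filter]
        exact ⟨Pool.Agent.H387R2.MB.mem_PS.2 ⟨hp, hpe⟩, by omega⟩
    obtain ⟨S, hS⟩ : ∃ S : Finset (Fin (K0 + 1)), S = univ.filter (fun j => (n + t j).toNat.Prime) := ⟨_, rfl⟩
    have h3 : ∑ i : Fin (K0 + 1), th (n + t i).toNat * wf z X f A t n ≤ (S.card : ℝ) * l * wf z X f A t n := by
      have h6 : ∀ i ∈ (univ : Finset (Fin (K0 + 1))), th (n + t i).toNat * wf z X f A t n ≤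
          if (n + t i).toNat.Prime then l * wf z X f A t n else 0 := by
        intro i _
        split_ifs with hp
        · exact mul_le_mul_of_nonneg_right (hthl i) hw0
        · unfold th
          rw [if_neg hp, zero_mul]
      refine (sum_le_sum h6).trans (le_of_eq ?_)
      rw [← sum_filter, ← hS, sum_const, nsmul_eq_mul]
      ring
    by_cases hSk : k + 1 ≤ S.card
    · have hG : Gd k (Real.exp (δ * LL X)) t n := ⟨by rw [hS] at hSk; exact hSk, hno⟩
      rw [if_pos hG, mul_one]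
      have hSK : (S.card : ℝ) ≤ ((K0 + 1 : ℕ) : ℝ) := by
        have := card_le_univ S
        rw [Fintype.card_fin] at this
        exact_mod_cast this
      obtain ⟨D, hD⟩ : ∃ D : ℝ, D = 2 ^ ⌈400 / δ⌉₊ := ⟨_, rfl⟩
      rw [← hD]
      have hD0 : 0 ≤ D := by rw [hD]; positivity
      have hV : ∀ (l : Fin B) (j : Fin (K0 + 1)), |VVm (pz z) (RR X) (LL X) (f l) (n + t j)| ≤ D := by
        intro l j
        have h7 : ((n + t j).toNat : ℤ) = n + t j := Int.toNat_of_nonneg (by omega)
        rw [← h7, hD]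
        have ht' := ht j
        apply Pool.Agent.H387R2.MB.VV_rg_le hδ (by exact_mod_cast hX) hL (by omega)
        · have : (n + t j).toNat ≤ 4 * X := by omega
          exact_mod_cast this
        · intro p hp hpd
          rw [Pool.Agent.H387R2.MB.mem_PS] at hp
          apply hno j p hp.1 hp.2
          rw [← h7]
          exact Int.natCast_dvd_natCast.2 hpd
        · exact hf1 l
      have hpfD : ∀ a b : Fin (K0 + 1) → Fin B, pf z X f a b t n ≤ D ^ (2 * (K0 + 1)) := by
        intro a b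
        refine (le_abs_self _).trans ?_
        unfold pf
        rw [abs_prod]
        calc _ ≤ ∏ _j : Fin (K0 + 1), D ^ 2 := by
              apply prod_le_prod (fun _ _ => abs_nonneg _)
              intro j _
              rw [abs_mul, sq]
              exact mul_le_mul (hV _ j) (hV _ j) (abs_nonneg _) hD0
          _ = _ := by rw [prod_const, card_univ, Fintype.card_fin, ← pow_mul]
      have hwD : wf z X f A t n ≤ (A.card : ℝ) ^ 2 * D ^ (2 * (K0 + 1)) := by
        rw [wf_eq]
        calc ∑ a ∈ A, ∑ b ∈ A, pf z X f a b t n ≤ ∑ _a ∈ A, ∑ _b ∈ A, D ^ (2 * (K0 + 1)) := by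
              apply sum_le_sum; intro a _
              apply sum_le_sum; intro b _
              exact hpfD a b
          _ = _ := by rw [sum_const, sum_const, nsmul_eq_mul, nsmul_eq_mul]; ring
      have h8 : (S.card : ℝ) * l * wf z X f A t n ≤ ((K0 + 1 : ℕ) : ℝ) * l * ((A.card : ℝ) ^ 2 * D ^ (2 * (K0 + 1))) := by
        apply mul_le_mul _ hwD hw0 (by positivity)
        exact mul_le_mul_of_nonneg_right hSK hl0
      have h5 : 0 ≤ (k : ℝ) * l * wf z X f A t n := by positivity
      have h6 : 0 ≤ ((K0 + 1 : ℕ) : ℝ) * l * (A.card : ℝ) * w3 z X δ f A t n := by positivity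
      linarith
    · have hSk2 : (S.card : ℝ) ≤ k := by exact_mod_cast (by omega : S.card ≤ k)
      have h8 : (S.card : ℝ) * l * wf z X f A t n ≤ (k : ℝ) * l * wf z X f A t n := by
        apply mul_le_mul_of_nonneg_right _ hw0
        exact mul_le_mul_of_nonneg_right hSk2 hl0
      have h6 : 0 ≤ ((K0 + 1 : ℕ) : ℝ) * l * (A.card : ℝ) * w3 z X δ f A t n := by positivity
      linarith

end Pool.Agent.H542.MT
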