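import Pool.Agent.H542.MT.M16

/-!
The polynomials attached to the tuple, and the partial singular series.
-/

set_option autoImplicit false

namespace Pool.Agent.H542.MT

open Finset Polynomial
open Pool.Agent.H373R2.T7 (pz)
open Pool.Agent.H542.TW (mem_pz)
open Pool.Agent.H542.G
open Pool.Agent.TH204.WR (TT cutf rho flp rho_le_deg)

/-- the number of the residues `s` modulo `p` with `p ∣ ∏_j (f(s) + a + t_j)` -/
def omg {K : ℕ} (f : ℤ[X]) (t : Fin K → ℤ) (a : ℤ) (p : ℕ) : ℕ :=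
  ((range p).filter (fun s : ℕ => (p : ℤ) ∣ ∏ j, (f.eval (s : ℤ) + a + t j))).card

/-- the partial singular series -/
noncomputable def SS {K : ℕ} (f : ℤ[X]) (t : Fin K → ℤ) (a : ℤ) (w : ℕ) : ℝ :=
  ∏ p ∈ pz w, ((1 - (omg f t a p : ℝ) / p) / (1 - 1 / (p : ℝ)) ^ K)

/-- the polynomial of the tuple -/
noncomputable def Fp {K : ℕ} (f : ℤ[X]) (t : Fin K → ℤ) (a : ℤ) : ℤ[X] := ∏ j, (f + C (a + t j))

lemma Fp_eval {K : ℕ} (f : ℤ[X]) (t : Fin K → ℤ) (a s : ℤ) :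
    (Fp f t a).eval s = ∏ j, (f.eval s + a + t j) := by
  unfold Fp
  rw [eval_prod]
  apply prod_congr rfl
  intro j _
  simp only [eval_add, eval_C]
  ring

lemma omg_rho {K : ℕ} (f : ℤ[X]) (t : Fin K → ℤ) (a : ℤ) (p : ℕ) : omg f t a p = rho (Fp f t a) 0 p := by
  unfold omg rho
  congr 1
  apply filter_congr
  intro s _
  rw [Fp_eval, add_zero]

lemma fac_ne (f : ℤ[X]) (hd : 1 ≤ f.natDegree) (c : ℤ) : f + C c ≠ 0 := by
  intro h0
  have : (f + C c).natDegree = f.natDegree := natDegree_add_C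
  rw [h0, natDegree_zero] at this
  omega

lemma Fp_deg {K : ℕ} (f : ℤ[X]) (hd : 1 ≤ f.natDegree) (t : Fin K → ℤ) (a : ℤ) :
    (Fp f t a).natDegree = K * f.natDegree := by
  unfold Fp
  rw [natDegree_prod _ _ (fun j _ => fac_ne f hd _)]
  simp only [natDegree_add_C]
  rw [sum_const, card_univ, Fintype.card_fin, smul_eq_mul]

lemma Fp_lc {K : ℕ} (f : ℤ[X]) (hd : 1 ≤ f.natDegree) (t : Fin K → ℤ) (a : ℤ) :
    (Fp f t a).leadingCoeff = f.leadingCoeff ^ K := by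
  unfold Fp
  rw [leadingCoeff_prod]
  have h1 : ∀ j ∈ (univ : Finset (Fin K)), (f + C (a + t j)).leadingCoeff = f.leadingCoeff := by
    intro j _
    apply leadingCoeff_add_of_degree_lt'
    refine degree_C_le.trans_lt ?_
    exact natDegree_pos_iff_degree_pos.1 hd
  rw [prod_congr rfl h1, prod_const, card_univ, Fintype.card_fin]

lemma omg_le {K : ℕ} (hK : 1 ≤ K) (f : ℤ[X]) (hd : 1 ≤ f.natDegree) (hlc : 0 < f.leadingCoeff)
    (t : Fin K → ℤ) (a : ℤ) (p : ℕ)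
    (hp : p.Prime) (hpl : f.leadingCoeff < p) : omg f t a p ≤ K * f.natDegree := by
  rw [omg_rho, ← Fp_deg f hd t a]
  apply rho_le_lc _ _ p hp
  · rw [Fp_deg f hd]
    exact Nat.mul_pos hK hd
  · rw [Fp_lc f hd]
    intro h1
    have h2 : (p : ℤ) ∣ f.leadingCoeff := (Nat.prime_iff_prime_int.1 hp).dvd_of_dvd_pow h1
    have h3 := Int.le_of_dvd hlc h2
    omega

lemma omg_le' {K : ℕ} (f : ℤ[X]) (hd : 1 ≤ f.natDegree) (t : Fin K → ℤ) (a : ℤ) (p : ℕ)
    (hp : p.Prime) (hlt : omg f t a p < p) : omg f t a p ≤ K * f.natDegree := by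
  rw [omg_rho] at hlt ⊢
  rw [← Fp_deg f hd t a]
  exact rho_le_deg _ _ p hp hlt

lemma omg_le_self {K : ℕ} (f : ℤ[X]) (t : Fin K → ℤ) (a : ℤ) (p : ℕ) : omg f t a p ≤ p := by
  unfold omg
  exact (card_filter_le _ _).trans (card_range p).le

lemma om_fac_nonneg {K : ℕ} (f : ℤ[X]) (t : Fin K → ℤ) (a : ℤ) (p : ℕ) (hp : p.Prime) :
    0 ≤ 1 - (omg f t a p : ℝ) / p := by
  have h1 := omg_le_self f t a p
  have hp0 : (0 : ℝ) < p := by exact_mod_cast hp.pos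
  rw [sub_nonneg, div_le_one hp0]
  exact_mod_cast h1

lemma SS_nonneg {K : ℕ} (f : ℤ[X]) (t : Fin K → ℤ) (a : ℤ) (w : ℕ) : 0 ≤ SS f t a w := by
  unfold SS
  apply prod_nonneg
  intro p hp
  apply div_nonneg (om_fac_nonneg f t a p (mem_pz.1 hp).1)
  have hp2 : (2 : ℝ) ≤ p := by exact_mod_cast (mem_pz.1 hp).1.two_le
  apply pow_nonneg
  rw [sub_nonneg, div_le_one (by linarith)]
  linarith

lemma SS_eq {K : ℕ} (f : ℤ[X]) (t : Fin K → ℤ) (a : ℤ) (w : ℕ) :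
    SS f t a w = (∏ p ∈ pz w, (1 - (omg f t a p : ℝ) / p)) / (∏ p ∈ pz w, (1 - 1 / (p : ℝ))) ^ K := by
  unfold SS
  rw [prod_div_distrib, prod_pow]

/-- comparison of the products -/
theorem prod_cmp {K : ℕ} (hK : 1 ≤ K) (f : ℤ[X]) (hd : 1 ≤ f.natDegree) (hlc : 0 < f.leadingCoeff)
    (t : Fin K → ℤ) :
    ∃ c : ℝ, 0 < c ∧ ∀ (a : ℤ) (w z : ℕ), 3 ≤ w → w ≤ z → K * f.natDegree ≤ w →
    f.leadingCoeff ≤ w →
    c * (Real.log w / Real.log z) ^ (K * f.natDegree) * SS f t a w ≤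
      Real.log z ^ K * ∏ p ∈ pz z, (1 - (omg f t a p : ℝ) / p) := by
  obtain ⟨c3, hc3, Hmid⟩ := mid_low (K * f.natDegree) (Nat.mul_pos hK hd)
  obtain ⟨c4, hc4, Hml⟩ := mert_low
  refine ⟨c4 ^ K * c3, by positivity, fun a w z hw hwz hdw hlw => ?_⟩
  have hw3 : (3 : ℝ) ≤ w := by exact_mod_cast hw
  have hz3 : (3 : ℝ) ≤ z := by exact_mod_cast hw.trans hwz
  have hlz : 0 < Real.log z := Real.log_pos (by linarith)
  have hlw' : 0 < Real.log w := Real.log_pos (by linarith)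
  have h2 := Hml z (hw.trans hwz)
  have hPz := pz_pos z
  have hPw := pz_pos w
  have hsub : (pz z).filter (fun p => p ≤ w) = pz w := by
    ext p
    rw [mem_filter, mem_pz, mem_pz]
    constructor
    · rintro ⟨⟨h1, h2⟩, h3⟩; exact ⟨h1, h3⟩
    · rintro ⟨h1, h2⟩; exact ⟨⟨h1, h2.trans hwz⟩, h2⟩
  have hPP : ∏ p ∈ pz z, (1 - 1 / (p : ℝ)) ≤ ∏ p ∈ pz w, (1 - 1 / (p : ℝ)) := by
    rw [← prod_filter_mul_prod_filter_not (pz z) (fun p => p ≤ w), hsub]
    have h3 : ∏ p ∈ (pz z).filter (fun p => ¬ p ≤ w), (1 - 1 / (p : ℝ)) ≤ 1 := by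
      apply prod_le_one
      · intro p hp
        have hp2 : (2 : ℝ) ≤ p := by exact_mod_cast (mem_pz.1 (mem_filter.1 hp).1).1.two_le
        rw [sub_nonneg, div_le_one (by linarith)]
        linarith
      · intro p hp
        have : (0 : ℝ) ≤ 1 / (p : ℝ) := by positivity
        linarith
    exact mul_le_of_le_one_right hPw.le h3
  have hom0 : 0 ≤ ∏ p ∈ pz w, (1 - (omg f t a p : ℝ) / p) :=
    prod_nonneg fun p hp => om_fac_nonneg f t a p (mem_pz.1 hp).1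
  have h3 : c4 ≤ Real.log z * ∏ p ∈ pz w, (1 - 1 / (p : ℝ)) := by
    rw [div_le_iff₀ hlz, mul_comm] at h2
    exact h2.trans (mul_le_mul_of_nonneg_left hPP hlz.le)
  have h4 : c4 ^ K * SS f t a w ≤ Real.log z ^ K * ∏ p ∈ pz w, (1 - (omg f t a p : ℝ) / p) := by
    have h5 : c4 ^ K ≤ (Real.log z * ∏ p ∈ pz w, (1 - 1 / (p : ℝ))) ^ K := pow_le_pow_left₀ hc4.le h3 K
    rw [SS_eq, ← mul_div_assoc, div_le_iff₀ (by positivity)]
    calc c4 ^ K * ∏ p ∈ pz w, (1 - (omg f t a p : ℝ) / p) ≤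
        (Real.log z * ∏ p ∈ pz w, (1 - 1 / (p : ℝ))) ^ K * ∏ p ∈ pz w, (1 - (omg f t a p : ℝ) / p) :=
          mul_le_mul_of_nonneg_right h5 hom0
      _ = _ := by rw [mul_pow]; ring
  have h5 := Hmid w z hw hwz hdw (omg f t a) (by
    intro p hp hwp
    apply omg_le hK f hd hlc t a p (mem_pz.1 hp).1
    have : (w : ℤ) < p := by exact_mod_cast hwp
    linarith)
  have h6 : ∏ p ∈ pz z, (1 - (omg f t a p : ℝ) / p) =
      (∏ p ∈ pz w, (1 - (omg f t a p : ℝ) / p)) *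
        ∏ p ∈ (pz z).filter (fun p => ¬ p ≤ w), (1 - (omg f t a p : ℝ) / p) := by
    rw [← prod_filter_mul_prod_filter_not (pz z) (fun p => p ≤ w), hsub]
  rw [h6]
  calc c4 ^ K * c3 * (Real.log w / Real.log z) ^ (K * f.natDegree) * SS f t a w =
      (c4 ^ K * SS f t a w) * (c3 * (Real.log w / Real.log z) ^ (K * f.natDegree)) := by ring
    _ ≤ (Real.log z ^ K * ∏ p ∈ pz w, (1 - (omg f t a p : ℝ) / p)) *
        (∏ p ∈ (pz z).filter (fun p => ¬ p ≤ w), (1 - (omg f t a p : ℝ) / p)) := by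
        apply mul_le_mul h4 h5 (by positivity)
        exact mul_nonneg (by positivity) hom0
    _ = _ := by ring

/-- the partial singular series is not small -/
theorem SS_low {K : ℕ} (hK : 1 ≤ K) (f : ℤ[X]) (hd : 1 ≤ f.natDegree) (t : Fin K → ℤ) :
    ∃ c : ℝ, 0 < c ∧ ∀ (a : ℤ) (w : ℕ), 3 ≤ w → (∀ p ∈ pz w, omg f t a p < p) →
    c / Real.log w ^ (K * f.natDegree - K) ≤ SS f t a w := by
  obtain ⟨c2, hc2, Hlow⟩ := prod_low (K * f.natDegree) (Nat.mul_pos hK hd)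
  obtain ⟨c1, hc1, Hup⟩ := mert_up
  refine ⟨c2 / c1 ^ K, by positivity, fun a w hw hlt => ?_⟩
  have hw3 : (3 : ℝ) ≤ w := by exact_mod_cast hw
  have hlw' : 0 < Real.log w := Real.log_pos (by linarith)
  have hPw := pz_pos w
  have h2 := Hlow w hw (omg f t a) (fun p hp => ⟨omg_le' f hd t a p (mem_pz.1 hp).1 (hlt p hp), hlt p hp⟩)
  have h3 : (∏ p ∈ pz w, (1 - 1 / (p : ℝ))) ^ K ≤ (c1 / Real.log w) ^ K :=
    pow_le_pow_left₀ hPw.le (Hup w hw) K
  have hKd : K ≤ K * f.natDegree := Nat.le_mul_of_pos_right K hd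
  rw [SS_eq]
  calc c2 / c1 ^ K / Real.log w ^ (K * f.natDegree - K) =
      (c2 / Real.log w ^ (K * f.natDegree)) / (c1 / Real.log w) ^ K := by
        have h4 : Real.log w ^ (K * f.natDegree) = Real.log w ^ (K * f.natDegree - K) * Real.log w ^ K := by
          rw [← pow_add]
          congr 1
          omega
        rw [h4, div_pow]
        field_simp
    _ ≤ (∏ p ∈ pz w, (1 - (omg f t a p : ℝ) / p)) / (c1 / Real.log w) ^ K :=
        div_le_div_of_nonneg_right h2 (by positivity)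
    _ ≤ _ := div_le_div_of_nonneg_left (le_trans (by positivity) h2) (by positivity) h3

/-- the number of the `m` such that the values have no small prime factors -/
lemma main_count {K : ℕ} (f : ℤ[X]) (t : Fin K → ℕ) (a x X z m0 : ℕ) (ha : 1 ≤ a)
    (hm0 : ∀ m : ℕ, m0 ≤ m → 0 ≤ f.eval (m : ℤ))
    (hX : ∀ m : ℕ, 1 ≤ m → m ≤ x → f.eval (m : ℤ) + a ≤ X) :
    ((((Icc 1 x).filter (fun s : ℕ => ∀ p ∈ pz z, ¬ (p : ℤ) ∣
      (Fp f (fun j => (t j : ℤ)) a).eval ((0 : ℤ) + s) + 0)).card : ℕ) : ℝ) -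
      m0 ≤ ∑ m ∈ Icc 1 x, cutf X (gf z t) (f.eval (m : ℤ) + a) := by
  classical
  obtain ⟨S, hS⟩ : ∃ S, S = (Icc 1 x).filter (fun s : ℕ => ∀ p ∈ pz z, ¬ (p : ℤ) ∣
      (Fp f (fun j => (t j : ℤ)) a).eval ((0 : ℤ) + s) + 0) := ⟨_, rfl⟩
  rw [← hS]
  have h1 : ∀ m ∈ Icc 1 x, (if m ∈ S ∧ m0 ≤ m then (1 : ℝ) else 0) ≤
      cutf X (gf z t) (f.eval (m : ℤ) + a) := by
    intro m hm
    rw [mem_Icc] at hm
    split_ifs with h2
    · obtain ⟨h3, h4⟩ := h2
      have h5 := hm0 m h4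
      have h6 := hX m hm.1 hm.2
      unfold cutf
      rw [if_pos ⟨by omega, h6⟩]
      unfold gf
      rw [if_pos]
      intro p hp j
      rw [hS, mem_filter] at h3
      have h7 := h3.2 p hp
      rw [Fp_eval, add_zero, zero_add] at h7
      intro h8
      apply h7
      exact dvd_trans h8 (dvd_prod_of_mem (fun j => f.eval (m : ℤ) + a + (t j : ℤ)) (mem_univ j))
    · unfold cutf gf
      split_ifs <;> norm_num
  refine le_trans ?_ (sum_le_sum h1)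
  rw [← sum_filter, sum_const, nsmul_eq_mul, mul_one]
  have h2 : S ⊆ (Icc 1 x).filter (fun m => m ∈ S ∧ m0 ≤ m) ∪ range m0 := by
    intro m hm
    rw [mem_union, mem_filter, mem_range]
    by_cases h3 : m0 ≤ m
    · left
      refine ⟨?_, hm, h3⟩
      rw [hS, mem_filter] at hm
      exact hm.1
    · right
      omega
  have h3 := (card_le_card h2).trans (card_union_le _ _)
  rw [card_range] at h3
  have h4 : (S.card : ℝ) ≤ ((Icc 1 x).filter (fun m => m ∈ S ∧ m0 ≤ m)).card + m0 := by exact_mod_cast h3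
  linarith

end Pool.Agent.H542.MT
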