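import Pool.Agent.H542.MT.M17
import Pool.Agent.H542.MT.M11
import Pool.Agent.H542.MT.M13
import Pool.Agent.H542.MT.M14

/-!
The constant factor in terms of the logarithms, and the exceptional set.
-/

set_option autoImplicit false

namespace Pool.Agent.H542.MT

open Finset Polynomial
open Pool.Agent.H373R2.T7 (pz)
open Pool.Agent.H542.TW (mem_pz)
open Pool.Agent.H542.G
open Pool.Agent.H378R2
open Pool.Agent.TH204.WR (TT cutf rho flp rho_le_deg)

theorem kap_nat (k : ℕ) : ∃ (K0 B : ℕ) (f : Fin B → ℝ → ℝ) (c : Fin B → ℝ) (A : Finset (Fin (K0 + 1) → Fin B)),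
    Fam f c A ∧ ∃ δ : ℝ, 0 < δ ∧ δ ≤ 1 / 10 ∧ ∃ c0 C0 : ℝ, 0 < c0 ∧ 0 < C0 ∧ ∃ z0 : ℕ, ∀ E : ℕ,
    ∀ᶠ X : ℕ in Filter.atTop, ∀ z : ℕ, z0 ≤ z → 3 ≤ z → (z : ℝ) ≤ Real.log X ^ E →
      c0 * (Real.log z ^ (K0 + 1) / Real.log X ^ K0) ≤
        kap (k * Real.log (2 * X)) ((K0 + 1 : ℕ) * Real.log (2 * X) * A.card) z X δ f A ∧
      |kap (k * Real.log (2 * X)) ((K0 + 1 : ℕ) * Real.log (2 * X) * A.card) z X δ f A| ≤ C0 * Real.log X := by
  obtain ⟨K0, B, f, c, A, hfam, δ, hδ, hδ1, c0, C0, hc0, hC0, z0, H⟩ := kap_low k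
  obtain ⟨c1, hc1, Hup⟩ := mert_up
  refine ⟨K0, B, f, c, A, hfam, δ, hδ, hδ1, c0 / 200 * (200 / c1) ^ (K0 + 1), C0, by positivity, hC0, z0,
    fun E => ?_⟩
  have h1 := (tendsto_natCast_atTop_atTop (R := ℝ)).eventually (H E)
  filter_upwards [h1, Filter.eventually_ge_atTop 3] with X hX hX3 z hz hz3 hzL
  have hX3r : (3 : ℝ) ≤ X := by exact_mod_cast hX3
  have hL : 0 < Real.log X := Real.log_pos (by linarith)
  have hl0 : 0 ≤ Real.log (2 * X) := Real.log_nonneg (by linarith)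
  have hl1 : Real.log (2 * X) ≤ 400 * LL X := by
    unfold LL
    rw [Real.log_mul (by norm_num) (by linarith)]
    have : Real.log 2 ≤ Real.log X := Real.log_le_log (by norm_num) (by linarith)
    linarith
  obtain ⟨h2, h3⟩ := hX z hz hz3 hzL (Real.log (2 * X)) hl0 hl1
  refine ⟨le_trans ?_ h2, h3⟩
  have hz3r : (3 : ℝ) ≤ z := by exact_mod_cast hz3
  have hlz : 0 < Real.log z := Real.log_pos (by linarith)
  have hBE : 0 < BE (pz z) := pz_pos z
  have hBE2 : BE (pz z) ≤ c1 / Real.log z := Hup z hz3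
  have hLL : 0 < LL X := by unfold LL; positivity
  have h4 : (LL X * BE (pz z)) ^ (K0 + 1) ≤ (LL X * (c1 / Real.log z)) ^ (K0 + 1) := by
    apply pow_le_pow_left₀ (by positivity)
    exact mul_le_mul_of_nonneg_left hBE2 hLL.le
  calc c0 / 200 * (200 / c1) ^ (K0 + 1) * (Real.log z ^ (K0 + 1) / Real.log X ^ K0) =
      c0 * (LL X / (LL X * (c1 / Real.log z)) ^ (K0 + 1)) := by
        unfold LL
        rw [mul_pow, div_pow, div_pow, div_pow, pow_succ (Real.log (X : ℝ)) K0]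
        field_simp
    _ ≤ c0 * (LL X / (LL X * BE (pz z)) ^ (K0 + 1)) := by
        apply mul_le_mul_of_nonneg_left _ hc0.le
        exact div_le_div_of_nonneg_left hLL.le (by positivity) h4

end Pool.Agent.H542.MT
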