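import Pool.Agent.H542.MT.M18

/-!
Clusters of simultaneous primes among the values of a polynomial, for almost all shifts.
-/

set_option autoImplicit false

namespace Pool.Agent.H542.MT

open Finset Polynomial
open Pool.Agent.H373R2.T7 (pz)
open Pool.Agent.H542.TW (mem_pz)
open Pool.Agent.H542.G
open Pool.Agent.H378R2
open Pool.Agent.TH204.WR (TT cutf rho flp rho_le_deg)

lemma fin1 (K0 : ℕ) (c6 D L lz W0 x Gc : ℝ) (hc6 : 0 < c6) (hD : 0 < D) (hL : 0 < L) (hlz : 1 ≤ lz)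
    (hW : 0 < W0) (hx : 0 < x) (h6 : 8 ≤ c6 * L) (h7 : 1 ≤ L * W0)
    (h : c6 * (lz ^ (K0 + 1) / L ^ K0) * (x * W0 / 4) - x / L ^ (K0 + 2) ≤ D * L * Gc) :
    c6 * lz ^ (K0 + 1) * W0 * x / (8 * D * L ^ (K0 + 1)) ≤ Gc := by
  have hlz0 : 0 < lz := by linarith
  have h5 : x / L ^ (K0 + 2) ≤ c6 * (lz ^ (K0 + 1) / L ^ K0) * (x * W0 / 8) := by
    have h8 : 1 ≤ lz ^ (K0 + 1) := one_le_pow₀ hlz
    have h9 : 8 * 1 * 1 ≤ (c6 * L) * (lz ^ (K0 + 1)) * (L * W0) := by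
      apply mul_le_mul _ h7 (by norm_num) (by positivity)
      exact mul_le_mul h6 h8 (by norm_num) (by positivity)
    calc x / L ^ (K0 + 2) = x / (8 * L ^ (K0 + 2)) * (8 * 1 * 1) := by
          field_simp
      _ ≤ x / (8 * L ^ (K0 + 2)) * ((c6 * L) * (lz ^ (K0 + 1)) * (L * W0)) :=
          mul_le_mul_of_nonneg_left h9 (by positivity)
      _ = c6 * (lz ^ (K0 + 1) / L ^ K0) * (x * W0 / 8) := by
          rw [pow_add L K0 2]
          field_simp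
  have h6 : c6 * (lz ^ (K0 + 1) / L ^ K0) * (x * W0 / 8) ≤ D * L * Gc := by
    have h7 : c6 * (lz ^ (K0 + 1) / L ^ K0) * (x * W0 / 4) =
        c6 * (lz ^ (K0 + 1) / L ^ K0) * (x * W0 / 8) +
          c6 * (lz ^ (K0 + 1) / L ^ K0) * (x * W0 / 8) := by ring
    linarith
  calc c6 * lz ^ (K0 + 1) * W0 * x / (8 * D * L ^ (K0 + 1)) =
      (c6 * (lz ^ (K0 + 1) / L ^ K0) * (x * W0 / 8)) / (D * L) := by
        rw [pow_succ L K0]
        field_simp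
    _ ≤ (D * L * Gc) / (D * L) := div_le_div_of_nonneg_right h6 (by positivity)
    _ = Gc := by field_simp

lemma fin2 (K0 e0 : ℕ) (c6 c5 D L lz W0 x Gc S E l d : ℝ) (hc6 : 0 < c6) (hc5 : 0 < c5) (hD : 0 < D)
    (hL : 0 < L) (hlz : 0 < lz)
    (hW : 0 < W0) (hx : 0 < x) (hE : 0 < E) (hd : 0 < d) (hl : 0 < l) (hLl : L ≤ 2 * d * l)
    (h10 : c5 * (1 / (4 * E)) ^ e0 * S ≤ lz ^ (K0 + 1) * W0)
    (h : c6 * lz ^ (K0 + 1) * W0 * x / (8 * D * L ^ (K0 + 1)) ≤ Gc) :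
    c6 / (8 * D * (2 * d) ^ (K0 + 1)) * (c5 * (1 / (4 * E)) ^ e0) * S * (x / l ^ (K0 + 1)) ≤ Gc := by
  refine le_trans ?_ h
  have h11 : L ^ (K0 + 1) ≤ (2 * d * l) ^ (K0 + 1) := pow_le_pow_left₀ hL.le hLl _
  calc c6 / (8 * D * (2 * d) ^ (K0 + 1)) * (c5 * (1 / (4 * E)) ^ e0) * S * (x / l ^ (K0 + 1)) =
      c6 * x * (c5 * (1 / (4 * E)) ^ e0 * S) / (8 * D * (2 * d * l) ^ (K0 + 1)) := by
        rw [mul_pow (2 * (d : ℝ)) l]
        field_simp
    _ ≤ c6 * x * (lz ^ (K0 + 1) * W0) / (8 * D * (2 * d * l) ^ (K0 + 1)) := by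
        apply div_le_div_of_nonneg_right _ (by positivity)
        exact mul_le_mul_of_nonneg_left h10 (by positivity)
    _ ≤ c6 * x * (lz ^ (K0 + 1) * W0) / (8 * D * L ^ (K0 + 1)) := by
        apply div_le_div_of_nonneg_left (by positivity) (by positivity)
        exact mul_le_mul_of_nonneg_left h11 (by positivity)
    _ = _ := by ring

/-- the logarithms of the sifting limits -/
lemma lim_log (d E : ℕ) (l L : ℝ) (w z : ℕ) (hw : w = ⌊l⌋₊) (hz : z = ⌊L ^ E⌋₊) (hE : 1 ≤ E) (hl4 : 4 ≤ l)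
    (hlL : l ≤ L) (hLl : L ≤ 2 * d * l) (g2 : (2 * d : ℝ) ≤ l) :
    (z : ℝ) ≤ L ^ E ∧ w ≤ z ∧ l - 1 < w ∧ Real.log z ≤ E * Real.log L ∧ 1 ≤ Real.log z ∧
    1 / (4 * E) ≤ Real.log w / Real.log z := by
  have hl0 : 0 < l := by linarith
  have hL0 : 0 < L := by linarith
  have hL1 : 1 ≤ L := by linarith
  have hE1r : (1 : ℝ) ≤ E := by exact_mod_cast hE
  have hll : 0 < Real.log l := Real.log_pos (by linarith)
  have hwl : (w : ℝ) ≤ l := by rw [hw]; exact Nat.floor_le hl0.le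
  have hlw1 : l < w + 1 := by rw [hw]; exact Nat.lt_floor_add_one l
  have hwhalf : l / 2 ≤ w := by linarith
  have hzL : (z : ℝ) ≤ L ^ E := by rw [hz]; exact Nat.floor_le (by positivity)
  have hwz : w ≤ z := by
    rw [hw, hz]
    apply Nat.floor_le_floor
    calc l ≤ L := hlL
      _ = L ^ 1 := (pow_one L).symm
      _ ≤ L ^ E := pow_le_pow_right₀ hL1 hE
  have hw3r : (3 : ℝ) < w + 0 := by linarith
  have hw3 : 3 ≤ w := by
    have : (3 : ℝ) < w := by linarith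
    exact_mod_cast this.le
  have hz3 : 3 ≤ z := hw3.trans hwz
  have hz3r : (3 : ℝ) ≤ z := by exact_mod_cast hz3
  have hlogz : 0 < Real.log z := Real.log_pos (by linarith)
  have hlogz1 : 1 ≤ Real.log z := by
    rw [Real.le_log_iff_exp_le (by linarith)]
    exact Real.exp_one_lt_three.le.trans hz3r
  have hlogzL : Real.log z ≤ E * Real.log L := by
    rw [← Real.log_pow]
    exact Real.log_le_log (by linarith) hzL
  have hlogL : Real.log L ≤ 2 * Real.log l := by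
    have h1 : L ≤ l * l := hLl.trans (mul_le_mul_of_nonneg_right g2 hl0.le)
    have h2 := Real.log_le_log hL0 h1
    rw [Real.log_mul hl0.ne' hl0.ne'] at h2
    linarith
  have hlogw2 : Real.log l / 2 ≤ Real.log w := by
    have h1 := Real.log_le_log (by linarith : 0 < l / 2) hwhalf
    rw [Real.log_div hl0.ne' (by norm_num)] at h1
    have h2 : Real.log 4 ≤ Real.log l := Real.log_le_log (by norm_num) hl4
    have h3 : Real.log 4 = 2 * Real.log 2 := by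
      rw [show (4 : ℝ) = 2 ^ 2 by norm_num, Real.log_pow]
      norm_num
    linarith
  refine ⟨hzL, hwz, by linarith, hlogzL, hlogz1, ?_⟩
  rw [div_le_div_iff₀ (by positivity) hlogz]
  have h1 : Real.log z ≤ E * (2 * Real.log l) :=
    hlogzL.trans (mul_le_mul_of_nonneg_left hlogL (by positivity))
  have h2 : E * (2 * Real.log l) ≤ Real.log w * (4 * E) := by
    have := mul_le_mul_of_nonneg_right hlogw2 (show (0 : ℝ) ≤ 4 * E by positivity)
    linarith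
  linarith

/-- the range of the values -/
lemma rng_log (x X d KK : ℕ) (hx1 : 1 ≤ x) (hd : 1 ≤ d) (hKK : 1 ≤ KK) (g4 : KK ≤ x) (hX : X = KK * x ^ d) :
    x ≤ X ∧ Real.log x ≤ Real.log X ∧ Real.log X ≤ 2 * d * Real.log x ∧ (X : ℝ) ^ (1 / (2 * d) : ℝ) ≤ x := by
  have hd0 : (0 : ℝ) < d := by exact_mod_cast hd
  have hxr : (1 : ℝ) ≤ x := by exact_mod_cast hx1
  have hx0 : (0 : ℝ) < x := by linarith
  have hxX : x ≤ X := by
    rw [hX]
    calc x = 1 * x ^ 1 := by ring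
      _ ≤ KK * x ^ d := Nat.mul_le_mul (by omega) (Nat.pow_le_pow_right hx1 hd)
  have hXpos : (0 : ℝ) < X := lt_of_lt_of_le hx0 (by exact_mod_cast hxX)
  have hXr : (X : ℝ) = KK * (x : ℝ) ^ d := by rw [hX]; push_cast; ring
  have hKx : KK ≤ x ^ d := g4.trans (by
    calc x = x ^ 1 := (pow_one x).symm
      _ ≤ x ^ d := Nat.pow_le_pow_right hx1 hd)
  have hXx : (X : ℝ) ≤ (x : ℝ) ^ (2 * d) := by
    have h1 : (KK : ℝ) ≤ (x : ℝ) ^ d := by exact_mod_cast hKx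
    calc (X : ℝ) = KK * (x : ℝ) ^ d := hXr
      _ ≤ (x : ℝ) ^ d * (x : ℝ) ^ d := mul_le_mul_of_nonneg_right h1 (by positivity)
      _ = _ := by ring
  refine ⟨hxX, Real.log_le_log hx0 (by exact_mod_cast hxX), ?_, ?_⟩
  · have h1 := Real.log_le_log hXpos hXx
    rw [Real.log_pow] at h1
    push_cast at h1
    exact h1
  · have h1 := Real.rpow_le_rpow hXpos.le hXx (show (0 : ℝ) ≤ 1 / (2 * d) by positivity)
    have h2 : ((x : ℝ) ^ (2 * d)) ^ (1 / (2 * d) : ℝ) = x := by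
      rw [← Real.rpow_natCast, ← Real.rpow_mul hx0.le]
      push_cast
      rw [mul_one_div_cancel (by positivity), Real.rpow_one]
    rw [h2] at h1
    exact h1

open Classical in
/-- **Clusters of simultaneous primes for almost all shifts.** -/
theorem main (k : ℕ) : ∃ (K0 : ℕ) (δ' : ℝ), 0 < δ' ∧ ∀ (f : ℤ[X]), 1 ≤ f.natDegree → 0 < f.leadingCoeff →
    ∀ (t : Fin (K0 + 1) → ℕ), Function.Injective t → ∀ U : ℕ,
    ∃ c : ℝ, 0 < c ∧ ∃ x0 : ℕ, ∀ x : ℕ, x0 ≤ x → ∃ E : Finset ℕ,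
    (E.card : ℝ) ≤ (x : ℝ) ^ f.natDegree / Real.log x ^ U ∧
    ∀ a ∈ Icc 1 (x ^ f.natDegree), a ∉ E →
      c * SS f (fun j => (t j : ℤ)) a ⌊Real.log x⌋₊ * (x / Real.log x ^ (K0 + 1)) ≤
        ((Icc 1 x).filter (fun m : ℕ => Gd k ((x : ℝ) ^ δ') t (f.eval (m : ℤ) + a))).card := by
  obtain ⟨K0, B, F, cF, A, hfam, δ, hδ, hδ1, c6, C0, hc6, hC0, z0, Hkap⟩ := kap_nat k
  refine ⟨K0, δ / 200, by positivity, fun f hd hlc t hinj U => ?_⟩
  have hF1 := hfam.f1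
  obtain ⟨tz, htz⟩ : ∃ tz : Fin (K0 + 1) → ℤ, tz = fun j => (t j : ℤ) := ⟨_, rfl⟩
  obtain ⟨d, hdd⟩ : ∃ d, d = f.natDegree := ⟨_, rfl⟩
  obtain ⟨e0, he0⟩ : ∃ e0, e0 = (K0 + 1) * d := ⟨_, rfl⟩
  have he01 : 1 ≤ e0 := by rw [he0]; exact Nat.mul_pos (by omega) (by omega)
  obtain ⟨Kf, hKf1, hKf⟩ := eval_le f
  obtain ⟨m0, hm0⟩ := eval_pos f hd hlc
  obtain ⟨KK, hKK⟩ : ∃ KK, KK = Kf + 1 := ⟨_, rfl⟩
  obtain ⟨G, hG⟩ : ∃ G : ℕ, G = 2 ^ (6 * (K0 + 1)) + 4 := ⟨_, rfl⟩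
  obtain ⟨B', U', x1, hB'1, Hsm⟩ := smG f hd KK (by omega) G (U + 2 * K0 + 6)
  obtain ⟨E, hE⟩ : ∃ E, E = B' + 1 := ⟨_, rfl⟩
  have hE1 : 1 ≤ E := by omega
  obtain ⟨Ac, hAc⟩ : ∃ Ac : ℝ, Ac = (A.card : ℝ) := ⟨_, rfl⟩
  have hAc0 : 0 ≤ Ac := by rw [hAc]; exact Nat.cast_nonneg _
  obtain ⟨C1, hC1⟩ : ∃ C1 : ℝ, C1 = C0 + 2 * k + 2 * ((K0 + 1 : ℕ) : ℝ) * Ac := ⟨_, rfl⟩
  have hC1p : 0 < C1 := by rw [hC1]; positivity
  obtain ⟨X1, Hdisc⟩ := disc2 F cF A hfam δ hδ hδ1 C1 hC1p E U' B' t hinj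
  obtain ⟨X2, Hl2⟩ := l2 F hF1 A δ C1 hC1p t
  obtain ⟨Cf, y0, hCf, hy0, Hflp⟩ := flp e0 he01
  obtain ⟨c2, hc2, Hlow⟩ := prod_low e0 he01
  obtain ⟨c5, hc5, Hcmp⟩ := prod_cmp (K := K0 + 1) (by omega) f hd hlc tz
  obtain ⟨D, hD⟩ : ∃ D : ℝ, D = 2 * ((K0 + 1 : ℕ) : ℝ) * (Ac ^ 2 * (2 ^ ⌈400 / δ⌉₊) ^ (2 * (K0 + 1))) + 1 := ⟨_, rfl⟩
  have hD0 : 0 < D := by rw [hD]; positivity
  rw [← hdd] at hKf hd Hsm Hcmp ⊢
  rw [← he0] at Hcmp
  obtain ⟨b, hb⟩ : ∃ b, b = max Cf 2 := ⟨_, rfl⟩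
  have hd0 : (0 : ℝ) < d := by exact_mod_cast hd
  have hθ : (0 : ℝ) < 1 / (2 * d) := by positivity
  obtain ⟨lc, hlcn⟩ : ∃ lc, lc = f.leadingCoeff.toNat := ⟨_, rfl⟩
  obtain ⟨ts, hts⟩ : ∃ ts : ℕ, ts = ∑ i, t i := ⟨_, rfl⟩
  have hti : ∀ i, t i ≤ ts := fun i => by
    rw [hts]
    exact single_le_sum (f := fun i => t i) (fun _ _ => Nat.zero_le _) (mem_univ i)
  have hE1r : (1 : ℝ) ≤ E := by exact_mod_cast hE1
  have hev : ∀ᶠ X : ℕ in Filter.atTop,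
      (1 * Real.log X ^ (E * (Cf * b)) ≤ (X : ℝ) ^ (1 / (2 * d) : ℝ) ∧
      (4 * (m0 + 1) : ℝ) * Real.log X ^ 1 ≤ (X : ℝ) ^ (1 / (2 * d) : ℝ)) ∧
      ((E : ℝ) ^ e0 / c2) * Real.log (Real.log X) ^ e0 ≤ Real.log X ∧
      (KK + 200 : ℝ) ≤ Real.log X ∧ (8 / c6 : ℝ) ≤ Real.log X ∧
      (∀ z : ℕ, z0 ≤ z → 3 ≤ z → (z : ℝ) ≤ Real.log X ^ E →
      c6 * (Real.log z ^ (K0 + 1) / Real.log X ^ K0) ≤
        kap (k * Real.log (2 * X)) ((K0 + 1 : ℕ) * Real.log (2 * X) * A.card) z X δ F A ∧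
      |kap (k * Real.log (2 * X)) ((K0 + 1 : ℕ) * Real.log (2 * X) * A.card) z X δ F A| ≤ C0 * Real.log X) ∧
      ts ≤ X ∧ X1 ≤ X ∧ X2 ≤ X ∧ 4 ≤ X := by
    filter_upwards [log_X_pow (E * (Cf * b)) (1 / (2 * d)) hθ 1,
      log_X_pow 1 (1 / (2 * d)) hθ (4 * (m0 + 1)), loglog_pow e0 ((E : ℝ) ^ e0 / c2),
      log_big (KK + 200 : ℝ), log_big (8 / c6 : ℝ), Hkap E, Filter.eventually_ge_atTop ts,
      Filter.eventually_ge_atTop X1, Filter.eventually_ge_atTop X2, Filter.eventually_ge_atTop 4]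
      with X h1 h2 h3 h4 h5 h6 h7 h8 h9 h10
    exact ⟨⟨h1, h2⟩, h3, h4, h5, h6, h7, h8, h9, h10⟩
  have hev2 : ∀ᶠ x : ℕ in Filter.atTop, (e0 + 6 + lc + y0 + z0 + ts + (K0 + 1 : ℕ) : ℝ) ≤ Real.log x ∧
      (2 * d : ℝ) ≤ Real.log x ∧ (4 : ℝ) ≤ Real.log x ∧ KK ≤ x := by
    filter_upwards [log_big (e0 + 6 + lc + y0 + z0 + ts + (K0 + 1 : ℕ) : ℝ), log_big (2 * d : ℝ), log_big 4,
      Filter.eventually_ge_atTop KK] with x h1 h2 h3 h4
    exact ⟨h1, h2, h3, h4⟩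
  obtain ⟨X0, hX0⟩ := Filter.eventually_atTop.1 hev
  obtain ⟨x2, hx2⟩ := Filter.eventually_atTop.1 hev2
  clear hev hev2 Hkap
  refine ⟨c6 / (8 * D * (2 * d) ^ (K0 + 1)) * (c5 * (1 / (4 * E)) ^ e0), by positivity,
    max (max X0 x1) (max x2 1), fun x hx => ?_⟩
  have hxX0 : X0 ≤ x := (le_max_left _ _).trans ((le_max_left _ _).trans hx)
  have hxx1 : x1 ≤ x := (le_max_right _ _).trans ((le_max_left _ _).trans hx)
  have hxx2 : x2 ≤ x := (le_max_left _ _).trans ((le_max_right _ _).trans hx)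
  have hx1 : 1 ≤ x := (le_max_right _ _).trans ((le_max_right _ _).trans hx)
  obtain ⟨g1, g2, g3, g4⟩ := hx2 x hxx2
  have hxr : (1 : ℝ) ≤ x := by exact_mod_cast hx1
  have hx0 : (0 : ℝ) < x := by linarith
  have Hsm' := Hsm x hxx1
  obtain ⟨X, hX⟩ : ∃ X, X = KK * x ^ d := ⟨_, rfl⟩
  rw [← hX] at Hsm'
  have hxd1 : 1 ≤ x ^ d := Nat.one_le_pow _ _ hx1
  obtain ⟨hxX, hlL, hLl, hXx2⟩ := rng_log x X d KK hx1 hd (by omega) g4 hX
  obtain ⟨⟨e2, e3⟩, e6, e7, e8, e9, e10, e11, e12, e13⟩ := hX0 X (hxX0.trans hxX)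
  have hX3 : (4 : ℝ) ≤ X := by exact_mod_cast e13
  have hXpos : (0 : ℝ) < X := by linarith
  have hXr : (X : ℝ) = KK * (x : ℝ) ^ d := by rw [hX]; push_cast; ring
  -- the logarithms
  obtain ⟨l, hl⟩ : ∃ l, l = Real.log x := ⟨_, rfl⟩
  obtain ⟨L, hL⟩ : ∃ L, L = Real.log X := ⟨_, rfl⟩
  rw [← hl] at g1 g2 g3
  rw [← hL] at e2 e3 e6 e7 e8 e9
  rw [← hl, ← hL] at hlL
  rw [← hl, ← hL] at hLl
  have hl4 : 4 ≤ l := g3
  have hl0 : 0 < l := by linarith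
  have hL0 : 0 < L := by linarith
  have hL1 : 1 ≤ L := by linarith
  have hll : 0 < Real.log l := Real.log_pos (by linarith)
  have hKK0 : (0 : ℝ) ≤ KK := Nat.cast_nonneg _
  -- the sifting limits
  obtain ⟨w, hw⟩ : ∃ w, w = ⌊l⌋₊ := ⟨_, rfl⟩
  obtain ⟨z, hz⟩ : ∃ z, z = ⌊L ^ E⌋₊ := ⟨_, rfl⟩
  obtain ⟨hzL, hwz, hwl1, hlogzL, hlogz1, hratio⟩ := lim_log d E l L w z hw hz hE1 hl4 hlL hLl g2
  have hwbig : e0 + 5 + lc + y0 + z0 + ts + (K0 + 1) ≤ w := by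
    have h1 : ((e0 + 5 + lc + y0 + z0 + ts + (K0 + 1) : ℕ) : ℝ) ≤ w := by
      push_cast at g1 ⊢
      linarith
    exact_mod_cast h1
  have hw3 : 3 ≤ w := by omega
  have hz3 : 3 ≤ z := hw3.trans hwz
  have hw3r : (3 : ℝ) ≤ w := by exact_mod_cast hw3
  have hz3r : (3 : ℝ) ≤ z := by exact_mod_cast hz3
  have hlogz : 0 < Real.log z := Real.log_pos (by linarith)
  have hlogw : 0 < Real.log w := Real.log_pos (by linarith)
  have hlcw : f.leadingCoeff ≤ w := by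
    have h1 : f.leadingCoeff = lc := by rw [hlcn]; omega
    rw [h1]
    exact_mod_cast (by omega : lc ≤ w)
  -- the parameters
  obtain ⟨ℓ0, hℓ0⟩ : ∃ ℓ0, ℓ0 = Real.log (2 * X) := ⟨_, rfl⟩
  rw [← hℓ0] at e9
  have hℓ00 : 0 ≤ ℓ0 := by rw [hℓ0]; exact Real.log_nonneg (by linarith)
  have hℓ0L : ℓ0 ≤ 2 * L := by
    rw [hℓ0, Real.log_mul (by norm_num) (by linarith), ← hL]
    have : Real.log 2 ≤ L := by
      rw [hL]
      exact Real.log_le_log (by norm_num) (by linarith)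
    linarith
  obtain ⟨ρ, hρ⟩ : ∃ ρ : ℝ, ρ = k * ℓ0 := ⟨_, rfl⟩
  obtain ⟨la1, hla⟩ : ∃ la1 : ℝ, la1 = ((K0 + 1 : ℕ) : ℝ) * ℓ0 * (A.card : ℝ) := ⟨_, rfl⟩
  rw [← hρ, ← hla] at e9
  obtain ⟨κ, hκ⟩ : ∃ κ : ℝ, κ = kap ρ la1 z X δ F A := ⟨_, rfl⟩
  obtain ⟨hκlow, hκup⟩ := e9 z (by omega) hz3 hzL
  have hρ0 : 0 ≤ ρ := by rw [hρ]; positivity
  have hla0 : 0 ≤ la1 := by rw [hla]; positivity
  have hρC : ρ ≤ C1 * L := by
    rw [hρ, hC1]
    have h1 : (k : ℝ) * ℓ0 ≤ k * (2 * L) := mul_le_mul_of_nonneg_left hℓ0L (Nat.cast_nonneg _)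
    have h2 : 0 ≤ C0 * L := by positivity
    have h3 : 0 ≤ 2 * ((K0 + 1 : ℕ) : ℝ) * Ac * L := by positivity
    calc (k : ℝ) * ℓ0 ≤ k * (2 * L) := h1
      _ ≤ C0 * L + k * (2 * L) + 2 * ((K0 + 1 : ℕ) : ℝ) * Ac * L := by linarith
      _ = _ := by ring
  have hlaC : la1 ≤ C1 * L := by
    rw [hla, hC1, ← hAc]
    have h1 : ((K0 + 1 : ℕ) : ℝ) * ℓ0 * Ac ≤ ((K0 + 1 : ℕ) : ℝ) * (2 * L) * Ac := by
      apply mul_le_mul_of_nonneg_right _ hAc0
      exact mul_le_mul_of_nonneg_left hℓ0L (Nat.cast_nonneg _)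
    have h2 : 0 ≤ C0 * L := by positivity
    have h3 : 0 ≤ 2 * (k : ℝ) * L := by positivity
    calc ((K0 + 1 : ℕ) : ℝ) * ℓ0 * Ac ≤ ((K0 + 1 : ℕ) : ℝ) * (2 * L) * Ac := h1
      _ ≤ C0 * L + 2 * (k : ℝ) * L + ((K0 + 1 : ℕ) : ℝ) * (2 * L) * Ac := by linarith
      _ = _ := by ring
  have hκC : |kap ρ la1 z X δ F A| ≤ C1 * L := by
    refine hκup.trans ?_
    apply mul_le_mul_of_nonneg_right _ hL0.le
    rw [hC1]
    have h2 : 0 ≤ 2 * (k : ℝ) := by positivity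
    have h3 : 0 ≤ 2 * ((K0 + 1 : ℕ) : ℝ) * Ac := by positivity
    linarith
  -- the second moment
  have Hsm2 := Hsm' (fun n => ef ρ la1 z X δ F A t n - κ * gf z t n)
    (by
      rw [hG, hκ]
      apply Hl2 X e12 z ρ la1 hρ0 hla0
      · rw [← hL]; exact hρC
      · rw [← hL]; exact hlaC
      · rw [← hL]; exact hκC)
    (by
      intro q hq hqL b0 T hT
      rw [hκ]
      apply Hdisc X e11 z hz3 (by omega) (fun i => (hti i).trans (by omega))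
      · rw [← hL]; exact hzL
      · exact hρ0
      · exact hla0
      · rw [← hL]; exact hρC
      · rw [← hL]; exact hlaC
      · rw [← hL]; exact hκC
      · exact hq
      · exact hqL
      · intro p hp hpq
        rw [hz]
        apply Nat.le_floor
        have h1 : (p : ℝ) ≤ q := by exact_mod_cast Nat.le_of_dvd hq hpq
        rw [← hL] at hqL
        refine h1.trans (hqL.trans ?_)
        exact pow_le_pow_right₀ hL1 (by omega)
      · exact hT)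
    ((Icc 1 (x ^ d)).image (fun a : ℕ => (a : ℤ)))
  rw [← hL] at Hsm2
  -- the exceptional set
  obtain ⟨T, hT⟩ : ∃ T : ℤ → ℝ, T = fun a => TT (fun n => f.eval (n : ℤ)) 1 x X
    (fun n => ef ρ la1 z X δ F A t n - κ * gf z t n) a := ⟨_, rfl⟩
  have Hsm3 : ∑ a ∈ (Icc 1 (x ^ d)).image (fun a : ℕ => (a : ℤ)), T a ^ 2 ≤
      (x : ℝ) ^ 2 * X / L ^ (U + 2 * K0 + 6) := by
    rw [hT]
    exact Hsm2
  clear Hsm2 Hsm' Hsm Hdisc Hl2
  obtain ⟨E1, hE1d⟩ : ∃ E1, E1 = (Icc 1 (x ^ d)).filter (fun a : ℕ => x / L ^ (K0 + 2) ≤ |T a|) := ⟨_, rfl⟩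
  have hcE1 : (E1.card : ℝ) ≤ X / L ^ (U + 2) := by
    rw [hE1d]
    have h1 := exc1 (Icc 1 (x ^ d)) T (x / L ^ (K0 + 2)) _ (by positivity) Hsm3
    refine h1.trans (le_of_eq ?_)
    have h2 : L ^ (U + 2 * K0 + 6) = L ^ (U + 2) * (L ^ (K0 + 2)) ^ 2 := by
      rw [← pow_mul, ← pow_add]
      congr 1
      ring
    rw [h2, div_pow]
    have h3 : L ^ (U + 2) ≠ 0 := by positivity
    have h4 : (L ^ (K0 + 2)) ^ 2 ≠ 0 := by positivity
    field_simp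
  refine ⟨E1, ?_, ?_⟩
  · rw [← hl]
    calc (E1.card : ℝ) ≤ X / L ^ (U + 2) := hcE1
      _ = (x : ℝ) ^ d / L ^ U * (KK / L ^ 2) := by
          rw [hXr, pow_add, div_mul_div_comm, mul_comm (KK : ℝ)]
      _ ≤ (x : ℝ) ^ d / L ^ U * 1 := by
          apply mul_le_mul_of_nonneg_left _ (by positivity)
          rw [div_le_one (by positivity)]
          have h1 : L * 1 ≤ L * L := mul_le_mul_of_nonneg_left hL1 hL0.le
          rw [pow_two]
          linarith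
      _ ≤ (x : ℝ) ^ d / l ^ U := by
          rw [mul_one]
          apply div_le_div_of_nonneg_left (by positivity) (by positivity)
          exact pow_le_pow_left₀ hl0.le hlL U
  · intro a ha hnE1
    have ha' := mem_Icc.1 ha
    have hT1 : |T a| < x / L ^ (K0 + 2) := by
      by_contra h1
      push Not at h1
      apply hnE1
      rw [hE1d]
      exact mem_filter.2 ⟨ha, h1⟩
    obtain ⟨Gset, hGset⟩ : ∃ Gset, Gset = (Icc 1 x).filter (fun m : ℕ =>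
      Gd k ((x : ℝ) ^ (δ / 200)) t (f.eval (m : ℤ) + a)) := ⟨_, rfl⟩
    rw [← hl, ← hw, ← hGset, ← htz]
    by_cases hfix : ∃ p ∈ pz w, omg f tz a p = p
    · obtain ⟨p, hp, hpe⟩ := hfix
      have h1 : SS f tz a w = 0 := by
        unfold SS
        apply prod_eq_zero hp
        have hp0 : (p : ℝ) ≠ 0 := by exact_mod_cast (mem_pz.1 hp).1.ne_zero
        rw [hpe, div_self hp0, sub_self, zero_div]
      rw [h1, mul_zero, zero_mul]
      exact Nat.cast_nonneg _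
    push Not at hfix
    have homlt : ∀ p ∈ pz z, omg f tz a p < p ∧ omg f tz a p ≤ e0 := by
      intro p hp
      have hpp := mem_pz.1 hp
      have hle := omg_le_self f tz a p
      by_cases hpw : p ≤ w
      · have h1 : omg f tz a p < p := lt_of_le_of_ne hle (hfix p (mem_pz.2 ⟨hpp.1, hpw⟩))
        refine ⟨h1, ?_⟩
        rw [he0, hdd]
        exact omg_le' f (by omega) tz a p hpp.1 h1
      · push Not at hpw
        have h1 : omg f tz a p ≤ e0 := by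
          rw [he0, hdd]
          apply omg_le (by omega) f (by omega) hlc tz a p hpp.1
          have : (w : ℤ) < p := by exact_mod_cast hpw
          linarith
        exact ⟨by omega, h1⟩
    -- the main term
    obtain ⟨W0, hW0⟩ : ∃ W0 : ℝ, W0 = ∏ p ∈ pz z, (1 - (omg f tz a p : ℝ) / p) := ⟨_, rfl⟩
    have hW01 : 1 / L ≤ W0 := by
      rw [hW0]
      refine le_trans ?_ (Hlow z hz3 (omg f tz a) (fun p hp => ⟨(homlt p hp).2, (homlt p hp).1⟩))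
      rw [div_le_div_iff₀ hL0 (by positivity), one_mul]
      have h1 : Real.log z ^ e0 ≤ (E * Real.log L) ^ e0 :=
        pow_le_pow_left₀ hlogz.le hlogzL _
      have h2 : (E * Real.log L) ^ e0 = c2 * ((E : ℝ) ^ e0 / c2 * Real.log L ^ e0) := by
        rw [mul_pow]
        field_simp
      rw [h2] at h1
      exact h1.trans (mul_le_mul_of_nonneg_left e6 hc2.le)
    have hW00 : 0 < W0 := lt_of_lt_of_le (by positivity) hW01
    have hfl := Hflp (Fp f tz a) 0 (by rw [Fp_deg f (by omega), he0, hdd]) b (by omega) z (by omega)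
      (by intro p hp; rw [← omg_rho]; exact (homlt p hp).1) x
      (by
        have h1 : ((z ^ (Cf * b) : ℕ) : ℝ) ≤ x := by
          push_cast
          calc (z : ℝ) ^ (Cf * b) ≤ (L ^ E) ^ (Cf * b) := pow_le_pow_left₀ (by positivity) hzL _
            _ = 1 * L ^ (E * (Cf * b)) := by rw [← pow_mul, one_mul]
            _ ≤ _ := e2.trans hXx2
        exact_mod_cast h1) 0
    have hW0e : ∏ p ∈ pz z, (1 - (rho (Fp f tz a) 0 p : ℝ) / p) = W0 := by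
      rw [hW0]
      apply prod_congr rfl
      intro p _
      rw [omg_rho]
    rw [hW0e] at hfl
    have hbb : (1 / 2 : ℝ) ^ b ≤ 1 / 4 := by
      calc (1 / 2 : ℝ) ^ b ≤ (1 / 2 : ℝ) ^ 2 :=
            pow_le_pow_of_le_one (by norm_num) (by norm_num) (by omega)
        _ = 1 / 4 := by norm_num
    have hxW0 : 0 < x * W0 := by positivity
    have hN1 : x * W0 / 2 ≤ ((((Icc 1 x).filter (fun s : ℕ =>
        ∀ p ∈ pz z, ¬ (p : ℤ) ∣ (Fp f tz a).eval ((0 : ℤ) + s) + 0)).card : ℕ) : ℝ) := by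
      have h1 := (abs_le.1 hfl).1
      have h2 : 2 * (1 / 2 : ℝ) ^ b * (x * W0) ≤ 2 * (1 / 4) * (x * W0) :=
        mul_le_mul_of_nonneg_right (by linarith) hxW0.le
      linarith
    have hmc := main_count f t a x X z m0 ha'.1 hm0 (by
      intro m hm1 hm2
      have h1 := (abs_le.1 (hKf m hm1)).2
      have h2 : (m : ℤ) ^ d ≤ (x : ℤ) ^ d := by
        have : m ^ d ≤ x ^ d := Nat.pow_le_pow_left hm2 d
        exact_mod_cast this
      have h3 : (a : ℤ) ≤ (x : ℤ) ^ d := by exact_mod_cast ha'.2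
      have h4 : (X : ℤ) = (Kf + 1) * (x : ℤ) ^ d := by rw [hX, hKK]; push_cast; ring
      rw [h4]
      have h5 : (0 : ℤ) ≤ Kf := by positivity
      have h6 : (Kf : ℤ) * (m : ℤ) ^ d ≤ Kf * (x : ℤ) ^ d := mul_le_mul_of_nonneg_left h2 h5
      have h7 : ((Kf : ℤ) + 1) * (x : ℤ) ^ d = Kf * (x : ℤ) ^ d + (x : ℤ) ^ d := by ring
      linarith)
    rw [← htz] at hmc
    obtain ⟨S2, hS2⟩ : ∃ S2 : ℝ, S2 = ∑ m ∈ Icc 1 x, cutf X (gf z t) (f.eval (m : ℤ) + a) := ⟨_, rfl⟩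
    rw [← hS2] at hmc
    have hS2low : x * W0 / 4 ≤ S2 := by
      have h1 : (m0 : ℝ) ≤ x * W0 / 4 := by
        have h2 : 4 * (m0 + 1) * L ≤ x := by
          rw [pow_one] at e3
          exact e3.trans hXx2
        have h3 : x * (1 / L) ≤ x * W0 := mul_le_mul_of_nonneg_left hW01 hx0.le
        have h4 : 4 * (m0 + 1 : ℝ) ≤ x * (1 / L) := by
          rw [mul_one_div, le_div_iff₀ hL0]
          exact h2
        linarith
      linarith
    obtain ⟨S1, hS1⟩ : ∃ S1 : ℝ, S1 = ∑ m ∈ Icc 1 x, cutf X (ef ρ la1 z X δ F A t) (f.eval (m : ℤ) + a) :=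
      ⟨_, rfl⟩
    have hTS : T a = S1 - κ * S2 := by
      rw [hT, hS1, hS2, mul_sum, ← sum_sub_distrib]
      simp only [TT]
      apply sum_congr rfl
      intro m _
      exact cutf_sub X (ef ρ la1 z X δ F A t) (gf z t) κ _
    have hS1low : κ * S2 - x / L ^ (K0 + 2) ≤ S1 := by
      have h1 := (abs_lt.1 hT1).1
      rw [hTS] at h1
      linarith
    have hκ0 : 0 ≤ c6 * (Real.log z ^ (K0 + 1) / L ^ K0) := by positivity
    rw [← hκ] at hκlow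
    have hS1low2 : c6 * (Real.log z ^ (K0 + 1) / L ^ K0) * (x * W0 / 4) - x / L ^ (K0 + 2) ≤ S1 := by
      have h1 : c6 * (Real.log z ^ (K0 + 1) / L ^ K0) * (x * W0 / 4) ≤ κ * S2 :=
        mul_le_mul hκlow hS2low (by positivity) (hκ0.trans hκlow)
      linarith
    -- the upper bound
    have hS1up : S1 ≤ D * L * Gset.card := by
      have h1 : ∀ m ∈ Icc 1 x, cutf X (ef ρ la1 z X δ F A t) (f.eval (m : ℤ) + a) ≤
          D * L * (if Gd k ((x : ℝ) ^ (δ / 200)) t (f.eval (m : ℤ) + a) then 1 else 0) := by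
        intro m hm
        unfold cutf
        by_cases h2 : 1 ≤ f.eval (m : ℤ) + a ∧ f.eval (m : ℤ) + a ≤ X
        swap
        · rw [if_neg h2]
          apply mul_nonneg (by positivity)
          split_ifs <;> norm_num
        rw [if_pos h2]
        have h3 := ef_up k δ hδ z X e13 (by
          unfold LL
          rw [← hL]
          linarith) F hF1 A t (fun i => (hti i).trans e10) (f.eval (m : ℤ) + a) h2.1 h2.2
        rw [← hℓ0, ← hρ, ← hla] at h3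
        refine h3.trans ?_
        have h4 : ((K0 + 1 : ℕ) : ℝ) * ℓ0 * ((A.card : ℝ) ^ 2 * (2 ^ ⌈400 / δ⌉₊) ^ (2 * (K0 + 1))) ≤ D * L := by
          rw [hD, ← hAc]
          obtain ⟨M, hM⟩ : ∃ M : ℝ, M = Ac ^ 2 * (2 ^ ⌈400 / δ⌉₊) ^ (2 * (K0 + 1)) := ⟨_, rfl⟩
          rw [← hM]
          have hM0 : 0 ≤ M := by rw [hM]; positivity
          calc ((K0 + 1 : ℕ) : ℝ) * ℓ0 * M ≤ ((K0 + 1 : ℕ) : ℝ) * (2 * L) * M := by
                apply mul_le_mul_of_nonneg_right _ hM0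
                exact mul_le_mul_of_nonneg_left hℓ0L (Nat.cast_nonneg _)
            _ ≤ ((K0 + 1 : ℕ) : ℝ) * (2 * L) * M + L := by linarith
            _ = _ := by ring
        have hGd : Gd k (Real.exp (δ * LL X)) t (f.eval (m : ℤ) + a) →
            Gd k ((x : ℝ) ^ (δ / 200)) t (f.eval (m : ℤ) + a) := by
          rintro ⟨h5, h6⟩
          refine ⟨h5, fun j p hp hpx => h6 j p hp (hpx.trans ?_)⟩
          rw [Real.rpow_def_of_pos hx0]
          apply Real.exp_le_exp.2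
          unfold LL
          rw [← hl, ← hL]
          have : l * (δ / 200) ≤ L * (δ / 200) := mul_le_mul_of_nonneg_right hlL (by positivity)
          linarith
        by_cases h5 : Gd k (Real.exp (δ * LL X)) t (f.eval (m : ℤ) + a)
        · rw [if_pos h5, if_pos (hGd h5)]
          linarith
        · rw [if_neg h5, mul_zero]
          apply mul_nonneg (by positivity)
          split_ifs <;> norm_num
      rw [hS1]
      refine (sum_le_sum h1).trans ?_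
      rw [← mul_sum, ← sum_filter, sum_const, hGset]
      simp only [nsmul_eq_mul, mul_one]
      exact le_refl _
    -- the conclusion
    have hA1 := fin1 K0 c6 D L (Real.log z) W0 x Gset.card hc6 hD0 hL0 hlogz1 hW00 hx0 (by
      rw [div_le_iff₀ hc6] at e8
      linarith) (by
      rw [div_le_iff₀ hL0] at hW01
      linarith) (hS1low2.trans hS1up)
    have hSS0 : 0 ≤ SS f tz a w := SS_nonneg f tz a w
    have hcmp := Hcmp a w z hw3 hwz (by omega) hlcw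
    have h10 : c5 * (1 / (4 * E)) ^ e0 * SS f tz a w ≤ Real.log z ^ (K0 + 1) * W0 := by
      rw [hW0]
      refine le_trans ?_ hcmp
      apply mul_le_mul_of_nonneg_right _ hSS0
      apply mul_le_mul_of_nonneg_left _ hc5.le
      exact pow_le_pow_left₀ (by positivity) hratio _
    exact fin2 K0 e0 c6 c5 D L (Real.log z) W0 x Gset.card (SS f tz a w) E l d hc6 hc5 hD0 hL0 hlogz hW00 hx0
      (by linarith) hd0 hl0 hLl h10 hA1

end Pool.Agent.H542.MT
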