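import Pool.Agent.H542.MT.M1

/-!
The primes of a residue class whose translates by given integers have no small prime factor.
-/

set_option autoImplicit false

namespace Pool.Agent.H542.MT

open Finset
open Pool.Agent.H542.TW (mem_pz sum_bU_le)
open Pool.Agent.H373R2.T7 (pz es es_nonneg sieve_gen' lam_mult_prime count_sys)
open Pool.Agent.Y889.PN (PS)
open ArithmeticFunction (vonMangoldt vonMangoldt_nonneg)

open Classical in
lemma omt_cop {K : ℕ} (t : Fin K → ℤ) (i0 : Fin K) (h0 : t i0 = 0) (p : ℕ) (hp : 0 < p) :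
    ((((range p).filter (fun a : ℕ => ¬ p ∣ a ∧ ∃ j, (p : ℤ) ∣ (a : ℤ) + t j)).card : ℕ) : ℝ) =
      (omt t p : ℝ) - 1 := by
  have h1 : (range p).filter (fun a : ℕ => ∃ j, (p : ℤ) ∣ (a : ℤ) + t j) =
      insert 0 ((range p).filter (fun a : ℕ => ¬ p ∣ a ∧ ∃ j, (p : ℤ) ∣ (a : ℤ) + t j)) := by
    ext a
    rw [mem_insert, mem_filter, mem_filter, mem_range]
    constructor
    · rintro ⟨h2, h3⟩
      by_cases h4 : p ∣ a
      · left
        exact Nat.eq_zero_of_dvd_of_lt h4 h2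
      · right
        exact ⟨h2, h4, h3⟩
    · rintro (rfl | ⟨h2, h3, h4⟩)
      · exact ⟨hp, i0, by rw [h0]; simp⟩
      · exact ⟨h2, h4⟩
  have h2 : omt t p = ((range p).filter (fun a : ℕ => ¬ p ∣ a ∧ ∃ j, (p : ℤ) ∣ (a : ℤ) + t j)).card + 1 := by
    unfold omt
    rw [h1, card_insert_of_notMem]
    rw [mem_filter]
    rintro ⟨_, h3, _⟩
    exact h3 (dvd_zero _)
  rw [h2]
  push_cast
  ring

open Classical in
/-- the primes in a residue class -/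
theorem prm {K : ℕ} (hK : 1 ≤ K) (t : Fin K → ℤ) (i0 : Fin K) (h0 : t i0 = 0) (z m X T r : ℕ) (b : ℤ)
    (hm : 1 ≤ m) (hcop : ∀ p : ℕ, p.Prime → p ∣ m → ¬ (p : ℤ) ∣ b)
    (hmb : ∀ p ∈ pz z, p ∣ m → ∀ j, ¬ (p : ℤ) ∣ b + t j) (hT : T ≤ X) (M : ℕ → ℝ)
    (hM0 : ∀ k, 0 ≤ M k)
    (hM : ∀ k : ℕ, 1 ≤ k → ∀ a : ℕ, a.Coprime k → ∀ y : ℕ, y ≤ X →
      |PS y k a - y / (Nat.totient k : ℝ)| ≤ M k) :
    |∑ n ∈ (Icc 1 T).filter (fun n : ℕ => (n : ℤ) ≡ b [ZMOD m] ∧ Rgt z t n), vonMangoldt n -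
      (T : ℝ) / (Nat.totient m : ℝ) * ∏ p ∈ Pp z m, (1 - ((omt t p : ℝ) - 1) / ((p : ℝ) - 1))| ≤
      ∑ j ∈ range (r + 1), ∑ S ∈ (Pp z m).powersetCard j, (K : ℝ) ^ S.card * M (m * ∏ p ∈ S, p) +
      2 * ((T : ℝ) / (Nat.totient m : ℝ)) * es (fun p => ((omt t p : ℝ) - 1) / ((p : ℝ) - 1)) (Pp z m) r +
      z * ((Nat.log 2 X + 1 : ℝ) * Real.log X) := by
  have hPm : ∀ p ∈ Pp z m, p.Prime ∧ p ≤ z ∧ ¬ p ∣ m := by
    intro p hp
    rw [Pp, mem_filter, mem_pz] at hp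
    exact ⟨hp.1.1, hp.1.2, hp.2⟩
  obtain ⟨b', hbb, hcls⟩ := class_nat m hm b
  have hKr : (1 : ℝ) ≤ K := by exact_mod_cast hK
  have hb'cop : b'.Coprime m := by
    apply Nat.Coprime.symm
    apply Nat.coprime_of_dvd
    intro p hp hpm hpb
    apply hcop p hp hpm
    have h1 : (b' : ℤ) ≡ b [ZMOD p] := hbb.of_dvd (Int.natCast_dvd_natCast.2 hpm)
    exact (Int.ModEq.dvd_iff h1).1 (Int.natCast_dvd_natCast.2 hpb)
  set s := (Icc 1 T).filter (fun n : ℕ => (n : ℤ) ≡ b [ZMOD m]) with hs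
  have h1 := sieve_gen' s (fun n => vonMangoldt n) (fun n _ => vonMangoldt_nonneg)
    (fun p n => ¬ p ∣ n ∧ ∃ j, (p : ℤ) ∣ (n : ℤ) + t j) (Pp z m)
    (fun p => ((omt t p : ℝ) - 1) / ((p : ℝ) - 1)) (by
      intro p hp
      have hp2 : (2 : ℝ) ≤ p := by exact_mod_cast (hPm p hp).1.two_le
      have h2 := omt_cop t i0 h0 p (hPm p hp).1.pos
      have h3 : (0 : ℝ) ≤ (omt t p : ℝ) - 1 := by rw [← h2]; exact Nat.cast_nonneg _
      have h4 : (omt t p : ℝ) ≤ p := by exact_mod_cast omt_le_p t p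
      refine ⟨div_nonneg h3 (by linarith), ?_⟩
      rw [div_le_one (by linarith)]
      linarith) ((T : ℝ) / (Nat.totient m : ℝ)) (by positivity)
    (fun S => (K : ℝ) ^ S.card * M (m * ∏ p ∈ S, p)) r (by
      intro S hS hSr
      have hSp : ∀ p ∈ S, p.Prime := fun p hp => (hPm p (hS hp)).1
      have h2 := prime_sys (fun p a => ¬ p ∣ a ∧ ∃ j, (p : ℤ) ∣ (a : ℤ) + t j) T S hSp
        (fun p _ a h => h.1) M (fun k hk a ha => hM k hk a ha T hT) m hm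
        (fun p hp => (hPm p (hS hp)).2.2) b' hb'cop
      have e1 : ∑ i ∈ s.filter (fun i : ℕ => ∀ p ∈ S, ¬ p ∣ i ∧ ∃ j, (p : ℤ) ∣ (i : ℤ) + t j), vonMangoldt i =
          ∑ n ∈ (Icc 1 T).filter (fun n => n ≡ b' [MOD m] ∧
            ∀ p ∈ S, ¬ p ∣ n % p ∧ ∃ j, (p : ℤ) ∣ ((n % p : ℕ) : ℤ) + t j), vonMangoldt n := by
        rw [hs, filter_filter]
        apply sum_congr _ fun _ _ => rfl
        apply filter_congr
        intro n _
        rw [hcls n]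
        apply and_congr_right
        intro _
        apply forall₂_congr
        intro p _
        apply and_congr
        · rw [Nat.dvd_mod_iff (dvd_refl p)]
        · apply exists_congr
          intro j
          rw [dvd_mod_iff]
      have e3 : ∏ p ∈ S, (((range p).filter (fun a : ℕ => ¬ p ∣ a ∧ ∃ j, (p : ℤ) ∣ (a : ℤ) + t j)).card : ℝ) ≤
          (K : ℝ) ^ S.card := by
        calc ∏ p ∈ S, (((range p).filter (fun a : ℕ => ¬ p ∣ a ∧ ∃ j, (p : ℤ) ∣ (a : ℤ) + t j)).card : ℝ) ≤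
            ∏ p ∈ S, (K : ℝ) := by
              apply prod_le_prod
              · intro p _
                exact Nat.cast_nonneg _
              · intro p hp
                rw [omt_cop t i0 h0 p (hSp p hp).pos]
                have : (omt t p : ℝ) ≤ K := by exact_mod_cast omt_le t p
                linarith
          _ = (K : ℝ) ^ S.card := by rw [prod_const]
      have e4 : ∏ p ∈ S, ((((range p).filter (fun a : ℕ => ¬ p ∣ a ∧ ∃ j, (p : ℤ) ∣ (a : ℤ) + t j)).card : ℝ) /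
          ((p : ℝ) - 1)) = ∏ p ∈ S, (((omt t p : ℝ) - 1) / ((p : ℝ) - 1)) := by
        apply prod_congr rfl
        intro p hp
        rw [omt_cop t i0 h0 p (hSp p hp).pos]
      rw [e1, ← e4]
      exact h2.trans (mul_le_mul_of_nonneg_right e3 (hM0 _)))
  -- the integers with small prime factors
  set A1 := ∑ i ∈ s.filter (fun i : ℕ => ∀ p ∈ Pp z m, ¬ (¬ p ∣ i ∧ ∃ j, (p : ℤ) ∣ (i : ℤ) + t j)), vonMangoldt i
    with hA1
  have e1 : ∑ n ∈ (Icc 1 T).filter (fun n : ℕ => (n : ℤ) ≡ b [ZMOD m] ∧ Rgt z t n), vonMangoldt n =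
      ∑ i ∈ (s.filter (fun i : ℕ => ∀ p ∈ Pp z m, ¬ (¬ p ∣ i ∧ ∃ j, (p : ℤ) ∣ (i : ℤ) + t j))).filter
        (fun i : ℕ => ∀ p ∈ pz z, ¬ p ∣ i), vonMangoldt i := by
    rw [hs, filter_filter, filter_filter]
    apply sum_congr _ fun _ _ => rfl
    apply filter_congr
    intro n _
    constructor
    · rintro ⟨g1, g3⟩
      refine ⟨g1, fun p hp => ?_, fun p hp => ?_⟩
      · rintro ⟨_, j, hj⟩
        exact g3 p (mem_pz.2 ⟨(hPm p hp).1, (hPm p hp).2.1⟩) j hj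
      · intro hd
        apply g3 p hp i0
        rw [h0, add_zero]
        exact Int.natCast_dvd_natCast.2 hd
    · rintro ⟨g1, g3, g4⟩
      refine ⟨g1, fun p hp j hj => ?_⟩
      by_cases hpq : p ∣ m
      · have h2 := hmb p hp hpq j
        have h3 : (n : ℤ) ≡ b [ZMOD p] := g1.of_dvd (Int.natCast_dvd_natCast.2 hpq)
        rw [Int.ModEq.dvd_iff (h3.add_right (t j))] at hj
        exact h2 hj
      · exact g3 p (by rw [Pp, mem_filter]; exact ⟨hp, hpq⟩) ⟨g4 p hp, j, hj⟩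
  have e2 : |∑ n ∈ (Icc 1 T).filter (fun n : ℕ => (n : ℤ) ≡ b [ZMOD m] ∧ Rgt z t n), vonMangoldt n - A1| ≤
      z * ((Nat.log 2 X + 1 : ℝ) * Real.log X) := by
    rw [e1, hA1, ← sum_filter_add_sum_filter_not
      (s.filter (fun i : ℕ => ∀ p ∈ Pp z m, ¬ (¬ p ∣ i ∧ ∃ j, (p : ℤ) ∣ (i : ℤ) + t j)))
      (fun i : ℕ => ∀ p ∈ pz z, ¬ p ∣ i), sub_add_cancel_left, abs_neg,
      abs_of_nonneg (sum_nonneg fun _ _ => vonMangoldt_nonneg)]
    have h2 : ∑ i ∈ (s.filter (fun i : ℕ => ∀ p ∈ Pp z m, ¬ (¬ p ∣ i ∧ ∃ j, (p : ℤ) ∣ (i : ℤ) + t j))).filter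
        (fun i : ℕ => ¬ ∀ p ∈ pz z, ¬ p ∣ i), vonMangoldt i ≤
        ∑ i ∈ (pz z).biUnion (fun p => (Icc 1 X).filter (fun n => p ∣ n)), vonMangoldt i := by
      apply sum_le_sum_of_subset_of_nonneg
      · intro i hi
        rw [mem_filter, mem_filter, hs, mem_filter, mem_Icc] at hi
        obtain ⟨⟨⟨⟨g1, g2⟩, g3⟩, g4⟩, g5⟩ := hi
        push Not at g5
        obtain ⟨p, hp, hd⟩ := g5
        rw [mem_biUnion]
        exact ⟨p, hp, mem_filter.2 ⟨mem_Icc.2 ⟨g1, g2.trans hT⟩, hd⟩⟩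
      · intro _ _ _
        exact vonMangoldt_nonneg
    refine h2.trans ?_
    have h3 : ∑ i ∈ (pz z).biUnion (fun p => (Icc 1 X).filter (fun n => p ∣ n)), vonMangoldt i ≤
        ∑ p ∈ pz z, ∑ i ∈ (Icc 1 X).filter (fun n => p ∣ n), vonMangoldt i :=
      sum_bU_le _ _ _ fun _ => vonMangoldt_nonneg
    refine h3.trans ?_
    have h4 : ∀ p ∈ pz z, ∑ i ∈ (Icc 1 X).filter (fun n => p ∣ n), vonMangoldt i ≤
        (Nat.log 2 X + 1 : ℝ) * Real.log X := fun p hp => lam_mult_prime X p (mem_pz.1 hp).1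
    refine (sum_le_sum h4).trans ?_
    rw [sum_const, nsmul_eq_mul]
    apply mul_le_mul_of_nonneg_right
    · have : (pz z).card ≤ z := by
        unfold pz
        refine (card_filter_le _ _).trans ?_
        simp
      exact_mod_cast this
    · have : 0 ≤ Real.log X := Real.log_natCast_nonneg X
      positivity
  have h3 := abs_add_le (∑ n ∈ (Icc 1 T).filter (fun n : ℕ => (n : ℤ) ≡ b [ZMOD m] ∧ Rgt z t n),
    vonMangoldt n - A1) (A1 - (T : ℝ) / (Nat.totient m : ℝ) *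
      ∏ p ∈ Pp z m, (1 - ((omt t p : ℝ) - 1) / ((p : ℝ) - 1)))
  rw [sub_add_sub_cancel] at h3
  refine h3.trans ?_
  have h4 : |A1 - (T : ℝ) / (Nat.totient m : ℝ) *
      ∏ p ∈ Pp z m, (1 - ((omt t p : ℝ) - 1) / ((p : ℝ) - 1))| ≤
      ∑ j ∈ range (r + 1), ∑ S ∈ (Pp z m).powersetCard j, (K : ℝ) ^ S.card * M (m * ∏ p ∈ S, p) +
      2 * ((T : ℝ) / (Nat.totient m : ℝ)) *
        es (fun p => ((omt t p : ℝ) - 1) / ((p : ℝ) - 1)) (Pp z m) r := h1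
  linarith

/-- **comparison of the densities** -/
lemma dens_eq {K : ℕ} (t : Fin K → ℤ) (z q : ℕ) (hq : 1 ≤ q)
    (hqz : ∀ p : ℕ, p.Prime → p ∣ q → p ≤ z) :
    1 / (Nat.totient q : ℝ) * ∏ p ∈ Pp z q, (1 - ((omt t p : ℝ) - 1) / ((p : ℝ) - 1)) =
      (∏ p ∈ pz z, (1 - 1 / (p : ℝ)))⁻¹ * (1 / (q : ℝ) * ∏ p ∈ Pp z q, (1 - (omt t p : ℝ) / p)) := by
  have hpos : ∀ p ∈ pz z, 0 < 1 - 1 / (p : ℝ) := by
    intro p hp
    have : (2 : ℝ) ≤ p := by exact_mod_cast (mem_pz.1 hp).1.two_le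
    rw [sub_pos, div_lt_one (by linarith)]
    linarith
  have hq0 : (0 : ℝ) < q := by exact_mod_cast hq
  -- the totient
  have h1 : (Nat.totient q : ℝ) = q * ∏ p ∈ (pz z).filter (fun p => p ∣ q), (1 - 1 / (p : ℝ)) := by
    have h2 := Nat.totient_eq_mul_prod_factors q
    have h3 : ((Nat.totient q : ℕ) : ℝ) = (((Nat.totient q : ℚ)) : ℝ) := by push_cast; rfl
    rw [h3, h2]
    push_cast
    congr 1
    apply prod_congr _ (fun p _ => by rw [one_div])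
    ext p
    rw [mem_filter, mem_pz, Nat.mem_primeFactors]
    constructor
    · rintro ⟨g1, g2, g3⟩
      exact ⟨⟨g1, hqz p g1 g2⟩, g2⟩
    · rintro ⟨⟨g1, g2⟩, g3⟩
      exact ⟨g1, g3, by omega⟩
  have h4 : ∏ p ∈ pz z, (1 - 1 / (p : ℝ)) = (∏ p ∈ (pz z).filter (fun p => p ∣ q), (1 - 1 / (p : ℝ))) *
      ∏ p ∈ Pp z q, (1 - 1 / (p : ℝ)) := by
    rw [Pp, prod_filter_mul_prod_filter_not]
  have h5 : ∏ p ∈ Pp z q, (1 - (omt t p : ℝ) / p) = (∏ p ∈ Pp z q, (1 - 1 / (p : ℝ))) *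
      ∏ p ∈ Pp z q, (1 - ((omt t p : ℝ) - 1) / ((p : ℝ) - 1)) := by
    rw [← prod_mul_distrib]
    apply prod_congr rfl
    intro p hp
    rw [Pp, mem_filter, mem_pz] at hp
    have hp2 : (2 : ℝ) ≤ p := by exact_mod_cast hp.1.1.two_le
    have h7 : (p : ℝ) ≠ 0 := by linarith
    have h8 : (p : ℝ) - 1 ≠ 0 := by linarith
    rw [show (1 : ℝ) - 1 / p = ((p : ℝ) - 1) / p by rw [sub_div, div_self h7],
      show (1 : ℝ) - ((omt t p : ℝ) - 1) / ((p : ℝ) - 1) = ((p : ℝ) - omt t p) / ((p : ℝ) - 1) by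
        rw [eq_div_iff h8, sub_mul, div_mul_cancel₀ _ h8]; ring,
      div_mul_div_comm, mul_comm ((p : ℝ) - 1), mul_div_mul_right _ _ h8, sub_div, div_self h7]
  have hA : 0 < ∏ p ∈ (pz z).filter (fun p => p ∣ q), (1 - 1 / (p : ℝ)) :=
    prod_pos fun p hp => hpos p (mem_filter.1 hp).1
  have hB : 0 < ∏ p ∈ Pp z q, (1 - 1 / (p : ℝ)) :=
    prod_pos fun p hp => hpos p (by rw [Pp, mem_filter] at hp; exact hp.1)
  rw [h1, h4, h5]
  generalize (∏ p ∈ (pz z).filter (fun p => p ∣ q), (1 - 1 / (p : ℝ))) = a at hA ⊢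
  generalize (∏ p ∈ Pp z q, (1 - 1 / (p : ℝ))) = b at hB ⊢
  generalize (∏ p ∈ Pp z q, (1 - ((omt t p : ℝ) - 1) / ((p : ℝ) - 1))) = c
  field_simp

end Pool.Agent.H542.MT
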