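import Pool.Agent.H542.MT.M19

/-!
A positive proportion of the tuples of shifts.
-/

set_option autoImplicit false

namespace Pool.Agent.H542.MT

open Finset Polynomial
open Pool.Agent.H373R2.T7 (pz)
open Pool.Agent.H542.TW (mem_pz)
open Pool.Agent.H542.G

/-- the tuples in one class modulo `P` are admissible -/
lemma adm_class {K : ℕ} (hK : 1 ≤ K) (f : ℤ[X]) (hd : 1 ≤ f.natDegree) (hlc : 0 < f.leadingCoeff)
    (t : Fin K → ℤ) (a : ℤ) (P : ℕ) (hP : ∀ p : ℕ, p.Prime → p ≤ K * f.natDegree + f.leadingCoeff.toNat → p ∣ P)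
    (ht : ∀ j, (P : ℤ) ∣ f.eval 0 + a + t j - 1) (p : ℕ) (hp : p.Prime) : omg f t a p < p := by
  by_cases hpP : p ≤ K * f.natDegree + f.leadingCoeff.toNat
  · have h1 := hP p hp hpP
    refine lt_of_le_of_ne (omg_le_self f t a p) ?_
    intro heq
    unfold omg at heq
    have h2 : (range p).filter (fun s : ℕ => (p : ℤ) ∣ ∏ j, (f.eval (s : ℤ) + a + t j)) = range p :=
      eq_of_subset_of_card_le (filter_subset _ _) (by rw [heq, card_range])
    have h3 : 0 ∈ (range p).filter (fun s : ℕ => (p : ℤ) ∣ ∏ j, (f.eval (s : ℤ) + a + t j)) := by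
      rw [h2, mem_range]
      exact hp.pos
    have h4 := (mem_filter.1 h3).2
    have hp' := Nat.prime_iff_prime_int.1 hp
    obtain ⟨j, _, hj⟩ := (Prime.dvd_finsetProd_iff hp' _).1 h4
    have h5 : (p : ℤ) ∣ f.eval 0 + a + t j - 1 := (Int.natCast_dvd_natCast.2 h1).trans (ht j)
    simp only [Nat.cast_zero] at hj
    have h6 : (p : ℤ) ∣ 1 := by
      have := dvd_sub hj h5
      simpa using this
    exact hp'.not_isUnit (isUnit_of_dvd_one h6)
  · push Not at hpP
    have h1 := omg_le hK f hd hlc t a p hp (by omega)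
    omega

/-- the number of the sets containing a given set -/
lemma card_super (N : Finset ℕ) (K k : ℕ) (S : Finset ℕ) (hSk : S.card = k) :
    ((N.powersetCard K).filter (fun T => S ⊆ T)).card ≤ N.card ^ (K - k) := by
  calc ((N.powersetCard K).filter (fun T => S ⊆ T)).card ≤ (N.powersetCard (K - k)).card := by
        apply card_le_card_of_injOn (fun T => T \ S)
        · intro T hT
          rw [mem_coe, mem_filter, mem_powersetCard] at hT
          rw [mem_coe, mem_powersetCard]
          refine ⟨sdiff_subset.trans hT.1.1, ?_⟩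
          rw [card_sdiff_of_subset hT.2, hT.1.2, hSk]
        · intro T hT T' hT' h
          rw [mem_coe, mem_filter, mem_powersetCard] at hT hT'
          simp only at h
          rw [← sdiff_union_of_subset hT.2, h, sdiff_union_of_subset hT'.2]
    _ = N.card.choose (K - k) := card_powersetCard _ _
    _ ≤ N.card ^ (K - k) := Nat.choose_le_pow _ _

/-- double counting -/
lemma supersat (N M : Finset ℕ) (hM : M ⊆ N) (K k : ℕ) (hk : k ≤ K) (G : Finset ℕ → Prop) [DecidablePred G]
    (h : ∀ T ⊆ M, T.card = K → ∃ S ⊆ T, S.card = k ∧ G S) :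
    M.card.choose K ≤ ((N.powersetCard k).filter G).card * N.card ^ (K - k) := by
  have h1 : M.powersetCard K ⊆ ((N.powersetCard k).filter G).biUnion
      (fun S => (N.powersetCard K).filter (fun T => S ⊆ T)) := by
    intro T hT
    rw [mem_powersetCard] at hT
    obtain ⟨S, hST, hSk, hG⟩ := h T hT.1 hT.2
    rw [mem_biUnion]
    refine ⟨S, ?_, ?_⟩
    · rw [mem_filter, mem_powersetCard]
      exact ⟨⟨hST.trans (hT.1.trans hM), hSk⟩, hG⟩
    · rw [mem_filter, mem_powersetCard]
      exact ⟨⟨hT.1.trans hM, hT.2⟩, hST⟩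
  have h2 := card_le_card h1
  rw [card_powersetCard] at h2
  refine h2.trans (card_biUnion_le.trans ?_)
  calc ∑ S ∈ (N.powersetCard k).filter G, ((N.powersetCard K).filter (fun T => S ⊆ T)).card ≤
      ∑ _S ∈ (N.powersetCard k).filter G, N.card ^ (K - k) := by
        apply sum_le_sum
        intro S hS
        rw [mem_filter, mem_powersetCard] at hS
        exact card_super N K k S hS.1.2
    _ = _ := by rw [sum_const, smul_eq_mul]

/-- the members of a class -/
lemma class_card (P H : ℕ) (hP : 1 ≤ P) (τ : ℤ) :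
    H / P ≤ ((Icc 1 H).filter (fun n : ℕ => (P : ℤ) ∣ τ + n)).card := by
  have hP0 : (0 : ℤ) < P := by exact_mod_cast hP
  obtain ⟨r, hr⟩ : ∃ r : ℕ, r = ((-τ - 1) % P).toNat := ⟨_, rfl⟩
  have h1 := Int.emod_nonneg (-τ - 1) hP0.ne'
  have h2 := Int.emod_lt_of_pos (-τ - 1) hP0
  have hr1 : (r : ℤ) = (-τ - 1) % P := by rw [hr]; exact Int.toNat_of_nonneg h1
  have hrP : r < P := by omega
  calc H / P = (range (H / P)).card := (card_range _).symm
    _ ≤ _ := by
        apply card_le_card_of_injOn (fun i => r + 1 + i * P)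
        · intro i hi
          rw [mem_coe, mem_range] at hi
          rw [mem_coe, mem_filter, mem_Icc]
          beta_reduce
          refine ⟨⟨by omega, ?_⟩, ?_⟩
          · have h3 : (i + 1) * P ≤ H / P * P := Nat.mul_le_mul_right P (by omega)
            have h4 := Nat.div_mul_le_self H P
            have h5 : (i + 1) * P = i * P + P := by ring
            omega
          · have h3 := Int.emod_add_mul_ediv (-τ - 1) P
            push_cast
            refine ⟨(i : ℤ) - (-τ - 1) / P, ?_⟩
            rw [hr1]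
            linarith [mul_comm (P : ℤ) (i : ℤ), mul_sub (P : ℤ) (i : ℤ) ((-τ - 1) / P)]
        · intro i _ j _ hij
          simp only at hij
          have h6 : i * P = j * P := by omega
          exact Nat.eq_of_mul_eq_mul_right (by omega) h6

/-- the numerical part of the double counting -/
lemma choose_low (H P K k : ℕ) (hP : 1 ≤ P) (hK : 1 ≤ K) (hkK : k ≤ K) (hH : 2 * P * K ≤ H) (G : ℕ)
    (h : (H / P).choose K ≤ G * H ^ (K - k)) :
    1 / ((4 * P : ℝ) ^ K * K.factorial) * (H : ℝ) ^ k ≤ G := by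
  have hH1 : 1 ≤ H := by
    have : 1 ≤ 2 * P * K := by
      have := Nat.mul_pos hP hK
      nlinarith
    omega
  have hH0 : (0 : ℝ) < H := by exact_mod_cast hH1
  have hP0 : (0 : ℝ) < P := by exact_mod_cast hP
  obtain ⟨n, hn⟩ : ∃ n, n = H / P := ⟨_, rfl⟩
  rw [← hn] at h
  have h1 : 2 * K ≤ n := by
    rw [hn, Nat.le_div_iff_mul_le (by omega)]
    linarith
  have h2 : (n + 1 - K) ^ K ≤ K.factorial * n.choose K := by
    have := Nat.pow_sub_le_descFactorial n K
    rw [Nat.descFactorial_eq_factorial_mul_choose] at this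
    exact this
  have h3 : (H : ℝ) ≤ (n + 1) * P := by
    have := Nat.lt_div_mul_add (a := H) (b := P) (by omega)
    rw [← hn] at this
    have h4 : H ≤ n * P + P := this.le
    have h5 : (H : ℝ) ≤ n * P + P := by exact_mod_cast h4
    linarith
  have h4 : (H : ℝ) / (4 * P) ≤ ((n + 1 - K : ℕ) : ℝ) := by
    rw [Nat.cast_sub (by omega)]
    push_cast
    rw [div_le_iff₀ (by positivity)]
    have h5 : (2 * K : ℝ) ≤ n := by exact_mod_cast h1
    have h6 : ((n : ℝ) + 1) * P ≤ (n + 1 - K) * (4 * P) := by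
      have : ((n : ℝ) + 1) ≤ (n + 1 - K) * 4 := by
        have : (0 : ℝ) ≤ n := Nat.cast_nonneg _
        linarith
      calc ((n : ℝ) + 1) * P ≤ ((n + 1 - K) * 4) * P := mul_le_mul_of_nonneg_right this hP0.le
        _ = _ := by ring
    linarith
  have h5 : ((H : ℝ) / (4 * P)) ^ K ≤ K.factorial * (G * (H : ℝ) ^ (K - k)) := by
    calc ((H : ℝ) / (4 * P)) ^ K ≤ ((n + 1 - K : ℕ) : ℝ) ^ K := pow_le_pow_left₀ (by positivity) h4 K
      _ ≤ ((K.factorial * n.choose K : ℕ) : ℝ) := by exact_mod_cast h2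
      _ ≤ ((K.factorial * (G * H ^ (K - k)) : ℕ) : ℝ) := by
          exact_mod_cast Nat.mul_le_mul_left _ h
      _ = _ := by push_cast; ring
  have h6 : (H : ℝ) ^ K = (H : ℝ) ^ k * (H : ℝ) ^ (K - k) := by
    rw [← pow_add]
    congr 1
    omega
  rw [div_pow, div_le_iff₀ (by positivity), h6] at h5
  have hHp : (0 : ℝ) < (H : ℝ) ^ (K - k) := by positivity
  have h7 : (H : ℝ) ^ k ≤ K.factorial * G * (4 * P) ^ K := by
    have h8 : (H : ℝ) ^ k * (H : ℝ) ^ (K - k) ≤ (K.factorial * G * (4 * P) ^ K) * (H : ℝ) ^ (K - k) := by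
      calc _ ≤ _ := h5
        _ = _ := by ring
    exact le_of_mul_le_mul_right h8 hHp
  rw [div_mul_eq_mul_div, one_mul, div_le_iff₀ (by positivity)]
  linarith

end Pool.Agent.H542.MT
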