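import Pool.Agent.H542.MT.M20

/-!
Simultaneous primes for a positive proportion of the tuples of shifts.
-/

set_option autoImplicit false

namespace Pool.Agent.H542.MT

open Finset Polynomial
open Pool.Agent.H373R2.T7 (pz)
open Pool.Agent.H542.TW (mem_pz)
open Pool.Agent.H542.G

open Classical in
/-- the statement of `main` for admissible tuples, without the singular series -/
lemma one_tuple (k K0 : ℕ) (δ' : ℝ) (f : ℤ[X]) (hd : 1 ≤ f.natDegree)
    (t : Fin (K0 + 1) → ℕ) (U : ℕ)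
    (h : ∃ c : ℝ, 0 < c ∧ ∃ x0 : ℕ, ∀ x : ℕ, x0 ≤ x → ∃ E : Finset ℕ,
      (E.card : ℝ) ≤ (x : ℝ) ^ f.natDegree / Real.log x ^ U ∧
      ∀ a ∈ Icc 1 (x ^ f.natDegree), a ∉ E →
        c * SS f (fun j => (t j : ℤ)) a ⌊Real.log x⌋₊ * (x / Real.log x ^ (K0 + 1)) ≤
          ((Icc 1 x).filter (fun m : ℕ => Gd k ((x : ℝ) ^ δ') t (f.eval (m : ℤ) + a))).card) :
    ∃ x0 : ℕ, ∀ x : ℕ, x0 ≤ x → ∃ E : Finset ℕ,
      (E.card : ℝ) ≤ (x : ℝ) ^ f.natDegree / Real.log x ^ U ∧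
      ∀ a ∈ Icc 1 (x ^ f.natDegree), a ∉ E →
        (∀ p : ℕ, p.Prime → omg f (fun j => (t j : ℤ)) a p < p) →
        2 ^ (K0 + 2) * (x / Real.log x ^ (K0 + 2)) ≤
          ((Icc 1 x).filter (fun m : ℕ => Gd k ((x : ℝ) ^ δ') t (f.eval (m : ℤ) + a))).card := by
  obtain ⟨c, hc, x0, H⟩ := h
  obtain ⟨c1, hc1, Hlow⟩ := SS_low (K := K0 + 1) (by omega) f hd (fun j => (t j : ℤ))
  obtain ⟨e, he⟩ : ∃ e, e = (K0 + 1) * f.natDegree - (K0 + 1) := ⟨_, rfl⟩
  rw [← he] at Hlow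
  have hev : ∀ᶠ x : ℕ in Filter.atTop, (2 ^ (K0 + 2) / (c * c1)) * Real.log (Real.log x) ^ e ≤ Real.log x ∧
      (4 : ℝ) ≤ Real.log x := by
    filter_upwards [loglog_pow e (2 ^ (K0 + 2) / (c * c1)), log_big 4] with x h1 h2
    exact ⟨h1, h2⟩
  obtain ⟨x1, hx1⟩ := Filter.eventually_atTop.1 hev
  refine ⟨max x0 (max x1 1), fun x hx => ?_⟩
  obtain ⟨g1, g2⟩ := hx1 x ((le_max_left _ _).trans ((le_max_right _ _).trans hx))
  have hx1' : 1 ≤ x := (le_max_right _ _).trans ((le_max_right _ _).trans hx)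
  have hxr : (1 : ℝ) ≤ x := by exact_mod_cast hx1'
  obtain ⟨E, hE, HE⟩ := H x ((le_max_left _ _).trans hx)
  refine ⟨E, hE, fun a ha haE hadm => le_trans ?_ (HE a ha haE)⟩
  obtain ⟨l, hl⟩ : ∃ l, l = Real.log x := ⟨_, rfl⟩
  rw [← hl] at g1 g2 ⊢
  have hl0 : 0 < l := by linarith
  have hw3 : 3 ≤ ⌊l⌋₊ := Nat.le_floor (by push_cast; linarith)
  have hw3r : (3 : ℝ) ≤ (⌊l⌋₊ : ℕ) := by exact_mod_cast hw3
  have h1 := Hlow a ⌊l⌋₊ hw3 (fun p hp => hadm p (mem_pz.1 hp).1)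
  have hlw : Real.log (⌊l⌋₊ : ℕ) ≤ Real.log l := Real.log_le_log (by linarith) (Nat.floor_le hl0.le)
  have hlw0 : 0 < Real.log (⌊l⌋₊ : ℕ) := Real.log_pos (by linarith)
  have hll0 : 0 < Real.log l := Real.log_pos (by linarith)
  have h2 : c1 / Real.log l ^ e ≤ SS f (fun j => (t j : ℤ)) a ⌊l⌋₊ := by
    refine le_trans ?_ h1
    apply div_le_div_of_nonneg_left hc1.le (by positivity)
    exact pow_le_pow_left₀ hlw0.le hlw e
  have h3 : 2 ^ (K0 + 2) / l ≤ c * (c1 / Real.log l ^ e) := by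
    rw [div_mul_eq_mul_div, div_le_iff₀ (by positivity)] at g1
    rw [← mul_div_assoc, div_le_div_iff₀ hl0 (by positivity)]
    linarith
  calc 2 ^ (K0 + 2) * (x / l ^ (K0 + 2)) = (2 ^ (K0 + 2) / l) * (x / l ^ (K0 + 1)) := by
        rw [pow_succ l (K0 + 1)]
        field_simp
    _ ≤ (c * (c1 / Real.log l ^ e)) * (x / l ^ (K0 + 1)) :=
        mul_le_mul_of_nonneg_right h3 (by positivity)
    _ ≤ _ := by
        apply mul_le_mul_of_nonneg_right _ (by positivity)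
        exact mul_le_mul_of_nonneg_left h2 hc.le

open Classical in
/-- the pigeonhole principle for one tuple -/
lemma one_subset (k K0 x : ℕ) (y1 y : ℝ) (hy : 0 < y) (T : Finset ℕ) (hT : T.card = K0 + 1)
    (t : Fin (K0 + 1) → ℕ) (htT : ∀ j, t j ∈ T) (htinj : Function.Injective t) (g : ℕ → ℤ)
    (h : 2 ^ (K0 + 2) * y ≤ (((Icc 1 x).filter (fun m : ℕ => Gd k y1 t (g m))).card : ℝ)) :
    ∃ S ⊆ T, S.card = k + 1 ∧ y ≤ ((Icc 1 x).filter (fun m : ℕ => ∀ s ∈ S, (g m + s).toNat.Prime)).card := by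
  by_contra hcon
  push Not at hcon
  have h1 : (Icc 1 x).filter (fun m : ℕ => Gd k y1 t (g m)) ⊆ (T.powersetCard (k + 1)).biUnion
      (fun S => (Icc 1 x).filter (fun m : ℕ => ∀ s ∈ S, (g m + s).toNat.Prime)) := by
    intro m hm
    rw [mem_filter] at hm
    obtain ⟨hm1, hm2, _⟩ := hm
    obtain ⟨J, hJ, hJc⟩ := exists_subset_card_eq hm2
    rw [mem_biUnion]
    refine ⟨J.image t, ?_, ?_⟩
    · rw [mem_powersetCard]
      refine ⟨?_, ?_⟩
      · intro s hs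
        rw [mem_image] at hs
        obtain ⟨j, _, rfl⟩ := hs
        exact htT j
      · rw [card_image_of_injective _ htinj, hJc]
    · rw [mem_filter]
      refine ⟨hm1, fun s hs => ?_⟩
      rw [mem_image] at hs
      obtain ⟨j, hj, rfl⟩ := hs
      exact (mem_filter.1 (hJ hj)).2
  have h2 : (((Icc 1 x).filter (fun m : ℕ => Gd k y1 t (g m))).card : ℝ) ≤
      ∑ S ∈ T.powersetCard (k + 1),
        (((Icc 1 x).filter (fun m : ℕ => ∀ s ∈ S, (g m + s).toNat.Prime)).card : ℝ) := by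
    exact_mod_cast (card_le_card h1).trans card_biUnion_le
  have h3 : ∑ S ∈ T.powersetCard (k + 1),
        (((Icc 1 x).filter (fun m : ℕ => ∀ s ∈ S, (g m + s).toNat.Prime)).card : ℝ) ≤
      ∑ _S ∈ T.powersetCard (k + 1), y := by
    apply sum_le_sum
    intro S hS
    rw [mem_powersetCard] at hS
    exact (hcon S hS.1 hS.2).le
  rw [sum_const, nsmul_eq_mul] at h3
  have h4 : ((T.powersetCard (k + 1)).card : ℝ) ≤ 2 ^ (K0 + 1) := by
    have h5 : (T.powersetCard (k + 1)).card ≤ T.powerset.card := by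
      apply card_le_card
      intro S hS
      rw [mem_powersetCard] at hS
      exact mem_powerset.2 hS.1
    rw [card_powerset, hT] at h5
    exact_mod_cast h5
  have h5 : ((T.powersetCard (k + 1)).card : ℝ) * y ≤ 2 ^ (K0 + 1) * y := mul_le_mul_of_nonneg_right h4 hy.le
  have h6 : (2 : ℝ) ^ (K0 + 2) * y = 2 ^ (K0 + 1) * y + 2 ^ (K0 + 1) * y := by ring
  have h7 : (0 : ℝ) < 2 ^ (K0 + 1) * y := by positivity
  linarith

open Classical in
/-- **Simultaneous primes for a positive proportion of the tuples.** -/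
theorem main2 (k K0 : ℕ) (δ' : ℝ) (Hm : ∀ (f : ℤ[X]), 1 ≤ f.natDegree → 0 < f.leadingCoeff →
    ∀ (t : Fin (K0 + 1) → ℕ), Function.Injective t → ∀ U : ℕ,
    ∃ c : ℝ, 0 < c ∧ ∃ x0 : ℕ, ∀ x : ℕ, x0 ≤ x → ∃ E : Finset ℕ,
    (E.card : ℝ) ≤ (x : ℝ) ^ f.natDegree / Real.log x ^ U ∧
    ∀ a ∈ Icc 1 (x ^ f.natDegree), a ∉ E →
      c * SS f (fun j => (t j : ℤ)) a ⌊Real.log x⌋₊ * (x / Real.log x ^ (K0 + 1)) ≤
        ((Icc 1 x).filter (fun m : ℕ => Gd k ((x : ℝ) ^ δ') t (f.eval (m : ℤ) + a))).card)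
    (f : ℤ[X]) (hd : 1 ≤ f.natDegree) (hlc : 0 < f.leadingCoeff) :
    ∃ c : ℝ, 0 < c ∧ ∃ H0 : ℕ, ∀ H : ℕ, H0 ≤ H → ∀ U : ℕ, ∃ x0 : ℕ, ∀ x : ℕ, x0 ≤ x → ∃ E : Finset ℕ,
    (E.card : ℝ) ≤ (x : ℝ) ^ f.natDegree / Real.log x ^ U ∧
    ∀ a : ℕ, a ∈ Icc 1 (x ^ f.natDegree) → a ∉ E →
      c * (H : ℝ) ^ (k + 1) ≤ (((Icc 1 H).powersetCard (k + 1)).filter (fun S =>
        x / Real.log x ^ (K0 + 2) ≤
          (((Icc 1 x).filter (fun m : ℕ => ∀ s : ℕ, s ∈ S → (f.eval (m : ℤ) + a + s).toNat.Prime)).card : ℝ))).card := by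
  obtain ⟨P, hP⟩ : ∃ P : ℕ, P = ((K0 + 1) * f.natDegree + f.leadingCoeff.toNat).factorial := ⟨_, rfl⟩
  have hP1 : 1 ≤ P := by rw [hP]; exact Nat.factorial_pos _
  have hPp : ∀ p : ℕ, p.Prime → p ≤ (K0 + 1) * f.natDegree + f.leadingCoeff.toNat → p ∣ P := by
    intro p hp hle
    rw [hP]
    exact (hp.dvd_factorial).2 hle
  refine ⟨1 / ((4 * P : ℝ) ^ (K0 + 1) * (K0 + 1).factorial), by positivity, 2 * P * (K0 + 1), fun H hH U => ?_⟩
  have hone : ∀ t : Fin (K0 + 1) → Fin (H + 1), ∃ x0 : ℕ, Function.Injective t → ∀ x : ℕ, x0 ≤ x →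
      ∃ E : Finset ℕ,
      (E.card : ℝ) ≤ (x : ℝ) ^ f.natDegree / Real.log x ^ (U + 1) ∧
      ∀ a ∈ Icc 1 (x ^ f.natDegree), a ∉ E →
        (∀ p : ℕ, p.Prime → omg f (fun j => (((t j : Fin (H + 1)) : ℕ) : ℤ)) a p < p) →
        2 ^ (K0 + 2) * (x / Real.log x ^ (K0 + 2)) ≤
          ((Icc 1 x).filter (fun m : ℕ => Gd k ((x : ℝ) ^ δ') (fun j => ((t j : Fin (H + 1)) : ℕ))
            (f.eval (m : ℤ) + a))).card := by
    intro t
    by_cases ht : Function.Injective t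
    · have hinj : Function.Injective (fun j => ((t j : Fin (H + 1)) : ℕ)) := by
        intro i j hij
        exact ht (Fin.ext hij)
      obtain ⟨x0, hx0⟩ := one_tuple k K0 δ' f hd (fun j => ((t j : Fin (H + 1)) : ℕ)) (U + 1)
        (Hm f hd hlc _ hinj (U + 1))
      exact ⟨x0, fun _ => hx0⟩
    · exact ⟨0, fun h => absurd h ht⟩
  choose X0 hX0 using hone
  obtain ⟨x1, hx1⟩ := Filter.eventually_atTop.1 (log_big (((H + 1) ^ (K0 + 1) : ℕ) : ℝ))
  refine ⟨max (univ.sup X0) (max x1 3), fun x hx => ?_⟩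
  have hxt : ∀ t, X0 t ≤ x := fun t => (Finset.le_sup (mem_univ t)).trans ((le_max_left _ _).trans hx)
  have hlog := hx1 x ((le_max_left _ _).trans ((le_max_right _ _).trans hx))
  have hx3 : 3 ≤ x := (le_max_right _ _).trans ((le_max_right _ _).trans hx)
  have hx3r : (3 : ℝ) ≤ x := by exact_mod_cast hx3
  have hl0 : 0 < Real.log x := Real.log_pos (by linarith)
  have hex : ∀ t : Fin (K0 + 1) → Fin (H + 1), ∃ E : Finset ℕ, Function.Injective t →
      (E.card : ℝ) ≤ (x : ℝ) ^ f.natDegree / Real.log x ^ (U + 1) ∧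
      ∀ a ∈ Icc 1 (x ^ f.natDegree), a ∉ E →
        (∀ p : ℕ, p.Prime → omg f (fun j => (((t j : Fin (H + 1)) : ℕ) : ℤ)) a p < p) →
        2 ^ (K0 + 2) * (x / Real.log x ^ (K0 + 2)) ≤
          ((Icc 1 x).filter (fun m : ℕ => Gd k ((x : ℝ) ^ δ') (fun j => ((t j : Fin (H + 1)) : ℕ))
            (f.eval (m : ℤ) + a))).card := by
    intro t
    by_cases ht : Function.Injective t
    · obtain ⟨E, hE⟩ := hX0 t ht x (hxt t)
      exact ⟨E, fun _ => hE⟩
    · exact ⟨∅, fun h => absurd h ht⟩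
  choose ET hET using hex
  obtain ⟨I, hI⟩ : ∃ I : Finset (Fin (K0 + 1) → Fin (H + 1)), I = univ.filter Function.Injective := ⟨_, rfl⟩
  refine ⟨I.biUnion ET, ?_, ?_⟩
  · have h1 : ((I.biUnion ET).card : ℝ) ≤ ∑ t ∈ I, ((ET t).card : ℝ) := by exact_mod_cast card_biUnion_le
    have h2 : ∑ t ∈ I, ((ET t).card : ℝ) ≤ ∑ _t ∈ I, (x : ℝ) ^ f.natDegree / Real.log x ^ (U + 1) := by
      apply sum_le_sum
      intro t ht
      rw [hI, mem_filter] at ht
      exact (hET t ht.2).1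
    rw [sum_const, nsmul_eq_mul] at h2
    have h3 : (I.card : ℝ) ≤ Real.log x := by
      refine le_trans ?_ hlog
      have h4 : I.card ≤ (H + 1) ^ (K0 + 1) := by
        refine (card_le_univ I).trans ?_
        rw [Fintype.card_fun, Fintype.card_fin, Fintype.card_fin]
      exact_mod_cast h4
    calc ((I.biUnion ET).card : ℝ) ≤ I.card * ((x : ℝ) ^ f.natDegree / Real.log x ^ (U + 1)) := h1.trans h2
      _ ≤ Real.log x * ((x : ℝ) ^ f.natDegree / Real.log x ^ (U + 1)) :=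
          mul_le_mul_of_nonneg_right h3 (by positivity)
      _ = _ := by
          rw [pow_succ]
          field_simp
  · intro a ha haE
    have hy : 0 < (x : ℝ) / Real.log x ^ (K0 + 2) := by positivity
    obtain ⟨M, hM⟩ : ∃ M : Finset ℕ, M = (Icc 1 H).filter (fun n : ℕ => (P : ℤ) ∣ (f.eval 0 + a - 1) + n) :=
      ⟨_, rfl⟩
    have hMN : M ⊆ Icc 1 H := by rw [hM]; exact filter_subset _ _
    have hMc : H / P ≤ M.card := by rw [hM]; exact class_card P H hP1 _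
    have hsub : ∀ T ⊆ M, T.card = K0 + 1 → ∃ S ⊆ T, S.card = k + 1 ∧
        x / Real.log x ^ (K0 + 2) ≤
          (((Icc 1 x).filter (fun m : ℕ => ∀ s : ℕ, s ∈ S → (f.eval (m : ℤ) + a + s).toNat.Prime)).card : ℝ) := by
      intro T hTM hTc
      obtain ⟨t, ht⟩ : ∃ t : Fin (K0 + 1) → Fin (H + 1), t = fun j =>
        ⟨T.orderEmbOfFin hTc j, by
          have h1 := hMN (hTM (T.orderEmbOfFin_mem hTc j))
          rw [mem_Icc] at h1
          omega⟩ := ⟨_, rfl⟩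
      have htinj : Function.Injective t := by
        intro i j hij
        rw [ht] at hij
        simp only [Fin.mk.injEq] at hij
        exact (T.orderEmbOfFin hTc).injective hij
      have htT : ∀ j, ((t j : Fin (H + 1)) : ℕ) ∈ T := by
        intro j
        rw [ht]
        exact T.orderEmbOfFin_mem hTc j
      have haEt : a ∉ ET t := by
        intro h1
        apply haE
        rw [mem_biUnion]
        refine ⟨t, ?_, h1⟩
        rw [hI, mem_filter]
        exact ⟨mem_univ _, htinj⟩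
      have h2 := (hET t htinj).2 a ha haEt (fun p hp => adm_class (by omega) f hd hlc _ a P hPp (by
        intro j
        have h3 := hTM (htT j)
        rw [hM, mem_filter] at h3
        have h4 := h3.2
        have h5 : f.eval 0 + (a : ℤ) - 1 + (((t j : Fin (H + 1)) : ℕ) : ℤ) =
          f.eval 0 + (a : ℤ) + (((t j : Fin (H + 1)) : ℕ) : ℤ) - 1 := by ring
        rw [h5] at h4
        exact h4) p hp)
      have hinj2 : Function.Injective (fun j => ((t j : Fin (H + 1)) : ℕ)) := by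
        intro i j hij
        exact htinj (Fin.ext hij)
      exact one_subset k K0 x ((x : ℝ) ^ δ') (x / Real.log x ^ (K0 + 2)) hy T hTc
        (fun j => ((t j : Fin (H + 1)) : ℕ)) htT hinj2 (fun m => f.eval (m : ℤ) + a) h2
    have hHP : K0 + 1 ≤ H / P := by
      rw [Nat.le_div_iff_mul_le (by omega)]
      have : (K0 + 1) * P ≤ 2 * P * (K0 + 1) := by
        have h1 : 0 ≤ P * (K0 + 1) := Nat.zero_le _
        have h2 : 2 * P * (K0 + 1) = P * (K0 + 1) + P * (K0 + 1) := by ring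
        have h3 : (K0 + 1) * P = P * (K0 + 1) := by ring
        omega
      omega
    have hkK : k + 1 ≤ K0 + 1 := by
      obtain ⟨T, hTM, hTc⟩ := exists_subset_card_eq (hHP.trans hMc)
      obtain ⟨S, hST, hSc, _⟩ := hsub T hTM hTc
      rw [← hSc, ← hTc]
      exact card_le_card hST
    have hsup := supersat (Icc 1 H) M hMN (K0 + 1) (k + 1) hkK (fun S =>
        x / Real.log x ^ (K0 + 2) ≤
          (((Icc 1 x).filter (fun m : ℕ => ∀ s : ℕ, s ∈ S → (f.eval (m : ℤ) + a + s).toNat.Prime)).card : ℝ)) hsub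
    rw [Nat.card_Icc, Nat.add_sub_cancel] at hsup
    exact choose_low H P (K0 + 1) (k + 1) hP1 (by omega) hkK hH _ ((Nat.choose_le_choose _ hMc).trans hsup)

end Pool.Agent.H542.MT
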