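import Pool.Agent.H542.MT.M2
import Pool.Graph.R_seed8.H316R2.LS
import Pool.Graph.R_seed8.H387R2.MB8

/-!
Moments of the divisor function, fibres of the maps of the Selberg sieve, and the general form of the
evaluation of the sums of the multidimensional sieve.
-/

set_option autoImplicit false

namespace Pool.Agent.H542.MT

open Finset
open Pool.Agent.H316R2 (hyperC harm_sum_le tau_mul_le)
open Pool.Agent.H378R2

/-- moments of the divisor function -/
lemma tau_mom (k N : ℕ) :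
    ∑ n ∈ Icc 1 N, (n.divisors.card : ℝ) ^ k / n ≤ (1 + Real.log N) ^ (2 ^ k) := by
  have h0 : 0 ≤ Real.log (N:ℝ) := Real.log_natCast_nonneg N
  induction k with
  | zero => simpa using harm_sum_le N
  | succ k ih =>
    have h1 : ∑ n ∈ Icc 1 N, (n.divisors.card : ℝ) ^ (k + 1) / n =
        ∑ n ∈ Icc 1 N, ∑ i ∈ n.divisorsAntidiagonal, ((i.1 * i.2).divisors.card : ℝ) ^ k / (i.1 * i.2) := by
      apply sum_congr rfl
      intro n hn
      have h2 : ∀ i ∈ n.divisorsAntidiagonal, ((i.1 * i.2).divisors.card : ℝ) ^ k / (i.1 * i.2) =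
          (n.divisors.card : ℝ) ^ k / n := by
        intro i hi
        rw [Nat.mem_divisorsAntidiagonal] at hi
        rw [← hi.1]; push_cast; rfl
      rw [sum_congr rfl h2, sum_const, nsmul_eq_mul]
      have : (n.divisorsAntidiagonal.card : ℝ) = n.divisors.card := by
        rw [← Nat.map_div_right_divisors, card_map]
      rw [this, pow_succ]
      ring
    rw [h1, hyperC N (fun b c => ((b * c).divisors.card : ℝ) ^ k / (b * c))]
    calc _ ≤ ∑ c ∈ Icc 1 N, ∑ b ∈ Icc 1 N, ((b.divisors.card : ℝ) ^ k / b) * ((c.divisors.card : ℝ) ^ k / c) := by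
          apply sum_le_sum
          intro c hc
          refine le_trans (sum_le_sum_of_subset_of_nonneg (t := Icc 1 N)
            (Icc_subset_Icc_right (Nat.div_le_self _ _)) (fun b _ _ => by positivity)) ?_
          apply sum_le_sum
          intro b _
          rw [div_mul_div_comm, ← mul_pow]
          gcongr
          exact_mod_cast tau_mul_le b c
      _ = (∑ c ∈ Icc 1 N, (c.divisors.card : ℝ) ^ k / c) ^ 2 := by
          rw [sq, sum_mul_sum]
          rw [sum_comm]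
      _ ≤ ((1 + Real.log N) ^ (2 ^ k)) ^ 2 := by
          have h3 : 0 ≤ ∑ c ∈ Icc 1 N, (c.divisors.card : ℝ) ^ k / c := sum_nonneg fun _ _ => by positivity
          gcongr
      _ = _ := by rw [← pow_mul, pow_succ]

/-- sums along a map with small fibres -/
lemma sum_fiber {ι : Type*} (I : Finset ι) (φ : ι → ℕ) (Q : ℕ) (hφ : ∀ i ∈ I, 1 ≤ φ i ∧ φ i ≤ Q)
    (W : ι → ℝ) (F : ℕ → ℝ) (hF : ∀ v, 0 ≤ F v) (m : ℕ → ℝ)
    (hm : ∀ v, 1 ≤ v → ∑ i ∈ I.filter (fun i => φ i = v), W i ≤ m v) :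
    ∑ i ∈ I, W i * F (φ i) ≤ ∑ v ∈ Icc 1 Q, m v * F v := by
  rw [← sum_fiberwise_of_maps_to (s := I) (t := Icc 1 Q) (g := φ) (fun i hi => mem_Icc.2 (hφ i hi))]
  apply sum_le_sum
  intro v hv
  rw [mem_Icc] at hv
  have h1 : ∑ i ∈ I.filter (fun i => φ i = v), W i * F (φ i) = (∑ i ∈ I.filter (fun i => φ i = v), W i) * F v := by
    rw [sum_mul]
    apply sum_congr rfl
    intro i hi
    rw [(mem_filter.1 hi).2]
  rw [h1]
  exact mul_le_mul_of_nonneg_right (hm v hv.1) (hF v)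

/-- the fibres of the product of the least common multiples -/
lemma sum_lcm {J : ℕ} (A B : Finset (Fin J → ℕ)) (hA : ∀ d ∈ A, ∀ j, 1 ≤ d j) (hB : ∀ e ∈ B, ∀ j, 1 ≤ e j)
    (Q : ℕ) (hQ : ∀ d ∈ A, ∀ e ∈ B, ∏ j, Nat.lcm (d j) (e j) ≤ Q) (F : ℕ → ℝ) (hF : ∀ v, 0 ≤ F v) :
    ∑ d ∈ A, ∑ e ∈ B, F (∏ j, Nat.lcm (d j) (e j)) ≤
      ∑ v ∈ Icc 1 Q, (v.divisors.card : ℝ) ^ (2 * J) * F v := by
  classical
  rw [← sum_product']
  have h1 : ∑ x ∈ A ×ˢ B, F (∏ j, Nat.lcm (x.1 j) (x.2 j)) =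
      ∑ x ∈ A ×ˢ B, (1 : ℝ) * F (∏ j, Nat.lcm (x.1 j) (x.2 j)) := by simp
  rw [h1]
  apply sum_fiber (A ×ˢ B) (fun x => ∏ j, Nat.lcm (x.1 j) (x.2 j)) Q _ (fun _ => (1 : ℝ)) F hF
    (fun v => (v.divisors.card : ℝ) ^ (2 * J))
  · intro v hv
    rw [sum_const, nsmul_eq_mul, mul_one]
    have h2 : ((A ×ˢ B).filter (fun x => ∏ j, Nat.lcm (x.1 j) (x.2 j) = v)) ⊆
        (Fintype.piFinset (fun _ : Fin J => v.divisors)) ×ˢ (Fintype.piFinset (fun _ : Fin J => v.divisors)) := by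
      intro x hx
      rw [mem_filter] at hx
      have hdv : ∀ j, Nat.lcm (x.1 j) (x.2 j) ∣ v := fun j => by
        rw [← hx.2]; exact dvd_prod_of_mem _ (mem_univ j)
      rw [mem_product, Fintype.mem_piFinset, Fintype.mem_piFinset]
      exact ⟨fun j => Nat.mem_divisors.2 ⟨(Nat.dvd_lcm_left _ _).trans (hdv j), by omega⟩,
        fun j => Nat.mem_divisors.2 ⟨(Nat.dvd_lcm_right _ _).trans (hdv j), by omega⟩⟩
    have h3 := card_le_card h2
    rw [card_product, Fintype.card_piFinset, prod_const, card_univ, Fintype.card_fin, ← pow_add] at h3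
    rw [show 2 * J = J + J by ring]
    exact_mod_cast h3
  · intro x hx
    rw [mem_product] at hx
    refine ⟨?_, hQ x.1 hx.1 x.2 hx.2⟩
    apply Nat.one_le_iff_ne_zero.2
    apply prod_ne_zero_iff.2
    intro j _
    have h3 := hA x.1 hx.1 j
    have h4 := hB x.2 hx.2 j
    exact Nat.lcm_ne_zero (by omega) (by omega)

open Classical in
/-- general form of the evaluation of the sums of the multidimensional sieve -/
theorem gen {J : ℕ} (F G : Fin J → ℝ → ℝ) (L Cf : ℝ) (hL : 0 < L) (hCf : 0 ≤ Cf) (cF cG : Fin J → ℝ)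
    (hF : ∀ j x, |F j x| ≤ Cf) (hG : ∀ j x, |G j x| ≤ Cf)
    (hF0 : ∀ j x, cF j < x → F j x = 0) (hG0 : ∀ j x, cG j < x → G j x = 0)
    (E : Fin J → Finset ℕ) (R N : ℕ) (ν : ℕ → ℝ) (x : ℕ → Fin J → ℤ) (M : ℝ) (w : ℕ → Fin J → ℝ)
    (hres : ∀ i j, i ≠ j → ∀ p : ℕ, p.Prime → p ∉ E i → p ∉ E j → ∀ n ∈ Icc 1 N, ν n ≠ 0 →
      ¬ ((p : ℤ) ∣ x n i ∧ (p : ℤ) ∣ x n j))
    (Q : ℕ) (hQ : Real.exp (L * (∑ j, cF j + ∑ j, cG j)) ≤ Q) (Er : ℕ → ℝ) (hEr : ∀ v, 0 ≤ Er v)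
    (H : ∀ D : Fin J → ℕ, (∀ j, Squarefree (D j)) → (∀ j, ∀ p : ℕ, p.Prime → p ∣ D j → p ∉ E j) →
      Pairwise (fun i j => (D i).Coprime (D j)) → (∏ j, D j ≤ Q) →
      |∑ n ∈ (Icc 1 N).filter (fun n => ∀ j, ((D j : ℕ) : ℤ) ∣ x n j), ν n -
        M * ∏ j, ∏ p ∈ (D j).primeFactors, w p j| ≤ Er (∏ j, D j)) :
    |∑ n ∈ Icc 1 N, ν n * ∏ j, (VVm (E j) R L (F j) (x n j) * VVm (E j) R L (G j) (x n j)) -
      M * sieveSum J F G L E w R| ≤ Cf ^ (2 * J) * ∑ v ∈ Icc 1 Q, (v.divisors.card : ℝ) ^ (2 * J) * Er v := by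
  refine (expand_le E R L F G N ν x M w).trans ?_
  refine (support_bound E R L Cf hL hCf F G cF cG hF hG hF0 hG0 _ (fun _ _ => abs_nonneg _)).trans ?_
  apply mul_le_mul_of_nonneg_left _ (by positivity)
  have hone : ∀ c : Fin J → ℝ, ∀ d ∈ supp E R L c, ∀ j, 1 ≤ d j := by
    intro c d hd j
    rw [mem_supp] at hd
    exact (mem_adm.1 (hd j).1).1.1
  have hprod : ∀ d ∈ supp E R L cF, ∀ e ∈ supp E R L cG, ∏ j, Nat.lcm (d j) (e j) ≤ Q := by
    intro d hd e he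
    have h1 : ∏ j, Nat.lcm (d j) (e j) ≤ (∏ j, d j) * ∏ j, e j := by
      rw [← Finset.prod_mul_distrib]
      exact Finset.prod_le_prod' fun j _ => lcm_le_mul' (hone cF d hd j) (hone cG e he j)
    have h2 : ((∏ j, Nat.lcm (d j) (e j) : ℕ) : ℝ) ≤ Q := by
      calc ((∏ j, Nat.lcm (d j) (e j) : ℕ) : ℝ) ≤ (((∏ j, d j) * ∏ j, e j : ℕ) : ℝ) := by exact_mod_cast h1
        _ = ((∏ j, d j : ℕ) : ℝ) * ((∏ j, e j : ℕ) : ℝ) := by push_cast; ring
        _ ≤ Real.exp (L * ∑ j, cF j) * Real.exp (L * ∑ j, cG j) := by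
            apply mul_le_mul (supp_prod_le hd) (supp_prod_le he) (Nat.cast_nonneg _) (Real.exp_pos _).le
        _ = Real.exp (L * (∑ j, cF j + ∑ j, cG j)) := by rw [← Real.exp_add]; ring_nf
        _ ≤ Q := hQ
    exact_mod_cast h2
  refine le_trans ?_ (sum_lcm (supp E R L cF) (supp E R L cG) (hone cF) (hone cG) Q hprod Er hEr)
  apply sum_le_sum
  intro d hd
  apply sum_le_sum
  intro e he
  have hd' := hd
  have he' := he
  rw [mem_supp] at hd' he'
  by_cases hPC : PC d e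
  · have h1 := H (fun j => Nat.lcm (d j) (e j))
      (fun j => sqf_lcm (mem_adm.1 (hd' j).1).2.1 (mem_adm.1 (he' j).1).2.1)
      (fun j p hp hpd => prime_not_mem (hd' j).1 (he' j).1 hp hpd) hPC (hprod d hd e he)
    have e1 : Err N ν x M w d e = ∑ n ∈ (Icc 1 N).filter (fun n => ∀ j, ((Nat.lcm (d j) (e j) : ℕ) : ℤ) ∣ x n j), ν n -
        M * ∏ j, ∏ p ∈ (Nat.lcm (d j) (e j)).primeFactors, w p j := by
      unfold Err
      rw [if_pos hPC, sum_filter]
      congr 1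
      apply sum_congr rfl
      intro n _
      by_cases h : DC (x n) d e
      · rw [if_pos h, if_pos (show ∀ j, ((Nat.lcm (d j) (e j) : ℕ) : ℤ) ∣ x n j from h)]
      · have h2 : ¬ ∀ j, ((Nat.lcm (d j) (e j) : ℕ) : ℤ) ∣ x n j := fun h' => h h'
        simp only [if_neg h, if_neg h2]
    rw [e1]
    exact h1
  · rw [not_PC_err ν M w x (fun j => (hd' j).1) (fun j => (he' j).1) hres hPC, abs_zero]
    exact hEr _

end Pool.Agent.H542.MT
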