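import Pool.Agent.H542.MT.M3

/-!
The first sum: the square of the sieve weight over the integers of a residue class whose translates have
no small prime factor.
-/

set_option autoImplicit false

namespace Pool.Agent.H542.MT

open Finset
open Pool.Agent.H542.TW (mem_pz sum_bU_le)
open Pool.Agent.H373R2.T7 (pz es es_nonneg)
open Pool.Agent.H378R2

/-- primes outside `E` do not divide differences of the shifts -/
def DTi (E : Finset ℕ) {K : ℕ} (t : Fin K → ℤ) : Prop :=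
  ∀ i j, i ≠ j → ∀ p : ℕ, p.Prime → p ∉ E → ¬ (p : ℤ) ∣ t i - t j

lemma DTi.res {E : Finset ℕ} {K : ℕ} {t : Fin K → ℤ} (h : DTi E t) (i j : Fin K) (hij : i ≠ j) (p : ℕ)
    (hp : p.Prime) (hpE : p ∉ E) (n : ℤ) : ¬ ((p : ℤ) ∣ n + t i ∧ (p : ℤ) ∣ n + t j) := by
  rintro ⟨h1, h2⟩
  apply h i j hij p hp hpE
  have h3 := dvd_sub h1 h2
  rwa [add_sub_add_left_eq_sub] at h3

/-- the primes up to `z` not dividing a modulus enlarged by primes beyond `z` -/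
lemma Pp_mul (z m D : ℕ) (hD : ∀ p ∈ pz z, ¬ p ∣ D) : Pp z (m * D) = Pp z m := by
  unfold Pp
  apply filter_congr
  intro p hp
  have hpp := (mem_pz.1 hp).1
  rw [Nat.Prime.dvd_mul hpp]
  have := hD p hp
  tauto

lemma dvd_prod_prime {J : ℕ} (D : Fin J → ℕ) (p : ℕ) (hp : p.Prime) (h : p ∣ ∏ j, D j) : ∃ j, p ∣ D j := by
  obtain ⟨j, _, hj⟩ := (Prime.dvd_finsetProd_iff hp.prime _).1 h
  exact ⟨j, hj⟩

/-- the class given by a class modulo `m` and divisibility conditions -/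
lemma class_D {J : ℕ} (m : ℕ) (hm : 1 ≤ m) (b : ℤ) (D : Fin J → ℕ) (t : Fin J → ℤ)
    (hD0 : ∀ j, D j ≠ 0) (hD : Pairwise (fun i j => (D i).Coprime (D j))) (hDm : ∀ j, (D j).Coprime m) :
    ∃ b1 : ℕ, (b1 : ℤ) ≡ b [ZMOD m] ∧ (∀ j, (D j : ℤ) ∣ b1 + t j) ∧
      ∀ n : ℕ, ((n : ℤ) ≡ b [ZMOD m] ∧ ∀ j, (D j : ℤ) ∣ (n : ℤ) + t j) ↔ (n : ℤ) ≡ b1 [ZMOD (m * ∏ j, D j : ℕ)] := by
  obtain ⟨b', hbb, hcls⟩ := class_nat m hm b
  obtain ⟨b1, hb1⟩ := class_exists m b' (by omega) D (fun _ => 1) t hD0 hD hDm (fun j => Nat.coprime_one_left _)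
  have h1 : ∀ n : ℕ, ((n : ℤ) ≡ b [ZMOD m] ∧ ∀ j, (D j : ℤ) ∣ (n : ℤ) + t j) ↔ (n : ℤ) ≡ b1 [ZMOD (m * ∏ j, D j : ℕ)] := by
    intro n
    rw [Int.natCast_modEq_iff, ← hb1 n, hcls n]
    simp
  refine ⟨b1, ((h1 b1).2 (Int.ModEq.refl _)).1, ((h1 b1).2 (Int.ModEq.refl _)).2, h1⟩

open Classical in
/-- **The first sum.** -/
theorem S1g {K : ℕ} (hK : 1 ≤ K) (F G : Fin K → ℝ → ℝ) (L Cf : ℝ) (hL : 0 < L) (hCf : 0 ≤ Cf)
    (cF cG : Fin K → ℝ) (hF : ∀ j x, |F j x| ≤ Cf) (hG : ∀ j x, |G j x| ≤ Cf)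
    (hF0 : ∀ j x, cF j < x → F j x = 0) (hG0 : ∀ j x, cG j < x → G j x = 0)
    (t : Fin K → ℤ) (z m T r Q R : ℕ) (b : ℤ) (E : Finset ℕ) (hm : 1 ≤ m)
    (hmb : ∀ p ∈ pz z, p ∣ m → ∀ j, ¬ (p : ℤ) ∣ b + t j)
    (hEz : ∀ p ∈ pz z, p ∈ E) (hEm : ∀ p : ℕ, p.Prime → p ∣ m → p ∈ E) (hDT : DTi E t)
    (hQ : Real.exp (L * (∑ j, cF j + ∑ j, cG j)) ≤ Q) :
    |∑ n ∈ (Icc 1 T).filter (fun n : ℕ => (n : ℤ) ≡ b [ZMOD m] ∧ Rgt z t n),
        ∏ j, (VVm E R L (F j) ((n : ℤ) + t j) * VVm E R L (G j) ((n : ℤ) + t j)) -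
      ((T : ℝ) / m * ∏ p ∈ Pp z m, (1 - (omt t p : ℝ) / p)) *
        sieveSum K F G L (fun _ => E) (fun p _ => 1 / (p : ℝ)) R| ≤
    Cf ^ (2 * K) * (((z + 1) ^ r * K ^ r : ℕ) * Q +
      2 * ((T : ℝ) / m) * es (fun p => (omt t p : ℝ) / p) (Pp z m) r) * (1 + Real.log Q) ^ (2 ^ (2 * K)) := by
  have hes : 0 ≤ es (fun p => (omt t p : ℝ) / p) (Pp z m) r :=
    es_nonneg (fun p _ => by positivity) _
  have hm0 : (0 : ℝ) < m := by exact_mod_cast hm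
  have h1 := gen F G L Cf hL hCf cF cG hF hG hF0 hG0 (fun _ => E) R T
    (fun n => if ((n : ℤ) ≡ b [ZMOD m] ∧ Rgt z t n) then 1 else 0) (fun n j => (n : ℤ) + t j)
    ((T : ℝ) / m * ∏ p ∈ Pp z m, (1 - (omt t p : ℝ) / p)) (fun p _ => 1 / (p : ℝ))
    (fun i j hij p hp hpi _ n _ _ => hDT.res i j hij p hp hpi n) Q hQ
    (fun v => (((z + 1) ^ r * K ^ r : ℕ) : ℝ) +
      2 * ((T : ℝ) / m / v) * es (fun p => (omt t p : ℝ) / p) (Pp z m) r)
    (fun v => by positivity) (by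
      intro D hDsq hDE hDc hDQ
      have hD0 : ∀ j, D j ≠ 0 := fun j => (hDsq j).ne_zero
      have hDm : ∀ j, (D j).Coprime m := by
        intro j
        by_contra hcop
        obtain ⟨p, hp, hpi, hpj⟩ := Nat.Prime.not_coprime_iff_dvd.1 hcop
        exact hDE j p hp hpi (hEm p hp hpj)
      obtain ⟨b1, hb1, hb2, hb3⟩ := class_D m hm b D t hD0 hDc hDm
      have hDpos : 1 ≤ ∏ j, D j := Nat.one_le_iff_ne_zero.2 (prod_ne_zero_iff.2 fun j _ => hD0 j)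
      have hDz : ∀ p ∈ pz z, ¬ p ∣ ∏ j, D j := by
        intro p hp hd
        obtain ⟨j, hj⟩ := dvd_prod_prime D p (mem_pz.1 hp).1 hd
        exact hDE j p (mem_pz.1 hp).1 hj (hEz p hp)
      have h2 := cnt hK t z (m * ∏ j, D j) T r b1 (Nat.mul_pos hm hDpos) (by
        intro p hp hd j hj
        rcases (Nat.Prime.dvd_mul (mem_pz.1 hp).1).1 hd with h | h
        · apply hmb p hp h j
          have h4 : (b1 : ℤ) ≡ b [ZMOD p] := hb1.of_dvd (Int.natCast_dvd_natCast.2 h)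
          exact (Int.ModEq.dvd_iff (h4.add_right (t j))).1 hj
        · exact hDz p hp h)
      rw [Pp_mul z m _ hDz] at h2
      have e1 : ∑ n ∈ (Icc 1 T).filter (fun n : ℕ => ∀ j, ((D j : ℕ) : ℤ) ∣ (n : ℤ) + t j),
          (if ((n : ℤ) ≡ b [ZMOD m] ∧ Rgt z t n) then (1 : ℝ) else 0) =
          (((Icc 1 T).filter (fun n : ℕ => (n : ℤ) ≡ b1 [ZMOD (m * ∏ j, D j : ℕ)] ∧ Rgt z t n)).card : ℝ) := by
        rw [← sum_filter, sum_const, nsmul_eq_mul, mul_one, filter_filter]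
        congr 2
        apply filter_congr
        intro n _
        rw [← hb3 n]
        tauto
      have e2 : ∏ j, ∏ p ∈ (D j).primeFactors, (1 : ℝ) / p = 1 / ((∏ j, D j : ℕ) : ℝ) := by
        simp_rw [prod_one_div (hDsq _)]
        rw [Finset.prod_div_distrib, Finset.prod_const_one]
        push_cast
        rfl
      rw [e1, e2]
      have e3 : ((T : ℝ) / m * ∏ p ∈ Pp z m, (1 - (omt t p : ℝ) / p)) * (1 / ((∏ j, D j : ℕ) : ℝ)) =
          (T : ℝ) / ((m * ∏ j, D j : ℕ) : ℝ) * ∏ p ∈ Pp z m, (1 - (omt t p : ℝ) / p) := by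
        rw [Nat.cast_mul, ← div_div]
        ring
      have e4 : (T : ℝ) / ((m * ∏ j, D j : ℕ) : ℝ) = (T : ℝ) / m / ((∏ j, D j : ℕ) : ℝ) := by
        rw [Nat.cast_mul, ← div_div]
      rw [e3]
      refine h2.trans (le_of_eq ?_)
      rw [e4])
  have e1 : ∑ n ∈ (Icc 1 T).filter (fun n : ℕ => (n : ℤ) ≡ b [ZMOD m] ∧ Rgt z t n),
        ∏ j, (VVm E R L (F j) ((n : ℤ) + t j) * VVm E R L (G j) ((n : ℤ) + t j)) =
      ∑ n ∈ Icc 1 T, (if ((n : ℤ) ≡ b [ZMOD m] ∧ Rgt z t n) then (1 : ℝ) else 0) *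
        ∏ j, (VVm E R L (F j) ((n : ℤ) + t j) * VVm E R L (G j) ((n : ℤ) + t j)) := by
    rw [sum_filter]
    apply sum_congr rfl
    intro n _
    split_ifs <;> simp
  rw [e1]
  refine h1.trans ?_
  rw [mul_assoc]
  apply mul_le_mul_of_nonneg_left _ (by positivity)
  have h2 := tau_mom (2 * K) Q
  set es1 := es (fun p => (omt t p : ℝ) / p) (Pp z m) r with hes1
  set c0 : ℝ := (((z + 1) ^ r * K ^ r : ℕ) : ℝ) with hc0
  have hc00 : 0 ≤ c0 := by rw [hc0]; positivity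
  calc ∑ v ∈ Icc 1 Q, (v.divisors.card : ℝ) ^ (2 * K) * (c0 + 2 * ((T : ℝ) / m / v) * es1) ≤
      ∑ v ∈ Icc 1 Q, (c0 * Q + 2 * ((T : ℝ) / m) * es1) * ((v.divisors.card : ℝ) ^ (2 * K) / v) := by
        apply sum_le_sum
        intro v hv
        rw [mem_Icc] at hv
        have hv0 : (0 : ℝ) < v := by exact_mod_cast hv.1
        have hvQ : (v : ℝ) ≤ Q := by exact_mod_cast hv.2
        have h3 : c0 ≤ c0 * Q / v := by
          rw [le_div_iff₀ hv0]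
          exact mul_le_mul_of_nonneg_left hvQ hc00
        calc (v.divisors.card : ℝ) ^ (2 * K) * (c0 + 2 * ((T : ℝ) / m / v) * es1) ≤
            (v.divisors.card : ℝ) ^ (2 * K) * (c0 * Q / v + 2 * ((T : ℝ) / m / v) * es1) := by
              apply mul_le_mul_of_nonneg_left _ (by positivity)
              linarith
          _ = _ := by ring
    _ = (c0 * Q + 2 * ((T : ℝ) / m) * es1) * ∑ v ∈ Icc 1 Q, (v.divisors.card : ℝ) ^ (2 * K) / v := by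
        rw [mul_sum]
    _ ≤ _ := mul_le_mul_of_nonneg_left h2 (by positivity)

end Pool.Agent.H542.MT
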