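import Pool.Agent.H542.MT.M4
import Pool.Agent.H542.MT.G1

/-!
Tools for the second sum: sums over moduli with divisor functions.
-/

set_option autoImplicit false

namespace Pool.Agent.H542.MT

open Finset
open Pool.Agent.H542.TW (mem_pz sum_bU_le)
open Pool.Agent.H542.G (prod_inj)
open Pool.Agent.H373R2.T7 (pz es es_nonneg)
open Pool.Agent.H378R2

lemma two_pow_card_div (P : Finset ℕ) (hP : ∀ p ∈ P, p.Prime) (N : ℕ) (hN : N ≠ 0) (hd : ∏ p ∈ P, p ∣ N) :
    2 ^ P.card ≤ N.divisors.card := by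
  classical
  rw [← card_powerset]
  apply card_le_card_of_injOn (fun S => ∏ p ∈ S, p)
  · intro S hS
    rw [mem_coe, mem_powerset] at hS
    rw [mem_coe, Nat.mem_divisors]
    exact ⟨(prod_dvd_prod_of_subset _ _ _ hS).trans hd, hN⟩
  · intro S hS T hT h
    exact prod_inj P hP (by simpa using hS) (by simpa using hT) h

/-- fibres of products with sets of primes -/
lemma sum_setprod (P : Finset ℕ) (hP : ∀ p ∈ P, p.Prime) (z r Q K c : ℕ) (hz : 1 ≤ z) (hPz : ∀ p ∈ P, p ≤ z)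
    (F : ℕ → ℝ) (hF : ∀ v, 0 ≤ F v) :
    ∑ v ∈ Icc 1 Q, (v.divisors.card : ℝ) ^ c *
      (∑ j ∈ range (r + 1), ∑ S ∈ P.powersetCard j, (K : ℝ) ^ S.card * F (v * ∏ p ∈ S, p)) ≤
      ∑ u ∈ Icc 1 (Q * z ^ r), (u.divisors.card : ℝ) ^ (c + K + 1) * F u := by
  classical
  set 𝒮 := P.powerset.filter (fun S => S.card ≤ r) with h𝒮
  have e1 : ∀ g : Finset ℕ → ℝ, ∑ j ∈ range (r + 1), ∑ S ∈ P.powersetCard j, g S = ∑ S ∈ 𝒮, g S := by
    intro g
    have e2 : 𝒮 = (range (r + 1)).biUnion (fun j => P.powersetCard j) := by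
      ext S
      rw [h𝒮, mem_filter, mem_powerset, mem_biUnion]
      constructor
      · rintro ⟨g1, g2⟩
        exact ⟨S.card, mem_range.2 (by omega), mem_powersetCard.2 ⟨g1, rfl⟩⟩
      · rintro ⟨j, g1, g2⟩
        rw [mem_powersetCard] at g2
        rw [mem_range] at g1
        exact ⟨g2.1, by omega⟩
    rw [e2, sum_biUnion]
    intro i _ j _ hij
    rw [Function.onFun, disjoint_left]
    intro S h1 h2
    rw [mem_powersetCard] at h1 h2
    exact hij (h1.2.symm.trans h2.2)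
  have e3 : ∑ v ∈ Icc 1 Q, (v.divisors.card : ℝ) ^ c *
      (∑ j ∈ range (r + 1), ∑ S ∈ P.powersetCard j, (K : ℝ) ^ S.card * F (v * ∏ p ∈ S, p)) =
      ∑ x ∈ (Icc 1 Q) ×ˢ 𝒮, ((x.1.divisors.card : ℝ) ^ c * (K : ℝ) ^ x.2.card) * F (x.1 * ∏ p ∈ x.2, p) := by
    rw [sum_product]
    apply sum_congr rfl
    intro v _
    rw [e1 (fun S => (K : ℝ) ^ S.card * F (v * ∏ p ∈ S, p)), mul_sum]
    apply sum_congr rfl
    intro S _
    ring
  rw [e3]
  have hSpos : ∀ S ∈ 𝒮, 1 ≤ ∏ p ∈ S, p := by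
    intro S hS
    rw [h𝒮, mem_filter, mem_powerset] at hS
    exact Nat.one_le_iff_ne_zero.2 (prod_ne_zero_iff.2 fun p hp => (hP p (hS.1 hp)).ne_zero)
  apply sum_fiber ((Icc 1 Q) ×ˢ 𝒮) (fun x => x.1 * ∏ p ∈ x.2, p) (Q * z ^ r) _
    (fun x => (x.1.divisors.card : ℝ) ^ c * (K : ℝ) ^ x.2.card) F hF
    (fun u => (u.divisors.card : ℝ) ^ (c + K + 1))
  · intro u hu
    have hu0 : u ≠ 0 := by omega
    have h1 : ∀ x ∈ ((Icc 1 Q) ×ˢ 𝒮).filter (fun x => x.1 * ∏ p ∈ x.2, p = u),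
        (x.1.divisors.card : ℝ) ^ c * (K : ℝ) ^ x.2.card ≤ (u.divisors.card : ℝ) ^ (c + K) := by
      intro x hx
      rw [mem_filter, mem_product, h𝒮, mem_filter, mem_powerset] at hx
      obtain ⟨⟨_, hx2, _⟩, hxu⟩ := hx
      have h2 : x.1.divisors.card ≤ u.divisors.card :=
        card_le_card (Nat.divisors_subset_of_dvd hu0 (Dvd.intro _ hxu))
      have h3 : 2 ^ x.2.card ≤ u.divisors.card :=
        two_pow_card_div x.2 (fun p hp => hP p (hx2 hp)) u hu0 (Dvd.intro_left _ hxu)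
      have h4 : (K : ℝ) ^ x.2.card ≤ (u.divisors.card : ℝ) ^ K := by
        have h5 : (K : ℝ) ≤ 2 ^ K := by exact_mod_cast Nat.lt_two_pow_self.le
        calc (K : ℝ) ^ x.2.card ≤ (2 ^ K) ^ x.2.card := pow_le_pow_left₀ (Nat.cast_nonneg _) h5 _
          _ = (2 ^ x.2.card) ^ K := by rw [← pow_mul, ← pow_mul, mul_comm]
          _ ≤ (u.divisors.card : ℝ) ^ K := by
              apply pow_le_pow_left₀ (by positivity)
              exact_mod_cast h3
      rw [pow_add]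
      apply mul_le_mul _ h4 (by positivity) (by positivity)
      apply pow_le_pow_left₀ (Nat.cast_nonneg _)
      exact_mod_cast h2
    refine (sum_le_sum h1).trans ?_
    rw [sum_const, nsmul_eq_mul, pow_succ, mul_comm]
    apply mul_le_mul_of_nonneg_left _ (by positivity)
    have h2 : (((Icc 1 Q) ×ˢ 𝒮).filter (fun x => x.1 * ∏ p ∈ x.2, p = u)).card ≤ u.divisors.card := by
      apply card_le_card_of_injOn (fun x => x.1)
      · intro x hx
        rw [mem_coe, mem_filter] at hx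
        rw [mem_coe, Nat.mem_divisors]
        exact ⟨Dvd.intro _ hx.2, hu0⟩
      · intro x hx y hy hxy
        rw [mem_coe, mem_filter, mem_product, h𝒮, mem_filter, mem_powerset, mem_Icc] at hx hy
        have hxy1 : x.1 = y.1 := hxy
        have h3 : x.1 * ∏ p ∈ x.2, p = x.1 * ∏ p ∈ y.2, p := by
          rw [hx.2, hxy1, hy.2]
        have h4 : ∏ p ∈ x.2, p = ∏ p ∈ y.2, p := Nat.eq_of_mul_eq_mul_left (by omega) h3
        have h5 := prod_inj P hP (by simpa using hx.1.2.1) (by simpa using hy.1.2.1) h4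
        exact Prod.ext hxy1 h5
    exact_mod_cast h2
  · intro x hx
    rw [mem_product, mem_Icc] at hx
    have h1 := hSpos x.2 hx.2
    refine ⟨Nat.mul_pos hx.1.1 h1, ?_⟩
    have h2 := hx.2
    rw [h𝒮, mem_filter, mem_powerset] at h2
    apply Nat.mul_le_mul hx.1.2
    calc ∏ p ∈ x.2, p ≤ ∏ p ∈ x.2, z := prod_le_prod' fun p hp => hPz p (h2.1 hp)
      _ = z ^ x.2.card := by rw [prod_const]
      _ ≤ z ^ r := Nat.pow_le_pow_right hz h2.2

lemma tot_low (u : ℕ) (hu : 1 ≤ u) : (u : ℝ) ≤ (u.divisors.card : ℝ) * Nat.totient u := by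
  have h := Nat.totient_eq_mul_prod_factors u
  have h1 : ((Nat.totient u : ℕ) : ℝ) = (u : ℝ) * ∏ p ∈ u.primeFactors, (1 - ((p : ℝ))⁻¹) := by
    have h3 : ((Nat.totient u : ℕ) : ℝ) = (((Nat.totient u : ℚ)) : ℝ) := by push_cast; rfl
    rw [h3, h]
    push_cast
    rfl
  have h2 : (1 / 2 : ℝ) ^ u.primeFactors.card ≤ ∏ p ∈ u.primeFactors, (1 - ((p : ℝ))⁻¹) := by
    rw [← prod_const]
    apply prod_le_prod
    · intro _ _; norm_num
    · intro p hp
      have hp2 : (2 : ℝ) ≤ p := by exact_mod_cast (Nat.prime_of_mem_primeFactors hp).two_le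
      have h4 : ((p : ℝ))⁻¹ ≤ (2 : ℝ)⁻¹ := inv_anti₀ (by norm_num) hp2
      linarith
  have h3 : (2 : ℝ) ^ u.primeFactors.card ≤ u.divisors.card := by
    exact_mod_cast two_pow_card_div u.primeFactors (fun p hp => Nat.prime_of_mem_primeFactors hp) u
      (by omega) (Nat.prod_primeFactors_dvd u)
  rw [h1]
  have h4 : (1 : ℝ) = 2 ^ u.primeFactors.card * (1 / 2 : ℝ) ^ u.primeFactors.card := by
    rw [← mul_pow]; norm_num
  have hu0 : (0 : ℝ) ≤ u := Nat.cast_nonneg u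
  calc (u : ℝ) = u * (2 ^ u.primeFactors.card * (1 / 2 : ℝ) ^ u.primeFactors.card) := by rw [← h4, mul_one]
    _ ≤ u * ((u.divisors.card : ℝ) * ∏ p ∈ u.primeFactors, (1 - ((p : ℝ))⁻¹)) := by
        apply mul_le_mul_of_nonneg_left _ hu0
        exact mul_le_mul h3 h2 (by positivity) (Nat.cast_nonneg _)
    _ = _ := by ring

/-- sums over moduli with divisor functions -/
lemma sum_M (q Q c : ℕ) (hq : 1 ≤ q) (M : ℕ → ℝ) (hM0 : ∀ k, 0 ≤ M k) (B : ℝ) (hB : 0 ≤ B)
    (hMB : ∀ k, 1 ≤ k → k ≤ q * Q → M k ≤ B / Nat.totient k) :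
    ∑ u ∈ Icc 1 Q, (u.divisors.card : ℝ) ^ c * M (q * u) ≤
      Real.sqrt (B * (1 + Real.log Q) ^ (2 ^ (2 * c + 1))) * Real.sqrt (∑ k ∈ Icc 1 (q * Q), M k) := by
  have h1 : (∑ u ∈ Icc 1 Q, (u.divisors.card : ℝ) ^ c * M (q * u)) ^ 2 ≤
      (∑ u ∈ Icc 1 Q, ((u.divisors.card : ℝ) ^ (2 * c) * M (q * u))) * ∑ u ∈ Icc 1 Q, M (q * u) := by
    have h2 := sum_mul_sq_le_sq_mul_sq (Icc 1 Q) (fun u => (u.divisors.card : ℝ) ^ c * Real.sqrt (M (q * u)))
      (fun u => Real.sqrt (M (q * u)))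
    have e1 : ∑ u ∈ Icc 1 Q, (u.divisors.card : ℝ) ^ c * Real.sqrt (M (q * u)) * Real.sqrt (M (q * u)) =
        ∑ u ∈ Icc 1 Q, (u.divisors.card : ℝ) ^ c * M (q * u) := by
      apply sum_congr rfl
      intro u _
      rw [mul_assoc, Real.mul_self_sqrt (hM0 _)]
    have e2 : ∑ u ∈ Icc 1 Q, ((u.divisors.card : ℝ) ^ c * Real.sqrt (M (q * u))) ^ 2 =
        ∑ u ∈ Icc 1 Q, ((u.divisors.card : ℝ) ^ (2 * c) * M (q * u)) := by
      apply sum_congr rfl
      intro u _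
      rw [mul_pow, Real.sq_sqrt (hM0 _), ← pow_mul, mul_comm c 2]
    have e3 : ∑ u ∈ Icc 1 Q, Real.sqrt (M (q * u)) ^ 2 = ∑ u ∈ Icc 1 Q, M (q * u) := by
      apply sum_congr rfl
      intro u _
      rw [Real.sq_sqrt (hM0 _)]
    rw [e1, e2, e3] at h2
    exact h2
  have h2 : ∑ u ∈ Icc 1 Q, ((u.divisors.card : ℝ) ^ (2 * c) * M (q * u)) ≤
      B * (1 + Real.log Q) ^ (2 ^ (2 * c + 1)) := by
    calc _ ≤ ∑ u ∈ Icc 1 Q, B * ((u.divisors.card : ℝ) ^ (2 * c + 1) / u) := by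
          apply sum_le_sum
          intro u hu
          rw [mem_Icc] at hu
          have hu0 : (0 : ℝ) < u := by exact_mod_cast hu.1
          have h3 := hMB (q * u) (Nat.mul_pos hq hu.1) (Nat.mul_le_mul_left _ hu.2)
          have h4 : Nat.totient u ≤ Nat.totient (q * u) :=
            Nat.le_of_dvd (Nat.totient_pos.2 (Nat.mul_pos hq hu.1)) (Nat.totient_dvd_of_dvd (dvd_mul_left _ _))
          have h5 : (0 : ℝ) < Nat.totient u := by exact_mod_cast Nat.totient_pos.2 hu.1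
          have h6 : B / (Nat.totient (q * u) : ℝ) ≤ B / (Nat.totient u : ℝ) := by
            apply div_le_div_of_nonneg_left hB h5
            exact_mod_cast h4
          have h7 : B / (Nat.totient u : ℝ) ≤ B * ((u.divisors.card : ℝ) / u) := by
            rw [div_le_iff₀ h5, mul_assoc]
            apply le_mul_of_one_le_right hB
            rw [div_mul_eq_mul_div, le_div_iff₀ hu0, one_mul]
            exact tot_low u hu.1
          calc (u.divisors.card : ℝ) ^ (2 * c) * M (q * u) ≤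
              (u.divisors.card : ℝ) ^ (2 * c) * (B * ((u.divisors.card : ℝ) / u)) :=
                mul_le_mul_of_nonneg_left (h3.trans (h6.trans h7)) (by positivity)
            _ = _ := by rw [pow_succ]; ring
      _ = B * ∑ u ∈ Icc 1 Q, ((u.divisors.card : ℝ) ^ (2 * c + 1) / u) := by rw [mul_sum]
      _ ≤ _ := mul_le_mul_of_nonneg_left (tau_mom _ _) hB
  have h3 : ∑ u ∈ Icc 1 Q, M (q * u) ≤ ∑ k ∈ Icc 1 (q * Q), M k := by
    have e1 : ∑ u ∈ Icc 1 Q, M (q * u) = ∑ k ∈ (Icc 1 Q).image (fun u => q * u), M k := by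
      rw [sum_image]
      intro u _ v _ h
      exact Nat.eq_of_mul_eq_mul_left (by omega) h
    rw [e1]
    apply sum_le_sum_of_subset_of_nonneg
    · intro k hk
      rw [mem_image] at hk
      obtain ⟨u, hu, rfl⟩ := hk
      rw [mem_Icc] at hu ⊢
      exact ⟨Nat.mul_pos hq hu.1, Nat.mul_le_mul_left _ hu.2⟩
    · intro _ _ _; exact hM0 _
  have h4 : 0 ≤ ∑ u ∈ Icc 1 Q, M (q * u) := sum_nonneg fun _ _ => hM0 _
  have hlog : 0 ≤ Real.log (Q : ℝ) := Real.log_natCast_nonneg Q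
  rw [← Real.sqrt_mul (by positivity)]
  apply Real.le_sqrt_of_sq_le
  refine h1.trans ?_
  exact mul_le_mul h2 h3 h4 (by positivity)

open Classical in
/-- the local densities are invariant under translations -/
lemma omt_shift {K : ℕ} (t : Fin K → ℤ) (c : ℤ) (p : ℕ) (hp : 0 < p) : omt (fun j => t j - c) p = omt t p := by
  unfold omt
  have hp0 : (0 : ℤ) < p := by exact_mod_cast hp
  apply card_bij' (fun (a : ℕ) _ => (((a : ℤ) - c) % p).toNat) (fun (a : ℕ) _ => (((a : ℤ) + c) % p).toNat)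
  · intro a ha
    rw [mem_filter, mem_range] at ha ⊢
    have h1 := Int.emod_nonneg ((a : ℤ) - c) hp0.ne'
    have h2 := Int.emod_lt_of_pos ((a : ℤ) - c) hp0
    have h3 : ((((a : ℤ) - c) % p).toNat : ℤ) = ((a : ℤ) - c) % p := Int.toNat_of_nonneg h1
    refine ⟨by omega, ?_⟩
    obtain ⟨j, hj⟩ := ha.2
    refine ⟨j, ?_⟩
    rw [h3]
    have h4 : ((a : ℤ) - c) % p ≡ (a : ℤ) - c [ZMOD p] := Int.mod_modEq _ _
    rw [Int.ModEq.dvd_iff (h4.add_right (t j))]
    rw [show (a : ℤ) - c + t j = a + (t j - c) by ring]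
    exact hj
  · intro a ha
    rw [mem_filter, mem_range] at ha ⊢
    have h1 := Int.emod_nonneg ((a : ℤ) + c) hp0.ne'
    have h2 := Int.emod_lt_of_pos ((a : ℤ) + c) hp0
    have h3 : ((((a : ℤ) + c) % p).toNat : ℤ) = ((a : ℤ) + c) % p := Int.toNat_of_nonneg h1
    refine ⟨by omega, ?_⟩
    obtain ⟨j, hj⟩ := ha.2
    refine ⟨j, ?_⟩
    rw [h3]
    have h4 : ((a : ℤ) + c) % p ≡ (a : ℤ) + c [ZMOD p] := Int.mod_modEq _ _
    rw [Int.ModEq.dvd_iff (h4.add_right (t j - c))]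
    rw [show (a : ℤ) + c + (t j - c) = a + t j by ring]
    exact hj
  · intro a ha
    rw [mem_filter, mem_range] at ha
    have h1 := Int.emod_nonneg ((a : ℤ) - c) hp0.ne'
    have h3 : ((((a : ℤ) - c) % p).toNat : ℤ) = ((a : ℤ) - c) % p := Int.toNat_of_nonneg h1
    simp only [h3]
    have h4 : (((a : ℤ) - c) % p + c) % p = a := by
      rw [Int.emod_add_emod, sub_add_cancel]
      exact Int.emod_eq_of_lt (by omega) (by omega)
    rw [h4]
    simp
  · intro a ha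
    rw [mem_filter, mem_range] at ha
    have h1 := Int.emod_nonneg ((a : ℤ) + c) hp0.ne'
    have h3 : ((((a : ℤ) + c) % p).toNat : ℤ) = ((a : ℤ) + c) % p := Int.toNat_of_nonneg h1
    simp only [h3]
    have h4 : (((a : ℤ) + c) % p - c) % p = a := by
      rw [Int.emod_sub_emod, add_sub_cancel_right]
      exact Int.emod_eq_of_lt (by omega) (by omega)
    rw [h4]
    simp

end Pool.Agent.H542.MT
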