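import Pool.Agent.H542.MT.M5

/-!
The second sum: the square of the sieve weight over the primes of a residue class whose translates have
no small prime factor.
-/

set_option autoImplicit false

namespace Pool.Agent.H542.MT

open Finset
open Pool.Agent.H542.TW (mem_pz sum_bU_le)
open Pool.Agent.H542.G (prod_inj)
open Pool.Agent.H373R2.T7 (pz es es_nonneg)
open Pool.Agent.Y889.PN (PS)
open Pool.Agent.H378R2
open ArithmeticFunction (vonMangoldt vonMangoldt_nonneg)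

/-- the error of the second sum -/
noncomputable def E2 (K0 z q X Q r : ℕ) (B es1 : ℝ) (M : ℕ → ℝ) : ℝ :=
  Real.sqrt (B * (1 + Real.log (Q * z ^ r : ℕ)) ^ (2 ^ (2 * (3 * K0 + 2) + 1))) *
      Real.sqrt (∑ k ∈ Icc 1 (q * (Q * z ^ r)), M k) +
    (z * ((Nat.log 2 X + 1 : ℝ) * Real.log X) * Q + 2 * X * es1) * (1 + Real.log Q) ^ (2 ^ (2 * K0 + 1))

open Classical in
/-- **The second sum.** -/
theorem S2g {K0 : ℕ} (F G : Fin K0 → ℝ → ℝ) (L Cf : ℝ) (hL : 0 < L) (hCf : 0 ≤ Cf)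
    (cF cG : Fin K0 → ℝ) (hF : ∀ j x, |F j x| ≤ Cf) (hG : ∀ j x, |G j x| ≤ Cf)
    (hF0 : ∀ j x, cF j < x → F j x = 0) (hG0 : ∀ j x, cG j < x → G j x = 0)
    (t : Fin (K0 + 1) → ℤ) (i0 : Fin (K0 + 1)) (h0 : t i0 = 0) (z q X T r Q R : ℕ) (b : ℤ) (hq : 1 ≤ q)
    (hqz : ∀ p : ℕ, p.Prime → p ∣ q → p ≤ z)
    (hmb : ∀ p ∈ pz z, p ∣ q → ∀ j, ¬ (p : ℤ) ∣ b + t j) (hz : 1 ≤ z) (hT : T ≤ X) (hDT : DTi (pz z) t)
    (hQ : Real.exp (L * (∑ j, cF j + ∑ j, cG j)) ≤ Q) (M : ℕ → ℝ)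
    (hM0 : ∀ k, 0 ≤ M k)
    (hM : ∀ k : ℕ, 1 ≤ k → ∀ a : ℕ, a.Coprime k → ∀ y : ℕ, y ≤ X →
      |PS y k a - y / (Nat.totient k : ℝ)| ≤ M k) (B : ℝ) (hB : 0 ≤ B)
    (hMB : ∀ k, 1 ≤ k → k ≤ q * (Q * z ^ r) → M k ≤ B / Nat.totient k) (es1 : ℝ)
    (hes : es (fun p => ((omt t p : ℝ) - 1) / ((p : ℝ) - 1)) (Pp z q) r ≤ es1) :
    |∑ n ∈ (Icc 1 T).filter (fun n : ℕ => (n : ℤ) ≡ b [ZMOD q] ∧ Rgt z t n),
        vonMangoldt n * ∏ j : Fin K0, (VVm (pz z) R L (F j) ((n : ℤ) + t (i0.succAbove j)) *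
          VVm (pz z) R L (G j) ((n : ℤ) + t (i0.succAbove j))) -
      ((T : ℝ) / Nat.totient q * ∏ p ∈ Pp z q, (1 - ((omt t p : ℝ) - 1) / ((p : ℝ) - 1))) *
        sieveSum K0 F G L (fun _ => pz z) (fun p _ => 1 / ((p : ℝ) - 1)) R| ≤
    Cf ^ (2 * K0) * E2 K0 z q X Q r B es1 M := by
  have hPm : ∀ p ∈ Pp z q, p.Prime ∧ p ≤ z := by
    intro p hp
    rw [Pp, mem_filter, mem_pz] at hp
    exact hp.1
  have hes0 : 0 ≤ es (fun p => ((omt t p : ℝ) - 1) / ((p : ℝ) - 1)) (Pp z q) r := by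
    apply es_nonneg
    intro p hp
    have h2 := omt_cop t i0 h0 p (hPm p hp).1.pos
    have h3 : (0 : ℝ) ≤ (omt t p : ℝ) - 1 := by rw [← h2]; exact Nat.cast_nonneg _
    have hp2 : (2 : ℝ) ≤ p := by exact_mod_cast (hPm p hp).1.two_le
    exact div_nonneg h3 (by linarith)
  have hlogX : 0 ≤ Real.log X := Real.log_natCast_nonneg X
  set er1 : ℝ := z * ((Nat.log 2 X + 1 : ℝ) * Real.log X) with her1
  have her10 : 0 ≤ er1 := by positivity
  set MS : ℕ → ℝ := fun v => ∑ j ∈ range (r + 1), ∑ S ∈ (Pp z q).powersetCard j,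
    ((K0 + 1 : ℕ) : ℝ) ^ S.card * M (q * (v * ∏ p ∈ S, p)) with hMS
  have hMS0 : ∀ v, 0 ≤ MS v := fun v =>
    sum_nonneg fun j _ => sum_nonneg fun S _ => mul_nonneg (by positivity) (hM0 _)
  have h1 := gen F G L Cf hL hCf cF cG hF hG hF0 hG0 (fun _ => pz z) R T
    (fun n => if ((n : ℤ) ≡ b [ZMOD q] ∧ Rgt z t n) then vonMangoldt n else 0)
    (fun n j => (n : ℤ) + t (i0.succAbove j))
    ((T : ℝ) / Nat.totient q * ∏ p ∈ Pp z q, (1 - ((omt t p : ℝ) - 1) / ((p : ℝ) - 1)))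
    (fun p _ => 1 / ((p : ℝ) - 1))
    (fun i j hij p hp hpi _ n _ _ => hDT.res (i0.succAbove i) (i0.succAbove j)
      (fun h => hij (Fin.succAbove_right_injective h)) p hp hpi n) Q hQ
    (fun v => MS v + 2 * ((T : ℝ) / Nat.totient v) * es1 + er1)
    (fun v => by
      have h2 := hMS0 v
      have h3 := hes0.trans hes
      positivity) (by
      intro D hDsq hDE hDc hDQ
      have hD0 : ∀ j, D j ≠ 0 := fun j => (hDsq j).ne_zero
      have hDm : ∀ j, (D j).Coprime q := by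
        intro j
        by_contra hcop
        obtain ⟨p, hp, hpi, hpj⟩ := Nat.Prime.not_coprime_iff_dvd.1 hcop
        exact hDE j p hp hpi (mem_pz.2 ⟨hp, hqz p hp hpj⟩)
      obtain ⟨b1, hb1, hb2, hb3⟩ := class_D q hq b D (fun j => t (i0.succAbove j)) hD0 hDc hDm
      have hDpos : 1 ≤ ∏ j, D j := Nat.one_le_iff_ne_zero.2 (prod_ne_zero_iff.2 fun j _ => hD0 j)
      have hDz : ∀ p ∈ pz z, ¬ p ∣ ∏ j, D j := by
        intro p hp hd
        obtain ⟨j, hj⟩ := dvd_prod_prime D p (mem_pz.1 hp).1 hd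
        exact hDE j p (mem_pz.1 hp).1 hj hp
      have h2 := prm (by omega : 1 ≤ K0 + 1) t i0 h0 z (q * ∏ j, D j) X T r b1 (Nat.mul_pos hq hDpos) (by
        intro p hp hd hj
        rcases (Nat.Prime.dvd_mul hp).1 hd with h | h
        · apply hmb p (mem_pz.2 ⟨hp, hqz p hp h⟩) h i0
          have h4 : (b1 : ℤ) ≡ b [ZMOD p] := hb1.of_dvd (Int.natCast_dvd_natCast.2 h)
          rw [h0, add_zero]
          exact (Int.ModEq.dvd_iff h4).1 hj
        · obtain ⟨j, hj2⟩ := dvd_prod_prime D p hp h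
          have h5 : (p : ℤ) ∣ b1 + t (i0.succAbove j) := (Int.natCast_dvd_natCast.2 hj2).trans (hb2 j)
          apply hDT.res i0 (i0.succAbove j) (Fin.succAbove_ne i0 j).symm p hp (hDE j p hp hj2) b1
          exact ⟨by rw [h0, add_zero]; exact hj, h5⟩) (by
        intro p hp hd j hj
        rcases (Nat.Prime.dvd_mul (mem_pz.1 hp).1).1 hd with h | h
        · apply hmb p hp h j
          have h4 : (b1 : ℤ) ≡ b [ZMOD p] := hb1.of_dvd (Int.natCast_dvd_natCast.2 h)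
          exact (Int.ModEq.dvd_iff (h4.add_right (t j))).1 hj
        · exact hDz p hp h) hT M hM0 hM
      rw [Pp_mul z q _ hDz] at h2
      have e1 : ∑ n ∈ (Icc 1 T).filter (fun n : ℕ => ∀ j, ((D j : ℕ) : ℤ) ∣ (n : ℤ) + t (i0.succAbove j)),
          (if ((n : ℤ) ≡ b [ZMOD q] ∧ Rgt z t n) then vonMangoldt n else 0) =
          ∑ n ∈ (Icc 1 T).filter (fun n : ℕ => (n : ℤ) ≡ b1 [ZMOD (q * ∏ j, D j : ℕ)] ∧ Rgt z t n),
            vonMangoldt n := by
        rw [← sum_filter, filter_filter]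
        apply sum_congr _ fun _ _ => rfl
        apply filter_congr
        intro n _
        rw [← hb3 n]
        tauto
      have hcop : q.Coprime (∏ j, D j) := Nat.Coprime.prod_right fun j _ => (hDm j).symm
      have e2 : ∏ j, ∏ p ∈ (D j).primeFactors, (1 : ℝ) / ((p : ℝ) - 1) = 1 / (Nat.totient (∏ j, D j) : ℝ) := by
        rw [totient_prod D hDc]
        push_cast
        rw [one_div, ← prod_inv_distrib]
        apply prod_congr rfl
        intro j _
        rw [totient_sqf (hDsq j), ← prod_inv_distrib]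
        apply prod_congr rfl
        intro p _
        rw [one_div]
      rw [e1, e2]
      have hφ0 : (0 : ℝ) < Nat.totient q := by exact_mod_cast Nat.totient_pos.2 hq
      have hφ1 : (0 : ℝ) < Nat.totient (∏ j, D j) := by exact_mod_cast Nat.totient_pos.2 hDpos
      have e3 : ((T : ℝ) / Nat.totient q * ∏ p ∈ Pp z q, (1 - ((omt t p : ℝ) - 1) / ((p : ℝ) - 1))) *
          (1 / (Nat.totient (∏ j, D j) : ℝ)) =
          (T : ℝ) / (Nat.totient (q * ∏ j, D j) : ℝ) *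
            ∏ p ∈ Pp z q, (1 - ((omt t p : ℝ) - 1) / ((p : ℝ) - 1)) := by
        rw [Nat.totient_mul hcop, Nat.cast_mul, ← div_div]
        ring
      have e4 : (T : ℝ) / (Nat.totient (q * ∏ j, D j) : ℝ) ≤ (T : ℝ) / (Nat.totient (∏ j, D j) : ℝ) := by
        apply div_le_div_of_nonneg_left (Nat.cast_nonneg _) hφ1
        rw [Nat.totient_mul hcop, Nat.cast_mul]
        have : (1 : ℝ) ≤ Nat.totient q := by exact_mod_cast Nat.totient_pos.2 hq
        exact le_mul_of_one_le_left hφ1.le this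
      rw [e3]
      refine h2.trans ?_
      have e5 : ∀ S : Finset ℕ, q * (∏ j, D j) * ∏ p ∈ S, p = q * ((∏ j, D j) * ∏ p ∈ S, p) := fun S => by ring
      simp_rw [e5]
      have e6 : 2 * ((T : ℝ) / (Nat.totient (q * ∏ j, D j) : ℝ)) *
          es (fun p => ((omt t p : ℝ) - 1) / ((p : ℝ) - 1)) (Pp z q) r ≤
          2 * ((T : ℝ) / (Nat.totient (∏ j, D j) : ℝ)) * es1 := by
        apply mul_le_mul _ hes hes0 (by positivity)
        linarith
      have e7 : ∑ j ∈ range (r + 1), ∑ S ∈ (Pp z q).powersetCard j,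
          ((K0 + 1 : ℕ) : ℝ) ^ S.card * M (q * ((∏ j, D j) * ∏ p ∈ S, p)) = MS (∏ j, D j) := rfl
      rw [e7]
      linarith)
  have e1 : ∑ n ∈ (Icc 1 T).filter (fun n : ℕ => (n : ℤ) ≡ b [ZMOD q] ∧ Rgt z t n),
        vonMangoldt n * ∏ j : Fin K0, (VVm (pz z) R L (F j) ((n : ℤ) + t (i0.succAbove j)) *
          VVm (pz z) R L (G j) ((n : ℤ) + t (i0.succAbove j))) =
      ∑ n ∈ Icc 1 T, (if ((n : ℤ) ≡ b [ZMOD q] ∧ Rgt z t n) then vonMangoldt n else 0) *
        ∏ j : Fin K0, (VVm (pz z) R L (F j) ((n : ℤ) + t (i0.succAbove j)) *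
          VVm (pz z) R L (G j) ((n : ℤ) + t (i0.succAbove j))) := by
    rw [sum_filter]
    apply sum_congr rfl
    intro n _
    split_ifs <;> simp
  rw [e1]
  refine h1.trans ?_
  apply mul_le_mul_of_nonneg_left _ (by positivity)
  have hes10 : 0 ≤ es1 := hes0.trans hes
  -- the first part
  have g1 : ∑ v ∈ Icc 1 Q, (v.divisors.card : ℝ) ^ (2 * K0) * MS v ≤
      Real.sqrt (B * (1 + Real.log (Q * z ^ r : ℕ)) ^ (2 ^ (2 * (3 * K0 + 2) + 1))) *
      Real.sqrt (∑ k ∈ Icc 1 (q * (Q * z ^ r)), M k) := by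
    have h2 := sum_setprod (Pp z q) (fun p hp => (hPm p hp).1) z r Q (K0 + 1) (2 * K0) hz
      (fun p hp => (hPm p hp).2) (fun u => M (q * u)) (fun u => hM0 _)
    have h3 := sum_M q (Q * z ^ r) (2 * K0 + (K0 + 1) + 1) hq M hM0 B hB hMB
    rw [show 2 * K0 + (K0 + 1) + 1 = 3 * K0 + 2 by ring] at h2 h3
    exact h2.trans h3
  -- the other parts
  have hlogQ : 0 ≤ Real.log (Q : ℝ) := Real.log_natCast_nonneg Q
  have g2 : ∑ v ∈ Icc 1 Q, (v.divisors.card : ℝ) ^ (2 * K0) * (2 * ((T : ℝ) / Nat.totient v) * es1 + er1) ≤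
      (er1 * Q + 2 * X * es1) * (1 + Real.log Q) ^ (2 ^ (2 * K0 + 1)) := by
    calc ∑ v ∈ Icc 1 Q, (v.divisors.card : ℝ) ^ (2 * K0) * (2 * ((T : ℝ) / Nat.totient v) * es1 + er1) ≤
        ∑ v ∈ Icc 1 Q, (er1 * Q + 2 * X * es1) * ((v.divisors.card : ℝ) ^ (2 * K0 + 1) / v) := by
          apply sum_le_sum
          intro v hv
          rw [mem_Icc] at hv
          have hv0 : (0 : ℝ) < v := by exact_mod_cast hv.1
          have hvQ : (v : ℝ) ≤ Q := by exact_mod_cast hv.2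
          have hφ : (0 : ℝ) < Nat.totient v := by exact_mod_cast Nat.totient_pos.2 hv.1
          have hτ : (1 : ℝ) ≤ v.divisors.card := by
            exact_mod_cast card_pos.2 ⟨1, Nat.mem_divisors.2 ⟨one_dvd _, by omega⟩⟩
          have h3 : er1 ≤ er1 * Q * ((v.divisors.card : ℝ) / v) := by
            rw [mul_assoc]
            apply le_mul_of_one_le_right her10
            rw [mul_div_assoc', le_div_iff₀ hv0, one_mul]
            calc (v : ℝ) ≤ Q := hvQ
              _ ≤ Q * (v.divisors.card : ℝ) := le_mul_of_one_le_right (Nat.cast_nonneg _) hτ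
          have h4 : (T : ℝ) / Nat.totient v ≤ X * ((v.divisors.card : ℝ) / v) := by
            rw [div_le_iff₀ hφ]
            have h5 := tot_low v hv.1
            have h6 : (1 : ℝ) ≤ ((v.divisors.card : ℝ) / v) * Nat.totient v := by
              rw [div_mul_eq_mul_div, le_div_iff₀ hv0, one_mul]
              exact h5
            have h7 : (T : ℝ) ≤ X := by exact_mod_cast hT
            calc (T : ℝ) ≤ X * 1 := by linarith
              _ ≤ X * (((v.divisors.card : ℝ) / v) * Nat.totient v) := by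
                  apply mul_le_mul_of_nonneg_left h6 (Nat.cast_nonneg _)
              _ = _ := by ring
          have h5 : 2 * ((T : ℝ) / Nat.totient v) * es1 + er1 ≤
              (er1 * Q + 2 * X * es1) * ((v.divisors.card : ℝ) / v) := by
            have h6 : 2 * ((T : ℝ) / Nat.totient v) * es1 ≤ 2 * (X * ((v.divisors.card : ℝ) / v)) * es1 := by
              gcongr
            calc _ ≤ 2 * (X * ((v.divisors.card : ℝ) / v)) * es1 + er1 * Q * ((v.divisors.card : ℝ) / v) := by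
                  linarith
              _ = _ := by ring
          calc _ ≤ (v.divisors.card : ℝ) ^ (2 * K0) * ((er1 * Q + 2 * X * es1) * ((v.divisors.card : ℝ) / v)) :=
                mul_le_mul_of_nonneg_left h5 (by positivity)
            _ = _ := by rw [pow_succ]; ring
      _ = (er1 * Q + 2 * X * es1) * ∑ v ∈ Icc 1 Q, ((v.divisors.card : ℝ) ^ (2 * K0 + 1) / v) := by
          rw [mul_sum]
      _ ≤ _ := mul_le_mul_of_nonneg_left (tau_mom _ _) (by positivity)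
  have g3 : ∑ v ∈ Icc 1 Q, (v.divisors.card : ℝ) ^ (2 * K0) *
      (MS v + 2 * ((T : ℝ) / Nat.totient v) * es1 + er1) =
      ∑ v ∈ Icc 1 Q, (v.divisors.card : ℝ) ^ (2 * K0) * MS v +
      ∑ v ∈ Icc 1 Q, (v.divisors.card : ℝ) ^ (2 * K0) * (2 * ((T : ℝ) / Nat.totient v) * es1 + er1) := by
    rw [← sum_add_distrib]
    apply sum_congr rfl
    intro v _
    ring
  rw [g3]
  unfold E2
  linarith

end Pool.Agent.H542.MT
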