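import Pool.Agent.H542.MT.M6

/-!
The third sum: the integers with a medium prime factor, and the second sum in final form.
-/

set_option autoImplicit false

namespace Pool.Agent.H542.MT

open Finset
open Pool.Agent.H542.TW (mem_pz sum_bU_le crt_class)
open Pool.Agent.H542.G (prod_inj)
open Pool.Agent.H373R2.T7 (pz es es_nonneg)
open Pool.Agent.Y889.PN (PS)
open Pool.Agent.H378R2
open Pool.Agent.H387R2.MB (VV_shift VV_same shf supp_aux)
open ArithmeticFunction (vonMangoldt vonMangoldt_nonneg)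

/-- the local main term -/
noncomputable def GT {K : ℕ} (t : Fin K → ℤ) (z q T : ℕ) : ℝ :=
  (T : ℝ) / q * ∏ p ∈ Pp z q, (1 - (omt t p : ℝ) / p)

/-- the sieve sum of the third sum -/
noncomputable def gam3 {K : ℕ} (g : Fin K → ℝ → ℝ) (j0 : Fin K) (X : ℝ) (z p : ℕ) : ℝ :=
  sieveSum K (shf g j0 (Real.log p / LL X)) (shf g j0 (Real.log p / LL X)) (LL X)
    (fun _ => insert p (pz z)) (fun q _ => 1 / (q : ℝ)) (RR X)

/-- the error of the first and third sums -/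
noncomputable def E1 (K z : ℕ) (T : ℝ) (Q r : ℕ) (es1 : ℝ) : ℝ :=
  (((z + 1) ^ r * K ^ r : ℕ) * Q + 2 * T * es1) * (1 + Real.log Q) ^ (2 ^ (2 * K))

open Classical in
/-- **The first sum**, final form. -/
theorem P1 {K : ℕ} (hK : 1 ≤ K) (F G : Fin K → ℝ → ℝ) (cF cG : Fin K → ℝ)
    (hF : ∀ j x, |F j x| ≤ 1) (hG : ∀ j x, |G j x| ≤ 1)
    (hF0 : ∀ j x, cF j < x → F j x = 0) (hG0 : ∀ j x, cG j < x → G j x = 0)
    (hs : ∑ j, cF j + ∑ j, cG j ≤ 2) (X : ℝ) (hL2 : 2 ≤ LL X)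
    (t : Fin K → ℤ) (z q T r Q : ℕ) (b : ℤ) (hq : 1 ≤ q) (hqz : ∀ p : ℕ, p.Prime → p ∣ q → p ≤ z)
    (hmb : ∀ p ∈ pz z, p ∣ q → ∀ j, ¬ (p : ℤ) ∣ b + t j) (hDT : DTi (pz z) t)
    (hQ : Real.exp (2 * LL X) ≤ Q) (es1 : ℝ)
    (hes : es (fun p => (omt t p : ℝ) / p) (Pp z q) r ≤ es1) :
    |∑ n ∈ (Icc 1 T).filter (fun n : ℕ => (n : ℤ) ≡ b [ZMOD q] ∧ Rgt z t n),
        ∏ j, (VVm (pz z) (RR X) (LL X) (F j) ((n : ℤ) + t j) * VVm (pz z) (RR X) (LL X) (G j) ((n : ℤ) + t j)) -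
      GT t z q T * sieveSum K F G (LL X) (fun _ => pz z) (fun p _ => 1 / (p : ℝ)) (RR X)| ≤
    E1 K z T Q r es1 := by
  have hL0 : 0 < LL X := by linarith
  have hes0 : 0 ≤ es (fun p => (omt t p : ℝ) / p) (Pp z q) r := es_nonneg (fun p _ => by positivity) _
  have h1 := S1g hK F G (LL X) 1 hL0 zero_le_one cF cG hF hG hF0 hG0 t z q T r Q (RR X) b (pz z) hq hmb
    (fun p hp => hp) (fun p hp hpq => mem_pz.2 ⟨hp, hqz p hp hpq⟩) hDT
    (by
      refine le_trans ?_ hQ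
      apply Real.exp_le_exp.2
      rw [mul_comm]
      exact mul_le_mul_of_nonneg_right hs hL0.le)
  refine h1.trans ?_
  rw [one_pow, one_mul]
  unfold E1
  have hlogQ : 0 ≤ Real.log (Q : ℝ) := Real.log_natCast_nonneg Q
  apply mul_le_mul_of_nonneg_right _ (by positivity)
  have h2 : (T : ℝ) / q ≤ T := div_le_self (Nat.cast_nonneg _) (by exact_mod_cast hq)
  have h3 : 2 * ((T : ℝ) / q) * es (fun p => (omt t p : ℝ) / p) (Pp z q) r ≤ 2 * (T : ℝ) * es1 := by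
    apply mul_le_mul _ hes hes0 (by positivity)
    linarith
  linarith

open Classical in
/-- **The third sum.** -/
theorem P3 {K : ℕ} (hK : 1 ≤ K) (g : Fin K → ℝ → ℝ) (c : Fin K → ℝ)
    (hf0 : ∀ l x, c l < x → g l x = 0) (hc : ∀ l, 0 ≤ c l ∧ c l ≤ 1 / 2) (hA : ∑ j, c j ≤ 1)
    (hf1 : ∀ l x, |g l x| ≤ 1) (j0 : Fin K) (X : ℝ) (hL2 : 2 ≤ LL X)
    (t : Fin K → ℤ) (z q T r Q p : ℕ) (b : ℤ) (hq : 1 ≤ q) (hqz : ∀ p : ℕ, p.Prime → p ∣ q → p ≤ z)
    (hmb : ∀ p ∈ pz z, p ∣ q → ∀ j, ¬ (p : ℤ) ∣ b + t j) (hDT : DTi (pz z) t)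
    (hp : p.Prime) (hzp : z < p)
    (hQ : Real.exp (2 * LL X) ≤ Q) (es1 : ℝ)
    (hes : es (fun p => (omt t p : ℝ) / p) (Pp z q) r ≤ es1) :
    |∑ n ∈ (Icc 1 T).filter (fun n : ℕ => (n : ℤ) ≡ b [ZMOD q] ∧ Rgt z t n),
        (if (p : ℤ) ∣ (n : ℤ) + t j0 then
        ∏ j, (VVm (pz z) (RR X) (LL X) (g j) ((n : ℤ) + t j) * VVm (pz z) (RR X) (LL X) (g j) ((n : ℤ) + t j))
        else 0) -
      GT t z q T * ((1 / (p : ℝ)) * gam3 g j0 X z p)| ≤
    2 ^ (2 * K) * E1 K z ((T : ℝ) / p) Q r es1 := by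
  have hL0 : 0 < LL X := by linarith
  have hp0 : (0:ℝ) < p := by exact_mod_cast hp.pos
  have hq0 : (0:ℝ) < q := by exact_mod_cast hq
  have hpz : p ∉ pz z := fun h => by have := (mem_pz.1 h).2; omega
  have hpq : ¬ p ∣ q := fun h => by have := hqz p hp h; omega
  have hes0 : 0 ≤ es (fun p => (omt t p : ℝ) / p) (Pp z q) r := es_nonneg (fun p _ => by positivity) _
  set u := Real.log p / LL X with hu
  have hu0 : 0 ≤ u := div_nonneg (Real.log_natCast_nonneg p) hL0.le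
  have hvan : ∀ (l : Fin K) (x : ℝ), Real.log (RR X) / LL X < x → g l x = 0 := by
    intro l x hx
    have := supp_aux hL2 hx
    exact hf0 l x (lt_of_le_of_lt (hc l).2 this)
  set G := shf g j0 u with hG
  have hG2 : ∀ j x, |G j x| ≤ 2 := by
    intro j x
    rw [hG]
    unfold shf
    split_ifs
    · have h1 := hf1 j x
      have h2 := hf1 j (x + u)
      have := abs_sub (g j x) (g j (x + u))
      linarith
    · have h1 := hf1 j x
      linarith
  have hG0 : ∀ j x, c j < x → G j x = 0 := by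
    intro j x hx
    rw [hG]
    unfold shf
    split_ifs
    · rw [hf0 j x hx, hf0 j (x + u) (by linarith), sub_zero]
    · exact hf0 j x hx
  have hcop : q.Coprime p := ((Nat.Prime.coprime_iff_not_dvd hp).2 hpq).symm
  obtain ⟨b1, hb1⟩ := crt_class q p hq hp.pos hcop b (t j0)
  have hb1' : (b1 : ℤ) ≡ b [ZMOD q] := ((hb1 b1).2 (Nat.ModEq.refl _)).1
  have hPp : Pp z (q * p) = Pp z q := Pp_mul z q p (by
    intro p' hp' hd
    have h1 := (Nat.prime_dvd_prime_iff_eq (mem_pz.1 hp').1 hp).1 hd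
    exact hpz (h1 ▸ hp'))
  have h1 := S1g hK G G (LL X) 2 hL0 (by norm_num) c c hG2 hG2 hG0 hG0 t z (q * p) T r Q (RR X) b1
    (insert p (pz z)) (Nat.mul_pos hq hp.pos) (by
      intro p' hp' hd j hj
      rcases (Nat.Prime.dvd_mul (mem_pz.1 hp').1).1 hd with h | h
      · apply hmb p' hp' h j
        have h4 : (b1 : ℤ) ≡ b [ZMOD p'] := hb1'.of_dvd (Int.natCast_dvd_natCast.2 h)
        exact (Int.ModEq.dvd_iff (h4.add_right (t j))).1 hj
      · have h1 := (Nat.prime_dvd_prime_iff_eq (mem_pz.1 hp').1 hp).1 h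
        exact hpz (h1 ▸ hp'))
    (fun p' hp' => mem_insert_of_mem hp') (by
      intro p' hp' hd
      rcases (Nat.Prime.dvd_mul hp').1 hd with h | h
      · exact mem_insert_of_mem (mem_pz.2 ⟨hp', hqz p' hp' h⟩)
      · rw [(Nat.prime_dvd_prime_iff_eq hp' hp).1 h]
        exact mem_insert_self _ _)
    (fun i j hij p' hp' hpE => hDT i j hij p' hp' (fun h => hpE (mem_insert_of_mem h)))
    (by
      refine le_trans ?_ hQ
      apply Real.exp_le_exp.2
      rw [mul_comm]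
      exact mul_le_mul_of_nonneg_right (by linarith) hL0.le)
  rw [hPp] at h1
  have e1 : ∑ n ∈ (Icc 1 T).filter (fun n : ℕ => (n : ℤ) ≡ b [ZMOD q] ∧ Rgt z t n),
        (if (p : ℤ) ∣ (n : ℤ) + t j0 then
        ∏ j, (VVm (pz z) (RR X) (LL X) (g j) ((n : ℤ) + t j) * VVm (pz z) (RR X) (LL X) (g j) ((n : ℤ) + t j))
        else 0) =
      ∑ n ∈ (Icc 1 T).filter (fun n : ℕ => (n : ℤ) ≡ b1 [ZMOD (q * p : ℕ)] ∧ Rgt z t n),
        ∏ j, (VVm (insert p (pz z)) (RR X) (LL X) (G j) ((n : ℤ) + t j) *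
          VVm (insert p (pz z)) (RR X) (LL X) (G j) ((n : ℤ) + t j)) := by
    rw [← sum_filter, filter_filter]
    have e2 : (Icc 1 T).filter (fun n : ℕ => ((n : ℤ) ≡ b [ZMOD q] ∧ Rgt z t n) ∧ (p : ℤ) ∣ (n : ℤ) + t j0) =
        (Icc 1 T).filter (fun n : ℕ => (n : ℤ) ≡ b1 [ZMOD (q * p : ℕ)] ∧ Rgt z t n) := by
      apply filter_congr
      intro n _
      rw [Int.natCast_modEq_iff, ← hb1 n]
      tauto
    rw [← e2]
    apply sum_congr rfl
    intro n hn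
    have hd := (mem_filter.1 hn).2.2
    apply prod_congr rfl
    intro j _
    have : VVm (pz z) (RR X) (LL X) (g j) ((n : ℤ) + t j) =
        VVm (insert p (pz z)) (RR X) (LL X) (G j) ((n : ℤ) + t j) := by
      by_cases hj : j = j0
      · subst hj
        rw [VV_shift (pz z) (RR X) (LL X) hL0 (g j) p hp hpz (hvan j) _ hd]
        congr 1
        funext x
        rw [hG]
        unfold shf
        rw [if_pos rfl]
      · have hnd : ¬ (p : ℤ) ∣ (n : ℤ) + t j := fun h => hDT.res j j0 hj p hp hpz n ⟨h, hd⟩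
        rw [VV_same (pz z) (RR X) (LL X) (g j) p hp _ hnd]
        congr 1
        funext x
        rw [hG]
        unfold shf
        rw [if_neg hj]
    rw [this]
  rw [e1]
  have e3 : ((T : ℝ) / ((q * p : ℕ) : ℝ) * ∏ p' ∈ Pp z q, (1 - (omt t p' : ℝ) / p')) *
      sieveSum K G G (LL X) (fun _ => insert p (pz z)) (fun p _ => 1 / (p : ℝ)) (RR X) =
      GT t z q T * ((1 / (p : ℝ)) * gam3 g j0 X z p) := by
    unfold GT gam3
    rw [Nat.cast_mul, ← div_div, ← hu, ← hG]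
    ring
  rw [e3] at h1
  refine h1.trans ?_
  unfold E1
  have hlogQ : 0 ≤ Real.log (Q : ℝ) := Real.log_natCast_nonneg Q
  rw [mul_assoc]
  apply mul_le_mul_of_nonneg_left _ (by positivity)
  apply mul_le_mul_of_nonneg_right _ (by positivity)
  have h2 : (T : ℝ) / ((q * p : ℕ) : ℝ) ≤ (T : ℝ) / p := by
    apply div_le_div_of_nonneg_left (Nat.cast_nonneg _) hp0
    rw [Nat.cast_mul]
    exact le_mul_of_one_le_left hp0.le (by exact_mod_cast hq)
  have h3 : 2 * ((T : ℝ) / ((q * p : ℕ) : ℝ)) * es (fun p => (omt t p : ℝ) / p) (Pp z q) r ≤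
      2 * ((T : ℝ) / p) * es1 := by
    apply mul_le_mul _ hes hes0 (by positivity)
    linarith
  linarith

end Pool.Agent.H542.MT
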