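import Pool.Agent.H542.MT.M7

/-!
The second sum in final form.
-/

set_option autoImplicit false

namespace Pool.Agent.H542.MT

open Finset
open Pool.Agent.H542.TW (mem_pz sum_bU_le crt_class)
open Pool.Agent.H542.G (prod_inj)
open Pool.Agent.H373R2.T7 (pz es es_nonneg)
open Pool.Agent.Y889.PN (PS)
open Pool.Agent.H378R2
open ArithmeticFunction (vonMangoldt vonMangoldt_nonneg)

/-- the sieve sum of the second sum -/
noncomputable def bet {K0 B : ℕ} (f : Fin B → ℝ → ℝ) (a b : Fin (K0 + 1) → Fin B) (i : Fin (K0 + 1))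
    (X : ℝ) (z : ℕ) : ℝ :=
  f (a i) 0 * f (b i) 0 * sieveSum K0 (fun j => f (a (i.succAbove j))) (fun j => f (b (i.succAbove j)))
    (LL X) (fun _ => pz z) (fun p _ => 1 / ((p : ℝ) - 1)) (RR X)

/-- sums over a window as differences -/
lemma window (s T : ℕ) (g : ℕ → ℝ) : ∑ n ∈ Icc 1 T, g (n + s) = ∑ n ∈ Icc 1 (T + s), g n - ∑ n ∈ Icc 1 s, g n := by
  induction T with
  | zero => simp
  | succ T ih =>
    rw [sum_Icc_succ_top (by omega), ih, show T + 1 + s = (T + s) + 1 by ring,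
      sum_Icc_succ_top (by omega)]
    ring

open Classical in
/-- **The second sum**, final form. -/
theorem P2 {K0 B : ℕ} (f : Fin B → ℝ → ℝ) (c : Fin B → ℝ)
    (hf0 : ∀ l x, c l < x → f l x = 0) (hc : ∀ l, 0 ≤ c l ∧ c l ≤ 1 / 2) (hf1 : ∀ l x, |f l x| ≤ 1)
    (a b : Fin (K0 + 1) → Fin B) (ha : ∑ j, c (a j) ≤ 1) (hb : ∑ j, c (b j) ≤ 1) (i : Fin (K0 + 1))
    (X : ℝ) (hL2 : 2 ≤ LL X) (t : Fin (K0 + 1) → ℕ) (z q Y T r Q : ℕ) (cl : ℤ) (hq : 1 ≤ q)
    (hqz : ∀ p : ℕ, p.Prime → p ∣ q → p ≤ z)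
    (hmb : ∀ p ∈ pz z, p ∣ q → ∀ j, ¬ (p : ℤ) ∣ cl + (t j : ℤ)) (hz : 1 ≤ z)
    (hDT : DTi (pz z) (fun j => (t j : ℤ)))
    (hT : T + t i ≤ Y) (hY : 1 ≤ Y)
    (hQ : Real.exp (2 * LL X) ≤ Q) (M : ℕ → ℝ)
    (hM0 : ∀ k, 0 ≤ M k)
    (hM : ∀ k : ℕ, 1 ≤ k → ∀ a : ℕ, a.Coprime k → ∀ y : ℕ, y ≤ Y →
      |PS y k a - y / (Nat.totient k : ℝ)| ≤ M k) (B0 : ℝ) (hB : 0 ≤ B0)
    (hMB : ∀ k, 1 ≤ k → k ≤ q * (Q * z ^ r) → M k ≤ B0 / Nat.totient k) (es1 : ℝ)
    (hes : es (fun p => ((omt (fun j => (t j : ℤ)) p : ℝ) - 1) / ((p : ℝ) - 1)) (Pp z q) r ≤ es1) :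
    |∑ n ∈ (Icc 1 T).filter (fun n : ℕ => (n : ℤ) ≡ cl [ZMOD q] ∧ Rgt z (fun j => (t j : ℤ)) n),
        th (n + t i) * ∏ j, (VVm (pz z) (RR X) (LL X) (f (a j)) ((n : ℤ) + t j) *
          VVm (pz z) (RR X) (LL X) (f (b j)) ((n : ℤ) + t j)) -
      GT (fun j => (t j : ℤ)) z q T * ((∏ p ∈ pz z, (1 - 1 / (p : ℝ)))⁻¹ * bet f a b i X z)| ≤
    2 * E2 K0 z q Y Q r B0 es1 M +
      Real.exp (2 * LL X) * (2 * RR X * Real.log Y + 2 * Real.sqrt Y * Real.log Y) := by
  have hL0 : 0 < LL X := by linarith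
  set ti : Fin (K0 + 1) → ℤ := fun j => (t j : ℤ) - t i with hti
  have hti0 : ti i = 0 := by simp [hti]
  set F : Fin K0 → ℝ → ℝ := fun j => f (a (i.succAbove j)) with hF
  set G : Fin K0 → ℝ → ℝ := fun j => f (b (i.succAbove j)) with hG
  have hcsum : ∑ j : Fin K0, c (a (i.succAbove j)) + ∑ j : Fin K0, c (b (i.succAbove j)) ≤ 2 := by
    rw [Fin.sum_univ_succAbove _ i] at ha hb
    have h1 := (hc (a i)).1
    have h2 := (hc (b i)).1
    linarith
  have homt : ∀ p ∈ pz z, omt ti p = omt (fun j => (t j : ℤ)) p := fun p hp =>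
    omt_shift (fun j => (t j : ℤ)) (t i) p (mem_pz.1 hp).1.pos
  have hPp : ∀ p ∈ Pp z q, p ∈ pz z := fun p hp => by rw [Pp, mem_filter] at hp; exact hp.1
  have heq : es (fun p => ((omt ti p : ℝ) - 1) / ((p : ℝ) - 1)) (Pp z q) r =
      es (fun p => ((omt (fun j => (t j : ℤ)) p : ℝ) - 1) / ((p : ℝ) - 1)) (Pp z q) r := by
    unfold es
    apply sum_congr rfl
    intro S hS
    apply prod_congr rfl
    intro p hp
    have := homt p (hPp p ((mem_powersetCard.1 hS).1 hp))
    simp only [this]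
  have hDTi : DTi (pz z) ti := by
    intro j k hjk p hp hpE hd
    apply hDT j k hjk p hp hpE
    have : ti j - ti k = (t j : ℤ) - t k := by rw [hti]; ring
    rwa [this] at hd
  -- the function of N
  set P : ℕ → ℝ := fun N => ∏ j : Fin K0, (VVm (pz z) (RR X) (LL X) (F j) ((N : ℤ) + ti (i.succAbove j)) *
          VVm (pz z) (RR X) (LL X) (G j) ((N : ℤ) + ti (i.succAbove j))) with hP
  have hPle : ∀ N, |P N| ≤ Real.exp (2 * LL X) := by
    intro N
    exact prod_VV_le (pz z) (RR X) (LL X) hL0 f c hf0 hf1 (fun j => a (i.succAbove j)) (fun j => b (i.succAbove j))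
      hcsum (fun j => (N : ℤ) + ti (i.succAbove j))
  set V0 : ℕ → ℝ := fun N => VVm (pz z) (RR X) (LL X) (f (a i)) (N : ℤ) * VVm (pz z) (RR X) (LL X) (f (b i)) (N : ℤ)
    with hV0
  have hVP : ∀ N, |V0 N * P N| ≤ Real.exp (2 * LL X) := by
    intro N
    have h1 := prod_VV_le (pz z) (RR X) (LL X) hL0 f c hf0 hf1 a b (by linarith) (fun j => (N : ℤ) + ti j)
    rw [Fin.prod_univ_succAbove _ i] at h1
    rw [hti0, add_zero] at h1
    exact h1
  set cls : ℕ → Prop := fun N => ((N : ℤ) ≡ cl + t i [ZMOD q] ∧ Rgt z ti N) with hcls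
  have hcls' : ∀ n : ℕ, cls (n + t i) ↔ ((n : ℤ) ≡ cl [ZMOD q] ∧ Rgt z (fun j => (t j : ℤ)) n) := by
    intro n
    rw [hcls]
    simp only
    apply and_congr
    · push_cast
      constructor
      · intro h; exact Int.ModEq.add_right_cancel' _ h
      · intro h; exact h.add_right _
    · unfold Rgt
      apply forall₂_congr
      intro p _
      apply forall_congr'
      intro j
      rw [hti]
      push_cast
      rw [show (n : ℤ) + t i + ((t j : ℤ) - t i) = n + t j by ring]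
  have g0 : |f (a i) 0 * f (b i) 0| ≤ 1 := by
    rw [abs_mul]
    have h1 := hf1 (a i) 0
    have h2 := hf1 (b i) 0
    calc |f (a i) 0| * |f (b i) 0| ≤ 1 * 1 := mul_le_mul h1 h2 (abs_nonneg _) zero_le_one
      _ = 1 := one_mul 1
  -- the main sums
  have hmain : ∀ T', T' ≤ Y → |∑ N ∈ (Icc 1 T').filter cls, vonMangoldt N * P N -
      ((T' : ℝ) / Nat.totient q * ∏ p ∈ Pp z q, (1 - ((omt ti p : ℝ) - 1) / ((p : ℝ) - 1))) *
        sieveSum K0 F G (LL X) (fun _ => pz z) (fun p _ => 1 / ((p : ℝ) - 1)) (RR X)| ≤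
      E2 K0 z q Y Q r B0 es1 M := by
    intro T' hT'
    have h1 := S2g F G (LL X) 1 hL0 zero_le_one (fun j => c (a (i.succAbove j))) (fun j => c (b (i.succAbove j)))
      (fun j x => hf1 _ x) (fun j x => hf1 _ x) (fun j x h => hf0 _ x h) (fun j x h => hf0 _ x h)
      ti i hti0 z q Y T' r Q (RR X) (cl + t i) hq hqz (by
        intro p hp hpq j hj
        apply hmb p hp hpq j
        rw [hti] at hj
        simp only at hj
        rw [show cl + (t i : ℤ) + ((t j : ℤ) - t i) = cl + t j by ring] at hj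
        exact hj) hz hT' hDTi (by
        refine le_trans ?_ hQ
        apply Real.exp_le_exp.2
        rw [mul_comm]
        exact mul_le_mul_of_nonneg_right hcsum hL0.le) M hM0 hM B0 hB hMB es1 (by rw [heq]; exact hes)
    rw [one_pow, one_mul] at h1
    exact h1
  -- the difference of the functions
  have hlogY : 0 ≤ Real.log Y := Real.log_natCast_nonneg Y
  have hdiff : ∀ N ∈ Icc 1 Y, |th N * (V0 N * P N) - f (a i) 0 * f (b i) 0 * (vonMangoldt N * P N)| ≤
      (if N ≤ RR X then 2 * Real.log Y * Real.exp (2 * LL X) else 0) +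
        (if ¬ N.Prime then vonMangoldt N * Real.exp (2 * LL X) else 0) := by
    intro N hN
    rw [mem_Icc] at hN
    have hexp : 0 < Real.exp (2 * LL X) := Real.exp_pos _
    by_cases hNp : N.Prime
    · rw [if_neg (not_not.2 hNp), add_zero]
      have hth : th N = vonMangoldt N := by
        unfold th
        rw [if_pos hNp, ArithmeticFunction.vonMangoldt_apply_prime hNp]
      by_cases hNR : N ≤ RR X
      · rw [if_pos hNR]
        have hlog : th N ≤ Real.log Y := by
          unfold th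
          rw [if_pos hNp]
          apply Real.log_le_log (by exact_mod_cast hNp.pos)
          exact_mod_cast hN.2
        have hth0 := th_nonneg N
        rw [← hth]
        have h1 : |th N * (V0 N * P N)| ≤ Real.log Y * Real.exp (2 * LL X) := by
          rw [abs_mul, abs_of_nonneg hth0]
          exact mul_le_mul hlog (hVP N) (abs_nonneg _) hlogY
        have h2 : |f (a i) 0 * f (b i) 0 * (th N * P N)| ≤ Real.log Y * Real.exp (2 * LL X) := by
          rw [abs_mul, abs_mul (th N), abs_of_nonneg hth0]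
          calc |f (a i) 0 * f (b i) 0| * (th N * |P N|) ≤ 1 * (Real.log Y * Real.exp (2 * LL X)) := by
                apply mul_le_mul g0 _ (by positivity) zero_le_one
                exact mul_le_mul hlog (hPle N) (abs_nonneg _) hlogY
            _ = _ := one_mul _
        have h3 := abs_sub (th N * (V0 N * P N)) (f (a i) 0 * f (b i) 0 * (th N * P N))
        linarith
      · rw [if_neg hNR]
        have hR1 : 1 ≤ RR X := by
          unfold RR
          exact Nat.le_floor (by rw [Nat.cast_one]; exact Real.one_le_exp hL0.le)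
        have e1 : V0 N = f (a i) 0 * f (b i) 0 := by
          rw [hV0]
          simp only
          rw [VV_prime (pz z) (RR X) hR1 (LL X) (f (a i)) N hNp (by omega),
            VV_prime (pz z) (RR X) hR1 (LL X) (f (b i)) N hNp (by omega)]
        rw [e1, hth]
        have : vonMangoldt N * (f (a i) 0 * f (b i) 0 * P N) - f (a i) 0 * f (b i) 0 * (vonMangoldt N * P N) = 0 := by
          ring
        rw [this, abs_zero]
    · rw [if_pos hNp]
      have hth : th N = 0 := by
        unfold th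
        rw [if_neg hNp]
      have hL := @vonMangoldt_nonneg N
      rw [hth, zero_mul, zero_sub, abs_neg, abs_mul, abs_mul (vonMangoldt N), abs_of_nonneg hL]
      have h1 : |f (a i) 0 * f (b i) 0| * (vonMangoldt N * |P N|) ≤ 1 * (vonMangoldt N * Real.exp (2 * LL X)) := by
        apply mul_le_mul g0 _ (by positivity) zero_le_one
        exact mul_le_mul_of_nonneg_left (hPle N) hL
      have h2 : (0 : ℝ) ≤ (if N ≤ RR X then 2 * Real.log Y * Real.exp (2 * LL X) else 0) := by
        split_ifs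
        · positivity
        · exact le_rfl
      linarith
  -- the window
  set g1 : ℕ → ℝ := fun N => if cls N then th N * (V0 N * P N) else 0 with hg1
  set g2 : ℕ → ℝ := fun N => if cls N then vonMangoldt N * P N else 0 with hg2
  have e1 : ∑ n ∈ (Icc 1 T).filter (fun n : ℕ => (n : ℤ) ≡ cl [ZMOD q] ∧ Rgt z (fun j => (t j : ℤ)) n),
        th (n + t i) * ∏ j, (VVm (pz z) (RR X) (LL X) (f (a j)) ((n : ℤ) + t j) *
          VVm (pz z) (RR X) (LL X) (f (b j)) ((n : ℤ) + t j)) = ∑ n ∈ Icc 1 T, g1 (n + t i) := by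
    rw [sum_filter]
    apply sum_congr rfl
    intro n _
    rw [hg1]
    simp only
    by_cases h : cls (n + t i)
    · rw [if_pos h, if_pos ((hcls' n).1 h)]
      congr 1
      rw [Fin.prod_univ_succAbove _ i]
      have e2 : (((n + t i : ℕ) : ℤ)) = (n : ℤ) + t i := by push_cast; ring
      rw [hV0, hP]
      simp only
      rw [e2]
      congr 1
      apply prod_congr rfl
      intro j _
      have e3 : (n : ℤ) + t i + ti (i.succAbove j) = n + t (i.succAbove j) := by
        rw [hti]; ring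
      rw [e3]
    · rw [if_neg h, if_neg (fun h' => h ((hcls' n).2 h'))]
  have e2 : ∑ n ∈ Icc 1 T, g2 (n + t i) = ∑ N ∈ (Icc 1 (T + t i)).filter cls, vonMangoldt N * P N -
      ∑ N ∈ (Icc 1 (t i)).filter cls, vonMangoldt N * P N := by
    rw [window, sum_filter, sum_filter]
  have h1 := hmain (T + t i) hT
  have h2 := hmain (t i) (by omega)
  -- the main term
  have e3 : f (a i) 0 * f (b i) 0 * ((((T + t i : ℕ) : ℝ) / Nat.totient q *
        ∏ p ∈ Pp z q, (1 - ((omt ti p : ℝ) - 1) / ((p : ℝ) - 1))) *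
        sieveSum K0 F G (LL X) (fun _ => pz z) (fun p _ => 1 / ((p : ℝ) - 1)) (RR X) -
      (((t i : ℕ) : ℝ) / Nat.totient q * ∏ p ∈ Pp z q, (1 - ((omt ti p : ℝ) - 1) / ((p : ℝ) - 1))) *
        sieveSum K0 F G (LL X) (fun _ => pz z) (fun p _ => 1 / ((p : ℝ) - 1)) (RR X)) =
      GT (fun j => (t j : ℤ)) z q T * ((∏ p ∈ pz z, (1 - 1 / (p : ℝ)))⁻¹ * bet f a b i X z) := by
    have h3 := dens_eq ti z q hq hqz
    have h4 : ∏ p ∈ Pp z q, (1 - (omt ti p : ℝ) / p) = ∏ p ∈ Pp z q, (1 - (omt (fun j => (t j : ℤ)) p : ℝ) / p) :=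
      prod_congr rfl fun p hp => by rw [homt p (hPp p hp)]
    rw [h4] at h3
    unfold GT bet
    push_cast
    rw [← hF, ← hG]
    have h5 : ((T : ℝ) + t i) / Nat.totient q = ((T : ℝ) + t i) * (1 / Nat.totient q) := by rw [mul_one_div]
    have h6 : (t i : ℝ) / Nat.totient q = (t i : ℝ) * (1 / Nat.totient q) := by rw [mul_one_div]
    have h7 : (T : ℝ) / q = (T : ℝ) * (1 / q) := by rw [mul_one_div]
    rw [h5, h6, h7, mul_assoc _ (1 / (Nat.totient q : ℝ)), mul_assoc _ (1 / (Nat.totient q : ℝ)), h3]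
    ring
  rw [e1, ← e3]
  -- the sum of the differences
  have h3 : |∑ n ∈ Icc 1 T, g1 (n + t i) - f (a i) 0 * f (b i) 0 * ∑ n ∈ Icc 1 T, g2 (n + t i)| ≤
      Real.exp (2 * LL X) * (2 * RR X * Real.log Y + 2 * Real.sqrt Y * Real.log Y) := by
    rw [mul_sum, ← sum_sub_distrib]
    refine (abs_sum_le_sum_abs _ _).trans ?_
    have h4 : ∑ n ∈ Icc 1 T, |g1 (n + t i) - f (a i) 0 * f (b i) 0 * g2 (n + t i)| ≤
        ∑ N ∈ Icc 1 Y, |g1 N - f (a i) 0 * f (b i) 0 * g2 N| := by
      have h5 : ∑ n ∈ Icc 1 T, |g1 (n + t i) - f (a i) 0 * f (b i) 0 * g2 (n + t i)| =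
          ∑ N ∈ (Icc 1 T).image (fun n => n + t i), |g1 N - f (a i) 0 * f (b i) 0 * g2 N| := by
        rw [sum_image]
        intro x _ y _ h
        simpa using h
      rw [h5]
      apply sum_le_sum_of_subset_of_nonneg
      · intro N hN
        rw [mem_image] at hN
        obtain ⟨n, hn, rfl⟩ := hN
        rw [mem_Icc] at hn ⊢
        omega
      · intro _ _ _; exact abs_nonneg _
    refine h4.trans ?_
    have h5 : ∀ N ∈ Icc 1 Y, |g1 N - f (a i) 0 * f (b i) 0 * g2 N| ≤
        (if N ≤ RR X then 2 * Real.log Y * Real.exp (2 * LL X) else 0) +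
        (if ¬ N.Prime then vonMangoldt N * Real.exp (2 * LL X) else 0) := by
      intro N hN
      rw [hg1, hg2]
      simp only
      by_cases h : cls N
      · rw [if_pos h, if_pos h]
        exact hdiff N hN
      · rw [if_neg h, if_neg h, mul_zero, sub_zero, abs_zero]
        have hL := @vonMangoldt_nonneg N
        have h6 : (0 : ℝ) ≤ (if N ≤ RR X then 2 * Real.log Y * Real.exp (2 * LL X) else 0) := by
          split_ifs
          · positivity
          · exact le_rfl
        have h7 : (0 : ℝ) ≤ (if ¬ N.Prime then vonMangoldt N * Real.exp (2 * LL X) else 0) := by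
          split_ifs
          · exact le_rfl
          · positivity
        linarith
    refine (sum_le_sum h5).trans ?_
    rw [sum_add_distrib, ← sum_filter, ← sum_filter, sum_const, nsmul_eq_mul, ← sum_mul]
    have h6 : (((Icc 1 Y).filter (fun N => N ≤ RR X)).card : ℝ) ≤ RR X := by
      have : ((Icc 1 Y).filter (fun N => N ≤ RR X)).card ≤ (Icc 1 (RR X)).card := by
        apply card_le_card
        intro N hN
        rw [mem_filter, mem_Icc] at hN
        exact mem_Icc.2 ⟨hN.1.1, hN.2⟩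
      rw [Nat.card_Icc, Nat.add_sub_cancel] at this
      exact_mod_cast this
    have h7 := sum_nonprime_le (Y : ℝ) (by exact_mod_cast hY)
    rw [Nat.floor_natCast] at h7
    have hexp : 0 < Real.exp (2 * LL X) := Real.exp_pos _
    calc _ ≤ (RR X : ℝ) * (2 * Real.log Y * Real.exp (2 * LL X)) +
          (2 * Real.sqrt Y * Real.log Y) * Real.exp (2 * LL X) := by
          apply add_le_add
          · exact mul_le_mul_of_nonneg_right h6 (by positivity)
          · exact mul_le_mul_of_nonneg_right h7 hexp.le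
      _ = _ := by ring
  -- conclusion
  rw [e2] at h3
  set S1 := ∑ N ∈ (Icc 1 (T + t i)).filter cls, vonMangoldt N * P N with hS1
  set S2 := ∑ N ∈ (Icc 1 (t i)).filter cls, vonMangoldt N * P N with hS2
  set m1 := (((T + t i : ℕ) : ℝ) / Nat.totient q *
        ∏ p ∈ Pp z q, (1 - ((omt ti p : ℝ) - 1) / ((p : ℝ) - 1))) *
        sieveSum K0 F G (LL X) (fun _ => pz z) (fun p _ => 1 / ((p : ℝ) - 1)) (RR X) with hm1
  set m2 := (((t i : ℕ) : ℝ) / Nat.totient q * ∏ p ∈ Pp z q, (1 - ((omt ti p : ℝ) - 1) / ((p : ℝ) - 1))) *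
        sieveSum K0 F G (LL X) (fun _ => pz z) (fun p _ => 1 / ((p : ℝ) - 1)) (RR X) with hm2
  have h4 : |f (a i) 0 * f (b i) 0 * (S1 - S2) - f (a i) 0 * f (b i) 0 * (m1 - m2)| ≤
      2 * E2 K0 z q Y Q r B0 es1 M := by
    rw [← mul_sub, abs_mul]
    have h5 : |S1 - S2 - (m1 - m2)| ≤ 2 * E2 K0 z q Y Q r B0 es1 M := by
      have h6 := abs_sub (S1 - m1) (S2 - m2)
      have h7 : S1 - S2 - (m1 - m2) = (S1 - m1) - (S2 - m2) := by ring
      rw [h7]
      linarith
    calc _ ≤ 1 * (2 * E2 K0 z q Y Q r B0 es1 M) := mul_le_mul g0 h5 (abs_nonneg _) zero_le_one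
      _ = _ := one_mul _
  have h5 := abs_sub_le (∑ n ∈ Icc 1 T, g1 (n + t i)) (f (a i) 0 * f (b i) 0 * (S1 - S2))
    (f (a i) 0 * f (b i) 0 * (m1 - m2))
  linarith

end Pool.Agent.H542.MT
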