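import Pool.Agent.H542.MT.M8

/-!
The function of Maynard's sieve and its sums over initial segments of residue classes.
-/

set_option autoImplicit false

namespace Pool.Agent.H542.MT

open Finset
open Pool.Agent.H542.TW (mem_pz sum_bU_le crt_class)
open Pool.Agent.H542.G (prod_inj sum_Icc_int)
open Pool.Agent.H373R2.T7 (pz es es_nonneg)
open Pool.Agent.Y889.PN (PS)
open Pool.Agent.H378R2
open ArithmeticFunction (vonMangoldt vonMangoldt_nonneg)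

/-- the data of the weights -/
structure Fam {K0 B : ℕ} (f : Fin B → ℝ → ℝ) (c : Fin B → ℝ) (A : Finset (Fin (K0 + 1) → Fin B)) : Prop where
  f0 : ∀ l x, c l < x → f l x = 0
  c01 : ∀ l, 0 ≤ c l ∧ c l ≤ 1 / 2
  hA : ∀ a ∈ A, ∑ j, c (a j) ≤ 1
  f1 : ∀ l x, |f l x| ≤ 1

/-- the medium primes -/
noncomputable def P3s (δ X : ℝ) (z : ℕ) : Finset ℕ := (Pool.Agent.H387R2.MB.PS δ X).filter (fun p => z < p)

/-- the square of the sieve weight -/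
noncomputable def wf {K0 B : ℕ} (z : ℕ) (X : ℝ) (f : Fin B → ℝ → ℝ) (A : Finset (Fin (K0 + 1) → Fin B))
    (t : Fin (K0 + 1) → ℕ) (n : ℤ) : ℝ := sqw (pz z) X f A (fun j => n + t j) ^ 2

/-- the product attached to a vector of functions -/
noncomputable def pf {K B : ℕ} (z : ℕ) (X : ℝ) (f : Fin B → ℝ → ℝ) (a b : Fin K → Fin B)
    (t : Fin K → ℕ) (n : ℤ) : ℝ :=
  ∏ j, (VVm (pz z) (RR X) (LL X) (f (a j)) (n + t j) * VVm (pz z) (RR X) (LL X) (f (b j)) (n + t j))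

/-- the part with a medium prime factor -/
noncomputable def w3 {K0 B : ℕ} (z : ℕ) (X δ : ℝ) (f : Fin B → ℝ → ℝ) (A : Finset (Fin (K0 + 1) → Fin B))
    (t : Fin (K0 + 1) → ℕ) (n : ℤ) : ℝ :=
  ∑ j0 : Fin (K0 + 1), ∑ p ∈ P3s δ X z, ∑ a ∈ A, if (p : ℤ) ∣ n + t j0 then pf z X f a a t n else 0

open Classical in
/-- the function of Maynard's sieve -/
noncomputable def ef {K0 B : ℕ} (ρ ℓ : ℝ) (z : ℕ) (X δ : ℝ) (f : Fin B → ℝ → ℝ)
    (A : Finset (Fin (K0 + 1) → Fin B)) (t : Fin (K0 + 1) → ℕ) (n : ℤ) : ℝ :=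
  if Rgt z (fun j => (t j : ℤ)) n then
    (∑ i, th (n + t i).toNat * wf z X f A t n) - ρ * wf z X f A t n - ℓ * w3 z X δ f A t n else 0

open Classical in
/-- the indicator function of the integers with rough translates -/
noncomputable def gf {K : ℕ} (z : ℕ) (t : Fin K → ℕ) (n : ℤ) : ℝ :=
  if Rgt z (fun j => (t j : ℤ)) n then 1 else 0

/-- the sieve sum of the first sum -/
noncomputable def alp {K0 B : ℕ} (z : ℕ) (X : ℝ) (f : Fin B → ℝ → ℝ) (a b : Fin (K0 + 1) → Fin B) : ℝ :=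
  sieveSum (K0 + 1) (fun j => f (a j)) (fun j => f (b j)) (LL X) (fun _ => pz z) (fun p _ => 1 / (p : ℝ)) (RR X)

/-- the constant factor -/
noncomputable def kap {K0 B : ℕ} (ρ ℓ : ℝ) (z : ℕ) (X δ : ℝ) (f : Fin B → ℝ → ℝ)
    (A : Finset (Fin (K0 + 1) → Fin B)) : ℝ :=
  (∑ i : Fin (K0 + 1), ∑ a ∈ A, ∑ b ∈ A, (∏ p ∈ pz z, (1 - 1 / (p : ℝ)))⁻¹ * bet f a b i X z) -
    ρ * (∑ a ∈ A, ∑ b ∈ A, alp z X f a b) -
    ℓ * (∑ j0 : Fin (K0 + 1), ∑ p ∈ P3s δ X z, ∑ a ∈ A, (1 / (p : ℝ)) * gam3 (fun j => f (a j)) j0 X z p)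

lemma wf_eq {K0 B : ℕ} (z : ℕ) (X : ℝ) (f : Fin B → ℝ → ℝ) (A : Finset (Fin (K0 + 1) → Fin B))
    (t : Fin (K0 + 1) → ℕ) (n : ℤ) : wf z X f A t n = ∑ a ∈ A, ∑ b ∈ A, pf z X f a b t n := by
  unfold wf pf
  rw [sqw_sq]

lemma abs_sum2 {ι : Type*} (s : Finset ι) (x y : ι → ℝ) (e : ℝ) (h : ∀ i ∈ s, |x i - y i| ≤ e) :
    |∑ i ∈ s, x i - ∑ i ∈ s, y i| ≤ s.card * e := by
  rw [← sum_sub_distrib]
  refine (abs_sum_le_sum_abs _ _).trans ?_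
  refine (sum_le_sum h).trans ?_
  rw [sum_const, nsmul_eq_mul]

lemma abs_sum3 {ι : Type*} (s : Finset ι) (x y e : ι → ℝ) (h : ∀ i ∈ s, |x i - y i| ≤ e i) :
    |∑ i ∈ s, x i - ∑ i ∈ s, y i| ≤ ∑ i ∈ s, e i := by
  rw [← sum_sub_distrib]
  exact (abs_sum_le_sum_abs _ _).trans (sum_le_sum h)

open Classical in
/-- **The discrepancy in a residue class.** -/
theorem disc {K0 B : ℕ} (f : Fin B → ℝ → ℝ) (c : Fin B → ℝ) (A : Finset (Fin (K0 + 1) → Fin B))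
    (hfam : Fam f c A) (ρ ℓ δ : ℝ) (hρ : 0 ≤ ρ) (hℓ : 0 ≤ ℓ)
    (X : ℝ) (hL2 : 2 ≤ LL X) (t : Fin (K0 + 1) → ℕ) (z q Y T r Q : ℕ) (cl : ℤ) (hq : 1 ≤ q)
    (hqz : ∀ p : ℕ, p.Prime → p ∣ q → p ≤ z) (hz : 1 ≤ z)
    (hDT : DTi (pz z) (fun j => (t j : ℤ)))
    (hT : ∀ i, T + t i ≤ Y) (hY : 1 ≤ Y)
    (hQ : Real.exp (2 * LL X) ≤ Q) (M : ℕ → ℝ)
    (hM0 : ∀ k, 0 ≤ M k)
    (hM : ∀ k : ℕ, 1 ≤ k → ∀ a : ℕ, a.Coprime k → ∀ y : ℕ, y ≤ Y →
      |PS y k a - y / (Nat.totient k : ℝ)| ≤ M k) (B0 : ℝ) (hB : 0 ≤ B0)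
    (hMB : ∀ k, 1 ≤ k → k ≤ q * (Q * z ^ r) → M k ≤ B0 / Nat.totient k) (es1 es2 : ℝ)
    (hes1 : es (fun p => (omt (fun j => (t j : ℤ)) p : ℝ) / p) (Pp z q) r ≤ es1)
    (hes2 : es (fun p => ((omt (fun j => (t j : ℤ)) p : ℝ) - 1) / ((p : ℝ) - 1)) (Pp z q) r ≤ es2) :
    |∑ n ∈ (Icc (1 : ℤ) T).filter (fun n => n ≡ cl [ZMOD q]),
        (ef ρ ℓ z X δ f A t n - kap ρ ℓ z X δ f A * gf z t n)| ≤
      (K0 + 1 : ℕ) * ((A.card : ℝ) * ((A.card : ℝ) * (2 * E2 K0 z q Y Q r B0 es2 M +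
        Real.exp (2 * LL X) * (2 * RR X * Real.log Y + 2 * Real.sqrt Y * Real.log Y)))) +
      ρ * ((A.card : ℝ) * ((A.card : ℝ) * E1 (K0 + 1) z T Q r es1)) +
      ℓ * ((K0 + 1 : ℕ) * ((A.card : ℝ) * (2 ^ (2 * (K0 + 1)) *
        ∑ p ∈ P3s δ X z, E1 (K0 + 1) z ((T : ℝ) / p) Q r es1))) +
      |kap ρ ℓ z X δ f A| * ((((z + 1) ^ r * (K0 + 1) ^ r : ℕ) : ℝ) + 2 * T * es1) := by
  have hL0 : 0 < LL X := by linarith
  set tz : Fin (K0 + 1) → ℤ := fun j => (t j : ℤ) with htz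
  have hes10 : 0 ≤ es1 := le_trans (es_nonneg (fun p _ => by positivity) _) hes1
  have hlogQ : 0 ≤ Real.log (Q : ℝ) := Real.log_natCast_nonneg Q
  have hlogY : 0 ≤ Real.log (Y : ℝ) := Real.log_natCast_nonneg Y
  have hE1 : 0 ≤ E1 (K0 + 1) z T Q r es1 := by unfold E1; positivity
  have hE1p : 0 ≤ ∑ p ∈ P3s δ X z, E1 (K0 + 1) z ((T : ℝ) / p) Q r es1 := by
    apply sum_nonneg
    intro p _
    unfold E1
    positivity
  by_cases hmb : ∀ p ∈ pz z, p ∣ q → ∀ j, ¬ (p : ℤ) ∣ cl + (t j : ℤ)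
  swap
  · -- bad class
    have h0 : ∀ n ∈ (Icc (1 : ℤ) T).filter (fun n => n ≡ cl [ZMOD q]),
        ef ρ ℓ z X δ f A t n - kap ρ ℓ z X δ f A * gf z t n = 0 := by
      intro n hn
      have hn2 := (mem_filter.1 hn).2
      push Not at hmb
      obtain ⟨p, hp, hpq, j, hj⟩ := hmb
      have hR : ¬ Rgt z tz n := by
        intro hR
        apply hR p hp j
        have h3 : n ≡ cl [ZMOD p] := hn2.of_dvd (Int.natCast_dvd_natCast.2 hpq)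
        exact (Int.ModEq.dvd_iff (h3.add_right _)).2 hj
      unfold ef gf
      rw [if_neg hR, if_neg hR]
      ring
    rw [sum_congr rfl h0, sum_const_zero, abs_zero]
    have hes20 : 0 ≤ es2 := by
      refine le_trans (es_nonneg (fun p hp => ?_) _) hes2
      rw [Pp, mem_filter, mem_pz] at hp
      have hp2 : (2 : ℝ) ≤ p := by exact_mod_cast hp.1.1.two_le
      have h3 : 1 ≤ omt tz p := by
        unfold omt
        apply card_pos.2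
        have hp0 : (0 : ℤ) < p := by exact_mod_cast hp.1.1.pos
        refine ⟨((-(t 0 : ℤ)) % p).toNat, ?_⟩
        have h1 := Int.emod_nonneg (-(t 0 : ℤ)) hp0.ne'
        have h2 := Int.emod_lt_of_pos (-(t 0 : ℤ)) hp0
        rw [mem_filter, mem_range]
        refine ⟨by omega, 0, ?_⟩
        rw [Int.toNat_of_nonneg h1]
        have h4 : (-(t 0 : ℤ)) % p ≡ -(t 0 : ℤ) [ZMOD p] := Int.mod_modEq _ _
        rw [Int.ModEq.dvd_iff (h4.add_right (tz 0)), htz]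
        simp
      have h4 : (1 : ℝ) ≤ omt tz p := by exact_mod_cast h3
      exact div_nonneg (by linarith) (by linarith)
    have hE2 : 0 ≤ E2 K0 z q Y Q r B0 es2 M := by
      unfold E2
      have h1 : 0 ≤ Real.log ((Q * z ^ r : ℕ) : ℝ) := Real.log_natCast_nonneg _
      positivity
    positivity
  -- good class
  have hcon : ∑ n ∈ (Icc (1 : ℤ) T).filter (fun n => n ≡ cl [ZMOD q]),
        (ef ρ ℓ z X δ f A t n - kap ρ ℓ z X δ f A * gf z t n) =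
      (∑ i : Fin (K0 + 1), ∑ a ∈ A, ∑ b ∈ A,
        ∑ n ∈ (Icc 1 T).filter (fun n : ℕ => (n : ℤ) ≡ cl [ZMOD q] ∧ Rgt z tz n),
          th (n + t i) * pf z X f a b t n) -
      ρ * (∑ a ∈ A, ∑ b ∈ A, ∑ n ∈ (Icc 1 T).filter (fun n : ℕ => (n : ℤ) ≡ cl [ZMOD q] ∧ Rgt z tz n),
          pf z X f a b t n) -
      ℓ * (∑ j0 : Fin (K0 + 1), ∑ p ∈ P3s δ X z, ∑ a ∈ A,
        ∑ n ∈ (Icc 1 T).filter (fun n : ℕ => (n : ℤ) ≡ cl [ZMOD q] ∧ Rgt z tz n),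
          if (p : ℤ) ∣ (n : ℤ) + t j0 then pf z X f a a t n else 0) -
      kap ρ ℓ z X δ f A *
        (((Icc 1 T).filter (fun n : ℕ => (n : ℤ) ≡ cl [ZMOD q] ∧ Rgt z tz n)).card : ℝ) := by
    rw [sum_sub_distrib, ← mul_sum, sum_Icc_int, sum_Icc_int]
    have e1 : ∑ n ∈ (Icc 1 T).filter (fun n : ℕ => (n : ℤ) ≡ cl [ZMOD q]), gf z t (n : ℤ) =
        (((Icc 1 T).filter (fun n : ℕ => (n : ℤ) ≡ cl [ZMOD q] ∧ Rgt z tz n)).card : ℝ) := by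
      unfold gf
      rw [← sum_filter, filter_filter, sum_const, nsmul_eq_mul, mul_one]
    rw [e1]
    congr 1
    have e2 : ∑ n ∈ (Icc 1 T).filter (fun n : ℕ => (n : ℤ) ≡ cl [ZMOD q]), ef ρ ℓ z X δ f A t (n : ℤ) =
        ∑ n ∈ (Icc 1 T).filter (fun n : ℕ => (n : ℤ) ≡ cl [ZMOD q] ∧ Rgt z tz n),
          ((∑ i, th (n + t i) * wf z X f A t n) - ρ * wf z X f A t n - ℓ * w3 z X δ f A t n) := by
      unfold ef
      rw [← sum_filter, filter_filter]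
      apply sum_congr rfl
      intro n _
      have : ∀ i, ((n : ℤ) + t i).toNat = n + t i := fun i => by omega
      simp_rw [this]
    rw [e2, sum_sub_distrib, sum_sub_distrib]
    congr 1
    · congr 1
      · rw [sum_comm]
        apply sum_congr rfl
        intro i _
        simp_rw [wf_eq, mul_sum]
        rw [sum_comm]
        apply sum_congr rfl
        intro a _
        rw [sum_comm]
      · rw [← mul_sum]
        congr 1
        simp_rw [wf_eq]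
        rw [sum_comm]
        apply sum_congr rfl
        intro a _
        rw [sum_comm]
    · rw [← mul_sum]
      congr 1
      unfold w3
      rw [sum_comm]
      apply sum_congr rfl
      intro j0 _
      rw [sum_comm]
      apply sum_congr rfl
      intro p _
      rw [sum_comm]
  rw [hcon]
  set G := GT tz z q T with hG
  -- the four parts
  have h2 : |(∑ i : Fin (K0 + 1), ∑ a ∈ A, ∑ b ∈ A,
        ∑ n ∈ (Icc 1 T).filter (fun n : ℕ => (n : ℤ) ≡ cl [ZMOD q] ∧ Rgt z tz n),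
          th (n + t i) * pf z X f a b t n) -
        ∑ i : Fin (K0 + 1), ∑ a ∈ A, ∑ b ∈ A, G * ((∏ p ∈ pz z, (1 - 1 / (p : ℝ)))⁻¹ * bet f a b i X z)| ≤
      (K0 + 1 : ℕ) * ((A.card : ℝ) * ((A.card : ℝ) * (2 * E2 K0 z q Y Q r B0 es2 M +
        Real.exp (2 * LL X) * (2 * RR X * Real.log Y + 2 * Real.sqrt Y * Real.log Y)))) := by
    have h3 := abs_sum2 (univ : Finset (Fin (K0 + 1))) (fun i => ∑ a ∈ A, ∑ b ∈ A,
        ∑ n ∈ (Icc 1 T).filter (fun n : ℕ => (n : ℤ) ≡ cl [ZMOD q] ∧ Rgt z tz n),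
          th (n + t i) * pf z X f a b t n)
      (fun i => ∑ a ∈ A, ∑ b ∈ A, G * ((∏ p ∈ pz z, (1 - 1 / (p : ℝ)))⁻¹ * bet f a b i X z))
      ((A.card : ℝ) * ((A.card : ℝ) * (2 * E2 K0 z q Y Q r B0 es2 M +
        Real.exp (2 * LL X) * (2 * RR X * Real.log Y + 2 * Real.sqrt Y * Real.log Y)))) (by
        intro i _
        apply abs_sum2
        intro a ha
        apply abs_sum2
        intro b hb
        exact P2 f c hfam.f0 hfam.c01 hfam.f1 a b (hfam.hA a ha) (hfam.hA b hb) i X hL2 t z q Y T r Q cl hq hqz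
          hmb hz hDT (hT i) hY hQ M hM0 hM B0 hB hMB es2 hes2)
    rw [card_univ, Fintype.card_fin] at h3
    exact h3
  have h3 : |(∑ a ∈ A, ∑ b ∈ A, ∑ n ∈ (Icc 1 T).filter (fun n : ℕ => (n : ℤ) ≡ cl [ZMOD q] ∧ Rgt z tz n),
          pf z X f a b t n) - ∑ a ∈ A, ∑ b ∈ A, G * alp z X f a b| ≤
      (A.card : ℝ) * ((A.card : ℝ) * E1 (K0 + 1) z T Q r es1) := by
    apply abs_sum2
    intro a ha
    apply abs_sum2
    intro b hb
    have ha1 := hfam.hA a ha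
    have hb1 := hfam.hA b hb
    exact P1 (by omega : 1 ≤ K0 + 1) (fun j => f (a j)) (fun j => f (b j)) (fun j => c (a j)) (fun j => c (b j))
      (fun j x => hfam.f1 _ x) (fun j x => hfam.f1 _ x) (fun j x h => hfam.f0 _ x h) (fun j x h => hfam.f0 _ x h)
      (by linarith) X hL2 tz z q T r Q cl hq hqz hmb hDT hQ es1 hes1
  have h4 : |(∑ j0 : Fin (K0 + 1), ∑ p ∈ P3s δ X z, ∑ a ∈ A,
        ∑ n ∈ (Icc 1 T).filter (fun n : ℕ => (n : ℤ) ≡ cl [ZMOD q] ∧ Rgt z tz n),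
          if (p : ℤ) ∣ (n : ℤ) + t j0 then pf z X f a a t n else 0) -
        ∑ j0 : Fin (K0 + 1), ∑ p ∈ P3s δ X z, ∑ a ∈ A, G * ((1 / (p : ℝ)) * gam3 (fun j => f (a j)) j0 X z p)| ≤
      (K0 + 1 : ℕ) * (∑ p ∈ P3s δ X z, (A.card : ℝ) * (2 ^ (2 * (K0 + 1)) *
        E1 (K0 + 1) z ((T : ℝ) / p) Q r es1)) := by
    have h5 := abs_sum2 (univ : Finset (Fin (K0 + 1))) (fun j0 => ∑ p ∈ P3s δ X z, ∑ a ∈ A,
        ∑ n ∈ (Icc 1 T).filter (fun n : ℕ => (n : ℤ) ≡ cl [ZMOD q] ∧ Rgt z tz n),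
          if (p : ℤ) ∣ (n : ℤ) + t j0 then pf z X f a a t n else 0)
      (fun j0 => ∑ p ∈ P3s δ X z, ∑ a ∈ A, G * ((1 / (p : ℝ)) * gam3 (fun j => f (a j)) j0 X z p))
      (∑ p ∈ P3s δ X z, (A.card : ℝ) * (2 ^ (2 * (K0 + 1)) * E1 (K0 + 1) z ((T : ℝ) / p) Q r es1)) (by
        intro j0 _
        have h6 := abs_sum3 (P3s δ X z) (fun p => ∑ a ∈ A,
          ∑ n ∈ (Icc 1 T).filter (fun n : ℕ => (n : ℤ) ≡ cl [ZMOD q] ∧ Rgt z tz n),
          if (p : ℤ) ∣ (n : ℤ) + t j0 then pf z X f a a t n else 0)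
          (fun p => ∑ a ∈ A, G * ((1 / (p : ℝ)) * gam3 (fun j => f (a j)) j0 X z p))
          (fun p => (A.card : ℝ) * (2 ^ (2 * (K0 + 1)) * E1 (K0 + 1) z ((T : ℝ) / p) Q r es1)) (by
            intro p hp
            rw [P3s, mem_filter, Pool.Agent.H387R2.MB.mem_PS] at hp
            apply abs_sum2
            intro a ha
            exact P3 (by omega : 1 ≤ K0 + 1) (fun j => f (a j)) (fun j => c (a j)) (fun j x h => hfam.f0 _ x h)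
              (fun j => hfam.c01 _) (hfam.hA a ha) (fun j x => hfam.f1 _ x) j0 X hL2 tz z q T r Q p cl hq hqz
              hmb hDT hp.1.1 hp.2 hQ es1 hes1)
        exact h6)
    rw [card_univ, Fintype.card_fin] at h5
    exact h5
  have h5 : |(((Icc 1 T).filter (fun n : ℕ => (n : ℤ) ≡ cl [ZMOD q] ∧ Rgt z tz n)).card : ℝ) - G| ≤
      (((z + 1) ^ r * (K0 + 1) ^ r : ℕ) : ℝ) + 2 * T * es1 := by
    have h6 := cnt (by omega : 1 ≤ K0 + 1) tz z q T r cl hq hmb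
    refine h6.trans ?_
    have h7 : (T : ℝ) / q ≤ T := div_le_self (Nat.cast_nonneg _) (by exact_mod_cast hq)
    have h8 : 2 * ((T : ℝ) / q) * es (fun p => (omt tz p : ℝ) / p) (Pp z q) r ≤ 2 * T * es1 := by
      apply mul_le_mul _ hes1 (es_nonneg (fun p _ => by positivity) _) (by positivity)
      linarith
    linarith
  set s1 := (∑ i : Fin (K0 + 1), ∑ a ∈ A, ∑ b ∈ A,
        ∑ n ∈ (Icc 1 T).filter (fun n : ℕ => (n : ℤ) ≡ cl [ZMOD q] ∧ Rgt z tz n),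
          th (n + t i) * pf z X f a b t n) with hs1
  set s2 := (∑ a ∈ A, ∑ b ∈ A, ∑ n ∈ (Icc 1 T).filter (fun n : ℕ => (n : ℤ) ≡ cl [ZMOD q] ∧ Rgt z tz n),
          pf z X f a b t n) with hs2
  set s3 := (∑ j0 : Fin (K0 + 1), ∑ p ∈ P3s δ X z, ∑ a ∈ A,
        ∑ n ∈ (Icc 1 T).filter (fun n : ℕ => (n : ℤ) ≡ cl [ZMOD q] ∧ Rgt z tz n),
          if (p : ℤ) ∣ (n : ℤ) + t j0 then pf z X f a a t n else 0) with hs3
  set s4 := (((Icc 1 T).filter (fun n : ℕ => (n : ℤ) ≡ cl [ZMOD q] ∧ Rgt z tz n)).card : ℝ) with hs4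
  simp_rw [← mul_sum] at h2 h3 h4
  have hk : kap ρ ℓ z X δ f A * G = G * (∑ i : Fin (K0 + 1), ∑ a ∈ A, ∑ b ∈ A,
      (∏ p ∈ pz z, (1 - 1 / (p : ℝ)))⁻¹ * bet f a b i X z) - ρ * (G * (∑ a ∈ A, ∑ b ∈ A, alp z X f a b)) -
      ℓ * (G * (∑ j0 : Fin (K0 + 1), ∑ p ∈ P3s δ X z, ∑ a ∈ A, (1 / (p : ℝ)) * gam3 (fun j => f (a j)) j0 X z p)) := by
    unfold kap
    ring
  simp_rw [← mul_sum] at hk
  set m1 := G * ((∏ p ∈ pz z, (1 - 1 / (p : ℝ)))⁻¹ * ∑ i : Fin (K0 + 1), ∑ a ∈ A, ∑ b ∈ A, bet f a b i X z) with hm1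
  set m2 := G * (∑ a ∈ A, ∑ b ∈ A, alp z X f a b) with hm2
  set m3 := G * (∑ j0 : Fin (K0 + 1), ∑ p ∈ P3s δ X z, (1 / (p : ℝ)) * ∑ a ∈ A, gam3 (fun j => f (a j)) j0 X z p) with hm3
  set κ := kap ρ ℓ z X δ f A with hκ
  have e1 : s1 - ρ * s2 - ℓ * s3 - κ * s4 = (s1 - m1) - ρ * (s2 - m2) - ℓ * (s3 - m3) - κ * (s4 - G) := by
    linear_combination (-1 : ℝ) * hk
  rw [e1]
  have k1 : |(s1 - m1) - ρ * (s2 - m2) - ℓ * (s3 - m3) - κ * (s4 - G)| ≤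
      |s1 - m1| + ρ * |s2 - m2| + ℓ * |s3 - m3| + |κ| * |s4 - G| := by
    have a1 := abs_sub ((s1 - m1) - ρ * (s2 - m2) - ℓ * (s3 - m3)) (κ * (s4 - G))
    have a2 := abs_sub ((s1 - m1) - ρ * (s2 - m2)) (ℓ * (s3 - m3))
    have a3 := abs_sub (s1 - m1) (ρ * (s2 - m2))
    rw [abs_mul] at a1
    rw [abs_mul, abs_of_nonneg hℓ] at a2
    rw [abs_mul, abs_of_nonneg hρ] at a3
    linarith
  refine k1.trans ?_
  have a2 := mul_le_mul_of_nonneg_left h3 hρ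
  have a3 := mul_le_mul_of_nonneg_left h4 hℓ
  have a4 := mul_le_mul_of_nonneg_left h5 (abs_nonneg κ)
  linarith

end Pool.Agent.H542.MT
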