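import Pool.Agent.H542.MT.M21

/-!
Let `f` be a polynomial with integer coefficients and positive leading coefficient, of degree `d ≥ 1`.
For almost all shifts `a ≤ x ^ d` many of the numbers `f(m) + a + t` are simultaneously prime: an analogue
of the theorem of Maynard and Tao for polynomials which differ by constants, at the same argument `m`.
-/

set_option autoImplicit false

namespace Pool.Agent.Results.MP_51e72e_nt.MaynardTaoShifts

open Finset Polynomial

/-- the number of the residues `s` modulo `p` such that `p` divides the product of the numbers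
`f(s) + a + t_j` -/
def omega {K : ℕ} (f : ℤ[X]) (t : Fin K → ℤ) (a : ℤ) (p : ℕ) : ℕ :=
  ((range p).filter (fun s : ℕ => (p : ℤ) ∣ ∏ j, (f.eval (s : ℤ) + a + t j))).card

/-- the product over the primes `p ≤ log x` of the local factors of Bateman and Horn for the system of the
polynomials `f + a + t_j` -/
noncomputable def singular {K : ℕ} (f : ℤ[X]) (t : Fin K → ℤ) (a : ℤ) (x : ℕ) : ℝ :=
  ∏ p ∈ (Icc 1 ⌊Real.log x⌋₊).filter Nat.Prime,
    ((1 - (omega f t a p : ℝ) / p) / (1 - 1 / (p : ℝ)) ^ K)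

open Classical in
/-- the integers `1 ≤ m ≤ x` such that at least `k` of the numbers `f(m) + a + t_j` are primes, and such
that none of the numbers `f(m) + a + t_j` has a prime factor `≤ x ^ δ` -/
noncomputable def clusters {K : ℕ} (k : ℕ) (δ : ℝ) (f : ℤ[X]) (t : Fin K → ℤ) (a : ℤ) (x : ℕ) : Finset ℕ :=
  (Icc 1 x).filter (fun m : ℕ =>
    k ≤ (univ.filter (fun j => (f.eval (m : ℤ) + a + t j).toNat.Prime)).card ∧
    ∀ j, ∀ p : ℕ, p.Prime → (p : ℝ) ≤ (x : ℝ) ^ δ → ¬ (p : ℤ) ∣ f.eval (m : ℤ) + a + t j)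

open Classical in
/-- the integers `1 ≤ m ≤ x` such that all the numbers `f(m) + a + s` with `s ∈ S` are primes -/
noncomputable def simul (f : ℤ[X]) (S : Finset ℕ) (a : ℤ) (x : ℕ) : Finset ℕ :=
  (Icc 1 x).filter (fun m : ℕ => ∀ s : ℕ, s ∈ S → (f.eval (m : ℤ) + a + s).toNat.Prime)

open Classical in
theorem result (k : ℕ) (hk : 1 ≤ k) : ∃ (K : ℕ) (δ : ℝ), 0 < δ ∧
    ∀ f : ℤ[X], 1 ≤ f.natDegree → 0 < f.leadingCoeff →
    (∀ t : Fin K → ℤ, Function.Injective t → ∀ U : ℕ,
      ∃ c : ℝ, 0 < c ∧ ∃ x0 : ℕ, ∀ x : ℕ, x0 ≤ x → ∃ E : Finset ℕ,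
      (E.card : ℝ) ≤ (x : ℝ) ^ f.natDegree / Real.log x ^ U ∧
      ∀ a ∈ Icc 1 (x ^ f.natDegree), a ∉ E →
        c * singular f t a x * (x / Real.log x ^ K) ≤ (clusters k δ f t a x).card ∧
        ((∀ p : ℕ, p.Prime → omega f t a p < p) →
          c / Real.log (Real.log x) ^ (K * f.natDegree - K) ≤ singular f t a x)) ∧
    (∃ c : ℝ, 0 < c ∧ ∃ H0 : ℕ, ∀ H : ℕ, H0 ≤ H → ∀ U : ℕ, ∃ x0 : ℕ, ∀ x : ℕ, x0 ≤ x → ∃ E : Finset ℕ,
      (E.card : ℝ) ≤ (x : ℝ) ^ f.natDegree / Real.log x ^ U ∧
      ∀ a ∈ Icc 1 (x ^ f.natDegree), a ∉ E →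
        c * (H : ℝ) ^ k ≤ (((Icc 1 H).powersetCard k).filter (fun S =>
          x / Real.log x ^ (K + 1) ≤ ((simul f S a x).card : ℝ))).card) := by
  obtain ⟨k', rfl⟩ : ∃ k', k = k' + 1 := ⟨k - 1, by omega⟩
  obtain ⟨K0, δ, hδ, Hm⟩ := Pool.Agent.H542.MT.main k'
  refine ⟨K0 + 1, δ, hδ, fun f hd hlc => ⟨fun t ht U => ?_, ?_⟩⟩
  · -- the reduction to natural numbers
    obtain ⟨M, hM⟩ : ∃ M : ℕ, M = ∑ j, (t j).natAbs := ⟨_, rfl⟩
    have htM : ∀ j, -(M : ℤ) ≤ t j := by
      intro j
      have h1 : (t j).natAbs ≤ M := by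
        rw [hM]
        exact single_le_sum (f := fun j => (t j).natAbs) (fun _ _ => Nat.zero_le _) (mem_univ j)
      omega
    obtain ⟨t', ht'⟩ : ∃ t' : Fin (K0 + 1) → ℕ, t' = fun j => (t j + M).toNat := ⟨_, rfl⟩
    have ht'' : ∀ j, ((t' j : ℕ) : ℤ) = t j + M := by
      intro j
      have := htM j
      rw [ht']
      exact Int.toNat_of_nonneg (by omega)
    have hinj : Function.Injective t' := by
      intro i j hij
      apply ht
      have h1 := ht'' i
      have h2 := ht'' j
      rw [hij, h2] at h1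
      omega
    obtain ⟨g, hg⟩ : ∃ g : ℤ[X], g = f + C (-(M : ℤ)) := ⟨_, rfl⟩
    have hgd : g.natDegree = f.natDegree := by rw [hg, natDegree_add_C]
    have hgl : g.leadingCoeff = f.leadingCoeff := by
      rw [hg]
      apply leadingCoeff_add_of_degree_lt'
      exact degree_C_le.trans_lt (natDegree_pos_iff_degree_pos.1 hd)
    have hge : ∀ (s a : ℤ) (j : Fin (K0 + 1)), g.eval s + a + (t' j : ℤ) = f.eval s + a + t j := by
      intro s a j
      rw [hg, ht'' j]
      simp only [eval_add, eval_C]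
      ring
    obtain ⟨c, hc, x0, H⟩ := Hm g (by rw [hgd]; exact hd) (by rw [hgl]; exact hlc) t' hinj U
    obtain ⟨c', hc', H'⟩ := Pool.Agent.H542.MT.SS_low (K := K0 + 1) (by omega) g (by rw [hgd]; exact hd)
      (fun j => (t' j : ℤ))
    obtain ⟨x1, hx1⟩ := Filter.eventually_atTop.1 (Pool.Agent.H542.G.log_big 4)
    have hom : ∀ (a : ℤ) (p : ℕ), Pool.Agent.H542.MT.omg g (fun j => (t' j : ℤ)) a p = omega f t a p := by
      intro a p
      unfold Pool.Agent.H542.MT.omg omega
      congr 1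
      apply filter_congr
      intro s _
      rw [prod_congr rfl (fun j _ => hge s a j)]
    have hsing : ∀ (a : ℤ) (x : ℕ), Pool.Agent.H542.MT.SS g (fun j => (t' j : ℤ)) a ⌊Real.log x⌋₊ =
        singular f t a x := by
      intro a x
      unfold Pool.Agent.H542.MT.SS singular
      apply prod_congr rfl
      intro p _
      rw [hom]
    rw [hgd] at H H'
    refine ⟨min c c', lt_min hc hc', max x0 (max x1 1), fun x hx => ?_⟩
    have hx0 : x0 ≤ x := (le_max_left _ _).trans hx
    have hxx1 : x1 ≤ x := ((le_max_left _ _).trans (le_max_right _ _)).trans hx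
    have hx1' : 1 ≤ x := ((le_max_right _ _).trans (le_max_right _ _)).trans hx
    obtain ⟨E, hE, HE⟩ := H x hx0
    refine ⟨E, hE, fun a ha haE => ⟨?_, fun hfix => ?_⟩⟩
    · have h1 := HE a ha haE
      rw [hsing] at h1
      have h2 : 0 ≤ singular f t a x := by
        rw [← hsing]
        exact Pool.Agent.H542.MT.SS_nonneg _ _ _ _
      calc min c c' * singular f t a x * (x / Real.log x ^ (K0 + 1)) ≤
          c * singular f t a x * (x / Real.log x ^ (K0 + 1)) := by
            apply mul_le_mul_of_nonneg_right _ (by positivity)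
            exact mul_le_mul_of_nonneg_right (min_le_left _ _) h2
        _ ≤ _ := h1
        _ ≤ (clusters (k' + 1) δ f t a x).card := by
            norm_cast
            apply card_le_card
            intro m hm
            rw [mem_filter] at hm
            unfold clusters
            rw [mem_filter]
            obtain ⟨hm1, hm2, hm3⟩ := hm
            refine ⟨hm1, ?_, ?_⟩
            · refine hm2.trans (le_of_eq ?_)
              congr 1
              apply filter_congr
              intro j _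
              rw [hge]
            · intro j p hp hpx
              rw [← hge]
              exact hm3 j p hp hpx
    · have hl := hx1 x hxx1
      have hl0 : 0 < Real.log x := by linarith
      have hw3 : 3 ≤ ⌊Real.log x⌋₊ := Nat.le_floor (by push_cast; linarith)
      have h1 := H' a ⌊Real.log x⌋₊ hw3 (fun p hp => by
        rw [hom]
        exact hfix p (Pool.Agent.H542.TW.mem_pz.1 hp).1)
      rw [hsing] at h1
      have h2 : (⌊Real.log x⌋₊ : ℝ) ≤ Real.log x := Nat.floor_le hl0.le
      have hw3r : (3 : ℝ) ≤ (⌊Real.log x⌋₊ : ℝ) := by exact_mod_cast hw3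
      have h3 : 0 < Real.log (⌊Real.log x⌋₊ : ℝ) := Real.log_pos (by linarith)
      have h4 : Real.log (⌊Real.log x⌋₊ : ℝ) ≤ Real.log (Real.log x) :=
        Real.log_le_log (by linarith) h2
      calc min c c' / Real.log (Real.log x) ^ ((K0 + 1) * f.natDegree - (K0 + 1)) ≤
          c' / Real.log (Real.log x) ^ ((K0 + 1) * f.natDegree - (K0 + 1)) :=
            div_le_div_of_nonneg_right (min_le_right _ _) (pow_nonneg (h3.le.trans h4) _)
        _ ≤ c' / Real.log (⌊Real.log x⌋₊ : ℝ) ^ ((K0 + 1) * f.natDegree - (K0 + 1)) := by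
            apply div_le_div_of_nonneg_left hc'.le (by positivity)
            exact pow_le_pow_left₀ h3.le h4 _
        _ ≤ _ := h1
  · obtain ⟨c, hc, H0, h⟩ := Pool.Agent.H542.MT.main2 k' K0 δ Hm f hd hlc
    refine ⟨c, hc, H0, fun H hH U => ?_⟩
    obtain ⟨x0, hx0⟩ := h H hH U
    refine ⟨x0, fun x hx => ?_⟩
    obtain ⟨E, hE, HE⟩ := hx0 x hx
    exact ⟨E, hE, fun a ha haE => HE a ha haE⟩

end Pool.Agent.Results.MP_51e72e_nt.MaynardTaoShifts
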